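import Pool.Agent.RHB.Stmts

/-!
# ADM: admissible points
-/

set_option autoImplicit false

open Matrix Complex Filter Topology MeasureTheory Set

namespace Pool.Agent.RHB

namespace ADM_

theorem q0 : qX 0 = !![0, 0, 0, 1; 1, 0, 0, 0; 0, 1, 0, 0; 0, 0, 1, 0] := by
  unfold qX
  rw [exp_zero]

theorem q4 : (qX 0) ^ 4 = 1 := by
  rw [q0]
  have h2 : (!![0, 0, 0, 1; 1, 0, 0, 0; 0, 1, 0, 0; 0, 0, 1, 0] : Matrix (Fin 4) (Fin 4) ℂ) *
      !![0, 0, 0, 1; 1, 0, 0, 0; 0, 1, 0, 0; 0, 0, 1, 0] =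
      !![0, 0, 1, 0; 0, 0, 0, 1; 1, 0, 0, 0; 0, 1, 0, 0] := by
    ext i j
    fin_cases i <;> fin_cases j <;> simp [Matrix.mul_apply, Fin.sum_univ_four]
  have h4 : (!![0, 0, 1, 0; 0, 0, 0, 1; 1, 0, 0, 0; 0, 1, 0, 0] : Matrix (Fin 4) (Fin 4) ℂ) *
      !![0, 0, 1, 0; 0, 0, 0, 1; 1, 0, 0, 0; 0, 1, 0, 0] = 1 := by
    ext i j
    fin_cases i <;> fin_cases j <;> simp [Matrix.mul_apply, Fin.sum_univ_four]
  rw [pow_mul _ 2 2, pow_two, pow_two, h2, h4]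

theorem norm_eq {v : ℂ} (hv : v ∈ spectrum ℂ (4 • qX 0)) : ‖v‖ = 4 := by
  have h1 : v ^ 4 ∈ spectrum ℂ ((4 • qX 0) ^ 4) := spectrum.pow_mem_pow _ 4 hv
  have h2 : (4 • qX 0) ^ 4 = algebraMap ℂ (Matrix (Fin 4) (Fin 4) ℂ) (256 : ℂ) := by
    rw [smul_pow, q4, Algebra.algebraMap_eq_smul_one, ← Nat.cast_smul_eq_nsmul ℂ]
    norm_num
  rw [h2, spectrum.scalar_eq, Set.mem_singleton_iff] at h1
  have h3 : ‖v‖ ^ 4 = 4 ^ 4 := by
    rw [← norm_pow, h1]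
    norm_num
  exact (pow_left_inj₀ (norm_nonneg v) (by norm_num) (by norm_num)).1 h3

end ADM_

open ADM_ in
theorem adm_proof : Stmt_ADM := by
  intro U R s hU hR v hv u hu
  have h1 := norm_eq hv
  have h2 : u = -(U * I) := by
    have h3 : (![-(U * I), s] : Fin 2 → ℂ) 0 • (1 : Matrix (Fin 2) (Fin 2) ℂ) =
        algebraMap ℂ (Matrix (Fin 2) (Fin 2) ℂ) (-(U * I)) := by
      rw [Algebra.algebraMap_eq_smul_one]
      rfl
    rw [h3, spectrum.scalar_eq, Set.mem_singleton_iff] at hu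
    exact hu
  have h4 : ‖u‖ = U := by
    rw [h2, norm_neg, norm_mul, norm_I, mul_one, norm_real, Real.norm_eq_abs,
      abs_of_pos (by linarith)]
  refine ⟨?_, ?_⟩
  · have h5 := norm_sub_norm_le u v
    rw [norm_sub_rev] at h5
    linarith
  · have h6 : exp (-(((0 : ℝ) : ℂ) * I)) = 1 := by simp
    rw [h6, one_mul, one_mul, h2]
    have h7 := abs_im_le_norm v
    rw [h1] at h7
    have h8 : (-((U : ℂ) * I)).im = -U := by simp
    rw [h8]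
    linarith [(abs_le.1 h7).1]

end Pool.Agent.RHB
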