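import Pool.Agent.RHB.Stmts

/-!
# AFF: an entire function of linear growth is affine
-/

set_option autoImplicit false

open Matrix Complex Filter Topology MeasureTheory Set

namespace Pool.Agent.RHB

theorem aff_proof : Stmt_AFF := by
  rintro f hf ⟨C, R, hC⟩
  have hg : Differentiable ℂ (dslope f 0) := by
    have h := (Complex.differentiableOn_dslope (f := f) (c := 0) (s := Set.univ)
      Filter.univ_mem).2 hf.differentiableOn
    exact differentiableOn_univ.1 h
  have hb : ∃ K : ℝ, ∀ x, ‖dslope f 0 x‖ ≤ K := by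
    have hcpt : IsCompact (Metric.closedBall (0 : ℂ) (max R 1)) := isCompact_closedBall _ _
    obtain ⟨K₁, hK₁⟩ := hcpt.exists_bound_of_continuousOn (f := dslope f 0)
      hg.continuous.continuousOn
    refine ⟨max K₁ (|C| + ‖f 0‖), fun x => ?_⟩
    by_cases hx : ‖x‖ ≤ max R 1
    · exact (hK₁ x (by simpa using hx)).trans (le_max_left _ _)
    · push Not at hx
      refine le_trans ?_ (le_max_right _ _)
      have h1 : R ≤ ‖x‖ := (le_max_left R 1).trans hx.le
      have h2 : 1 < ‖x‖ := (le_max_right R 1).trans_lt hx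
      have h3 : x ≠ 0 := by
        rintro rfl
        rw [norm_zero] at h2
        linarith
      rw [dslope_of_ne _ h3, slope_def_field, sub_zero, norm_div, div_le_iff₀ (by linarith)]
      have h4 : ‖f x - f 0‖ ≤ ‖f x‖ + ‖f 0‖ := norm_sub_le _ _
      have h5 : C * ‖x‖ ≤ |C| * ‖x‖ :=
        mul_le_mul_of_nonneg_right (le_abs_self C) (norm_nonneg x)
      have h6 : ‖f 0‖ * 1 ≤ ‖f 0‖ * ‖x‖ := mul_le_mul_of_nonneg_left h2.le (norm_nonneg _)
      have h7 := hC x h1
      rw [add_mul]
      linarith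
  obtain ⟨K, hK⟩ := hb
  have hbd : Bornology.IsBounded (Set.range (dslope f 0)) := by
    rw [isBounded_iff_forall_norm_le]
    refine ⟨K, ?_⟩
    rintro _ ⟨x, rfl⟩
    exact hK x
  refine ⟨dslope f 0 0, fun x => ?_⟩
  by_cases hx : x = 0
  · subst hx
    simp
  · have h1 : dslope f 0 0 = dslope f 0 x := hg.apply_eq_apply_of_bounded hbd 0 x
    rw [h1, dslope_of_ne _ hx, slope_def_field, sub_zero, div_mul_cancel₀ _ hx]
    ring

end Pool.Agent.RHB
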