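import Pool.Agent.RHB.Stmts

set_option autoImplicit false

open Matrix Complex Filter Topology MeasureTheory Set

namespace Pool.Agent.RHB

theorem alg_proof : Stmt_ALG := by
  intro A s c X Y Y' Y₀ Y₀' Z₀ hYZ hZY hX hY hY' hrel hlim hs hcon
  -- the columns of the last factor
  have hcolh : ∀ n, Y' n *ᵥ Pi.single (Sum.inr 1) 1 =
      Y n *ᵥ Pi.single (Sum.inr 1) 1 + X n • (A *ᵥ (Y n *ᵥ Pi.single (Sum.inr 1) 1)) := by
    intro n
    rw [hrel n, Matrix.mul_assoc, ← Matrix.mulVec_mulVec, ← Matrix.mulVec_mulVec]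
    have h1 : (fromBlocks (1 : Matrix (Fin 4) (Fin 4) ℂ) 0 0 (1 + (s * X n) • hZ)) *ᵥ
        Pi.single (Sum.inr 1) 1 = Pi.single (Sum.inr 1) 1 := by
      ext i
      rw [Matrix.mulVec_single_one]
      rcases i with i | i <;> fin_cases i <;> simp [hZ, Matrix.col_apply]
    rw [h1, Matrix.add_mulVec, Matrix.one_mulVec, Matrix.smul_mulVec]
  have hcolT : ∀ (j : Fin 4) n, Y' n *ᵥ Pi.single (Sum.inl j) 1 =
      Y n *ᵥ Pi.single (Sum.inl j) 1 + X n • (A *ᵥ (Y n *ᵥ Pi.single (Sum.inl j) 1)) := by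
    intro j n
    rw [hrel n, Matrix.mul_assoc, ← Matrix.mulVec_mulVec, ← Matrix.mulVec_mulVec]
    have h1 : (fromBlocks (1 : Matrix (Fin 4) (Fin 4) ℂ) 0 0 (1 + (s * X n) • hZ)) *ᵥ
        Pi.single (Sum.inl j) 1 = Pi.single (Sum.inl j) 1 := by
      ext i
      rw [Matrix.mulVec_single_one]
      rcases i with i | i
      · simp [Matrix.col_apply, Matrix.one_apply, Pi.single_apply, eq_comm]
      · simp [Matrix.col_apply]
    rw [h1, Matrix.add_mulVec, Matrix.one_mulVec, Matrix.smul_mulVec]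
  have hcol1 : ∀ n, Y' n *ᵥ Pi.single (Sum.inr 0) 1 =
      Y n *ᵥ Pi.single (Sum.inr 0) 1 + X n • (A *ᵥ (Y n *ᵥ Pi.single (Sum.inr 0) 1)) +
        (s * X n) • (Y n *ᵥ Pi.single (Sum.inr 1) 1 +
          X n • (A *ᵥ (Y n *ᵥ Pi.single (Sum.inr 1) 1))) := by
    intro n
    rw [hrel n, Matrix.mul_assoc, ← Matrix.mulVec_mulVec, ← Matrix.mulVec_mulVec]
    have h1 : (fromBlocks (1 : Matrix (Fin 4) (Fin 4) ℂ) 0 0 (1 + (s * X n) • hZ)) *ᵥ
        Pi.single (Sum.inr 0) 1 =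
          Pi.single (Sum.inr 0) 1 + (s * X n) • Pi.single (Sum.inr 1) 1 := by
      ext i
      rw [Matrix.mulVec_single_one]
      rcases i with i | i <;> fin_cases i <;> simp [hZ, Matrix.col_apply]
    rw [h1, Matrix.mulVec_add, Matrix.mulVec_smul, Matrix.add_mulVec, Matrix.one_mulVec,
      Matrix.smul_mulVec]
    simp only [Matrix.mulVec_add, Matrix.mulVec_smul, smul_add, smul_smul]
    rw [mul_comm (X n) (s * X n)]
    abel
  -- continuity of the columns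
  have hYc : ∀ v, Tendsto (fun n => Y n *ᵥ v) atTop (𝓝 (Y₀ *ᵥ v)) := fun v =>
    ((Continuous.matrix_mulVec continuous_id continuous_const).tendsto Y₀).comp hY
  have hYc' : ∀ v, Tendsto (fun n => Y' n *ᵥ v) atTop (𝓝 (Y₀' *ᵥ v)) := fun v =>
    ((Continuous.matrix_mulVec continuous_id continuous_const).tendsto Y₀').comp hY'
  have hAc : ∀ v, Tendsto (fun n => A *ᵥ (Y n *ᵥ v)) atTop (𝓝 (A *ᵥ (Y₀ *ᵥ v))) := fun v =>
    ((Continuous.matrix_mulVec continuous_const continuous_id).tendsto _).comp (hYc v)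
  -- inverse of X
  have hXi : Tendsto (fun n => (X n)⁻¹) atTop (𝓝 0) := by
    rw [tendsto_zero_iff_norm_tendsto_zero]
    simp only [norm_inv]
    exact tendsto_inv_atTop_zero.comp hX
  have hXne : ∀ᶠ n in atTop, X n ≠ 0 := by
    filter_upwards [hX.eventually_gt_atTop 0] with n hn
    exact norm_pos_iff.1 hn
  -- a bounded multiple of X forces the limit to vanish
  have key : ∀ (u : ℕ → Fin 6 → ℂ) (a b : Fin 6 → ℂ), Tendsto u atTop (𝓝 a) →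
      Tendsto (fun n => X n • u n) atTop (𝓝 b) → a = 0 := by
    intro u a b hu hb
    have h1 : Tendsto (fun n => (X n)⁻¹ • (X n • u n)) atTop (𝓝 ((0 : ℂ) • b)) := hXi.smul hb
    have h2 : Tendsto (fun n => (X n)⁻¹ • (X n • u n)) atTop (𝓝 a) := by
      refine hu.congr' ?_
      filter_upwards [hXne] with n hn
      rw [smul_smul, inv_mul_cancel₀ hn, one_smul]
    rw [zero_smul] at h1
    exact tendsto_nhds_unique h2 h1
  have hk : Tendsto (fun n => X n • (A *ᵥ (Y n *ᵥ Pi.single (Sum.inr 1) 1))) atTop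
      (𝓝 (Y₀' *ᵥ Pi.single (Sum.inr 1) 1 - Y₀ *ᵥ Pi.single (Sum.inr 1) 1)) := by
    refine ((hYc' _).sub (hYc _)).congr fun n => ?_
    rw [hcolh n]; abel
  have hA1 : A *ᵥ (Y₀ *ᵥ Pi.single (Sum.inr 1) 1) = 0 := key _ _ _ (hAc _) hk
  have hAT : ∀ j : Fin 4, A *ᵥ (Y₀ *ᵥ Pi.single (Sum.inl j) 1) = 0 := by
    intro j
    refine key _ _ (Y₀' *ᵥ Pi.single (Sum.inl j) 1 - Y₀ *ᵥ Pi.single (Sum.inl j) 1) (hAc _) ?_
    refine ((hYc' _).sub (hYc _)).congr fun n => ?_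
    rw [hcolT j n]; abel
  obtain ⟨k, hkdef⟩ : ∃ k, k = Y₀' *ᵥ Pi.single (Sum.inr 1) 1 - Y₀ *ᵥ Pi.single (Sum.inr 1) 1 :=
    ⟨_, rfl⟩
  rw [← hkdef] at hk
  -- the first column, divided by X
  have h3 : A *ᵥ (Y₀ *ᵥ Pi.single (Sum.inr 0) 1) + s • (Y₀ *ᵥ Pi.single (Sum.inr 1) 1 + k) = 0 := by
    have h4 : Tendsto (fun n => A *ᵥ (Y n *ᵥ Pi.single (Sum.inr 0) 1) +
        s • (Y n *ᵥ Pi.single (Sum.inr 1) 1 + X n • (A *ᵥ (Y n *ᵥ Pi.single (Sum.inr 1) 1))))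
        atTop (𝓝 (A *ᵥ (Y₀ *ᵥ Pi.single (Sum.inr 0) 1) +
          s • (Y₀ *ᵥ Pi.single (Sum.inr 1) 1 + k))) :=
      (hAc _).add (((hYc _).add hk).const_smul s)
    have h5 : Tendsto (fun n => (X n)⁻¹ • (Y' n *ᵥ Pi.single (Sum.inr 0) 1 -
        Y n *ᵥ Pi.single (Sum.inr 0) 1)) atTop
        (𝓝 ((0 : ℂ) • (Y₀' *ᵥ Pi.single (Sum.inr 0) 1 - Y₀ *ᵥ Pi.single (Sum.inr 0) 1))) :=
      hXi.smul ((hYc' _).sub (hYc _))
    rw [zero_smul] at h5
    refine tendsto_nhds_unique h4 (h5.congr' ?_)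
    filter_upwards [hXne] with n hn
    rw [hcol1 n]
    have : Y n *ᵥ Pi.single (Sum.inr 0) 1 + X n • (A *ᵥ (Y n *ᵥ Pi.single (Sum.inr 0) 1)) +
        (s * X n) • (Y n *ᵥ Pi.single (Sum.inr 1) 1 +
          X n • (A *ᵥ (Y n *ᵥ Pi.single (Sum.inr 1) 1))) - Y n *ᵥ Pi.single (Sum.inr 0) 1 =
        X n • (A *ᵥ (Y n *ᵥ Pi.single (Sum.inr 0) 1) + s • (Y n *ᵥ Pi.single (Sum.inr 1) 1 +
          X n • (A *ᵥ (Y n *ᵥ Pi.single (Sum.inr 1) 1)))) := by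
      rw [smul_add (X n), smul_smul (X n) s, mul_comm s (X n)]
      abel
    rw [this, smul_smul, inv_mul_cancel₀ hn, one_smul]
  -- A in terms of its only nonzero column
  have h6 : ∀ v : Fin 6 → ℂ, A *ᵥ v = (Z₀ *ᵥ v) (Sum.inr 0) • (A *ᵥ (Y₀ *ᵥ Pi.single (Sum.inr 0) 1)) := by
    intro v
    have h7 : v = Y₀ *ᵥ (Z₀ *ᵥ v) := by rw [Matrix.mulVec_mulVec, hYZ, Matrix.one_mulVec]
    have h8 : Z₀ *ᵥ v = ∑ i, (Z₀ *ᵥ v) i • Pi.single i (1 : ℂ) := by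
      ext i
      simp [Finset.sum_apply, Pi.single_apply]
    conv_lhs => rw [h7, h8, Matrix.mulVec_sum, Matrix.mulVec_sum]
    rw [Fintype.sum_sum_type]
    simp only [Matrix.mulVec_smul, hAT, smul_zero, Finset.sum_const_zero, zero_add, Fin.sum_univ_two,
      hA1, add_zero]
  have h9 : k = c • (A *ᵥ (Y₀ *ᵥ Pi.single (Sum.inr 0) 1)) := by
    have h10 : Tendsto (fun n => (X n * (Z₀ * Y n) (Sum.inr 0) (Sum.inr 1)) •
        (A *ᵥ (Y₀ *ᵥ Pi.single (Sum.inr 0) 1))) atTop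
        (𝓝 (c • (A *ᵥ (Y₀ *ᵥ Pi.single (Sum.inr 0) 1)))) := hlim.smul_const _
    refine tendsto_nhds_unique hk (h10.congr fun n => ?_)
    rw [h6 (Y n *ᵥ Pi.single (Sum.inr 1) 1), smul_smul]
    congr 2
    rw [Matrix.mulVec_mulVec, Matrix.mulVec_single_one]
    rfl
  rw [h9] at h3
  have h11 : (1 + s * c) • (A *ᵥ (Y₀ *ᵥ Pi.single (Sum.inr 0) 1)) +
      s • (Y₀ *ᵥ Pi.single (Sum.inr 1) 1) = 0 := by
    rw [← h3, smul_add, smul_smul, add_smul, one_smul]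
    abel
  rw [hcon, zero_smul, zero_add] at h11
  have h12 : Y₀ *ᵥ Pi.single (Sum.inr 1) 1 = 0 := (smul_eq_zero.1 h11).resolve_left hs
  have h13 : Z₀ *ᵥ (Y₀ *ᵥ Pi.single (Sum.inr 1) 1) = 0 := by rw [h12, Matrix.mulVec_zero]
  rw [Matrix.mulVec_mulVec, hZY, Matrix.one_mulVec] at h13
  have h14 := congrFun h13 (Sum.inr 1)
  simp at h14

end Pool.Agent.RHB
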