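import Pool.Agent.RHB.Stmts

set_option autoImplicit false

open Matrix Complex Filter Topology MeasureTheory Set

namespace Pool.Agent.RHB

namespace BCT_

/-- the ray with argument `θ` in the coordinate `s = 1 / |z|` -/
noncomputable def zr (θ s : ℝ) : ℂ := exp (((-Real.log s : ℝ) : ℂ) + θ * I)

theorem zr_mem (θ ε s : ℝ) (hε : 0 < ε) (hθ : |θ| ≤ Real.pi / 2) : zr θ s ∈ sector 0 ε := by
  refine ⟨((-Real.log s : ℝ) : ℂ) + θ * I, rfl, ?_⟩
  have h : (((-Real.log s : ℝ) : ℂ) + θ * I).im = θ := by simp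
  rw [h, sub_zero]
  linarith

theorem zr_cont (θ : ℝ) : ContinuousOn (zr θ) (Ioi 0) := by
  unfold zr
  refine Complex.continuous_exp.comp_continuousOn ?_
  refine ContinuousOn.add ?_ continuousOn_const
  refine Complex.continuous_ofReal.comp_continuousOn ?_
  refine ContinuousOn.neg ?_
  exact Real.continuousOn_log.mono (fun x hx => ne_of_gt hx)

theorem zr_norm (θ s : ℝ) (hs : 0 < s) : ‖zr θ s‖ = s⁻¹ := by
  unfold zr
  rw [Complex.norm_exp]
  have h : (((-Real.log s : ℝ) : ℂ) + θ * I).re = -Real.log s := by simp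
  rw [h, Real.exp_neg, Real.exp_log hs]

theorem zr_tendsto (θ : ℝ) : Tendsto (zr θ) atTop (𝓝 0) := by
  rw [tendsto_zero_iff_norm_tendsto_zero]
  refine Tendsto.congr' ?_ tendsto_inv_atTop_zero
  filter_upwards [eventually_gt_atTop (0 : ℝ)] with s hs
  exact (zr_norm θ s hs).symm

theorem zr_pos (s : ℝ) (hs : 0 < s) : zr (Real.pi / 2) s = I / s := by
  unfold zr
  rw [Complex.exp_add]
  have h1 : exp (((-Real.log s : ℝ) : ℂ)) = (s : ℂ)⁻¹ := by
    rw [← Complex.ofReal_exp, Real.exp_neg, Real.exp_log hs, Complex.ofReal_inv]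
  have h2 : exp (((Real.pi / 2 : ℝ) : ℂ) * I) = I := by
    push_cast
    exact Complex.exp_pi_div_two_mul_I
  rw [h1, h2, mul_comm, div_eq_mul_inv]

theorem zr_neg (s : ℝ) (hs : 0 < s) : zr (-(Real.pi / 2)) s = -(I / s) := by
  unfold zr
  rw [Complex.exp_add]
  have h1 : exp (((-Real.log s : ℝ) : ℂ)) = (s : ℂ)⁻¹ := by
    rw [← Complex.ofReal_exp, Real.exp_neg, Real.exp_log hs, Complex.ofReal_inv]
  have h2 : exp (((-(Real.pi / 2) : ℝ) : ℂ) * I) = -I := by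
    have : ((-(Real.pi / 2) : ℝ) : ℂ) * I = -(((Real.pi : ℂ) / 2) * I) := by push_cast; ring
    rw [this, Complex.exp_neg, Complex.exp_pi_div_two_mul_I, Complex.inv_I]
  rw [h1, h2, div_eq_mul_inv]
  ring

/-- the general statement -/
theorem main (ε θ : ℝ) (Yp : ℂ → Matrix (Fin 6) (Fin 4 ⊕ Fin 2) ℂ)
    (Y₀ : Matrix (Fin 6) (Fin 4 ⊕ Fin 2) ℂ) (Z₀ : Matrix (Fin 4 ⊕ Fin 2) (Fin 6) ℂ)
    (hε : 0 < ε) (hθ : |θ| ≤ Real.pi / 2)
    (hd : ∀ i j, DifferentiableOn ℂ (fun z => Yp z i j) (sector 0 ε))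
    (hlim : Tendsto Yp (𝓝[sector 0 ε] 0) (𝓝 Y₀)) (C : ℝ)
    (hC : ∀ w : ℂ, 0 ≤ w.re → |w.im - 0| ≤ Real.pi / 2 → ∀ i j,
      ‖Yp (exp w) i j‖ ≤ C * Real.exp (w.re / 2))
    (a b : Fin 4 ⊕ Fin 2) :
    ContinuousOn (fun s : ℝ => (Z₀ * Yp (zr θ s)) a b) (Ioi 0) ∧
    ∃ B : ℝ, 0 ≤ B ∧ ∀ s : ℝ, 0 < s →
      ‖(Z₀ * Yp (zr θ s)) a b‖ ≤ B * (1 + s ^ (-(1 / 2) : ℝ)) := by
  have hcont : ContinuousOn (fun s : ℝ => (Z₀ * Yp (zr θ s)) a b) (Ioi 0) := by
    simp only [Matrix.mul_apply]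
    refine continuousOn_finset_sum _ (fun k _ => ?_)
    refine ContinuousOn.mul continuousOn_const ?_
    exact (hd k b).continuousOn.comp (zr_cont θ) (fun s _ => zr_mem θ ε s hε hθ)
  refine ⟨hcont, ?_⟩
  -- limit
  have hlim2 : Tendsto (fun s : ℝ => (Z₀ * Yp (zr θ s)) a b) atTop (𝓝 ((Z₀ * Y₀) a b)) := by
    have h1 : Tendsto (zr θ) atTop (𝓝[sector 0 ε] 0) :=
      tendsto_nhdsWithin_iff.2 ⟨zr_tendsto θ, Eventually.of_forall (fun s => zr_mem θ ε s hε hθ)⟩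
    have h2 : Tendsto (fun s => Yp (zr θ s)) atTop (𝓝 Y₀) := hlim.comp h1
    have h3 : Continuous fun Y : Matrix (Fin 6) (Fin 4 ⊕ Fin 2) ℂ => (Z₀ * Y) a b := by
      simp only [Matrix.mul_apply]
      refine continuous_finset_sum _ (fun k _ => ?_)
      exact continuous_const.mul (continuous_apply_apply k b)
    exact (h3.tendsto Y₀).comp h2
  -- bound near infinity
  have hev : ∀ᶠ s : ℝ in atTop, ‖(Z₀ * Yp (zr θ s)) a b‖ ≤ ‖(Z₀ * Y₀) a b‖ + 1 := by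
    have := hlim2.norm
    exact this.eventually_le_const (by linarith)
  obtain ⟨M, hM⟩ := eventually_atTop.1 hev
  -- bound on the compact part
  obtain ⟨K, hK⟩ := (isCompact_Icc (a := (1 : ℝ)) (b := max 1 M)).exists_bound_of_continuousOn
    (hcont.mono (fun s hs => lt_of_lt_of_le one_pos hs.1))
  set D : ℝ := ∑ k, ‖Z₀ a k‖ * |C| with hD
  have hD0 : 0 ≤ D := Finset.sum_nonneg (fun k _ => mul_nonneg (norm_nonneg _) (abs_nonneg _))
  refine ⟨D + |K| + (‖(Z₀ * Y₀) a b‖ + 1), by positivity, ?_⟩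
  intro s hs
  have hp : 0 ≤ s ^ (-(1 / 2) : ℝ) := Real.rpow_nonneg hs.le _
  have hn : 0 ≤ ‖(Z₀ * Y₀) a b‖ := norm_nonneg _
  have hk : 0 ≤ |K| := abs_nonneg _
  by_cases h1 : s ≤ 1
  · have hre : (((-Real.log s : ℝ) : ℂ) + θ * I).re = -Real.log s := by simp
    have him : (((-Real.log s : ℝ) : ℂ) + θ * I).im = θ := by simp
    have hb : ∀ k, ‖Yp (zr θ s) k b‖ ≤ |C| * s ^ (-(1 / 2) : ℝ) := by
      intro k
      have h := hC (((-Real.log s : ℝ) : ℂ) + θ * I)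
        (by rw [hre]; have := Real.log_nonpos hs.le h1; linarith)
        (by rw [him, sub_zero]; exact hθ) k b
      rw [hre] at h
      have he : Real.exp (-Real.log s / 2) = s ^ (-(1 / 2) : ℝ) := by
        rw [Real.rpow_def_of_pos hs]
        congr 1
        ring
      rw [he] at h
      refine h.trans ?_
      exact mul_le_mul_of_nonneg_right (le_abs_self C) hp
    have hsum : ‖(Z₀ * Yp (zr θ s)) a b‖ ≤ D * s ^ (-(1 / 2) : ℝ) := by
      rw [Matrix.mul_apply]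
      refine (norm_sum_le _ _).trans ?_
      rw [hD, Finset.sum_mul]
      refine Finset.sum_le_sum (fun k _ => ?_)
      rw [norm_mul, mul_assoc]
      exact mul_le_mul_of_nonneg_left (hb k) (norm_nonneg _)
    refine hsum.trans ?_
    nlinarith
  · push_neg at h1
    have hle : ‖(Z₀ * Yp (zr θ s)) a b‖ ≤ |K| + (‖(Z₀ * Y₀) a b‖ + 1) := by
      by_cases h2 : s ≤ max 1 M
      · have := hK s ⟨h1.le, h2⟩
        have := le_abs_self K
        linarith
      · push_neg at h2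
        have := hM s (le_trans (le_max_right _ _) h2.le)
        linarith
    refine hle.trans ?_
    nlinarith

end BCT_

open BCT_ in
theorem bct_proof (hGRO : Stmt_GRO) : Stmt_BCT := by
  intro d L U ε Yinf Yp Ym Y₀ Z₀ hε hL hS
  obtain ⟨C, hC⟩ := hGRO d L _ _ _ _ _ _ hε hL hS.1
  have hd := hS.1.2.1
  have hlim := hS.2.2.2.1
  have hpi : (0 : ℝ) ≤ Real.pi / 2 := by positivity
  have hneg : ∀ j, _ := fun j : Fin 2 => main ε (-(Real.pi / 2)) Yp Y₀ Z₀ hε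
    (by rw [abs_neg, abs_of_nonneg hpi]) hd hlim C
    (fun w hw hw2 => (hC w hw).1 hw2) (Sum.inr 0) (Sum.inr j)
  have hpos : ∀ j, _ := fun j : Fin 4 => main ε (Real.pi / 2) Yp Y₀ Z₀ hε
    (by rw [abs_of_nonneg hpi]) hd hlim C
    (fun w hw hw2 => (hC w hw).1 hw2) (Sum.inr 0) (Sum.inl j)
  choose hn1 Bn hBn0 hBn using hneg
  choose hp1 Bp hBp0 hBp using hpos
  refine ⟨⟨(∑ j, Bn j) + ∑ j, Bp j, ?_⟩, ?_, ?_⟩
  · intro s hs
    have hp : 0 ≤ 1 + s ^ (-(1 / 2) : ℝ) := by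
      have := Real.rpow_nonneg hs.le (-(1 / 2) : ℝ)
      linarith
    refine ⟨fun j => ?_, fun j => ?_⟩
    · have h := hBn j s hs
      rw [zr_neg s hs] at h
      refine h.trans (mul_le_mul_of_nonneg_right ?_ hp)
      have h1 : Bn j ≤ ∑ j, Bn j := Finset.single_le_sum (fun k _ => hBn0 k) (Finset.mem_univ j)
      have h2 : 0 ≤ ∑ j, Bp j := Finset.sum_nonneg (fun k _ => hBp0 k)
      linarith
    · have h := hBp j s hs
      rw [zr_pos s hs] at h
      refine h.trans (mul_le_mul_of_nonneg_right ?_ hp)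
      have h1 : Bp j ≤ ∑ j, Bp j := Finset.single_le_sum (fun k _ => hBp0 k) (Finset.mem_univ j)
      have h2 : 0 ≤ ∑ j, Bn j := Finset.sum_nonneg (fun k _ => hBn0 k)
      linarith
  · intro j
    refine (hn1 j).congr (fun s hs => ?_)
    show (Z₀ * Yp (-(I / s))) (Sum.inr 0) (Sum.inr j) =
      (Z₀ * Yp (zr (-(Real.pi / 2)) s)) (Sum.inr 0) (Sum.inr j)
    rw [zr_neg s hs]
  · intro j
    refine (hp1 j).congr (fun s hs => ?_)
    show (Z₀ * Yp (I / s)) (Sum.inr 0) (Sum.inl j) =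
      (Z₀ * Yp (zr (Real.pi / 2) s)) (Sum.inr 0) (Sum.inl j)
    rw [zr_pos s hs]

end Pool.Agent.RHB
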