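import Pool.Agent.RHB.Stmts

set_option autoImplicit false
open Matrix Complex Filter Topology MeasureTheory Set

namespace Pool.Agent.RHB

namespace CA1_

/-- the circle of radius `exp T` in logarithmic coordinates -/
theorem circ (T v₀ : ℝ) : I * (∫ y in (-Real.pi)..Real.pi,
    (exp (T + y * I) / (exp (T + y * I) - exp v₀))) =
    ∮ z in C(0, Real.exp T), (z - exp v₀)⁻¹ := by
  have hper : Function.Periodic (fun y : ℝ => exp ((T : ℂ) + y * I) /
      (exp ((T : ℂ) + y * I) - exp (v₀ : ℂ))) (2 * Real.pi) := by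
    intro y
    have : exp ((T : ℂ) + ((y + 2 * Real.pi : ℝ) : ℂ) * I) = exp ((T : ℂ) + y * I) := by
      have h : (T : ℂ) + ((y + 2 * Real.pi : ℝ) : ℂ) * I = ((T : ℂ) + y * I) + 2 * Real.pi * I := by
        push_cast; ring
      rw [h, Complex.exp_add, Complex.exp_two_pi_mul_I, mul_one]
    simp only [this]
  have hshift := hper.intervalIntegral_add_eq (-Real.pi) 0
  have e1 : -Real.pi + 2 * Real.pi = Real.pi := by ring
  rw [e1, zero_add] at hshift
  rw [hshift, circleIntegral, ← intervalIntegral.integral_const_mul]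
  refine intervalIntegral.integral_congr (fun θ _ => ?_)
  have h1 : circleMap 0 (Real.exp T) θ = exp ((T : ℂ) + θ * I) := by
    rw [circleMap, Complex.exp_add, Complex.ofReal_exp]; ring
  simp only [deriv_circleMap, h1, smul_eq_mul, div_eq_mul_inv]
  ring

theorem circ_big (T v₀ : ℝ) (h : v₀ < T) : (∮ z in C(0, Real.exp T), (z - exp v₀)⁻¹) =
    2 * Real.pi * I := by
  apply circleIntegral.integral_sub_inv_of_mem_ball
  rw [mem_ball_zero_iff, ← Complex.ofReal_exp, Complex.norm_real, Real.norm_eq_abs,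
    abs_of_pos (Real.exp_pos _)]
  exact Real.exp_lt_exp.2 h

theorem circ_small (T v₀ : ℝ) (h : T < v₀) : (∮ z in C(0, Real.exp T), (z - exp v₀)⁻¹) = 0 := by
  apply DiffContOnCl.circleIntegral_eq_zero (Real.exp_pos _).le
  have hne : ∀ z ∈ Metric.closedBall (0 : ℂ) (Real.exp T), z - exp (v₀ : ℂ) ≠ 0 := by
    intro z hz h0
    rw [sub_eq_zero] at h0
    rw [mem_closedBall_zero_iff, h0, ← Complex.ofReal_exp, Complex.norm_real, Real.norm_eq_abs,
      abs_of_pos (Real.exp_pos _)] at hz
    exact absurd (Real.exp_lt_exp.2 h) (not_lt.2 hz)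
  refine DifferentiableOn.diffContOnCl_ball (U := Metric.closedBall (0 : ℂ) (Real.exp T)) ?_ le_rfl
  exact (differentiableOn_id.sub_const _).inv hne

theorem nexp_eq (v : ℂ) (v₀ : ℝ) (him : |v.im| < 2 * Real.pi) (h : exp v = exp (v₀ : ℂ)) :
    v = (v₀ : ℂ) := by
  obtain ⟨n, hn⟩ := Complex.exp_eq_exp_iff_exists_int.1 h
  have h1 : v.im = n * (2 * Real.pi) := by
    have := congrArg Complex.im hn
    simpa using this
  have h2 : |(n : ℝ)| < 1 := by
    rw [h1, abs_mul, abs_of_pos Real.two_pi_pos] at him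
    have := Real.two_pi_pos
    by_contra hc
    push Not at hc
    nlinarith
  have h3 : n = 0 := by
    have : |n| < 1 := by exact_mod_cast h2
    exact Int.abs_lt_one_iff.1 this
  rw [hn, h3]; simp

end CA1_

open CA1_ in
theorem ca1_proof : Stmt_CA1 := by
  intro ε G v₀ T hε hv hG
  have hv' := abs_lt.1 hv
  have hT : 0 < T := lt_of_le_of_lt (abs_nonneg _) hv
  have hpi := Real.pi_pos
  set c : ℂ := (v₀ : ℂ) with hc
  set F : ℂ → ℂ := fun v => dslope G c v * exp v / dslope exp c v with hF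
  set S : Set ℂ := {v | |v.im| < Real.pi + ε} with hS
  have hSo : IsOpen S := isOpen_lt (continuous_abs.comp Complex.continuous_im) continuous_const
  have hcS : c ∈ S := by simp [hS, hc]; positivity
  have hdG : DifferentiableOn ℂ (dslope G c) S :=
    (Complex.differentiableOn_dslope (hSo.mem_nhds hcS)).2 hG
  have hdE : Differentiable ℂ (dslope exp c) := by
    rw [← differentiableOn_univ]
    exact (Complex.differentiableOn_dslope Filter.univ_mem).2
      (Complex.differentiable_exp.differentiableOn)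
  have hne : ∀ v : ℂ, |v.im| < 2 * Real.pi → dslope exp c v ≠ 0 := by
    intro v him
    by_cases h : v = c
    · rw [h, dslope_same, Complex.deriv_exp]; exact Complex.exp_ne_zero _
    · rw [dslope_of_ne _ h, slope_def_field]
      refine div_ne_zero (fun h0 => h ?_) (sub_ne_zero.2 h)
      exact nexp_eq v v₀ him (sub_eq_zero.1 h0)
  have hsub : (Set.uIcc (-T : ℝ) T ×ℂ Set.uIcc (-Real.pi) Real.pi) ⊆ S ∩ {v | |v.im| < 2 * Real.pi} := by
    intro v hv1
    have h2 := (Complex.mem_reProdIm.1 hv1).2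
    rw [Set.uIcc_of_le (by linarith)] at h2
    have h3 : |v.im| ≤ Real.pi := abs_le.2 h2
    exact ⟨by simp only [hS, Set.mem_setOf_eq]; linarith, by simp only [Set.mem_setOf_eq]; linarith⟩
  have hFd : DifferentiableOn ℂ F (Set.uIcc (-T : ℝ) T ×ℂ Set.uIcc (-Real.pi) Real.pi) := by
    refine DifferentiableOn.div ?_ hdE.differentiableOn (fun v hv1 => hne v (hsub hv1).2)
    exact (hdG.mono (fun v hv1 => (hsub hv1).1)).mul Complex.differentiable_exp.differentiableOn
  have key := Complex.integral_boundary_rect_eq_zero_of_differentiableOn F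
    (((-T : ℝ) : ℂ) + ((-Real.pi : ℝ) : ℂ) * I) (((T : ℝ) : ℂ) + ((Real.pi : ℝ) : ℂ) * I) (by
      have e1 : (((-T : ℝ) : ℂ) + ((-Real.pi : ℝ) : ℂ) * I).re = -T := by simp
      have e2 : (((-T : ℝ) : ℂ) + ((-Real.pi : ℝ) : ℂ) * I).im = -Real.pi := by simp
      have e3 : (((T : ℝ) : ℂ) + ((Real.pi : ℝ) : ℂ) * I).re = T := by simp
      have e4 : (((T : ℝ) : ℂ) + ((Real.pi : ℝ) : ℂ) * I).im = Real.pi := by simp
      rw [e1, e2, e3, e4]; exact hFd)
  have e1 : (((-T : ℝ) : ℂ) + ((-Real.pi : ℝ) : ℂ) * I).re = -T := by simp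
  have e2 : (((-T : ℝ) : ℂ) + ((-Real.pi : ℝ) : ℂ) * I).im = -Real.pi := by simp
  have e3 : (((T : ℝ) : ℂ) + ((Real.pi : ℝ) : ℂ) * I).re = T := by simp
  have e4 : (((T : ℝ) : ℂ) + ((Real.pi : ℝ) : ℂ) * I).im = Real.pi := by simp
  rw [e1, e2, e3, e4] at key
  have hFv : ∀ v : ℂ, v ≠ c → F v = (G v - G c) * (exp v / (exp v - exp c)) := by
    intro v h
    have hvc : v - c ≠ 0 := sub_ne_zero.2 h
    simp only [hF]
    rw [dslope_of_ne _ h, dslope_of_ne _ h, slope_def_field, slope_def_field]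
    by_cases hz : exp v - exp c = 0
    · rw [hz]; simp
    · field_simp
  -- continuity on the sides
  have hcG : ContinuousOn G S := hG.continuousOn
  have hhor : ∀ s : ℝ, |s| ≤ Real.pi → Continuous (fun x : ℝ => G ((x : ℂ) + (s : ℂ) * I)) := by
    intro s hs
    refine hcG.comp_continuous (by fun_prop) (fun x => ?_)
    simp only [hS, Set.mem_setOf_eq]
    have : ((x : ℂ) + (s : ℂ) * I).im = s := by simp
    rw [this]; linarith
  have hver : ∀ t : ℝ, ContinuousOn (fun y : ℝ => G ((t : ℂ) + (y : ℂ) * I))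
      (Set.uIcc (-Real.pi) Real.pi) := by
    intro t
    refine hcG.comp (by fun_prop) (fun y hy => ?_)
    rw [Set.uIcc_of_le (by linarith)] at hy
    have h3 : |y| ≤ Real.pi := abs_le.2 hy
    simp only [hS, Set.mem_setOf_eq]
    have : ((t : ℂ) + (y : ℂ) * I).im = y := by simp
    rw [this]; linarith
  have hexpR : ∀ x : ℝ, exp (x : ℂ) + exp c ≠ 0 := by
    intro x h
    have h1 : ((Real.exp x + Real.exp v₀ : ℝ) : ℂ) = 0 := by
      push_cast; simpa [hc] using h
    have h2 := Complex.ofReal_eq_zero.1 h1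
    have := Real.exp_pos x
    have := Real.exp_pos v₀
    linarith
  -- horizontal sides
  have hneg : ∀ x : ℝ, exp ((x : ℂ) + ((-Real.pi : ℝ) : ℂ) * I) = -exp (x : ℂ) := by
    intro x
    rw [Complex.exp_add]
    have : exp (((-Real.pi : ℝ) : ℂ) * I) = -1 := by
      have h := Complex.exp_neg (Real.pi * I)
      rw [Complex.exp_pi_mul_I] at h
      have h' : ((-Real.pi : ℝ) : ℂ) * I = -(Real.pi * I) := by push_cast; ring
      rw [h', h]; norm_num
    rw [this]; ring
  have hpos : ∀ x : ℝ, exp ((x : ℂ) + ((Real.pi : ℝ) : ℂ) * I) = -exp (x : ℂ) := by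
    intro x
    rw [Complex.exp_add, Complex.exp_pi_mul_I]; ring
  have hnec : ∀ (x s : ℝ), s ≠ 0 → (x : ℂ) + (s : ℂ) * I ≠ c := by
    intro x s hs h
    apply hs
    have := congrArg Complex.im h
    simpa [hc] using this
  have hH1 : ∀ x : ℝ, F ((x : ℂ) + ((-Real.pi : ℝ) : ℂ) * I) =
      (G ((x : ℂ) + ((-Real.pi : ℝ) : ℂ) * I) - G c) * (exp x / (exp x + exp c)) := by
    intro x
    rw [hFv _ (hnec x _ (by linarith)), hneg x]
    congr 1
    have := hexpR x
    rw [show -exp (x : ℂ) - exp c = -(exp x + exp c) by ring, neg_div_neg_eq]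
  have hH2 : ∀ x : ℝ, F ((x : ℂ) + ((Real.pi : ℝ) : ℂ) * I) =
      (G ((x : ℂ) + ((Real.pi : ℝ) : ℂ) * I) - G c) * (exp x / (exp x + exp c)) := by
    intro x
    rw [hFv _ (hnec x _ hpi.ne'), hpos x]
    congr 1
    rw [show -exp (x : ℂ) - exp c = -(exp x + exp c) by ring, neg_div_neg_eq]
  have hKc : Continuous (fun x : ℝ => exp (x : ℂ) / (exp (x : ℂ) + exp c)) :=
    Continuous.div (by fun_prop) (by fun_prop) hexpR
  have habs1 : |(-Real.pi)| ≤ Real.pi := by rw [abs_neg, abs_of_pos hpi]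
  have habs2 : |Real.pi| ≤ Real.pi := by rw [abs_of_pos hpi]
  have hor : (∫ x : ℝ in (-T)..T, F ((x : ℂ) + ((-Real.pi : ℝ) : ℂ) * I)) -
      (∫ x : ℝ in (-T)..T, F ((x : ℂ) + ((Real.pi : ℝ) : ℂ) * I)) =
      ∫ u in (-T)..T, (G (u - Real.pi * I) - G (u + Real.pi * I)) * (exp u / (exp u + exp c)) := by
    simp only [hH1, hH2]
    rw [← intervalIntegral.integral_sub]
    · refine intervalIntegral.integral_congr (fun x _ => ?_)
      have e5 : (x : ℂ) + ((-Real.pi : ℝ) : ℂ) * I = x - Real.pi * I := by push_cast; ring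
      simp only [e5]
      ring
    · exact ((((hhor _ habs1).sub continuous_const).mul hKc)).intervalIntegrable _ _
    · exact ((((hhor _ habs2).sub continuous_const).mul hKc)).intervalIntegrable _ _
  -- vertical sides
  have hvne : ∀ t y : ℝ, t ≠ v₀ → exp ((t : ℂ) + (y : ℂ) * I) - exp c ≠ 0 := by
    intro t y ht h
    apply ht
    have h1 := congrArg norm (sub_eq_zero.1 h)
    rw [Complex.norm_exp, Complex.norm_exp] at h1
    have h2 := Real.exp_injective h1
    simpa [hc] using h2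
  have hver2 : ∀ t : ℝ, t ≠ v₀ → (∫ y : ℝ in (-Real.pi)..Real.pi, F ((t : ℂ) + (y : ℂ) * I)) =
      (∫ y in (-Real.pi)..Real.pi, G (t + y * I) * (exp (t + y * I) / (exp (t + y * I) - exp c))) -
      G c * ∫ y in (-Real.pi)..Real.pi, (exp (t + y * I) / (exp (t + y * I) - exp c)) := by
    intro t ht
    have hK : Continuous (fun y : ℝ => exp ((t : ℂ) + y * I) / (exp ((t : ℂ) + y * I) - exp c)) :=
      Continuous.div (by fun_prop) (by fun_prop) (fun y => hvne t y ht)
    rw [← intervalIntegral.integral_const_mul, ← intervalIntegral.integral_sub]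
    · refine intervalIntegral.integral_congr (fun y _ => ?_)
      have hne2 : (t : ℂ) + (y : ℂ) * I ≠ c := by
        intro h
        apply hvne t y ht
        rw [h]; ring
      simp only [hFv _ hne2]
      ring
    · exact ((hver t).mul hK.continuousOn).intervalIntegrable
    · exact (hK.intervalIntegrable _ _).const_mul _
  have hTne : T ≠ v₀ := by intro h; linarith [hv'.2]
  have hTne2 : -T ≠ v₀ := by intro h; linarith [hv'.1]
  have k1 := hver2 T hTne
  have k2 := hver2 (-T) hTne2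
  have c1 := circ T v₀
  have c2 := circ (-T) v₀
  rw [circ_big T v₀ hv'.2] at c1
  rw [circ_small (-T) v₀ hv'.1] at c2
  rw [hor, k1, k2] at key
  simp only [smul_eq_mul] at key
  rw [← hc] at c1 c2
  push_cast at key c2 ⊢
  linear_combination key + G c * c1 - G c * c2

end Pool.Agent.RHB
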