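import Pool.Agent.RHB.Stmts

set_option autoImplicit false

open Matrix Complex Filter Topology MeasureTheory Set

namespace Pool.Agent.RHB

namespace CA2_

theorem norm_ge (z : ℂ) (v : ℝ) : Real.exp z.re - Real.exp v ≤ ‖exp z - exp (v : ℂ)‖ := by
  have h1 : ‖exp z‖ = Real.exp z.re := Complex.norm_exp z
  have h2 : ‖exp (v : ℂ)‖ = Real.exp v := by rw [Complex.norm_exp]; simp
  have h3 := norm_sub_norm_le (exp z) (exp (v : ℂ))
  rw [h1, h2] at h3
  exact h3

theorem norm_ge' (z : ℂ) (v : ℝ) : Real.exp v - Real.exp z.re ≤ ‖exp z - exp (v : ℂ)‖ := by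
  have h1 : ‖exp z‖ = Real.exp z.re := Complex.norm_exp z
  have h2 : ‖exp (v : ℂ)‖ = Real.exp v := by rw [Complex.norm_exp]; simp
  have h3 := norm_sub_norm_le (exp (v : ℂ)) (exp z)
  rw [h1, h2, norm_sub_rev] at h3
  exact h3

theorem cont {ε : ℝ} {G : ℂ → ℂ} {v₀ T : ℝ} (hε : 0 < ε) (hT : v₀ < T)
    (hG : DifferentiableOn ℂ G {v | |v.im| < Real.pi + ε}) :
    ContinuousOn (fun y : ℝ => G (T + y * I) * (exp (T + y * I) / (exp (T + y * I) - exp v₀)))
      (uIcc (-Real.pi) Real.pi) := by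
  have hline : Continuous (fun y : ℝ => (T : ℂ) + y * I) := by fun_prop
  have h1 : ContinuousOn (fun y : ℝ => G (T + y * I)) (uIcc (-Real.pi) Real.pi) := by
    refine hG.continuousOn.comp hline.continuousOn ?_
    intro y hy
    rw [uIcc_of_le (by have := Real.pi_pos; linarith)] at hy
    have h2 : ((T : ℂ) + y * I).im = y := by simp
    show |((T : ℂ) + y * I).im| < Real.pi + ε
    rw [h2]
    have : |y| ≤ Real.pi := abs_le.2 hy
    linarith
  have h3 : ContinuousOn (fun y : ℝ => exp (T + y * I) / (exp (T + y * I) - exp (v₀ : ℂ)))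
      (uIcc (-Real.pi) Real.pi) := by
    refine ContinuousOn.div (by fun_prop) (by fun_prop) ?_
    intro y _ h0
    have h4 := norm_ge ((T : ℂ) + y * I) v₀
    rw [h0, norm_zero] at h4
    have h5 : ((T : ℂ) + y * I).re = T := by simp
    rw [h5] at h4
    have := Real.exp_lt_exp.2 hT
    linarith
  exact h1.mul h3

theorem right {ε : ℝ} {G : ℂ → ℂ} {g : ℂ} {v₀ : ℝ} (hε : 0 < ε)
    (hG : DifferentiableOn ℂ G {v | |v.im| < Real.pi + ε})
    (hR : ∀ η > 0, ∃ T : ℝ, ∀ v : ℂ, T ≤ v.re → |v.im| ≤ Real.pi → ‖G v - g‖ ≤ η) :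
    Tendsto (fun T : ℝ => ∫ y in (-Real.pi)..Real.pi,
      G (T + y * I) * (exp (T + y * I) / (exp (T + y * I) - exp v₀))) atTop
      (𝓝 (2 * Real.pi * g)) := by
  rw [Metric.tendsto_nhds]
  intro e he
  have hpi := Real.pi_pos
  have hg := norm_nonneg g
  obtain ⟨τ, hτ⟩ : ∃ τ : ℝ, τ = min 1 (e / (8 * Real.pi * (‖g‖ + 1))) := ⟨_, rfl⟩
  have hτ0 : 0 < τ := by rw [hτ]; positivity
  have hτ1 : τ ≤ 1 := by rw [hτ]; exact min_le_left _ _
  have hτ2 : τ ≤ e / (8 * Real.pi * (‖g‖ + 1)) := by rw [hτ]; exact min_le_right _ _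
  obtain ⟨T₀, hT₀⟩ := hR (e / (16 * Real.pi)) (by positivity)
  have hexp : ∀ᶠ T : ℝ in atTop, Real.exp v₀ + Real.exp v₀ / τ ≤ Real.exp T :=
    Real.tendsto_exp_atTop.eventually_ge_atTop _
  filter_upwards [eventually_ge_atTop T₀, eventually_gt_atTop v₀, hexp] with T h1 h2 h3
  have hI : IntervalIntegrable (fun y : ℝ =>
      G (T + y * I) * (exp (T + y * I) / (exp (T + y * I) - exp v₀))) volume (-Real.pi) Real.pi :=
    (cont hε h2 hG).intervalIntegrable
  have hc : (2 * Real.pi * g : ℂ) = ∫ _y in (-Real.pi)..Real.pi, g := by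
    rw [intervalIntegral.integral_const]
    rw [Complex.real_smul]
    push_cast
    ring
  rw [dist_eq_norm, hc, ← intervalIntegral.integral_sub hI intervalIntegrable_const]
  have hbd : ∀ y ∈ uIoc (-Real.pi) Real.pi,
      ‖G (T + y * I) * (exp (T + y * I) / (exp (T + y * I) - exp v₀)) - g‖ ≤
        2 * (e / (16 * Real.pi)) + ‖g‖ * τ := by
    intro y hy
    rw [uIoc_of_le (by linarith)] at hy
    obtain ⟨z, hz⟩ : ∃ z : ℂ, z = T + y * I := ⟨_, rfl⟩
    have hre : z.re = T := by rw [hz]; simp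
    have him : z.im = y := by rw [hz]; simp
    rw [← hz]
    have k1 := hT₀ z (by rw [hre]; exact h1) (by rw [him, abs_le]; exact ⟨hy.1.le, hy.2⟩)
    have k2 := norm_ge z v₀
    rw [hre] at k2
    have hpos : 0 < Real.exp T - Real.exp v₀ := by
      have := Real.exp_lt_exp.2 h2
      linarith
    have hne : exp z - exp (v₀ : ℂ) ≠ 0 := by
      intro h0
      rw [h0, norm_zero] at k2
      linarith
    have k3 : exp z / (exp z - exp (v₀ : ℂ)) - 1 = exp (v₀ : ℂ) / (exp z - exp (v₀ : ℂ)) := by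
      field_simp
      ring
    have k4 : ‖exp z / (exp z - exp (v₀ : ℂ)) - 1‖ ≤ τ := by
      rw [k3, norm_div, Complex.norm_exp, Complex.ofReal_re,
        div_le_iff₀ (lt_of_lt_of_le hpos k2)]
      have : Real.exp v₀ / τ ≤ ‖exp z - exp (v₀ : ℂ)‖ := by linarith
      rw [div_le_iff₀ hτ0] at this
      linarith
    have k5 : ‖exp z / (exp z - exp (v₀ : ℂ))‖ ≤ 2 := by
      have := norm_add_le (exp z / (exp z - exp (v₀ : ℂ)) - 1) 1
      rw [sub_add_cancel, norm_one] at this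
      linarith
    have k6 : G z * (exp z / (exp z - exp (v₀ : ℂ))) - g =
        (G z - g) * (exp z / (exp z - exp (v₀ : ℂ))) +
          g * (exp z / (exp z - exp (v₀ : ℂ)) - 1) := by ring
    rw [k6]
    refine (norm_add_le _ _).trans ?_
    rw [norm_mul, norm_mul]
    have k7 : ‖G z - g‖ * ‖exp z / (exp z - exp (v₀ : ℂ))‖ ≤ (e / (16 * Real.pi)) * 2 :=
      mul_le_mul k1 k5 (norm_nonneg _) (by positivity)
    have k8 := mul_le_mul_of_nonneg_left k4 hg
    linarith
  have hfin := intervalIntegral.norm_integral_le_of_norm_le_const hbd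
  refine lt_of_le_of_lt hfin ?_
  have e1 : |Real.pi - -Real.pi| = 2 * Real.pi := by
    rw [abs_of_pos (by linarith)]
    ring
  rw [e1]
  have e2 : ‖g‖ * τ ≤ e / (8 * Real.pi) := by
    calc ‖g‖ * τ ≤ (‖g‖ + 1) * (e / (8 * Real.pi * (‖g‖ + 1))) :=
          mul_le_mul (by linarith) hτ2 hτ0.le (by linarith)
      _ = e / (8 * Real.pi) := by
          field_simp
  calc (2 * (e / (16 * Real.pi)) + ‖g‖ * τ) * (2 * Real.pi)
      ≤ (2 * (e / (16 * Real.pi)) + e / (8 * Real.pi)) * (2 * Real.pi) :=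
        mul_le_mul_of_nonneg_right (by linarith) (by linarith)
    _ = e / 2 := by
        field_simp
        ring
    _ < e := by linarith

theorem left {G : ℂ → ℂ} {v₀ : ℝ}
    (hL : ∀ η > 0, ∃ T : ℝ, ∀ v : ℂ, v.re ≤ T → |v.im| ≤ Real.pi → ‖G v‖ * Real.exp v.re ≤ η) :
    Tendsto (fun T : ℝ => ∫ y in (-Real.pi)..Real.pi,
      G (-T + y * I) * (exp (-T + y * I) / (exp (-T + y * I) - exp v₀))) atTop (𝓝 0) := by
  rw [Metric.tendsto_nhds]
  intro e he
  have hpi := Real.pi_pos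
  have hv := Real.exp_pos v₀
  obtain ⟨T₀, hT₀⟩ := hL (e * Real.exp v₀ / (8 * Real.pi)) (by positivity)
  have hexp : ∀ᶠ T : ℝ in atTop, Real.exp (-T) < Real.exp v₀ / 2 := by
    have h1 : Tendsto (fun T : ℝ => Real.exp (-T)) atTop (𝓝 0) :=
      Real.tendsto_exp_neg_atTop_nhds_zero
    exact h1.eventually (gt_mem_nhds (by positivity))
  filter_upwards [eventually_ge_atTop (-T₀), hexp] with T h1 h2
  rw [dist_zero_right]
  have hbd : ∀ y ∈ uIoc (-Real.pi) Real.pi,
      ‖G (-T + y * I) * (exp (-T + y * I) / (exp (-T + y * I) - exp v₀))‖ ≤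
        e / (4 * Real.pi) := by
    intro y hy
    rw [uIoc_of_le (by linarith)] at hy
    obtain ⟨z, hz⟩ : ∃ z : ℂ, z = -T + y * I := ⟨_, rfl⟩
    have hre : z.re = -T := by rw [hz]; simp
    have him : z.im = y := by rw [hz]; simp
    rw [← hz]
    have k1 := hT₀ z (by rw [hre]; linarith) (by rw [him, abs_le]; exact ⟨hy.1.le, hy.2⟩)
    have k2 := norm_ge' z v₀
    rw [hre] at k2 k1
    have k3 : Real.exp v₀ / 2 ≤ ‖exp z - exp (v₀ : ℂ)‖ := by linarith
    rw [norm_mul, norm_div, Complex.norm_exp, hre, mul_div_assoc',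
      div_le_iff₀ (lt_of_lt_of_le (by positivity) k3)]
    refine k1.trans ?_
    calc e * Real.exp v₀ / (8 * Real.pi) = e / (4 * Real.pi) * (Real.exp v₀ / 2) := by
          field_simp
          ring
      _ ≤ e / (4 * Real.pi) * ‖exp z - exp (v₀ : ℂ)‖ :=
          mul_le_mul_of_nonneg_left k3 (by positivity)
  have hfin := intervalIntegral.norm_integral_le_of_norm_le_const hbd
  refine lt_of_le_of_lt hfin ?_
  have e1 : |Real.pi - -Real.pi| = 2 * Real.pi := by
    rw [abs_of_pos (by linarith)]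
    ring
  rw [e1]
  calc e / (4 * Real.pi) * (2 * Real.pi) = e / 2 := by
        field_simp
        ring
    _ < e := by linarith

end CA2_

theorem ca2_proof (hCA1 : Stmt_CA1) : Stmt_CA2 := by
  intro ε G g v₀ hε hG hR hL
  have h1 := CA2_.right (v₀ := v₀) hε hG hR
  have h2 := CA2_.left (v₀ := v₀) hL
  have h3 := ((tendsto_const_nhds (x := 2 * Real.pi * I * G v₀)).sub (h1.const_mul I)).add
    (h2.const_mul I)
  have h4 : (2 * Real.pi * I * G v₀ - I * (2 * Real.pi * g) + I * 0 : ℂ) =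
      2 * Real.pi * I * (G v₀ - g) := by ring
  rw [h4] at h3
  refine h3.congr' ?_
  filter_upwards [eventually_gt_atTop |v₀|] with T hT
  have h5 := hCA1 ε G v₀ T hε hT hG
  linear_combination -h5

end Pool.Agent.RHB
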