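import Pool.Agent.RHB.Stmts

set_option autoImplicit false

open Matrix Complex Filter Topology MeasureTheory Set

namespace Pool.Agent.RHB

namespace CAU_

/-- the glued function -/
noncomputable def G (A B : ℂ → ℂ) (v : ℂ) : ℂ := if 0 ≤ v.im then A v else B v

lemma G_pos {A B : ℂ → ℂ} {v : ℂ} (h : 0 ≤ v.im) : G A B v = A v := by simp [G, h]

lemma G_neg {A B : ℂ → ℂ} {v : ℂ} (h : v.im < 0) : G A B v = B v := by
  simp [G, not_le.mpr h]

lemma G_diff {ε : ℝ} {A B : ℂ → ℂ} (hε : 0 < ε)
    (hA : DifferentiableOn ℂ A {v | -ε < v.im ∧ v.im < Real.pi + ε})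
    (hB : DifferentiableOn ℂ B {v | -Real.pi - ε < v.im ∧ v.im < ε})
    (hAB : ∀ v : ℂ, |v.im| < ε → A v = B v) :
    DifferentiableOn ℂ (G A B) {v | |v.im| < Real.pi + ε} := by
  have hpi := Real.pi_pos
  have oA : IsOpen {v : ℂ | -ε < v.im ∧ v.im < Real.pi + ε} :=
    (isOpen_lt continuous_const continuous_im).inter (isOpen_lt continuous_im continuous_const)
  have oB : IsOpen {v : ℂ | -Real.pi - ε < v.im ∧ v.im < ε} :=
    (isOpen_lt continuous_const continuous_im).inter (isOpen_lt continuous_im continuous_const)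
  intro v hv
  have hv' := abs_lt.mp (show |v.im| < Real.pi + ε from hv)
  apply DifferentiableAt.differentiableWithinAt
  rcases lt_or_ge (-ε) v.im with h1 | h1
  · have dA : DifferentiableAt ℂ A v := (hA v ⟨h1, hv'.2⟩).differentiableAt (oA.mem_nhds ⟨h1, hv'.2⟩)
    apply dA.congr_of_eventuallyEq
    filter_upwards [oA.mem_nhds (show v ∈ {v : ℂ | -ε < v.im ∧ v.im < Real.pi + ε} from ⟨h1, hv'.2⟩)]
      with w hw
    by_cases h2 : 0 ≤ w.im
    · exact G_pos h2
    · rw [G_neg (not_le.mp h2)]
      refine (hAB w ?_).symm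
      rw [abs_lt]
      exact ⟨hw.1, by linarith [not_le.mp h2]⟩
  · have h3 : v.im < 0 := by linarith
    have dB : DifferentiableAt ℂ B v :=
      (hB v ⟨by linarith, by linarith⟩).differentiableAt (oB.mem_nhds ⟨by linarith, by linarith⟩)
    apply dB.congr_of_eventuallyEq
    have o3 : IsOpen {v : ℂ | v.im < 0} := isOpen_lt continuous_im continuous_const
    filter_upwards [o3.mem_nhds h3] with w hw
    exact G_neg hw

end CAU_

open CAU_ in
theorem cau_proof (hCA2 : Stmt_CA2) : Stmt_CAU := by
  intro ε A B g J hε hA hB hAB hright hleft hJ s' hs' hint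
  have hpi := Real.pi_pos
  have key := hCA2 ε (G A B) g (Real.log s') hε (G_diff hε hA hB hAB) ?_ ?_
  · have hexp : cexp ((Real.log s' : ℝ) : ℂ) = (s' : ℂ) := by
      rw [← ofReal_exp, Real.exp_log hs']
    have hF : ∀ u : ℝ, (G A B (u - Real.pi * I) - G A B (u + Real.pi * I)) *
        (exp u / (exp u + exp ((Real.log s' : ℝ) : ℂ))) =
        |Real.exp u| • (J (Real.exp u) / (((Real.exp u : ℝ) : ℂ) + s')) := by
      intro u
      rw [hexp, G_neg (by simp; exact hpi), G_pos (by simp; exact hpi.le),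
        hJ _ (Real.exp_pos u), Real.log_exp, abs_of_pos (Real.exp_pos u), ofReal_exp,
        Complex.real_smul, ofReal_exp]
      ring
    have himg : Real.exp '' univ = Ioi 0 := by rw [image_univ, Real.range_exp]
    have hder : ∀ x ∈ (univ : Set ℝ), HasDerivWithinAt Real.exp (Real.exp x) univ x :=
      fun x _ => (Real.hasDerivAt_exp x).hasDerivWithinAt
    have hI : Integrable (fun u : ℝ => (G A B (u - Real.pi * I) - G A B (u + Real.pi * I)) *
        (exp u / (exp u + exp ((Real.log s' : ℝ) : ℂ)))) := by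
      have h1 := (integrableOn_image_iff_integrableOn_abs_deriv_smul MeasurableSet.univ hder
        Real.exp_injective.injOn (fun s : ℝ => J s / ((s : ℂ) + s'))).1 (by rw [himg]; exact hint)
      rw [integrableOn_univ] at h1
      refine h1.congr (Eventually.of_forall fun u => ?_)
      exact (hF u).symm
    have h2 := integral_image_eq_integral_abs_deriv_smul MeasurableSet.univ hder
        Real.exp_injective.injOn (fun s : ℝ => J s / ((s : ℂ) + s'))
    rw [himg] at h2
    rw [h2, Measure.restrict_univ]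
    have h3 := intervalIntegral_tendsto_integral hI tendsto_neg_atTop_atBot tendsto_id
    have h4 := tendsto_nhds_unique key h3
    rw [G_pos (by simp)] at h4
    rw [h4]
    exact integral_congr_ae (Eventually.of_forall fun u => (hF u).symm)
  · intro η hη
    obtain ⟨T, hT⟩ := hright η hη
    refine ⟨T, fun v hv hvi => ?_⟩
    have hvi' := abs_le.mp hvi
    by_cases h : 0 ≤ v.im
    · rw [G_pos h]; exact (hT v hv).1 h hvi'.2
    · rw [G_neg (not_le.mp h)]; exact (hT v hv).2 hvi'.1 (not_le.mp h).le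
  · intro η hη
    obtain ⟨T, hT⟩ := hleft η hη
    refine ⟨T, fun v hv hvi => ?_⟩
    have hvi' := abs_le.mp hvi
    by_cases h : 0 ≤ v.im
    · rw [G_pos h]; exact (hT v hv).1 h hvi'.2
    · rw [G_neg (not_le.mp h)]; exact (hT v hv).2 hvi'.1 (not_le.mp h).le

end Pool.Agent.RHB
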