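import Pool.Agent.RHB.Stmts
set_option autoImplicit false
open Matrix Complex Filter Topology MeasureTheory Set
namespace Pool.Agent.RHB

namespace CNT_

/-- entrywise differentiability -/
def DM {m n : Type} (s : Set ℂ) (f : ℂ → Matrix m n ℂ) : Prop :=
  ∀ i j, DifferentiableOn ℂ (fun w => f w i j) s

theorem DM.mul {l m n : Type} [Fintype m] {s : Set ℂ} {f : ℂ → Matrix l m ℂ}
    {g : ℂ → Matrix m n ℂ} (hf : DM s f) (hg : DM s g) : DM s (fun w => f w * g w) := by
  intro i j
  simp only [Matrix.mul_apply]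
  exact DifferentiableOn.fun_sum fun k _ => (hf i k).fun_mul (hg k j)

theorem DM.const {m n : Type} (s : Set ℂ) (A : Matrix m n ℂ) : DM s (fun _ => A) :=
  fun _ _ => differentiableOn_const _

theorem DM.blocks {l m n o : Type} {s : Set ℂ} {f : ℂ → Matrix l n ℂ} {g : ℂ → Matrix m o ℂ}
    (hf : DM s f) (hg : DM s g) : DM s (fun w => fromBlocks (f w) 0 0 (g w)) := by
  intro i j
  rcases i with i | i <;> rcases j with j | j
  · simpa using hf i j
  · simp
  · simp
  · simpa using hg i j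

theorem strip_open (c r : ℝ) : IsOpen {w : ℂ | |w.im - c| < r} :=
  isOpen_lt (by fun_prop) continuous_const

theorem strip_convex (c r : ℝ) : Convex ℝ {w : ℂ | |w.im - c| < r} := by
  have h : {w : ℂ | |w.im - c| < r} = Complex.imLm ⁻¹' Metric.ball c r := by
    ext w
    simp [Real.dist_eq]
  rw [h]
  exact (convex_ball c r).linear_preimage _

theorem ident {f g : ℂ → ℂ} {c r : ℝ} {w₀ : ℂ} (hf : DifferentiableOn ℂ f {w | |w.im - c| < r})
    (hg : DifferentiableOn ℂ g {w | |w.im - c| < r}) (h0 : |w₀.im - c| < r)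
    (h : f =ᶠ[𝓝 w₀] g) : ∀ w : ℂ, |w.im - c| < r → f w = g w := by
  have ho := strip_open c r
  have := (hf.analyticOnNhd ho).eqOn_of_preconnected_of_eventuallyEq (hg.analyticOnNhd ho)
    (strip_convex c r).isPreconnected h0 h
  exact fun w hw => this hw

end CNT_

open CNT_

theorem cnt_proof (hLDB : Stmt_LDB) (hINV : Stmt_INV) : Stmt_CNT := by
  intro d L ρ φ ε Yinf Yp Ym hε hL hS
  obtain ⟨⟨hY1, -, -⟩, -, hYm, -, hP, hM, -⟩ := hS
  obtain ⟨hLam, -, -, -⟩ := hLDB
  obtain ⟨-, -, hpX, hpZ, hpT⟩ := hINV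
  set s : Set ℂ := {w : ℂ | |w.im - (φ - Real.pi)| < Real.pi / 2 + ε} with hs
  have hpi := Real.pi_pos
  -- left side
  have e1 : DM s (fun w => Ym (exp w)) := by
    intro i j
    exact (hYm i j).comp Complex.differentiable_exp.differentiableOn fun w hw => ⟨w, rfl, hw⟩
  have e2 : DM s (fun w => L 0 (exp w)) := by
    have h1 : ∀ w, L 0 (exp w) = Lam (exp (-w)) := by
      intro w
      rw [hL _ (exp_ne_zero w), exp_neg]
    intro i j
    simp only [h1]
    have h2 : Differentiable ℂ fun w : ℂ => exp (-w) := by fun_prop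
    exact ((hLam i j).comp h2).differentiableOn
  have e3 : DM s (fun w => exp (-(ρ 0 * exp (-w))) • (1 - (ρ 1 * exp (-w)) • hZ)) := by
    intro i j
    simp only [Matrix.smul_apply, Matrix.sub_apply, smul_eq_mul]
    fun_prop
  have e4 : DM s (fun w => Psi L ρ w) :=
    (e2.mul fun i j => (hpX i j).differentiableOn).blocks
      (e3.mul fun i j => (hpZ i j).differentiableOn)
  have e5 : DM s (fun w => Ym (exp w) * (Psi L ρ w * gram0ᵀ⁻¹) * (gram d)ᵀ) :=
    (e1.mul (e4.mul (DM.const s _))).mul (DM.const s _)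
  -- right side
  have e6 : DM s (fun w => Yinf (exp (-w))) := by
    intro i j
    have h2 : Differentiable ℂ fun w : ℂ => exp (-w) := by fun_prop
    exact ((hY1 i j).comp h2).differentiableOn
  have e7 : DM s (fun w => Yinf (exp (-w)) * (psiT d w * ch d)) :=
    e6.mul (DM.mul (fun i j => (hpT d i j).differentiableOn) (DM.const s _))
  -- equality on a smaller strip
  have heq : ∀ w : ℂ, |w.im - (φ - Real.pi / 2)| < ε →
      Ym (exp w) * (Psi L ρ w * gram0ᵀ⁻¹) * (gram d)ᵀ = Yinf (exp (-w)) * (psiT d w * ch d) := by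
    intro w hw
    rw [hM w hw]
    apply hP
    have := abs_lt.1 hw
    rw [abs_lt]
    constructor <;> linarith [this.1, this.2]
  obtain ⟨w₀, hw₀⟩ : ∃ w₀ : ℂ, w₀.im = φ - Real.pi / 2 :=
    ⟨⟨0, φ - Real.pi / 2⟩, rfl⟩
  have h0 : |w₀.im - (φ - Real.pi)| < Real.pi / 2 + ε := by
    rw [hw₀, abs_lt]
    constructor <;> linarith
  have hnear : ∀ᶠ w in 𝓝 w₀, |w.im - (φ - Real.pi / 2)| < ε := by
    have h1 : w₀ ∈ {w : ℂ | |w.im - (φ - Real.pi / 2)| < ε} := by
      show |w₀.im - (φ - Real.pi / 2)| < ε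
      rw [hw₀, sub_self, abs_zero]
      exact hε
    exact (strip_open _ _).mem_nhds h1
  intro w hw
  ext i j
  refine ident (e5 i j) (e7 i j) h0 ?_ w hw
  filter_upwards [hnear] with w hw
  rw [heq w hw]

end Pool.Agent.RHB
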