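import Mathlib

/-! Data of the Riemann-Hilbert problem (RH) for the blow-up of P^3 along an elliptic curve Z of degree d.
Bases of the even cohomology: 1, H, H^2, H^3 for P^3; 1, h (class of a point) for Z;
1, H, E, H^2, l, pt for the blow-up (l = fibre of E over Z, H E = d l, E^2 = - d H^2 + 4 d l, E l = - pt).
K-theory tensor C is identified with the even cohomology by the Chern character. -/

set_option autoImplicit false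

open Matrix Complex Filter Topology

namespace Pool.Agent.RHB

/-- multiplication by `H` on `H(P^3)` -/
def hX : Matrix (Fin 4) (Fin 4) ℂ := !![0, 0, 0, 0; 1, 0, 0, 0; 0, 1, 0, 0; 0, 0, 1, 0]

/-- quantum multiplication by `H` at the point `t H` of `H(P^3)` -/
noncomputable def qX (t : ℂ) : Matrix (Fin 4) (Fin 4) ℂ := !![0, 0, 0, exp t; 1, 0, 0, 0; 0, 1, 0, 0; 0, 0, 1, 0]

/-- multiplication by the point class `h` on `H(Z)` -/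
def hZ : Matrix (Fin 2) (Fin 2) ℂ := !![0, 0; 1, 0]

/-- multiplication by `H` on the cohomology of the blow-up -/
def hT (d : ℂ) : Matrix (Fin 6) (Fin 6) ℂ :=
  !![0, 0, 0, 0, 0, 0; 1, 0, 0, 0, 0, 0; 0, 0, 0, 0, 0, 0; 0, 1, 0, 0, 0, 0; 0, 0, d, 0, 0, 0; 0, 0, 0, 1, 0, 0]

/-- multiplication by `E` on the cohomology of the blow-up -/
def eT (d : ℂ) : Matrix (Fin 6) (Fin 6) ℂ :=
  !![0, 0, 0, 0, 0, 0; 0, 0, 0, 0, 0, 0; 1, 0, 0, 0, 0, 0; 0, 0, -d, 0, 0, 0; 0, d, 4 * d, 0, 0, 0; 0, 0, 0, 0, -1, 0]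

/-- exponential of a class of positive degree (dimension at most 3) -/
noncomputable def nexp {n : ℕ} (A : Matrix (Fin n) (Fin n) ℂ) : Matrix (Fin n) (Fin n) ℂ :=
  1 + A + (1 / 2 : ℂ) • A ^ 2 + (1 / 6 : ℂ) • A ^ 3

/-- the Gamma class with Chern classes `c₁, c₂, c₃` -/
noncomputable def gam {n : ℕ} (c₁ c₂ c₃ : Matrix (Fin n) (Fin n) ℂ) : Matrix (Fin n) (Fin n) ℂ :=
  nexp (-(Real.eulerMascheroniConstant : ℂ) • c₁ + (riemannZeta 2 / 2) • (c₁ ^ 2 - 2 • c₂)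
    - (riemannZeta 3 / 3) • (c₁ ^ 3 - 3 • (c₁ * c₂) + 3 • c₃))

/-- the Todd class with Chern classes `c₁, c₂` -/
noncomputable def td {n : ℕ} (c₁ c₂ : Matrix (Fin n) (Fin n) ℂ) : Matrix (Fin n) (Fin n) ℂ :=
  1 + (1 / 2 : ℂ) • c₁ + (1 / 12 : ℂ) • (c₁ ^ 2 + c₂) + (1 / 24 : ℂ) • (c₁ * c₂)

/-- complex degrees of the basis elements -/
def degX : Fin 4 → ℕ := ![0, 1, 2, 3]
/-- complex degrees of the basis elements -/
def degZ : Fin 2 → ℕ := ![0, 1]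
/-- complex degrees of the basis elements -/
def degT : Fin 6 → ℕ := ![0, 1, 1, 2, 2, 3]

/-- `(2 pi)^(-N/2) z^(-mu) z^(c₁) Gamma (2 pi i)^deg`, `z = exp w` -/
noncomputable def psi (N : ℕ) {n : ℕ} (deg : Fin n → ℕ) (c₁ g : Matrix (Fin n) (Fin n) ℂ) (w : ℂ) :
    Matrix (Fin n) (Fin n) ℂ :=
  ((2 * Real.pi : ℝ) : ℂ) ^ (-(N : ℂ) / 2) •
    (diagonal (fun i => exp (-(w * ((deg i : ℂ) - (N : ℂ) / 2)))) * nexp (w • c₁) * g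
      * diagonal (fun i => (2 * Real.pi * I) ^ deg i))

/-- `Psi_infty` of `P^3` -/
noncomputable def psiX (w : ℂ) : Matrix (Fin 4) (Fin 4) ℂ :=
  psi 3 degX (4 • hX) (gam (4 • hX) (6 • hX ^ 2) (4 • hX ^ 3)) w

/-- `Psi_infty` of the elliptic curve -/
noncomputable def psiZ (w : ℂ) : Matrix (Fin 2) (Fin 2) ℂ := psi 1 degZ 0 (gam 0 0 0) w

/-- first Chern class of the blow-up -/
noncomputable def c1T (d : ℂ) : Matrix (Fin 6) (Fin 6) ℂ := 4 • hT d - eT d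
/-- second Chern class of the blow-up -/
noncomputable def c2T (d : ℂ) : Matrix (Fin 6) (Fin 6) ℂ := (6 + d) • hT d ^ 2 - 4 • (hT d * eT d)
/-- third Chern class of the blow-up -/
noncomputable def c3T (d : ℂ) : Matrix (Fin 6) (Fin 6) ℂ := 4 • hT d ^ 3

/-- `Psi_infty` of the blow-up -/
noncomputable def psiT (d w : ℂ) : Matrix (Fin 6) (Fin 6) ℂ :=
  psi 3 degT (c1T d) (gam (c1T d) (c2T d) (c3T d)) w

/-- Poincare pairings -/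
def pX : Matrix (Fin 4) (Fin 4) ℂ := !![0, 0, 0, 1; 0, 0, 1, 0; 0, 1, 0, 0; 1, 0, 0, 0]
/-- Poincare pairing of `Z` -/
def pZ : Matrix (Fin 2) (Fin 2) ℂ := !![0, 1; 1, 0]
/-- Poincare pairing of the blow-up -/
def pT : Matrix (Fin 6) (Fin 6) ℂ :=
  !![0, 0, 0, 0, 0, 1; 0, 0, 0, 1, 0, 0; 0, 0, 0, 0, -1, 0; 0, 1, 0, 0, 0, 0; 0, 0, -1, 0, 0, 0; 1, 0, 0, 0, 0, 0]

/-- the Euler form `chi(a, b) = int a^dual b td` -/
noncomputable def euler {n : ℕ} (deg : Fin n → ℕ) (p t : Matrix (Fin n) (Fin n) ℂ) :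
    Matrix (Fin n) (Fin n) ℂ := diagonal (fun i => (-1) ^ deg i) * p * t

/-- Euler form of `P^3` -/
noncomputable def chiX : Matrix (Fin 4) (Fin 4) ℂ := euler degX pX (td (4 • hX) (6 • hX ^ 2))
/-- Euler form of `Z` -/
noncomputable def chiZ : Matrix (Fin 2) (Fin 2) ℂ := euler degZ pZ (td 0 0)
/-- Euler form of the blow-up -/
noncomputable def chiT (d : ℂ) : Matrix (Fin 6) (Fin 6) ℂ := euler degT pT (td (c1T d) (c2T d))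

/-- pull-back `H(P^3) → H(blow-up)` -/
def phi : Matrix (Fin 6) (Fin 4) ℂ :=
  !![1, 0, 0, 0; 0, 1, 0, 0; 0, 0, 0, 0; 0, 0, 1, 0; 0, 0, 0, 0; 0, 0, 0, 1]

/-- `j_* pi^* : H(Z) → H(blow-up)`, `1 ↦ E`, `h ↦ l` -/
def jpi : Matrix (Fin 6) (Fin 2) ℂ := !![0, 0; 0, 0; 1, 0; 0, 0; 0, 1; 0, 0]

/-- Chern character of `K(P^3) + K(Z)_0 → K(blow-up)`, `(a, b) ↦ phi^* a + j_* pi^* b`
(Grothendieck-Riemann-Roch: factor `(1 - exp(-E)) / E`) -/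
noncomputable def ch (d : ℂ) : Matrix (Fin 6) (Fin 4 ⊕ Fin 2) ℂ :=
  fromCols phi ((1 - (1 / 2 : ℂ) • eT d + (1 / 6 : ℂ) • eT d ^ 2) * jpi)

/-- Euler form on `K(blow-up) = K(P^3) + K(Z)_0` -/
noncomputable def gram (d : ℂ) : Matrix (Fin 4 ⊕ Fin 2) (Fin 4 ⊕ Fin 2) ℂ := (ch d)ᵀ * chiT d * ch d

/-- direct sum of the Euler forms of `P^3` and `Z` -/
noncomputable def gram0 : Matrix (Fin 4 ⊕ Fin 2) (Fin 4 ⊕ Fin 2) ℂ := fromBlocks chiX 0 0 chiZ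

/-- `L` is the fundamental solution of the small quantum connection of `P^3` -/
def IsFund (L : ℂ → ℂ → Matrix (Fin 4) (Fin 4) ℂ) : Prop :=
  ∀ z : ℂ, z ≠ 0 →
    (∀ t i j, HasDerivAt (fun t => L t z i j) (-(z⁻¹ * (qX t * L t z) i j)) t) ∧
    ∃ C : ℝ, ∀ t : ℂ, t.re ≤ 0 → ∀ i j, ‖(L t z * nexp ((t / z) • hX) - 1) i j‖ ≤ C * Real.exp t.re

/-- `Psi(a, b) = s_X(a)(0, z) + s_Z(b)(rho, z)`, `z = exp w` -/
noncomputable def Psi (L : ℂ → ℂ → Matrix (Fin 4) (Fin 4) ℂ) (ρ : Fin 2 → ℂ) (w : ℂ) :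
    Matrix (Fin 4 ⊕ Fin 2) (Fin 4 ⊕ Fin 2) ℂ :=
  fromBlocks (L 0 (exp w) * psiX w) 0 0
    ((exp (-(ρ 0 * exp (-w))) • (1 - (ρ 1 * exp (-w)) • hZ)) * psiZ w)

/-- the sector `|arg z - θ| < pi / 2 + ε` -/
def sector (θ ε : ℝ) : Set ℂ := {z | ∃ w : ℂ, exp w = z ∧ |w.im - θ| < Real.pi / 2 + ε}

/-- `(Yinf, Yp, Ym)` solves (RH); `Yinf` is written in the coordinate `1 / z` -/
def RHSol (d : ℂ) (L : ℂ → ℂ → Matrix (Fin 4) (Fin 4) ℂ) (ρ : Fin 2 → ℂ) (φ ε : ℝ)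
    (Yinf : ℂ → Matrix (Fin 6) (Fin 6) ℂ) (Yp Ym : ℂ → Matrix (Fin 6) (Fin 4 ⊕ Fin 2) ℂ) : Prop :=
  ((∀ i j, Differentiable ℂ fun x => Yinf x i j) ∧ (∀ x, IsUnit (Yinf x)) ∧ Yinf 0 = 1) ∧
  (∀ i j, DifferentiableOn ℂ (fun z => Yp z i j) (sector φ ε)) ∧
  (∀ i j, DifferentiableOn ℂ (fun z => Ym z i j) (sector (φ - Real.pi) ε)) ∧
  (∃ (Y₀ : Matrix (Fin 6) (Fin 4 ⊕ Fin 2) ℂ) (Z₀ : Matrix (Fin 4 ⊕ Fin 2) (Fin 6) ℂ),
    Y₀ * Z₀ = 1 ∧ Z₀ * Y₀ = 1 ∧ Tendsto Yp (𝓝[sector φ ε] 0) (𝓝 Y₀) ∧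
      Tendsto Ym (𝓝[sector (φ - Real.pi) ε] 0) (𝓝 Y₀)) ∧
  (∀ w : ℂ, |w.im - φ| < Real.pi / 2 + ε →
    Yp (exp w) * Psi L ρ w = Yinf (exp (-w)) * (psiT d w * ch d)) ∧
  (∀ w : ℂ, |w.im - (φ - Real.pi / 2)| < ε →
    Ym (exp w) * (Psi L ρ w * gram0ᵀ⁻¹) * (gram d)ᵀ = Yp (exp w) * Psi L ρ w) ∧
  (∀ w : ℂ, |w.im - (φ + Real.pi / 2)| < ε →
    Ym (exp w) * (Psi L ρ (w - 2 * Real.pi * I) * gram0ᵀ⁻¹) * gram d = Yp (exp w) * Psi L ρ w)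

/-- the condition on `ρ` and `φ` in (RH) at `σ = 0`, with separation at least `R` -/
def Admissible (ρ : Fin 2 → ℂ) (φ R : ℝ) : Prop :=
  ∀ v ∈ spectrum ℂ (4 • qX 0), ∀ u ∈ spectrum ℂ (ρ 0 • (1 : Matrix (Fin 2) (Fin 2) ℂ)),
    R ≤ ‖v - u‖ ∧ (exp (-(φ * I)) * u).im < (exp (-(φ * I)) * v).im

end Pool.Agent.RHB
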