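import Pool.Agent.RHB.Stmts

/-!
# Squad RHB, module EAS: the constant `c` is not zero for large `U`
-/

set_option autoImplicit false

open Matrix Complex Filter Topology MeasureTheory Set

namespace Pool.Agent.RHB

namespace EAS_

/-- the integrals of `s ^ n * exp (- a s)` -/
theorem int_pow (n : ℕ) {a : ℝ} (ha : 0 < a) :
    IntegrableOn (fun s : ℝ => s ^ n * Real.exp (-(a * s))) (Ioi 0) ∧
      ∫ s in Ioi (0 : ℝ), s ^ n * Real.exp (-(a * s)) = (n.factorial : ℝ) / a ^ (n + 1) := by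
  constructor
  · have h := integrableOn_rpow_mul_exp_neg_mul_rpow (p := 1) (s := (n : ℝ)) (b := a)
      (by have := (Nat.cast_nonneg n : (0 : ℝ) ≤ n); linarith) one_pos ha
    refine h.congr_fun ?_ measurableSet_Ioi
    intro s _
    simp only [Real.rpow_natCast, Real.rpow_one, neg_mul]
  · have h := Real.integral_rpow_mul_exp_neg_mul_Ioi (a := (n : ℝ) + 1) (r := a) (by positivity) ha
    rw [Real.Gamma_nat_eq_factorial] at h
    have h2 : ∫ s in Ioi (0 : ℝ), s ^ n * Real.exp (-(a * s)) =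
        ∫ t in Ioi (0 : ℝ), t ^ ((n : ℝ) + 1 - 1) * Real.exp (-(a * t)) := by
      refine setIntegral_congr_fun measurableSet_Ioi ?_
      intro s _
      simp only [add_sub_cancel_right, Real.rpow_natCast]
    rw [h2, h]
    have h3 : (1 / a : ℝ) ^ ((n : ℝ) + 1) = 1 / a ^ (n + 1) := by
      rw [show ((n : ℝ) + 1) = ((n + 1 : ℕ) : ℝ) by push_cast; ring, Real.rpow_natCast, one_div,
        inv_pow, one_div]
    rw [h3]
    ring

theorem kq_bound : ∃ M : ℝ, 0 < M ∧ ∀ s : ℝ, 0 < s → ‖kq s‖ ≤ M * Real.exp s := by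
  refine ⟨8 + 4 * ‖γ‖ + 2 * Real.pi, by positivity, ?_⟩
  intro s hs
  have h1 : |Real.log s| ≤ s + s⁻¹ := by
    rw [abs_le]
    constructor
    · have := Real.log_le_sub_one_of_pos (inv_pos.mpr hs)
      rw [Real.log_inv] at this
      linarith
    · have := Real.log_le_sub_one_of_pos hs
      have h2 := inv_pos.mpr hs
      linarith
  have h2 : s * |Real.log s| ≤ s ^ 2 + 1 := by
    calc s * |Real.log s| ≤ s * (s + s⁻¹) := mul_le_mul_of_nonneg_left h1 hs.le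
      _ = s ^ 2 + 1 := by field_simp
  have h3 : 1 + s + s ^ 2 / 2 ≤ Real.exp s := Real.quadratic_le_exp_of_nonneg hs.le
  have h4 : ‖kq s‖ ≤ s * (4 * |Real.log s| + 4 * ‖γ‖ + 2 * Real.pi) := by
    unfold kq
    rw [norm_mul, norm_mul, Complex.norm_I, one_mul, Complex.norm_real, Real.norm_eq_abs,
      abs_of_pos hs]
    refine mul_le_mul_of_nonneg_left ?_ hs.le
    refine (norm_add_le _ _).trans ?_
    refine add_le_add ((norm_add_le _ _).trans ?_) ?_
    · rw [norm_mul, norm_mul, Complex.norm_real, Real.norm_eq_abs]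
      simp
    · rw [norm_mul, norm_mul, Complex.norm_I, mul_one, Complex.norm_real, Real.norm_eq_abs,
        abs_of_pos Real.pi_pos]
      simp
  have hγ := norm_nonneg γ
  have hpi := Real.pi_pos
  nlinarith [mul_nonneg hs.le hγ, mul_pos hs hpi, mul_nonneg hγ (sq_nonneg s),
    mul_nonneg hpi.le (sq_nonneg s)]

/-- the integrand without the exponential -/
noncomputable def F (s s' : ℝ) : Matrix (Fin 4) (Fin 4) ℂ := Lami (I * s') * Lam (-(I * s))

theorem vec_eq (d : ℂ) (v : Fin 2 → ℂ) (s' : ℝ) (N : Matrix (Fin 4) (Fin 4) ℂ) (j : Fin 4) :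
    (v ᵥ* (km d s' * N)) j = (v 0 + v 1 * (d * kq s')) * N 0 j + v 1 * d * N 1 j := by
  simp only [Matrix.vecMul, dotProduct, Matrix.mul_apply, km, Fin.sum_univ_four, Fin.sum_univ_two]
  simp
  ring

/-- bounds and integrability of one integrand -/
theorem g_bound {d : ℂ} {U M : ℝ} (hM : 1 ≤ M) (hU : 4 * M + 8 ≤ U) {y : ℝ → Fin 2 → ℂ}
    (hyc : ∀ j, ContinuousOn (fun s => y s j) (Ioi 0))
    (hd : ‖d‖ ≤ M) (hkq : ∀ s : ℝ, 0 < s → ‖kq s‖ ≤ M * Real.exp s)
    (hy : ∀ s : ℝ, 0 < s → ‖y s 0‖ ≤ M + 1 ∧ ‖y s 1‖ ≤ M)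
    {N : ℝ → Matrix (Fin 4) (Fin 4) ℂ} (hNc : ∀ i j, Continuous fun s => N s i j) {B : ℝ}
    (hN : ∀ s : ℝ, 0 < s → ∀ i j, ‖N s i j‖ ≤ B * Real.exp (M * s)) {s : ℝ} (hs : 0 < s)
    (j : Fin 4) :
    IntegrableOn (fun s' : ℝ => (s' : ℂ) * exp (-(U * s')) * (y s' ᵥ* (km d s' * N s')) j
      / ((s : ℂ) + s')) (Ioi 0) := by
  have hkqc : ContinuousOn kq (Ioi 0) := by
    unfold kq
    refine ContinuousOn.mul (by fun_prop) ?_
    refine ContinuousOn.add (ContinuousOn.add ?_ continuousOn_const) continuousOn_const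
    refine continuousOn_const.mul ?_
    refine Complex.continuous_ofReal.comp_continuousOn ?_
    exact Real.continuousOn_log.mono (fun x hx => (ne_of_gt hx : x ≠ 0))
  have hvec : ContinuousOn (fun s' : ℝ => (y s' ᵥ* (km d s' * N s')) j) (Ioi 0) := by
    simp only [vec_eq]
    refine ContinuousOn.add (ContinuousOn.mul (ContinuousOn.add (hyc 0) ((hyc 1).mul
      (continuousOn_const.mul hkqc))) (hNc 0 j).continuousOn) ?_
    exact ((hyc 1).mul continuousOn_const).mul (hNc 1 j).continuousOn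
  have hden : ContinuousOn (fun s' : ℝ => ((s : ℂ) + s')) (Ioi 0) := by fun_prop
  have hcont : ContinuousOn (fun s' : ℝ => (s' : ℂ) * exp (-(U * s')) *
      (y s' ᵥ* (km d s' * N s')) j / ((s : ℂ) + s')) (Ioi 0) := by
    refine ContinuousOn.div (ContinuousOn.mul (by fun_prop) hvec) hden ?_
    intro s' hs'
    have h1 : (0 : ℝ) < s + s' := add_pos hs hs'
    rw [← Complex.ofReal_add]
    exact_mod_cast h1.ne'
  have hB : 0 ≤ B := by
    have h1 := (norm_nonneg _).trans (hN 1 one_pos 0 0)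
    by_contra hneg
    push Not at hneg
    have := mul_neg_of_neg_of_pos hneg (Real.exp_pos (M * 1))
    linarith
  have hint := (int_pow 0 (a := U - (M + 1)) (by linarith)).1
  refine Integrable.mono' (hint.const_mul ((M + 1 + M * (M * M) + M * M) * B)) ?_ ?_
  · exact hcont.aestronglyMeasurable measurableSet_Ioi
  · refine (ae_restrict_iff' measurableSet_Ioi).mpr (Eventually.of_forall ?_)
    intro s' hs'
    have hs'0 : (0 : ℝ) < s' := hs'
    have hsum : (0 : ℝ) < s + s' := add_pos hs hs'0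
    rw [norm_div, norm_mul, norm_mul, Complex.norm_real, Real.norm_eq_abs, abs_of_pos hs'0]
    have e1 : ‖exp (-((U : ℂ) * s'))‖ = Real.exp (-(U * s')) := by
      rw [Complex.norm_exp]; simp
    have e2 : ‖(s : ℂ) + s'‖ = s + s' := by
      rw [← Complex.ofReal_add, Complex.norm_real, Real.norm_eq_abs, abs_of_pos hsum]
    rw [e1, e2, vec_eq]
    obtain ⟨hy0, hy1⟩ := hy s' hs'0
    have hk := hkq s' hs'0
    have hE := Real.exp_pos s'
    have hE1 : 1 ≤ Real.exp s' := Real.one_le_exp hs'0.le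
    have hEM := Real.exp_pos (M * s')
    have hn0 := hN s' hs'0 0 j
    have hn1 := hN s' hs'0 1 j
    have hM0 : 0 ≤ M := by linarith
    have b1 : ‖y s' 0 + y s' 1 * (d * kq s')‖ ≤ (M + 1 + M * (M * M)) * Real.exp s' := by
      refine (norm_add_le _ _).trans ?_
      rw [norm_mul, norm_mul]
      have h1 : ‖y s' 1‖ * (‖d‖ * ‖kq s'‖) ≤ M * (M * (M * Real.exp s')) := by gcongr
      nlinarith
    have b2 : ‖y s' 1 * d‖ ≤ M * M * Real.exp s' := by
      rw [norm_mul]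
      have h1 : ‖y s' 1‖ * ‖d‖ ≤ M * M := by gcongr
      nlinarith [mul_nonneg hM0 hM0]
    have b3 : ‖(y s' 0 + y s' 1 * (d * kq s')) * N s' 0 j + y s' 1 * d * N s' 1 j‖ ≤
        (M + 1 + M * (M * M) + M * M) * B * (Real.exp s' * Real.exp (M * s')) := by
      refine (norm_add_le _ _).trans ?_
      rw [norm_mul, norm_mul (y s' 1 * d)]
      calc ‖y s' 0 + y s' 1 * (d * kq s')‖ * ‖N s' 0 j‖ + ‖y s' 1 * d‖ * ‖N s' 1 j‖
          ≤ (M + 1 + M * (M * M)) * Real.exp s' * (B * Real.exp (M * s'))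
            + M * M * Real.exp s' * (B * Real.exp (M * s')) := by gcongr
        _ = _ := by ring
    have b4 : s' / (s + s') ≤ 1 := by
      rw [div_le_one hsum]; linarith
    have b5 : 0 ≤ s' / (s + s') := by positivity
    have hexp : Real.exp (-(U * s')) * (Real.exp s' * Real.exp (M * s')) =
        Real.exp (-((U - (M + 1)) * s')) := by
      rw [← Real.exp_add, ← Real.exp_add]; congr 1; ring
    calc s' * Real.exp (-(U * s')) * ‖(y s' 0 + y s' 1 * (d * kq s')) * N s' 0 j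
          + y s' 1 * d * N s' 1 j‖ / (s + s')
        = (s' / (s + s')) * (Real.exp (-(U * s')) * ‖(y s' 0 + y s' 1 * (d * kq s')) * N s' 0 j
          + y s' 1 * d * N s' 1 j‖) := by ring
      _ ≤ 1 * (Real.exp (-(U * s')) *
          ((M + 1 + M * (M * M) + M * M) * B * (Real.exp s' * Real.exp (M * s')))) := by gcongr
      _ = (M + 1 + M * (M * M) + M * M) * B *
          (Real.exp (-(U * s')) * (Real.exp s' * Real.exp (M * s'))) := by ring
      _ = (M + 1 + M * (M * M) + M * M) * B * (s' ^ 0 * Real.exp (-((U - (M + 1)) * s'))) := by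
          rw [hexp, pow_zero, one_mul]

/-- the formula for `(P Lam) 3` -/
theorem f_eq {d : ℂ} {U M : ℝ} (hM : 1 ≤ M) (hU : 4 * M + 8 ≤ U) {y : ℝ → Fin 2 → ℂ}
    {P : ℝ → Fin 4 → ℂ} (hyc : ∀ j, ContinuousOn (fun s => y s j) (Ioi 0))
    (hd : ‖d‖ ≤ M) (hkq : ∀ s : ℝ, 0 < s → ‖kq s‖ ≤ M * Real.exp s)
    (hy : ∀ s : ℝ, 0 < s → ‖y s 0‖ ≤ M + 1 ∧ ‖y s 1‖ ≤ M)
    (hLc : ∀ i j, Continuous fun s : ℝ => Lami (I * s) i j)
    (hL : ∀ s : ℝ, 0 < s → ∀ i j, ‖Lami (I * s) i j‖ ≤ M * Real.exp (M * s))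
    (hP : ∀ s : ℝ, 0 < s → ∀ j, P s j =
      -∫ s' in Ioi (0 : ℝ), s' * exp (-(U * s')) * (y s' ᵥ* (km d s' * Lami (I * s'))) j
        / ((s : ℂ) + s')) {s : ℝ} (hs : 0 < s) :
    (P s ᵥ* Lam (-(I * s))) 3 = -∫ s' in Ioi (0 : ℝ), s' * exp (-(U * s')) *
      ((y s' 0 + y s' 1 * (d * kq s')) * F s s' 0 3 + y s' 1 * d * F s s' 1 3)
        / ((s : ℂ) + s') := by
  have hint : ∀ j, IntegrableOn (fun s' : ℝ => (s' : ℂ) * exp (-(U * s')) *
      (y s' ᵥ* (km d s' * Lami (I * s'))) j / ((s : ℂ) + s')) (Ioi 0) := fun j =>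
    g_bound hM hU hyc hd hkq hy hLc hL hs j
  have h1 : (P s ᵥ* Lam (-(I * s))) 3 = ∑ j, P s j * Lam (-(I * s)) j 3 := rfl
  rw [h1]
  simp only [hP s hs, neg_mul]
  rw [Finset.sum_neg_distrib]
  congr 1
  have h2 : ∀ j : Fin 4, (∫ s' in Ioi (0 : ℝ), (s' : ℂ) * exp (-(U * s')) *
      (y s' ᵥ* (km d s' * Lami (I * s'))) j / ((s : ℂ) + s')) * Lam (-(I * s)) j 3 =
      ∫ s' in Ioi (0 : ℝ), (s' : ℂ) * exp (-(U * s')) *
      (y s' ᵥ* (km d s' * Lami (I * s'))) j / ((s : ℂ) + s') * Lam (-(I * s)) j 3 := fun j =>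
    (integral_mul_const _ _).symm
  simp only [h2]
  rw [← integral_finsetSum _ (fun j _ => (hint j).mul_const _)]
  refine setIntegral_congr_fun measurableSet_Ioi ?_
  intro s' _
  simp only [vec_eq, F, Matrix.mul_apply, Fin.sum_univ_four]
  ring


theorem norm_e (U s : ℝ) : ‖exp (-((U : ℂ) * s))‖ = Real.exp (-(U * s)) := by
  rw [Complex.norm_exp]; simp

/-- complex version of the first moment -/
theorem int_c {U : ℝ} (hU : 0 < U) (z : ℂ) :
    IntegrableOn (fun s : ℝ => (s : ℂ) * exp (-(U * s)) * z) (Ioi 0) ∧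
      ∫ s in Ioi (0 : ℝ), (s : ℂ) * exp (-(U * s)) * z = z / U ^ 2 := by
  obtain ⟨h1, h2⟩ := int_pow 1 hU
  have h3 : ∀ s : ℝ, (s : ℂ) * exp (-(U * s)) = ((s ^ 1 * Real.exp (-(U * s)) : ℝ) : ℂ) := by
    intro s
    push_cast
    ring
  constructor
  · simp only [h3]
    exact (Integrable.ofReal h1).mul_const z
  · simp only [h3]
    rw [integral_mul_const, integral_complex_ofReal, h2]
    push_cast
    simp
    ring

/-- the pointwise estimate of the numerator -/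
theorem num_bound {M U s s' : ℝ} (hM : 1 ≤ M) (hU : 0 < U) (hs : 0 < s) (hs' : 0 < s')
    {d y0 y1 k F0 F1 : ℂ} (hd : ‖d‖ ≤ M) (hk : ‖k‖ ≤ M * Real.exp s')
    (hy0 : ‖y0 - 1‖ ≤ M / U ^ 2) (hy1 : ‖y1‖ ≤ M / U ^ 2)
    (hF1 : ‖F1‖ ≤ M * (s + s') * Real.exp (M * (s + s')))
    (hF0 : ‖F0 - I * (s + s')‖ ≤ M * (s + s') ^ 2 * Real.exp (M * (s + s'))) :
    ‖(y0 + y1 * (d * k)) * F0 + y1 * d * F1 - I * (s + s')‖ ≤
      (s + s') * (((M + M ^ 3) * (1 + M) + M + M ^ 3) * Real.exp ((M + 2) * (s + s')) *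
        (1 / U ^ 2 + (s + s'))) := by
  set x : ℝ := s + s' with hx
  have hx0 : 0 < x := add_pos hs hs'
  have hM0 : 0 < M := by linarith
  set E : ℝ := Real.exp (M * x) with hE
  have hE1 : 1 ≤ E := Real.one_le_exp (by positivity)
  have hEs : Real.exp s' ≤ Real.exp x := Real.exp_le_exp.mpr (by linarith)
  have hxx : x ≤ Real.exp x := by
    have := Real.add_one_le_exp x
    linarith
  have hX1 : 1 ≤ Real.exp x := Real.one_le_exp hx0.le
  have hEE : Real.exp ((M + 2) * x) = Real.exp x * Real.exp x * E := by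
    rw [hE, ← Real.exp_add, ← Real.exp_add]; congr 1; ring
  have hEbig : E ≤ Real.exp ((M + 2) * x) := by
    rw [hEE]
    nlinarith [mul_le_mul hX1 hX1 zero_le_one (zero_le_one.trans hX1)]
  set q : ℝ := 1 / U ^ 2 with hq
  have hq0 : 0 < q := by positivity
  have hMq : M / U ^ 2 = M * q := by rw [hq]; ring
  rw [hMq] at hy0 hy1
  have hsum : ‖I * ((s : ℂ) + s')‖ = x := by
    rw [norm_mul, Complex.norm_I, one_mul, ← Complex.ofReal_add, Complex.norm_real,
      Real.norm_eq_abs, abs_of_pos hx0]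
  have hF0' : ‖F0‖ ≤ x + M * x ^ 2 * E := by
    have h1 : F0 = (F0 - I * (s + s')) + I * (s + s') := by ring
    rw [h1]
    refine (norm_add_le _ _).trans ?_
    rw [hsum]
    linarith
  have hF0'' : ‖F0‖ ≤ x * ((1 + M) * (Real.exp x * E)) := by
    refine hF0'.trans ?_
    have h1 : x * x * E ≤ x * (Real.exp x * E) := by
      have := mul_le_mul_of_nonneg_left hxx hx0.le
      nlinarith [mul_le_mul_of_nonneg_right this (zero_le_one.trans hE1)]
    have h2 : 1 ≤ Real.exp x * E := by nlinarith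
    nlinarith [mul_le_mul_of_nonneg_left h2 hx0.le, mul_le_mul_of_nonneg_left h1 hM0.le]
  have hsplit : (y0 + y1 * (d * k)) * F0 + y1 * d * F1 - I * (s + s') =
      (y0 - 1 + y1 * (d * k)) * F0 + (F0 - I * (s + s')) + y1 * d * F1 := by ring
  rw [hsplit]
  have h1 : ‖y0 - 1 + y1 * (d * k)‖ ≤ (M + M ^ 3) * q * Real.exp x := by
    refine (norm_add_le _ _).trans ?_
    rw [norm_mul, norm_mul]
    have h2 : ‖y1‖ * (‖d‖ * ‖k‖) ≤ (M * q) * (M * (M * Real.exp x)) := by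
      gcongr
      exact hk.trans (mul_le_mul_of_nonneg_left hEs hM0.le)
    have h3 : M * q ≤ M * q * Real.exp x := le_mul_of_one_le_right (by positivity) hX1
    nlinarith
  have h2 : ‖(y0 - 1 + y1 * (d * k)) * F0‖ ≤
      x * ((M + M ^ 3) * (1 + M) * q * Real.exp ((M + 2) * x)) := by
    rw [norm_mul]
    calc ‖y0 - 1 + y1 * (d * k)‖ * ‖F0‖
        ≤ (M + M ^ 3) * q * Real.exp x * (x * ((1 + M) * (Real.exp x * E))) := by gcongr
      _ = _ := by rw [hEE]; ring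
  have h3 : ‖F0 - I * (s + s')‖ ≤ x * (M * x * Real.exp ((M + 2) * x)) := by
    refine hF0.trans ?_
    calc M * x ^ 2 * E ≤ M * x ^ 2 * Real.exp ((M + 2) * x) := by gcongr
      _ = _ := by ring
  have h4 : ‖y1 * d * F1‖ ≤ x * (M ^ 3 * q * Real.exp ((M + 2) * x)) := by
    rw [norm_mul, norm_mul]
    calc ‖y1‖ * ‖d‖ * ‖F1‖ ≤ (M * q) * M * (M * x * E) := by gcongr
      _ ≤ (M * q) * M * (M * x * Real.exp ((M + 2) * x)) := by gcongr
      _ = _ := by ring
  have h5 := (norm_add_le ((y0 - 1 + y1 * (d * k)) * F0 + (F0 - I * (s + s'))) (y1 * d * F1)).trans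
    (add_le_add ((norm_add_le _ _).trans (add_le_add h2 h3)) h4)
  refine h5.trans ?_
  set G : ℝ := Real.exp ((M + 2) * x) with hG
  have hG0 : 0 < G := Real.exp_pos _
  have e1 : x * ((M + M ^ 3) * (1 + M) * q * G) + x * (M * x * G) + x * (M ^ 3 * q * G) =
      x * (((M + M ^ 3) * (1 + M) + M ^ 3) * q * G + M * x * G) := by ring
  rw [e1]
  refine mul_le_mul_of_nonneg_left ?_ hx0.le
  have e2 : ((M + M ^ 3) * (1 + M) + M + M ^ 3) * G * (q + x) =
      ((M + M ^ 3) * (1 + M) + M ^ 3) * q * G + M * x * G +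
        (M * q * G + ((M + M ^ 3) * (1 + M) + M ^ 3) * x * G) := by ring
  rw [e2]
  have : 0 ≤ M * q * G + ((M + M ^ 3) * (1 + M) + M ^ 3) * x * G := by positivity
  linarith


end EAS_

open EAS_ in
theorem eas_proof (hEBD : Stmt_EBD) (hLDB : Stmt_LDB) (hGBD : Stmt_GBD) : Stmt_EAS := by
  intro d
  obtain ⟨K, U1, hK, hU1, hE⟩ := hEBD d
  obtain ⟨hLd, hLid, ⟨C1, hC1, hLb⟩, -⟩ := hLDB
  obtain ⟨C2, hC2, hG⟩ := hGBD
  obtain ⟨M3, hM3, hkq3⟩ := kq_bound
  set M : ℝ := 1 + K + C1 + C2 + M3 + ‖d‖ with hMdef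
  have hdn := norm_nonneg d
  have hM1 : 1 ≤ M := by linarith
  have hM0 : 0 < M := by linarith
  have hMK : K ≤ M := by linarith
  have hMC1 : C1 ≤ M := by linarith
  have hMC2 : C2 ≤ M := by linarith
  have hMM3 : M3 ≤ M := by linarith
  have hMd : ‖d‖ ≤ M := by linarith
  clear_value M
  set A : ℝ := (M + M ^ 3) * (1 + M) + M + M ^ 3 with hA
  have hA0 : 0 < A := by positivity
  have hkq : ∀ s : ℝ, 0 < s → ‖kq s‖ ≤ M * Real.exp s := fun s hs =>
    (hkq3 s hs).trans (by gcongr)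
  have hLc : ∀ i j, Continuous fun s : ℝ => Lami (I * s) i j := fun i j =>
    (hLid i j).continuous.comp (by fun_prop : Continuous fun s : ℝ => I * (s : ℂ))
  have hLamc : ∀ i j, Continuous fun s : ℝ => Lam (-(I * s)) i j := fun i j =>
    (hLd i j).continuous.comp (by fun_prop : Continuous fun s : ℝ => -(I * (s : ℂ)))
  have hnI : ∀ s : ℝ, 0 < s → ‖I * (s : ℂ)‖ = s := by
    intro s hs
    rw [norm_mul, Complex.norm_I, one_mul, Complex.norm_real, Real.norm_eq_abs, abs_of_pos hs]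
  have hC1M : ∀ x : ℝ, 0 ≤ x → C1 * Real.exp (C1 * x) ≤ M * Real.exp (M * x) := by
    intro x hx
    gcongr
  have hL : ∀ s : ℝ, 0 < s → ∀ i j, ‖Lami (I * s) i j‖ ≤ M * Real.exp (M * s) := by
    intro s hs i j
    have h := (hLb (I * s) i j).2
    rw [hnI s hs] at h
    exact h.trans (hC1M s hs.le)
  have hLam : ∀ s : ℝ, 0 < s → ∀ i j, ‖Lam (-(I * s)) i j‖ ≤ M * Real.exp (M * s) := by
    intro s hs i j
    have h := (hLb (-(I * s)) i j).1
    rw [norm_neg, hnI s hs] at h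
    exact h.trans (hC1M s hs.le)
  refine ⟨U1 + (4 * M + 8) + 145 * A, by positivity, ?_⟩
  intro U hU y P hES hcc
  have hUU1 : U1 ≤ U := by nlinarith
  have hU4 : 4 * M + 8 ≤ U := by nlinarith
  have hUA : 145 * A ≤ U := by nlinarith
  have hU0 : 0 < U := by linarith
  obtain ⟨-, hyc, hPc, -, hPeq⟩ := id hES
  have hEB := hE U hUU1 y P hES
  have hKU : K / U ^ 2 ≤ M / U ^ 2 := by gcongr
  have hU1' : 1 ≤ U := by linarith
  have hMU : M / U ^ 2 ≤ M := div_le_self hM0.le (one_le_pow₀ hU1')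
  have hy : ∀ s : ℝ, 0 < s → ‖y s 0‖ ≤ M + 1 ∧ ‖y s 1‖ ≤ M := by
    intro s hs
    obtain ⟨h0, h1, -⟩ := hEB s hs
    refine ⟨?_, h1.trans (hKU.trans hMU)⟩
    have h2 : y s 0 = (y s 0 - 1) + 1 := by ring
    rw [h2]
    refine (norm_add_le _ _).trans ?_
    rw [norm_one]
    linarith
  -- bounds for `F`
  have hF1 : ∀ s s' : ℝ, 0 < s → 0 < s' →
      ‖F s s' 1 3‖ ≤ M * (s + s') * Real.exp (M * (s + s')) := by
    intro s s' hs hs'
    have hx : 0 < s + s' := add_pos hs hs'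
    exact (hG s s' hs hs').1.trans (by gcongr)
  have hF0 : ∀ s s' : ℝ, 0 < s → 0 < s' →
      ‖F s s' 0 3 - I * (s + s')‖ ≤ M * (s + s') ^ 2 * Real.exp (M * (s + s')) := by
    intro s s' hs hs'
    have hx : 0 < s + s' := add_pos hs hs'
    exact (hG s s' hs hs').2.trans (by gcongr)
  have hFc : ∀ s : ℝ, ∀ i j, Continuous fun s' : ℝ => F s s' i j := by
    intro s i j
    simp only [F, Matrix.mul_apply]
    exact continuous_finsetSum _ (fun k _ => (hLc i k).mul continuous_const)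
  have hFb : ∀ s : ℝ, 0 < s → ∀ s' : ℝ, 0 < s' → ∀ i j,
      ‖F s s' i j‖ ≤ (4 * (M * (M * Real.exp (M * s)))) * Real.exp (M * s') := by
    intro s hs s' hs' i j
    simp only [F, Matrix.mul_apply]
    refine (norm_sum_le _ _).trans ?_
    calc ∑ k, ‖Lami (I * s') i k * Lam (-(I * s)) k j‖
        ≤ ∑ _k : Fin 4, (M * Real.exp (M * s')) * (M * Real.exp (M * s)) := by
          refine Finset.sum_le_sum (fun k _ => ?_)
          rw [norm_mul]
          exact mul_le_mul (hL s' hs' i k) (hLam s hs k j) (norm_nonneg _) (by positivity)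
      _ = _ := by simp; ring
  set a : ℝ := U - (M + 2) with ha
  have ha0 : 0 < a := by linarith
  have ha2 : U / 2 ≤ a := by linarith
  -- estimate of `f`
  set f : ℝ → ℂ := fun s => (P s ᵥ* Lam (-(I * s))) 3 with hf
  have hfb : ∀ s : ℝ, 0 < s → ‖f s + I / U ^ 2‖ ≤
      A * Real.exp ((M + 2) * s) * ((1 / U ^ 2 + s) * (1 / a ^ 2) + 2 / a ^ 3) := by
    intro s hs
    have hfe := f_eq (P := P) hM1 hU4 hyc hMd hkq hy hLc hL hPeq hs
    have hi1 := g_bound hM1 hU4 hyc hMd hkq hy (hFc s) (hFb s hs) hs 3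
    simp only [vec_eq] at hi1
    obtain ⟨hi2, hv2⟩ := int_c hU0 I
    have hfs : f s + I / U ^ 2 = -∫ s' in Ioi (0 : ℝ), ((s' : ℂ) * exp (-(U * s')) *
      ((y s' 0 + y s' 1 * (d * kq s')) * F s s' 0 3 + y s' 1 * d * F s s' 1 3)
        / ((s : ℂ) + s') - (s' : ℂ) * exp (-(U * s')) * I) := by
      rw [integral_sub hi1 hi2, hv2]
      simp only [hf]
      rw [hfe]
      ring
    rw [hfs, norm_neg]
    obtain ⟨j1, v1⟩ := int_pow 1 ha0
    obtain ⟨j2, v2⟩ := int_pow 2 ha0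
    set c0 : ℝ := A * Real.exp ((M + 2) * s) with hc0
    have hbint : IntegrableOn (fun s' : ℝ => c0 * ((1 / U ^ 2 + s) * (s' ^ 1 * Real.exp (-(a * s')))
        + s' ^ 2 * Real.exp (-(a * s')))) (Ioi 0) :=
      ((j1.const_mul _).add j2).const_mul _
    have hbv : ∫ s' in Ioi (0 : ℝ), c0 * ((1 / U ^ 2 + s) * (s' ^ 1 * Real.exp (-(a * s')))
        + s' ^ 2 * Real.exp (-(a * s'))) = c0 * ((1 / U ^ 2 + s) * (1 / a ^ 2) + 2 / a ^ 3) := by
      rw [integral_const_mul, integral_add (j1.const_mul _) j2, integral_const_mul, v1, v2]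
      simp
    rw [← hbv]
    refine norm_integral_le_of_norm_le hbint ?_
    refine (ae_restrict_iff' measurableSet_Ioi).mpr (Eventually.of_forall ?_)
    intro s' hs'
    have hs'0 : (0 : ℝ) < s' := hs'
    have hx : 0 < s + s' := add_pos hs hs'0
    have hxc : ((s : ℂ) + s') ≠ 0 := by
      rw [← Complex.ofReal_add]
      exact_mod_cast hx.ne'
    obtain ⟨h0, h1, -⟩ := hEB s' hs'0
    have hnb := num_bound hM1 hU0 hs hs'0 hMd (hkq s' hs'0) (h0.trans hKU) (h1.trans hKU)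
      (hF1 s s' hs hs'0) (hF0 s s' hs hs'0)
    have heq : (s' : ℂ) * exp (-(U * s')) *
      ((y s' 0 + y s' 1 * (d * kq s')) * F s s' 0 3 + y s' 1 * d * F s s' 1 3)
        / ((s : ℂ) + s') - (s' : ℂ) * exp (-(U * s')) * I =
        (s' : ℂ) * exp (-(U * s')) * (((y s' 0 + y s' 1 * (d * kq s')) * F s s' 0 3
          + y s' 1 * d * F s s' 1 3 - I * (s + s')) / ((s : ℂ) + s')) := by
      field_simp
    rw [heq, norm_mul, norm_mul, norm_div, Complex.norm_real, Real.norm_eq_abs, abs_of_pos hs'0,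
      norm_e]
    have e2 : ‖(s : ℂ) + s'‖ = s + s' := by
      rw [← Complex.ofReal_add, Complex.norm_real, Real.norm_eq_abs, abs_of_pos hx]
    rw [e2]
    have h5 : ‖(y s' 0 + y s' 1 * (d * kq s')) * F s s' 0 3
          + y s' 1 * d * F s s' 1 3 - I * (s + s')‖ / (s + s') ≤
        A * Real.exp ((M + 2) * (s + s')) * (1 / U ^ 2 + (s + s')) := by
      rw [div_le_iff₀ hx]
      linarith
    have hexp : Real.exp (-(U * s')) * Real.exp ((M + 2) * (s + s')) =
        Real.exp ((M + 2) * s) * Real.exp (-(a * s')) := by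
      rw [← Real.exp_add, ← Real.exp_add]; congr 1; rw [ha]; ring
    calc s' * Real.exp (-(U * s')) * (‖(y s' 0 + y s' 1 * (d * kq s')) * F s s' 0 3
          + y s' 1 * d * F s s' 1 3 - I * (s + s')‖ / (s + s'))
        ≤ s' * Real.exp (-(U * s')) *
          (A * Real.exp ((M + 2) * (s + s')) * (1 / U ^ 2 + (s + s'))) := by gcongr
      _ = s' * A * (1 / U ^ 2 + (s + s')) *
          (Real.exp (-(U * s')) * Real.exp ((M + 2) * (s + s'))) := by ring
      _ = c0 * ((1 / U ^ 2 + s) * (s' ^ 1 * Real.exp (-(a * s')))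
        + s' ^ 2 * Real.exp (-(a * s'))) := by rw [hexp, hc0]; ring
  -- integrate
  have hfc : ContinuousOn f (Ioi 0) := by
    have h1 : f = fun s => ∑ j, P s j * Lam (-(I * s)) j 3 := rfl
    rw [h1]
    exact continuousOn_finsetSum _ (fun j _ => (hPc j).mul (hLamc j 3).continuousOn)
  obtain ⟨j1, v1⟩ := int_pow 1 ha0
  obtain ⟨j2, v2⟩ := int_pow 2 ha0
  set g : ℝ → ℂ := fun s => (s : ℂ) * exp (-(U * s)) * (f s + I / U ^ 2) with hg
  have hbint : IntegrableOn (fun s : ℝ => A * ((1 / U ^ 2 * (1 / a ^ 2) + 2 / a ^ 3) *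
      (s ^ 1 * Real.exp (-(a * s))) + 1 / a ^ 2 * (s ^ 2 * Real.exp (-(a * s))))) (Ioi 0) :=
    ((j1.const_mul _).add (j2.const_mul _)).const_mul _
  have hbv : ∫ s in Ioi (0 : ℝ), A * ((1 / U ^ 2 * (1 / a ^ 2) + 2 / a ^ 3) *
      (s ^ 1 * Real.exp (-(a * s))) + 1 / a ^ 2 * (s ^ 2 * Real.exp (-(a * s)))) =
      A * ((1 / U ^ 2 * (1 / a ^ 2) + 2 / a ^ 3) * (1 / a ^ 2) + 1 / a ^ 2 * (2 / a ^ 3)) := by
    rw [integral_const_mul, integral_add (j1.const_mul _) (j2.const_mul _), integral_const_mul,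
      integral_const_mul, v1, v2]
    simp
  have hgb : ∀ᵐ s ∂(volume.restrict (Ioi (0 : ℝ))), ‖g s‖ ≤
      A * ((1 / U ^ 2 * (1 / a ^ 2) + 2 / a ^ 3) *
      (s ^ 1 * Real.exp (-(a * s))) + 1 / a ^ 2 * (s ^ 2 * Real.exp (-(a * s)))) := by
    refine (ae_restrict_iff' measurableSet_Ioi).mpr (Eventually.of_forall ?_)
    intro s hs
    have hs0 : (0 : ℝ) < s := hs
    simp only [hg]
    rw [norm_mul, norm_mul, Complex.norm_real, Real.norm_eq_abs, abs_of_pos hs0, norm_e]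
    have h5 := hfb s hs0
    have hexp : Real.exp (-(U * s)) * Real.exp ((M + 2) * s) = Real.exp (-(a * s)) := by
      rw [← Real.exp_add]; congr 1; rw [ha]; ring
    calc s * Real.exp (-(U * s)) * ‖f s + I / U ^ 2‖
        ≤ s * Real.exp (-(U * s)) *
          (A * Real.exp ((M + 2) * s) * ((1 / U ^ 2 + s) * (1 / a ^ 2) + 2 / a ^ 3)) := by gcongr
      _ = A * s * ((1 / U ^ 2 + s) * (1 / a ^ 2) + 2 / a ^ 3) *
          (Real.exp (-(U * s)) * Real.exp ((M + 2) * s)) := by ring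
      _ = _ := by rw [hexp]; ring
  have hgc : ContinuousOn g (Ioi 0) := by
    simp only [hg]
    exact ContinuousOn.mul (by fun_prop) (hfc.add continuousOn_const)
  have hgi : IntegrableOn g (Ioi 0) :=
    Integrable.mono' hbint (hgc.aestronglyMeasurable measurableSet_Ioi) hgb
  have hgn : ‖∫ s in Ioi (0 : ℝ), g s‖ ≤
      A * ((1 / U ^ 2 * (1 / a ^ 2) + 2 / a ^ 3) * (1 / a ^ 2) + 1 / a ^ 2 * (2 / a ^ 3)) := by
    rw [← hbv]
    exact norm_integral_le_of_norm_le hbint hgb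
  obtain ⟨hi3, hv3⟩ := int_c hU0 (I / U ^ 2)
  have hcf : ∫ s in Ioi (0 : ℝ), (s : ℂ) * exp (-(U * s)) * f s = 0 := by
    have h1 : cc U P = I * ∫ s in Ioi (0 : ℝ), (s : ℂ) * exp (-(U * s)) * f s := rfl
    rw [h1] at hcc
    exact (mul_eq_zero.mp hcc).resolve_left Complex.I_ne_zero
  have hfg : ∀ s : ℝ, (s : ℂ) * exp (-(U * s)) * f s =
      g s - (s : ℂ) * exp (-(U * s)) * (I / U ^ 2) := by
    intro s
    simp only [hg]
    ring
  simp only [hfg] at hcf
  rw [integral_sub hgi hi3, hv3, sub_eq_zero] at hcf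
  rw [hcf] at hgn
  have hn4 : ‖(I / (U : ℂ) ^ 2) / (U : ℂ) ^ 2‖ = 1 / U ^ 4 := by
    rw [norm_div, norm_div, Complex.norm_I, norm_pow, Complex.norm_real, Real.norm_eq_abs,
      abs_of_pos hU0]
    field_simp
  rw [hn4] at hgn
  have hainv : 1 / a ≤ 2 / U := by
    rw [div_le_div_iff₀ ha0 hU0]; linarith
  have hai0 : 0 ≤ 1 / a := by positivity
  have hA2 : 1 / a ^ 2 ≤ 4 / U ^ 2 := by
    calc 1 / a ^ 2 = (1 / a) ^ 2 := by ring_nf
      _ ≤ (2 / U) ^ 2 := by gcongr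
      _ = 4 / U ^ 2 := by ring
  have hA3 : 2 / a ^ 3 ≤ 16 / U ^ 3 := by
    calc 2 / a ^ 3 = 2 * (1 / a) ^ 3 := by ring_nf
      _ ≤ 2 * (2 / U) ^ 3 := by gcongr
      _ = 16 / U ^ 3 := by ring
  have hfin : A * ((1 / U ^ 2 * (1 / a ^ 2) + 2 / a ^ 3) * (1 / a ^ 2) + 1 / a ^ 2 * (2 / a ^ 3))
      ≤ A * ((1 / U ^ 2 * (4 / U ^ 2) + 16 / U ^ 3) * (4 / U ^ 2) + 4 / U ^ 2 * (16 / U ^ 3)) := by
    gcongr
  have hfin2 := hgn.trans hfin
  have e6 : A * ((1 / U ^ 2 * (4 / U ^ 2) + 16 / U ^ 3) * (4 / U ^ 2) + 4 / U ^ 2 * (16 / U ^ 3))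
      = A * (16 + 128 * U) / U ^ 6 := by
    field_simp
    ring
  rw [e6, div_le_div_iff₀ (by positivity) (by positivity)] at hfin2
  have h7 : 0 < U ^ 4 := by positivity
  have h8 : U ^ 2 ≤ A * (16 + 128 * U) := by
    have h9 : 1 * U ^ 6 = U ^ 4 * U ^ 2 := by ring
    rw [h9] at hfin2
    have h10 : A * (16 + 128 * U) * U ^ 4 = U ^ 4 * (A * (16 + 128 * U)) := by ring
    rw [h10] at hfin2
    exact le_of_mul_le_mul_left hfin2 h7
  nlinarith [mul_pos hA0 hU0]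

end Pool.Agent.RHB
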