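import Pool.Agent.RHB.Stmts

/-!
# Squad RHB, module EBD: a priori bounds
-/

set_option autoImplicit false

open Matrix Complex Filter Topology MeasureTheory Set

namespace Pool.Agent.RHB

namespace EBD_

theorem vecMul_bd {m n : ℕ} (v : Fin m → ℂ) (M : Matrix (Fin m) (Fin n) ℂ) (b c : ℝ)
    (hb : 0 ≤ b) (hv : ∀ i, ‖v i‖ ≤ b) (hM : ∀ i j, ‖M i j‖ ≤ c) (j : Fin n) :
    ‖(v ᵥ* M) j‖ ≤ m * (b * c) := by
  have h1 : (v ᵥ* M) j = ∑ i, v i * M i j := rfl
  rw [h1]
  refine (norm_sum_le _ _).trans ?_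
  have h2 : ∀ i ∈ (Finset.univ : Finset (Fin m)), ‖v i * M i j‖ ≤ b * c := by
    intro i _
    rw [norm_mul]
    exact mul_le_mul (hv i) (hM i j) (norm_nonneg _) hb
  refine (Finset.sum_le_sum h2).trans ?_
  rw [Finset.sum_const, Finset.card_univ, Fintype.card_fin, nsmul_eq_mul]

theorem mul_bd {m n p : ℕ} (A : Matrix (Fin m) (Fin n) ℂ) (M : Matrix (Fin n) (Fin p) ℂ) (b c : ℝ)
    (hb : 0 ≤ b) (hA : ∀ i j, ‖A i j‖ ≤ b) (hM : ∀ i j, ‖M i j‖ ≤ c) (i : Fin m) (j : Fin p) :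
    ‖(A * M) i j‖ ≤ n * (b * c) := by
  rw [Matrix.mul_apply]
  refine (norm_sum_le _ _).trans ?_
  have h2 : ∀ k ∈ (Finset.univ : Finset (Fin n)), ‖A i k * M k j‖ ≤ b * c := by
    intro k _
    rw [norm_mul]
    exact mul_le_mul (hA i k) (hM k j) (norm_nonneg _) hb
  refine (Finset.sum_le_sum h2).trans ?_
  rw [Finset.sum_const, Finset.card_univ, Fintype.card_fin, nsmul_eq_mul]

theorem slog (s : ℝ) (hs : 0 < s) : s * |Real.log s| ≤ 2 * Real.exp s := by
  have h1 : 1 + s ^ 2 ≤ 2 * Real.exp s := by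
    have := Real.quadratic_le_exp_of_nonneg hs.le
    nlinarith
  refine le_trans ?_ h1
  rcases le_total 1 s with h | h
  · rw [abs_of_nonneg (Real.log_nonneg h)]
    have h2 := Real.log_le_sub_one_of_pos hs
    nlinarith
  · rw [abs_of_nonpos (Real.log_nonpos hs.le h)]
    have h2 := Real.one_sub_inv_le_log_of_pos hs
    have h3 : s * s⁻¹ = 1 := mul_inv_cancel₀ hs.ne'
    nlinarith

theorem kq_bd : ∃ G : ℝ, 0 ≤ G ∧ ∀ s : ℝ, 0 < s → ‖kq s‖ ≤ G * Real.exp s := by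
  refine ⟨8 + 4 * ‖γ‖ + 2 * Real.pi, by positivity, ?_⟩
  intro s hs
  have h1 : ‖kq s‖ ≤ s * (4 * |Real.log s| + 4 * ‖γ‖ + 2 * Real.pi) := by
    rw [kq, norm_mul, norm_mul, norm_I, one_mul, Complex.norm_real, Real.norm_eq_abs,
      abs_of_pos hs]
    apply mul_le_mul_of_nonneg_left _ hs.le
    refine (norm_add_le _ _).trans (add_le_add ((norm_add_le _ _).trans (add_le_add ?_ ?_)) ?_)
    · rw [norm_mul, Complex.norm_real, Real.norm_eq_abs]
      norm_num
    · rw [norm_mul]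
      norm_num
    · rw [norm_mul, norm_mul, norm_I, mul_one, Complex.norm_real, Real.norm_eq_abs,
        abs_of_pos Real.pi_pos]
      norm_num
  have h2 := slog s hs
  have h3 : s ≤ Real.exp s := by
    have := Real.add_one_le_exp s
    linarith
  have h4 : s * (4 * ‖γ‖ + 2 * Real.pi) ≤ Real.exp s * (4 * ‖γ‖ + 2 * Real.pi) :=
    mul_le_mul_of_nonneg_right h3 (by positivity)
  calc ‖kq s‖ ≤ s * (4 * |Real.log s| + 4 * ‖γ‖ + 2 * Real.pi) := h1
    _ = 4 * (s * |Real.log s|) + s * (4 * ‖γ‖ + 2 * Real.pi) := by ring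
    _ ≤ 4 * (2 * Real.exp s) + Real.exp s * (4 * ‖γ‖ + 2 * Real.pi) := by linarith
    _ = (8 + 4 * ‖γ‖ + 2 * Real.pi) * Real.exp s := by ring

theorem kp_bd (d : ℂ) (s : ℝ) (i : Fin 4) (j : Fin 2) :
    ‖kp d s i j‖ ≤ (1 + ‖d‖) * (1 + ‖kq s‖) := by
  have h1 := norm_nonneg d
  have h2 := norm_nonneg (kq s)
  have h3 := mul_nonneg h1 h2
  fin_cases i <;> fin_cases j <;> simp [kp] <;> nlinarith

theorem km_bd (d : ℂ) (s : ℝ) (i : Fin 2) (j : Fin 4) :
    ‖km d s i j‖ ≤ (1 + ‖d‖) * (1 + ‖kq s‖) := by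
  have h1 := norm_nonneg d
  have h2 := norm_nonneg (kq s)
  have h3 := mul_nonneg h1 h2
  fin_cases i <;> fin_cases j <;> simp [km] <;> nlinarith

theorem kernel_bd (hLDB : Stmt_LDB) (d : ℂ) : ∃ D : ℝ, 0 < D ∧ ∀ s : ℝ, 0 < s → ∀ b : ℝ, 0 ≤ b →
    (∀ v : Fin 4 → ℂ, (∀ i, ‖v i‖ ≤ b) → ∀ j,
      ‖(v ᵥ* (Lam (-(I * s)) * kp d s)) j‖ ≤ D * Real.exp (D * s) * b) ∧
    (∀ v : Fin 2 → ℂ, (∀ i, ‖v i‖ ≤ b) → ∀ j,
      ‖(v ᵥ* (km d s * Lami (I * s))) j‖ ≤ D * Real.exp (D * s) * b) := by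
  obtain ⟨-, -, ⟨C, hC, hL⟩, -⟩ := hLDB
  obtain ⟨G, hG, hkq⟩ := kq_bd
  refine ⟨16 * C * (1 + ‖d‖) * (1 + G) + C + 1, by positivity, ?_⟩
  intro s hs b hb
  have hn1 : ‖-(I * (s : ℂ))‖ = s := by
    rw [norm_neg, norm_mul, norm_I, one_mul, Complex.norm_real, Real.norm_eq_abs, abs_of_pos hs]
  have hn2 : ‖I * (s : ℂ)‖ = s := by
    rw [norm_mul, norm_I, one_mul, Complex.norm_real, Real.norm_eq_abs, abs_of_pos hs]
  have hLam : ∀ i j, ‖Lam (-(I * s)) i j‖ ≤ C * Real.exp (C * s) := by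
    intro i j
    have := (hL (-(I * s)) i j).1
    rwa [hn1] at this
  have hLami : ∀ i j, ‖Lami (I * s) i j‖ ≤ C * Real.exp (C * s) := by
    intro i j
    have := (hL (I * s) i j).2
    rwa [hn2] at this
  have hκ : (1 + ‖d‖) * (1 + ‖kq s‖) ≤ (1 + ‖d‖) * (1 + G) * Real.exp s := by
    have h1 := hkq s hs
    have h2 : 1 ≤ Real.exp s := Real.one_le_exp hs.le
    have h3 : 1 + ‖kq s‖ ≤ (1 + G) * Real.exp s := by nlinarith
    rw [mul_assoc]
    exact mul_le_mul_of_nonneg_left h3 (by positivity)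
  have hfin : 16 * (C * Real.exp (C * s)) * ((1 + ‖d‖) * (1 + G) * Real.exp s) ≤
      (16 * C * (1 + ‖d‖) * (1 + G) + C + 1) *
        Real.exp ((16 * C * (1 + ‖d‖) * (1 + G) + C + 1) * s) := by
    have e1 : 16 * (C * Real.exp (C * s)) * ((1 + ‖d‖) * (1 + G) * Real.exp s) =
        (16 * C * (1 + ‖d‖) * (1 + G)) * Real.exp (C * s + s) := by
      rw [Real.exp_add]
      ring
    rw [e1]
    have h0 : 0 ≤ 16 * C * (1 + ‖d‖) * (1 + G) := by positivity
    apply mul_le_mul (by linarith) _ (Real.exp_pos _).le (by linarith)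
    apply Real.exp_le_exp.2
    nlinarith
  constructor
  · intro v hv j
    have h1 := mul_bd (Lam (-(I * s))) (kp d s) (C * Real.exp (C * s))
      ((1 + ‖d‖) * (1 + G) * Real.exp s) (by positivity) hLam
      (fun i j => (kp_bd d s i j).trans hκ)
    have h2 := vecMul_bd v _ b _ hb hv h1 j
    refine h2.trans ?_
    push_cast
    have h3 := mul_le_mul_of_nonneg_right hfin hb
    nlinarith
  · intro v hv j
    have h1 := mul_bd (km d s) (Lami (I * s)) ((1 + ‖d‖) * (1 + G) * Real.exp s)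
      (C * Real.exp (C * s)) (by positivity) (fun i j => (km_bd d s i j).trans hκ) hLami
    have h2 := vecMul_bd v _ b _ hb hv h1 j
    refine h2.trans ?_
    push_cast
    have h3 := mul_le_mul_of_nonneg_right hfin hb
    have h4 : 0 ≤ b * ((1 + ‖d‖) * (1 + G) * Real.exp s * (C * Real.exp (C * s))) := by positivity
    nlinarith

/-- pointwise bound of the integrand -/
theorem integrand_bd (D U b s s' : ℝ) (z : ℂ) (hs : 0 < s) (hs' : 0 < s') (x : ℂ)
    (hx : x = s + s') (hz : ‖z‖ ≤ D * Real.exp (D * s) * b) :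
    ‖(s : ℂ) * exp (-(U * s)) * z / x‖ ≤ D * b * Real.exp (-((U - D) * s)) := by
  have hx' : ‖x‖ = s + s' := by
    rw [hx]
    have : ((s : ℂ) + (s' : ℂ)) = ((s + s' : ℝ) : ℂ) := by push_cast; rfl
    rw [this, Complex.norm_real, Real.norm_eq_abs, abs_of_pos (by linarith)]
  have he : ‖exp (-((U : ℂ) * s))‖ = Real.exp (-(U * s)) := by
    rw [Complex.norm_exp]
    congr 1
    simp
  rw [norm_div, norm_mul, norm_mul, hx', he, Complex.norm_real, Real.norm_eq_abs, abs_of_pos hs]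
  rw [div_le_iff₀ (by linarith)]
  have h1 : Real.exp (-(U * s)) * Real.exp (D * s) = Real.exp (-((U - D) * s)) := by
    rw [← Real.exp_add]
    congr 1
    ring
  have h2 : 0 ≤ D * Real.exp (D * s) * b := le_trans (norm_nonneg _) hz
  have h3 : 0 ≤ D * b * Real.exp (-((U - D) * s)) := by
    rw [← h1]
    have := mul_nonneg (Real.exp_pos (-(U * s))).le h2
    nlinarith
  calc s * Real.exp (-(U * s)) * ‖z‖ ≤
      s * Real.exp (-(U * s)) * (D * Real.exp (D * s) * b) := by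
        apply mul_le_mul_of_nonneg_left hz
        positivity
    _ = s * (D * b * Real.exp (-((U - D) * s))) := by rw [← h1]; ring
    _ ≤ D * b * Real.exp (-((U - D) * s)) * (s + s') := by nlinarith

theorem int_exp (a : ℝ) (ha : 0 < a) :
    IntegrableOn (fun s : ℝ => Real.exp (-(a * s))) (Ioi 0) ∧
      ∫ s in Ioi (0 : ℝ), Real.exp (-(a * s)) = 1 / a := by
  constructor
  · have := exp_neg_integrableOn_Ioi 0 ha
    simpa [neg_mul] using this
  · have := integral_exp_mul_Ioi (a := -a) (by linarith) 0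
    simp only [neg_mul] at this
    rw [this]
    simp

theorem int_rpow (a : ℝ) (ha : 0 < a) :
    IntegrableOn (fun s : ℝ => s ^ (-(1 / 2) : ℝ) * Real.exp (-(a * s))) (Ioi 0) := by
  have := integrableOn_rpow_mul_exp_neg_mul_rpow (p := 1) (s := -(1 / 2)) (b := a)
    (by norm_num) (by norm_num) ha
  simpa [neg_mul] using this

end EBD_

open EBD_ in
theorem ebd_proof (hLDB : Stmt_LDB) : Stmt_EBD := by
  intro d
  obtain ⟨D, hD, hker⟩ := kernel_bd hLDB d
  refine ⟨4 * D + 8 * D ^ 2, 3 * D, by positivity, by positivity, ?_⟩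
  rintro U hU y P ⟨⟨B, hB⟩, -, -, hy, hP⟩
  have ha : 0 < U - D := by linarith
  obtain ⟨hi1, hi2⟩ := int_exp (U - D) ha
  have hi3 := int_rpow (U - D) ha
  have hU0 : 0 < U := by linarith
  -- one step
  have stepy : ∀ g : ℝ → ℝ, (∀ s, 0 < s → 0 ≤ g s) → (∀ s, 0 < s → ∀ j, ‖P s j‖ ≤ g s) →
      IntegrableOn (fun s => D * g s * Real.exp (-((U - D) * s))) (Ioi 0) →
      ∀ s', 0 < s' → ∀ j, ‖y s' j - (if j = 0 then 1 else 0)‖ ≤
        ∫ s in Ioi (0 : ℝ), D * g s * Real.exp (-((U - D) * s)) := by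
    intro g hg0 hg hint s' hs' j
    rw [hy s' hs' j, add_sub_cancel_left]
    apply norm_integral_le_of_norm_le hint
    refine (ae_restrict_iff' measurableSet_Ioi).2 (Eventually.of_forall ?_)
    intro s hs
    have hs0 : 0 < s := hs
    exact integrand_bd D U (g s) s s' _ hs0 hs' _ rfl
      ((hker s hs0 (g s) (hg0 s hs0)).1 (P s) (hg s hs0) j)
  have stepP : ∀ g : ℝ → ℝ, (∀ s, 0 < s → 0 ≤ g s) → (∀ s, 0 < s → ∀ j, ‖y s j‖ ≤ g s) →
      IntegrableOn (fun s => D * g s * Real.exp (-((U - D) * s))) (Ioi 0) →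
      ∀ s, 0 < s → ∀ j, ‖P s j‖ ≤
        ∫ s in Ioi (0 : ℝ), D * g s * Real.exp (-((U - D) * s)) := by
    intro g hg0 hg hint s hs j
    rw [hP s hs j, norm_neg]
    apply norm_integral_le_of_norm_le hint
    refine (ae_restrict_iff' measurableSet_Ioi).2 (Eventually.of_forall ?_)
    intro s' hs'
    have hs0 : 0 < s' := hs'
    exact integrand_bd D U (g s') s' s _ hs0 hs _ (add_comm _ _)
      ((hker s' hs0 (g s') (hg0 s' hs0)).2 (y s') (hg s' hs0) j)
  -- constants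
  have constint : ∀ b : ℝ, IntegrableOn (fun s => D * b * Real.exp (-((U - D) * s))) (Ioi 0) ∧
      ∫ s in Ioi (0 : ℝ), D * b * Real.exp (-((U - D) * s)) = D * b / (U - D) := by
    intro b
    constructor
    · exact hi1.const_mul _
    · rw [integral_const_mul, hi2]
      ring
  -- step 0
  have hB0 : 0 ≤ B := by
    have h1 := (hB 1 one_pos).1 0
    have h2 := norm_nonneg (y 1 0)
    rw [Real.one_rpow] at h1
    linarith
  have hint0 : IntegrableOn
      (fun s : ℝ => D * (B * (1 + s ^ (-(1 / 2) : ℝ))) * Real.exp (-((U - D) * s))) (Ioi 0) := by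
    have h1 := (hi1.const_mul (D * B)).add (hi3.const_mul (D * B))
    refine h1.congr (Eventually.of_forall fun s => ?_)
    simp only [Pi.add_apply]
    ring
  obtain ⟨F, hF⟩ : ∃ F, F = ∫ s in Ioi (0 : ℝ),
    D * (B * (1 + s ^ (-(1 / 2) : ℝ))) * Real.exp (-((U - D) * s)) := ⟨_, rfl⟩
  have hy0 := stepy (fun s => B * (1 + s ^ (-(1 / 2) : ℝ)))
    (fun s hs => by positivity) (fun s hs => (hB s hs).2) hint0
  rw [← hF] at hy0
  have hyb : ∀ s, 0 < s → ∀ j, ‖y s j‖ ≤ F + 1 := by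
    intro s hs j
    have h1 := hy0 s hs j
    have h2 : ‖y s j‖ ≤ ‖y s j - (if j = 0 then 1 else 0)‖ + ‖(if j = 0 then (1 : ℂ) else 0)‖ := by
      have := norm_add_le (y s j - (if j = 0 then 1 else 0)) (if j = 0 then (1 : ℂ) else 0)
      rwa [sub_add_cancel] at this
    have h3 : ‖(if j = 0 then (1 : ℂ) else 0)‖ ≤ 1 := by
      split_ifs <;> simp
    linarith
  -- the supremum
  obtain ⟨S, hS⟩ : ∃ S : Set ℝ, S = {x | ∃ s, 0 < s ∧ ∃ j, x = ‖y s j‖} := ⟨_, rfl⟩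
  have hSne : S.Nonempty := ⟨‖y 1 0‖, by rw [hS]; exact ⟨1, one_pos, 0, rfl⟩⟩
  have hSbd : BddAbove S := by
    refine ⟨F + 1, ?_⟩
    intro x hx
    rw [hS] at hx
    obtain ⟨s, hs, j, rfl⟩ := hx
    exact hyb s hs j
  have hq : ∀ s, 0 < s → ∀ j, ‖y s j‖ ≤ sSup S := by
    intro s hs j
    apply le_csSup hSbd
    rw [hS]
    exact ⟨s, hs, j, rfl⟩
  have hq0 : 0 ≤ sSup S := le_trans (norm_nonneg _) (hq 1 one_pos 0)
  obtain ⟨q, hqdef⟩ : ∃ q, q = sSup S := ⟨_, rfl⟩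
  rw [← hqdef] at hq hq0
  have hratio : D / (U - D) ≤ 1 / 2 := by
    rw [div_le_iff₀ ha]
    linarith
  have hratio0 : 0 ≤ D / (U - D) := by positivity
  have hPq : ∀ s, 0 < s → ∀ j, ‖P s j‖ ≤ D / (U - D) * q := by
    intro s hs j
    have h1 := stepP (fun _ => q) (fun _ _ => hq0) hq (constint q).1 s hs j
    rw [(constint q).2] at h1
    calc ‖P s j‖ ≤ D * q / (U - D) := h1
      _ = D / (U - D) * q := by ring
  have hyq : ∀ s, 0 < s → ∀ j, ‖y s j - (if j = 0 then 1 else 0)‖ ≤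
      D / (U - D) * (D / (U - D) * q) := by
    intro s hs j
    have h1 := stepy (fun _ => D / (U - D) * q) (fun _ _ => mul_nonneg hratio0 hq0) hPq
      (constint _).1 s hs j
    rw [(constint _).2] at h1
    calc _ ≤ D * (D / (U - D) * q) / (U - D) := h1
      _ = D / (U - D) * (D / (U - D) * q) := by ring
  have hq4 : q ≤ 1 + q / 4 := by
    rw [hqdef]
    apply csSup_le hSne
    intro x hx
    rw [hS] at hx
    obtain ⟨s, hs, j, rfl⟩ := hx
    rw [← hqdef]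
    have h1 := hyq s hs j
    have h2 : ‖y s j‖ ≤ ‖y s j - (if j = 0 then 1 else 0)‖ + ‖(if j = 0 then (1 : ℂ) else 0)‖ := by
      have := norm_add_le (y s j - (if j = 0 then 1 else 0)) (if j = 0 then (1 : ℂ) else 0)
      rwa [sub_add_cancel] at this
    have h3 : ‖(if j = 0 then (1 : ℂ) else 0)‖ ≤ 1 := by
      split_ifs <;> simp
    have h4 : D / (U - D) * q ≤ 1 / 2 * q := mul_le_mul_of_nonneg_right hratio hq0
    have h5 : D / (U - D) * (D / (U - D) * q) ≤ 1 / 2 * (1 / 2 * q) :=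
      mul_le_mul hratio h4 (mul_nonneg hratio0 hq0) (by norm_num)
    linarith
  have hq2 : q ≤ 2 := by linarith
  have hr : D / (U - D) ≤ 2 * D / U := by
    rw [div_le_div_iff₀ ha hU0]
    nlinarith
  have hPf : ∀ s, 0 < s → ∀ j, ‖P s j‖ ≤ 4 * D / U := by
    intro s hs j
    have h1 := hPq s hs j
    have h2 : D / (U - D) * q ≤ 2 * D / U * 2 := mul_le_mul hr hq2 hq0 (by positivity)
    calc ‖P s j‖ ≤ 2 * D / U * 2 := h1.trans h2
      _ = 4 * D / U := by ring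
  have hyf : ∀ s, 0 < s → ∀ j, ‖y s j - (if j = 0 then 1 else 0)‖ ≤ 8 * D ^ 2 / U ^ 2 := by
    intro s hs j
    have h1 := hyq s hs j
    have h2 : D / (U - D) * q ≤ 2 * D / U * 2 := mul_le_mul hr hq2 hq0 (by positivity)
    have h3 : D / (U - D) * (D / (U - D) * q) ≤ 2 * D / U * (2 * D / U * 2) :=
      mul_le_mul hr h2 (mul_nonneg hratio0 hq0) (by positivity)
    calc _ ≤ 2 * D / U * (2 * D / U * 2) := h1.trans h3
      _ = 8 * D ^ 2 / U ^ 2 := by
        field_simp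
        ring
  intro s hs
  refine ⟨?_, ?_, ?_⟩
  · have h1 := hyf s hs 0
    rw [if_pos rfl] at h1
    refine h1.trans ?_
    apply div_le_div_of_nonneg_right _ (by positivity)
    linarith
  · have h1 := hyf s hs 1
    rw [if_neg (by decide), sub_zero] at h1
    refine h1.trans ?_
    apply div_le_div_of_nonneg_right _ (by positivity)
    linarith
  · intro j
    refine (hPf s hs j).trans ?_
    apply div_le_div_of_nonneg_right _ hU0.le
    nlinarith [sq_nonneg D]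

end Pool.Agent.RHB
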