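import Pool.Agent.RHB.Stmts

set_option autoImplicit false

open Matrix Complex Filter Topology MeasureTheory Set

namespace Pool.Agent.RHB

namespace GBD_

/-- entire with an exponential bound -/
def EB (f : ℂ → ℂ) (C : ℝ) : Prop := Differentiable ℂ f ∧ ∀ x, ‖f x‖ ≤ C * Real.exp (C * ‖x‖)

lemma EB.mono {f : ℂ → ℂ} {C D : ℝ} (h : EB f C) (hC : 0 ≤ C) (hCD : C ≤ D) : EB f D := by
  refine ⟨h.1, fun x => (h.2 x).trans ?_⟩
  have h1 : Real.exp (C * ‖x‖) ≤ Real.exp (D * ‖x‖) :=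
    Real.exp_le_exp.mpr (mul_le_mul_of_nonneg_right hCD (norm_nonneg x))
  exact mul_le_mul hCD h1 (Real.exp_pos _).le (hC.trans hCD)

/-- next constant -/
noncomputable def nx (C : ℝ) : ℝ := C * Real.exp C

lemma le_nx {C : ℝ} (hC : 0 ≤ C) : C ≤ nx C := by
  have : (1 : ℝ) ≤ Real.exp C := Real.one_le_exp hC
  unfold nx
  nlinarith

lemma EB.deriv {f : ℂ → ℂ} {C : ℝ} (h : EB f C) (hC : 0 ≤ C) : EB (deriv f) (nx C) := by
  refine ⟨?_, fun x => ?_⟩
  · have h2 : ContDiff ℂ 2 f := h.1.contDiff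
    exact h2.differentiable_deriv_two
  · have h1 : ‖_root_.deriv f x‖ ≤ (C * Real.exp (C * (‖x‖ + 1))) / 1 := by
      apply Complex.norm_deriv_le_of_forall_mem_sphere_norm_le one_pos h.1.diffContOnCl
      intro z hz
      have hz' : ‖z‖ ≤ ‖x‖ + 1 := by
        have : ‖z - x‖ = 1 := by simpa [dist_eq_norm] using hz
        calc ‖z‖ = ‖(z - x) + x‖ := by simp
          _ ≤ ‖z - x‖ + ‖x‖ := norm_add_le _ _
          _ = ‖x‖ + 1 := by rw [this]; ring
      refine (h.2 z).trans ?_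
      exact mul_le_mul_of_nonneg_left
        (Real.exp_le_exp.mpr (mul_le_mul_of_nonneg_left hz' hC)) hC
    refine h1.trans ?_
    rw [div_one, show C * (‖x‖ + 1) = C + C * ‖x‖ by ring, Real.exp_add, ← mul_assoc]
    show nx C * Real.exp (C * ‖x‖) ≤ nx C * Real.exp (nx C * ‖x‖)
    exact mul_le_mul_of_nonneg_left
      (Real.exp_le_exp.mpr (mul_le_mul_of_nonneg_right (le_nx hC) (norm_nonneg x)))
      (hC.trans (le_nx hC))

lemma EB.lip {f : ℂ → ℂ} {C : ℝ} (h : EB f C) (hC : 0 ≤ C) {r : ℝ} {x y : ℂ}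
    (hx : ‖x‖ ≤ r) (hy : ‖y‖ ≤ r) :
    ‖f y - f x‖ ≤ nx C * Real.exp (nx C * r) * ‖y - x‖ := by
  apply Convex.norm_image_sub_le_of_norm_deriv_le (s := Metric.closedBall (0 : ℂ) r)
    (fun z _ => h.1 z) _ (convex_closedBall _ _) (by simpa using hx) (by simpa using hy)
  intro z hz
  have hz' : ‖z‖ ≤ r := by simpa using hz
  refine ((h.deriv hC).2 z).trans ?_
  exact mul_le_mul_of_nonneg_left
      (Real.exp_le_exp.mpr (mul_le_mul_of_nonneg_left hz' (hC.trans (le_nx hC))))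
      (hC.trans (le_nx hC))

/-- row 0 of `Lami 0` -/
lemma lami_zero (k : Fin 4) : Lami 0 0 k = if k = 0 then 1 else 0 := by
  have h0 : Lami 0 0 k = ∑' d : ℕ, (0 : ℂ) ^ (4 * d + ((0 : Fin 4) : ℕ) - (k : ℕ)) * Qd d 0 k := rfl
  rw [h0, tsum_eq_single 0]
  · have h1 : 4 * 0 + ((0 : Fin 4) : ℕ) - (k : ℕ) = 0 := by simp
    rw [h1, pow_zero, one_mul]
    show ((((0 : ℕ) : ℂ) • (1 : Matrix (Fin 4) (Fin 4) ℂ) + hX) ^ (k : ℕ) * Rk 0) 0 0 = _
    rw [show Rk 0 = 1 from rfl, mul_one, Nat.cast_zero, zero_smul, zero_add]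
    fin_cases k
    · simp
    · simp [hX]
    · simp [hX, pow_succ, Matrix.mul_apply, Fin.sum_univ_four]
    · simp [hX, pow_succ, Matrix.mul_apply, Fin.sum_univ_four]
  · intro d hd
    have : 4 * d + ((0 : Fin 4) : ℕ) - (k : ℕ) ≠ 0 := by
      have := k.isLt
      have : 1 ≤ d := Nat.one_le_iff_ne_zero.mpr hd
      omega
    rw [zero_pow this, zero_mul]

end GBD_

open GBD_

theorem gbd_proof (hLIN : Stmt_LIN) (hLDB : Stmt_LDB) : Stmt_GBD := by
  obtain ⟨hd1, hd2, ⟨C₀, hC₀, hb⟩, ⟨C₃, hq⟩⟩ := hLDB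
  -- uniform constants
  set A : ℝ := C₀ + 1 with hA
  have hA0 : 0 ≤ A := by linarith
  set B : ℝ := nx A with hB
  have hB0 : 0 ≤ B := hA0.trans (le_nx hA0)
  set K : ℝ := nx B with hK
  have hBK : B ≤ K := le_nx hB0
  have hAB : A ≤ B := le_nx hA0
  have hK0 : 0 < K := by linarith
  have e1 : ∀ i j, EB (fun x => Lam x i j) A := fun i j =>
    EB.mono ⟨hd1 i j, fun x => (hb x i j).1⟩ hC₀.le (by linarith)
  have e2 : ∀ i j, EB (fun x => Lami x i j) A := fun i j =>
    EB.mono ⟨hd2 i j, fun x => (hb x i j).2⟩ hC₀.le (by linarith)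
  have e3 : EB (fun x => Lam x 0 3 + x) A := by
    refine ⟨(hd1 0 3).add differentiable_id, fun x => ?_⟩
    have h1 : ‖Lam x 0 3‖ ≤ C₀ * Real.exp (C₀ * ‖x‖) := (hb x 0 3).1
    have h2 : ‖x‖ ≤ Real.exp (A * ‖x‖) := by
      have h3 : A * ‖x‖ + 1 ≤ Real.exp (A * ‖x‖) := Real.add_one_le_exp _
      have h4 : ‖x‖ ≤ A * ‖x‖ := by nlinarith [norm_nonneg x]
      linarith
    have h5 : Real.exp (C₀ * ‖x‖) ≤ Real.exp (A * ‖x‖) :=
      Real.exp_le_exp.mpr (mul_le_mul_of_nonneg_right (by linarith) (norm_nonneg x))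
    calc ‖Lam x 0 3 + x‖ ≤ ‖Lam x 0 3‖ + ‖x‖ := norm_add_le _ _
      _ ≤ C₀ * Real.exp (C₀ * ‖x‖) + Real.exp (A * ‖x‖) := add_le_add h1 h2
      _ ≤ C₀ * Real.exp (A * ‖x‖) + Real.exp (A * ‖x‖) := by
          gcongr
      _ = A * Real.exp (A * ‖x‖) := by rw [hA]; ring
  -- derivative of `Lam x 0 3 + x` at zero
  have d0 : deriv (fun x => Lam x 0 3 + x) 0 = 0 := by
    have h0 : Lam 0 0 3 + 0 = 0 := by
      have := hq 0 (by simp)
      simpa using this
    have hh : HasDerivAt (fun x => Lam x 0 3 + x) 0 0 := by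
      rw [hasDerivAt_iff_isLittleO]
      have hO : (fun x : ℂ => Lam x 0 3 + x) =O[𝓝 0] fun x : ℂ => x ^ 2 := by
        refine Asymptotics.IsBigO.of_bound C₃ ?_
        filter_upwards [Metric.closedBall_mem_nhds (0 : ℂ) one_pos] with x hx
        have : ‖x‖ ≤ 1 := by simpa using hx
        simpa using hq x this
      have ho : (fun x : ℂ => x ^ 2) =o[𝓝 0] fun x : ℂ => x := by
        simpa using (Asymptotics.isLittleO_pow_id (𝕜 := ℂ) one_lt_two)
      have := hO.trans_isLittleO ho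
      refine (this.congr ?_ ?_)
      · intro x; rw [h0]; simp
      · intro x; simp
    exact hh.deriv
  -- the final constant
  refine ⟨4 * K ^ 2 + 2 * K, by positivity, ?_⟩
  intro s s' hs hs'
  set r : ℝ := s + s' with hr
  have hr0 : 0 ≤ r := by linarith
  set x : ℂ := -(I * s) with hx
  set x' : ℂ := I * s' with hx'
  have nx1 : ‖x‖ ≤ r := by
    rw [hx, norm_neg, norm_mul, norm_I, one_mul, norm_real, Real.norm_of_nonneg hs.le]; linarith
  have nx2 : ‖x'‖ ≤ r := by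
    rw [hx', norm_mul, norm_I, one_mul, norm_real, Real.norm_of_nonneg hs'.le]; linarith
  have hxx : x - x' = -(I * (r : ℂ)) := by rw [hx, hx', hr]; push_cast; ring
  have nxx : ‖x - x'‖ = r := by
    rw [hxx, norm_neg, norm_mul, norm_I, one_mul, norm_real, Real.norm_of_nonneg hr0]
  have hone : Lami x' * Lam x' = 1 := mul_eq_one_comm.mp (hLIN x')
  set E : ℝ := Real.exp (K * r) with hE
  have hE1 : 1 ≤ E := Real.one_le_exp (mul_nonneg hK0.le hr0)
  have hE0 : 0 < E := Real.exp_pos _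
  have hEE : E * E ≤ Real.exp ((4 * K ^ 2 + 2 * K) * r) := by
    rw [hE, ← Real.exp_add]
    apply Real.exp_le_exp.mpr
    have : 0 ≤ K ^ 2 * r := by positivity
    nlinarith
  -- bounds of the pieces
  have mono1 : ∀ {D : ℝ}, 0 ≤ D → D ≤ K → D * Real.exp (D * r) ≤ K * E := by
    intro D hD hDK
    have h1 : Real.exp (D * r) ≤ E :=
      Real.exp_le_exp.mpr (mul_le_mul_of_nonneg_right hDK hr0)
    exact mul_le_mul hDK h1 (Real.exp_pos _).le hK0.le
  have bL : ∀ k, ‖Lam x k 3 - Lam x' k 3‖ ≤ K * E * r := by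
    intro k
    have := (e1 k 3).lip hA0 nx2 nx1
    rw [nxx] at this
    exact this.trans (mul_le_mul_of_nonneg_right (mono1 hB0 hBK) hr0)
  have bI : ∀ i k, ‖Lami x' i k‖ ≤ K * E := by
    intro i k
    refine ((e2 i k).2 x').trans ?_
    refine le_trans ?_ (mono1 hA0 (hAB.trans hBK))
    exact mul_le_mul_of_nonneg_left
      (Real.exp_le_exp.mpr (mul_le_mul_of_nonneg_left nx2 hA0)) hA0
  have bI0 : ∀ k, ‖Lami x' 0 k - Lami 0 0 k‖ ≤ K * E * r := by
    intro k
    have h1 := (e2 0 k).lip hA0 (r := r) (x := 0) (y := x') (by simpa using hr0) nx2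
    have h2 : ‖x' - 0‖ ≤ r := by simpa using nx2
    refine h1.trans ?_
    exact mul_le_mul (mono1 hB0 hBK) h2 (norm_nonneg _) (by positivity)
  have bk : ‖(Lam x 0 3 + x) - (Lam x' 0 3 + x')‖ ≤ K * E * r * r := by
    have hdk : ∀ z ∈ Metric.closedBall (0 : ℂ) r, ‖deriv (fun x => Lam x 0 3 + x) z‖ ≤ K * E * r := by
      intro z hz
      have hz' : ‖z‖ ≤ r := by simpa using hz
      have h1 := (e3.deriv hA0).lip hB0 (r := r) (x := 0) (y := z) (by simpa using hr0) hz'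
      rw [d0, sub_zero, sub_zero] at h1
      exact h1.trans (mul_le_mul_of_nonneg_left hz' (by positivity))
    have h2 := Convex.norm_image_sub_le_of_norm_deriv_le (s := Metric.closedBall (0 : ℂ) r)
      (f := fun x => Lam x 0 3 + x) (x := x') (y := x)
      (fun z _ => e3.1 z) hdk (convex_closedBall _ _) (by simpa using nx2) (by simpa using nx1)
    rw [nxx] at h2
    exact h2
  constructor
  · have h1 : (Lami x' * Lam x) 1 3 = ∑ k, Lami x' 1 k * (Lam x k 3 - Lam x' k 3) := by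
      have h2 : (Lami x' * Lam x') 1 3 = 0 := by rw [hone]; simp
      rw [Matrix.mul_apply] at h2
      rw [Matrix.mul_apply]
      simp only [mul_sub, Finset.sum_sub_distrib]
      rw [h2, sub_zero]
    rw [h1]
    calc ‖∑ k, Lami x' 1 k * (Lam x k 3 - Lam x' k 3)‖
        ≤ ∑ k, ‖Lami x' 1 k * (Lam x k 3 - Lam x' k 3)‖ := norm_sum_le _ _
      _ ≤ ∑ _k : Fin 4, (K * E) * (K * E * r) := by
          apply Finset.sum_le_sum
          intro k _
          rw [norm_mul]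
          exact mul_le_mul (bI 1 k) (bL k) (norm_nonneg _) (by positivity)
      _ = 4 * K ^ 2 * r * (E * E) := by simp; ring
      _ ≤ (4 * K ^ 2 + 2 * K) * r * Real.exp ((4 * K ^ 2 + 2 * K) * r) := by
          apply mul_le_mul _ hEE (by positivity) (by positivity)
          have : 0 ≤ K * r := by positivity
          nlinarith
  · have h1 : (Lami x' * Lam x) 0 3 - I * (r : ℂ) =
        ∑ k, (Lami x' 0 k - Lami 0 0 k) * (Lam x k 3 - Lam x' k 3)
          + ((Lam x 0 3 + x) - (Lam x' 0 3 + x')) := by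
      have h2 : (Lami x' * Lam x') 0 3 = 0 := by rw [hone]; simp
      rw [Matrix.mul_apply] at h2
      rw [Matrix.mul_apply]
      simp only [lami_zero, Fin.sum_univ_four] at h2 ⊢
      have h3 : I * (r : ℂ) = -(x - x') := by rw [hxx]; ring
      rw [h3]
      simp
      linear_combination h2
    rw [show I * ((s : ℂ) + (s' : ℂ)) = I * (r : ℂ) by rw [hr]; push_cast; ring, h1]
    calc ‖∑ k, (Lami x' 0 k - Lami 0 0 k) * (Lam x k 3 - Lam x' k 3)
          + ((Lam x 0 3 + x) - (Lam x' 0 3 + x'))‖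
        ≤ ‖∑ k, (Lami x' 0 k - Lami 0 0 k) * (Lam x k 3 - Lam x' k 3)‖
          + ‖(Lam x 0 3 + x) - (Lam x' 0 3 + x')‖ := norm_add_le _ _
      _ ≤ ∑ _k : Fin 4, (K * E * r) * (K * E * r) + K * E * r * r := by
          apply add_le_add _ bk
          refine (norm_sum_le _ _).trans ?_
          apply Finset.sum_le_sum
          intro k _
          rw [norm_mul]
          exact mul_le_mul (bI0 k) (bL k) (norm_nonneg _) (by positivity)
      _ = (4 * K ^ 2 * (E * E) + K * E) * r ^ 2 := by simp; ring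
      _ ≤ ((4 * K ^ 2 + 2 * K) * (E * E)) * r ^ 2 := by
          apply mul_le_mul_of_nonneg_right _ (by positivity)
          nlinarith [mul_pos hK0 hE0]
      _ ≤ ((4 * K ^ 2 + 2 * K) * Real.exp ((4 * K ^ 2 + 2 * K) * r)) * r ^ 2 := by
          apply mul_le_mul_of_nonneg_right _ (by positivity)
          exact mul_le_mul_of_nonneg_left hEE (by positivity)
      _ = (4 * K ^ 2 + 2 * K) * r ^ 2 * Real.exp ((4 * K ^ 2 + 2 * K) * r) := by ring

end Pool.Agent.RHB
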