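import Pool.Agent.RHB.Stmts

set_option autoImplicit false

open Matrix Complex Filter Topology

namespace Pool.Agent.RHB

namespace GRM_

theorem hh (d : ℂ) : hT d ^ 2 = !![0, 0, 0, 0, 0, 0; 0, 0, 0, 0, 0, 0; 0, 0, 0, 0, 0, 0;
    1, 0, 0, 0, 0, 0; 0, 0, 0, 0, 0, 0; 0, 1, 0, 0, 0, 0] := by
  rw [pow_two]
  ext i j
  fin_cases i <;> fin_cases j <;> simp [hT, Matrix.mul_apply, Fin.sum_univ_succ]

theorem he (d : ℂ) : hT d * eT d = !![0, 0, 0, 0, 0, 0; 0, 0, 0, 0, 0, 0; 0, 0, 0, 0, 0, 0;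
    0, 0, 0, 0, 0, 0; d, 0, 0, 0, 0, 0; 0, 0, -d, 0, 0, 0] := by
  ext i j
  fin_cases i <;> fin_cases j <;> simp [hT, eT, Matrix.mul_apply, Fin.sum_univ_succ]

theorem ee (d : ℂ) : eT d ^ 2 = !![0, 0, 0, 0, 0, 0; 0, 0, 0, 0, 0, 0; 0, 0, 0, 0, 0, 0;
    -d, 0, 0, 0, 0, 0; 4 * d, 0, 0, 0, 0, 0; 0, -d, -(4 * d), 0, 0, 0] := by
  rw [pow_two]
  ext i j
  fin_cases i <;> fin_cases j <;> simp [eT, Matrix.mul_apply, Fin.sum_univ_succ]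

theorem c1 (d : ℂ) : c1T d = !![0, 0, 0, 0, 0, 0; 4, 0, 0, 0, 0, 0; -1, 0, 0, 0, 0, 0;
    0, 4, d, 0, 0, 0; 0, -d, 0, 0, 0, 0; 0, 0, 0, 4, 1, 0] := by
  ext i j
  fin_cases i <;> fin_cases j <;> simp [c1T, hT, eT]

theorem c11 (d : ℂ) : c1T d ^ 2 = !![0, 0, 0, 0, 0, 0; 0, 0, 0, 0, 0, 0; 0, 0, 0, 0, 0, 0;
    16 - d, 0, 0, 0, 0, 0; -(4 * d), 0, 0, 0, 0, 0; 0, 16 - d, 4 * d, 0, 0, 0] := by
  rw [pow_two, c1]
  ext i j
  fin_cases i <;> fin_cases j <;> simp [Matrix.mul_apply, Fin.sum_univ_succ] <;> ring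

theorem c2 (d : ℂ) : c2T d = !![0, 0, 0, 0, 0, 0; 0, 0, 0, 0, 0, 0; 0, 0, 0, 0, 0, 0;
    6 + d, 0, 0, 0, 0, 0; -(4 * d), 0, 0, 0, 0, 0; 0, 6 + d, 4 * d, 0, 0, 0] := by
  rw [c2T, hh, he]
  ext i j
  fin_cases i <;> fin_cases j <;> simp

theorem c12 (d : ℂ) : c1T d * c2T d = !![0, 0, 0, 0, 0, 0; 0, 0, 0, 0, 0, 0; 0, 0, 0, 0, 0, 0;
    0, 0, 0, 0, 0, 0; 0, 0, 0, 0, 0, 0; 24, 0, 0, 0, 0, 0] := by
  rw [c1, c2]
  ext i j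
  fin_cases i <;> fin_cases j <;> simp [Matrix.mul_apply, Fin.sum_univ_succ] <;> ring

theorem tdT (d : ℂ) : td (c1T d) (c2T d) = !![1, 0, 0, 0, 0, 0; 2, 1, 0, 0, 0, 0;
    -(1 / 2), 0, 1, 0, 0, 0; 11 / 6, 2, d / 2, 1, 0, 0; -(2 * d / 3), -(d / 2), 0, 0, 1, 0;
    1, 11 / 6, 2 * d / 3, 2, 1 / 2, 1] := by
  rw [td, c11, c12, c2, c1]
  ext i j
  fin_cases i <;> fin_cases j <;> simp <;> ring

theorem chT (d : ℂ) : chiT d = !![1, 11 / 6, 2 * d / 3, 2, 1 / 2, 1;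
    -(11 / 6), -2, -(d / 2), -1, 0, 0; -(2 * d / 3), -(d / 2), 0, 0, 1, 0;
    2, 1, 0, 0, 0, 0; 1 / 2, 0, -1, 0, 0, 0; -1, 0, 0, 0, 0, 0] := by
  rw [chiT, euler, tdT]
  ext i j
  fin_cases i <;> fin_cases j <;>
    simp [Matrix.mul_apply, Fin.sum_univ_succ, degT, pT, Matrix.diagonal_apply] <;> norm_num

theorem jj (d : ℂ) : (1 - (1 / 2 : ℂ) • eT d + (1 / 6 : ℂ) • eT d ^ 2) * jpi =
    !![0, 0; 0, 0; 1, 0; d / 2, 0; -(2 * d), 1; -(2 * d / 3), 1 / 2] := by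
  rw [ee]
  ext i j
  fin_cases i <;> fin_cases j <;>
    simp [Matrix.mul_apply, Fin.sum_univ_succ, jpi, eT, Matrix.one_apply] <;> ring

theorem hx2 : hX ^ 2 = !![0, 0, 0, 0; 0, 0, 0, 0; 1, 0, 0, 0; 0, 1, 0, 0] := by
  rw [pow_two]
  ext i j
  fin_cases i <;> fin_cases j <;> simp [hX, Matrix.mul_apply, Fin.sum_univ_succ]

theorem hx3 : hX * hX ^ 2 = !![0, 0, 0, 0; 0, 0, 0, 0; 0, 0, 0, 0; 1, 0, 0, 0] := by
  rw [hx2]
  ext i j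
  fin_cases i <;> fin_cases j <;> simp [hX, Matrix.mul_apply, Fin.sum_univ_succ]

theorem tdX : td (4 • hX) (6 • hX ^ 2) = !![1, 0, 0, 0; 2, 1, 0, 0; 11 / 6, 2, 1, 0;
    1, 11 / 6, 2, 1] := by
  have e1 : (4 • hX) ^ 2 = 16 • hX ^ 2 := by
    rw [smul_pow]
    norm_num
  have e2 : (4 • hX) * (6 • hX ^ 2) = 24 • (hX * hX ^ 2) := by
    rw [smul_mul_smul_comm]
  rw [td, e1, e2, hx3, hx2]
  ext i j
  fin_cases i <;> fin_cases j <;> simp [hX] <;> ring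

theorem chX : chiX = !![1, 11 / 6, 2, 1; -(11 / 6), -2, -1, 0; 2, 1, 0, 0; -1, 0, 0, 0] := by
  rw [chiX, euler, tdX]
  ext i j
  fin_cases i <;> fin_cases j <;>
    simp [Matrix.mul_apply, Fin.sum_univ_succ, degX, pX, Matrix.diagonal_apply] <;> norm_num

theorem chZ : chiZ = !![0, 1; -1, 0] := by
  rw [chiZ, euler, td]
  ext i j
  fin_cases i <;> fin_cases j <;>
    simp [Matrix.mul_apply, Fin.sum_univ_two, degZ, pZ, Matrix.diagonal_apply]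

end GRM_

theorem grm_proof : Stmt_GRM := by
  intro d
  rw [gram, ch, GRM_.jj, Matrix.transpose_fromCols, Matrix.fromRows_mul,
    Matrix.fromRows_mul_fromCols, GRM_.chT, GRM_.chX, GRM_.chZ]
  congr 1
  · ext i j
    fin_cases i <;> fin_cases j <;>
      simp [Matrix.mul_apply, Fin.sum_univ_succ, phi] 
  · ext i j
    fin_cases i <;> fin_cases j <;>
      simp [Matrix.mul_apply, Fin.sum_univ_succ, phi, res] <;> ring
  · ext i j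
    fin_cases i <;> fin_cases j <;>
      simp [Matrix.mul_apply, Fin.sum_univ_succ, phi]
    ring
  · ext i j
    fin_cases i <;> fin_cases j <;>
      simp [Matrix.mul_apply, Fin.sum_univ_succ] <;> ring

end Pool.Agent.RHB
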