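import Pool.Agent.RHB.Stmts

set_option autoImplicit false

open Matrix Complex Filter Topology MeasureTheory Set

namespace Pool.Agent.RHB

namespace GRO_

theorem bmulr {l m n : Type} [Fintype m] (S : Set ℂ) (g : ℂ → ℝ) (hg : ∀ w, 0 ≤ g w)
    (F : ℂ → Matrix l m ℂ) (G : ℂ → Matrix m n ℂ)
    (hF : ∃ C : ℝ, ∀ w ∈ S, ∀ i j, ‖F w i j‖ ≤ C * g w)
    (hG : ∃ C : ℝ, ∀ w ∈ S, ∀ i j, ‖G w i j‖ ≤ C) :
    ∃ C : ℝ, ∀ w ∈ S, ∀ i j, ‖(F w * G w) i j‖ ≤ C * g w := by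
  obtain ⟨C₁, h₁⟩ := hF
  obtain ⟨C₂, h₂⟩ := hG
  refine ⟨Fintype.card m * (|C₁| * |C₂|), ?_⟩
  intro w hw i j
  rw [Matrix.mul_apply]
  have h : ∀ k ∈ (Finset.univ : Finset m), ‖F w i k * G w k j‖ ≤ |C₁| * |C₂| * g w := by
    intro k _
    rw [norm_mul]
    have a := (h₁ w hw i k).trans (mul_le_mul_of_nonneg_right (le_abs_self C₁) (hg w))
    have b := (h₂ w hw k j).trans (le_abs_self C₂)
    calc ‖F w i k‖ * ‖G w k j‖ ≤ (|C₁| * g w) * |C₂| :=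
          mul_le_mul a b (norm_nonneg _) (mul_nonneg (abs_nonneg _) (hg w))
      _ = |C₁| * |C₂| * g w := by ring
  refine (norm_sum_le _ _).trans ((Finset.sum_le_sum h).trans (le_of_eq ?_))
  rw [Finset.sum_const, Finset.card_univ, nsmul_eq_mul]
  ring

theorem bmull {l m n : Type} [Fintype m] (S : Set ℂ) (g : ℂ → ℝ) (hg : ∀ w, 0 ≤ g w)
    (F : ℂ → Matrix l m ℂ) (G : ℂ → Matrix m n ℂ)
    (hF : ∃ C : ℝ, ∀ w ∈ S, ∀ i j, ‖F w i j‖ ≤ C)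
    (hG : ∃ C : ℝ, ∀ w ∈ S, ∀ i j, ‖G w i j‖ ≤ C * g w) :
    ∃ C : ℝ, ∀ w ∈ S, ∀ i j, ‖(F w * G w) i j‖ ≤ C * g w := by
  obtain ⟨C₁, h₁⟩ := hF
  obtain ⟨C₂, h₂⟩ := hG
  refine ⟨Fintype.card m * (|C₁| * |C₂|), ?_⟩
  intro w hw i j
  rw [Matrix.mul_apply]
  have h : ∀ k ∈ (Finset.univ : Finset m), ‖F w i k * G w k j‖ ≤ |C₁| * |C₂| * g w := by
    intro k _
    rw [norm_mul]
    have a := (h₁ w hw i k).trans (le_abs_self C₁)
    have b := (h₂ w hw k j).trans (mul_le_mul_of_nonneg_right (le_abs_self C₂) (hg w))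
    calc ‖F w i k‖ * ‖G w k j‖ ≤ |C₁| * (|C₂| * g w) :=
          mul_le_mul a b (norm_nonneg _) (abs_nonneg _)
      _ = |C₁| * |C₂| * g w := by ring
  refine (norm_sum_le _ _).trans ((Finset.sum_le_sum h).trans (le_of_eq ?_))
  rw [Finset.sum_const, Finset.card_univ, nsmul_eq_mul]
  ring

theorem bblk {l m n o : Type} (S : Set ℂ)
    (A : ℂ → Matrix l m ℂ) (B : ℂ → Matrix l n ℂ) (C : ℂ → Matrix o m ℂ) (D : ℂ → Matrix o n ℂ)
    (hA : ∃ K : ℝ, ∀ w ∈ S, ∀ i j, ‖A w i j‖ ≤ K) (hB : ∃ K : ℝ, ∀ w ∈ S, ∀ i j, ‖B w i j‖ ≤ K)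
    (hC : ∃ K : ℝ, ∀ w ∈ S, ∀ i j, ‖C w i j‖ ≤ K) (hD : ∃ K : ℝ, ∀ w ∈ S, ∀ i j, ‖D w i j‖ ≤ K) :
    ∃ K : ℝ, ∀ w ∈ S, ∀ i j, ‖(fromBlocks (A w) (B w) (C w) (D w)) i j‖ ≤ K := by
  obtain ⟨a, ha⟩ := hA
  obtain ⟨b, hb⟩ := hB
  obtain ⟨c, hc⟩ := hC
  obtain ⟨e, he⟩ := hD
  refine ⟨|a| + |b| + |c| + |e|, ?_⟩
  intro w hw i j
  have e1 := le_abs_self a
  have e2 := le_abs_self b
  have e3 := le_abs_self c
  have e4 := le_abs_self e
  have n1 := abs_nonneg a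
  have n2 := abs_nonneg b
  have n3 := abs_nonneg c
  have n4 := abs_nonneg e
  rcases i with i | i <;> rcases j with j | j
  · rw [fromBlocks_apply₁₁]; linarith [ha w hw i j]
  · rw [fromBlocks_apply₁₂]; linarith [hb w hw i j]
  · rw [fromBlocks_apply₂₁]; linarith [hc w hw i j]
  · rw [fromBlocks_apply₂₂]; linarith [he w hw i j]

theorem bcpt {m n : Type} [Fintype m] [Fintype n] (F : ℂ → Matrix m n ℂ)
    (hF : ∀ i j, Continuous fun x => F x i j) :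
    ∃ K : ℝ, ∀ x : ℂ, ‖x‖ ≤ 1 → ∀ i j, ‖F x i j‖ ≤ K := by
  have h : ∀ i j, ∃ K : ℝ, ∀ x ∈ Metric.closedBall (0 : ℂ) 1, ‖F x i j‖ ≤ K := fun i j =>
    (isCompact_closedBall (0 : ℂ) 1).exists_bound_of_continuousOn (hF i j).continuousOn
  choose K hK using h
  refine ⟨∑ i, ∑ j, |K i j|, ?_⟩
  intro x hx i j
  have h1 := hK i j x (by simpa using hx)
  refine h1.trans ((le_abs_self _).trans ?_)
  have h2 : |K i j| ≤ ∑ j, |K i j| :=
    Finset.single_le_sum (f := fun j => |K i j|) (fun _ _ => abs_nonneg _) (Finset.mem_univ j)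
  refine h2.trans ?_
  exact Finset.single_le_sum (f := fun i => ∑ j, |K i j|)
    (fun _ _ => Finset.sum_nonneg fun _ _ => abs_nonneg _) (Finset.mem_univ i)

theorem psi_eq (L : ℂ → ℂ → Matrix (Fin 4) (Fin 4) ℂ) (hL : IsL L) (ρ : Fin 2 → ℂ) (w : ℂ) :
    Psi L ρ w = fromBlocks (Lam (exp (-w))) 0 0 (eZ ρ w) *
      fromBlocks (psiX w) 0 0 (psiZ w) := by
  unfold Psi eZ
  rw [fromBlocks_multiply, hL (exp w) (exp_ne_zero w), ← exp_neg]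
  simp

theorem unit_blk (hINV : Stmt_INV) (w : ℂ) :
    IsUnit (fromBlocks (psiX w) 0 0 (psiZ w) : Matrix (Fin 4 ⊕ Fin 2) (Fin 4 ⊕ Fin 2) ℂ) := by
  obtain ⟨h1, h2⟩ := hINV.1 w
  rw [Matrix.isUnit_iff_isUnit_det] at h1 h2 ⊢
  rw [det_fromBlocks_zero₁₂]
  exact h1.mul h2

theorem norm_exp_neg {w : ℂ} (hw : 0 ≤ w.re) : ‖exp (-w)‖ ≤ 1 := by
  rw [norm_exp, neg_re, Real.exp_le_one_iff]
  linarith

theorem norm_w_exp {w : ℂ} (hw : 0 ≤ w.re) : ‖w * exp (-w)‖ ≤ 1 + |w.im| := by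
  rw [norm_mul, norm_exp, neg_re]
  have h1 : ‖w‖ ≤ |w.re| + |w.im| := norm_le_abs_re_add_abs_im w
  have h2 : w.re * Real.exp (-w.re) ≤ 1 := by
    have := Real.add_one_le_exp w.re
    have h3 : w.re ≤ Real.exp w.re := by linarith
    calc w.re * Real.exp (-w.re) ≤ Real.exp w.re * Real.exp (-w.re) :=
          mul_le_mul_of_nonneg_right h3 (Real.exp_pos _).le
      _ = 1 := by rw [← Real.exp_add]; simp
  have h4 : Real.exp (-w.re) ≤ 1 := by rw [Real.exp_le_one_iff]; linarith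
  have h5 : |w.im| * Real.exp (-w.re) ≤ |w.im| := mul_le_of_le_one_right (abs_nonneg _) h4
  calc ‖w‖ * Real.exp (-w.re) ≤ (|w.re| + |w.im|) * Real.exp (-w.re) :=
        mul_le_mul_of_nonneg_right h1 (Real.exp_pos _).le
    _ = w.re * Real.exp (-w.re) + |w.im| * Real.exp (-w.re) := by
        rw [abs_of_nonneg hw]; ring
    _ ≤ 1 + |w.im| := by linarith

theorem cancel {l m : Type} [Fintype m] [DecidableEq m] {M : Matrix m m ℂ} (hM : IsUnit M)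
    {A B : Matrix l m ℂ} (h : A * M = B * M) : A = B := by
  have h1 : M * M⁻¹ = 1 := Matrix.mul_nonsing_inv M ((Matrix.isUnit_iff_isUnit_det M).1 hM)
  have h2 := congrArg (fun X => X * M⁻¹) h
  simp only [Matrix.mul_assoc, h1, Matrix.mul_one] at h2
  exact h2

end GRO_

open GRO_ in
theorem gro_proof (hCNT : Stmt_CNT) (hTRB : Stmt_TRB) (hINV : Stmt_INV) (hSMI : Stmt_SMI)
    (hKER : Stmt_KER) (hLDB : Stmt_LDB) (hLIN : Stmt_LIN) : Stmt_GRO := by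
  intro d L ρ φ ε Yinf Yp Ym hε hL hsol
  obtain ⟨Bm, hBm1, hBm2⟩ := hTRB d
  have hcnt := hCNT d L ρ φ ε Yinf Yp Ym hε hL hsol
  obtain ⟨⟨hYinf, -, -⟩, -, -, -, hrel, -, -⟩ := hsol
  set h : ℝ := |φ| + 2 * Real.pi with hh
  set S : Set ℂ := {w | 0 ≤ w.re ∧ |w.im| ≤ h} with hS
  have hpi := Real.pi_pos
  obtain ⟨-, -, ⟨CL, hCL, hLb⟩, -⟩ := hLDB
  -- bounded pieces
  have bYinf : ∃ K : ℝ, ∀ w ∈ S, ∀ i j, ‖Yinf (exp (-w)) i j‖ ≤ K := by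
    obtain ⟨K, hK⟩ := bcpt Yinf fun i j => (hYinf i j).continuous
    exact ⟨K, fun w hw => hK _ (norm_exp_neg hw.1)⟩
  have bBm : ∃ K : ℝ, ∀ w ∈ S, ∀ i j, ‖Bm w i j‖ ≤ K * Real.exp (w.re / 2) := by
    obtain ⟨K, hK⟩ := hBm2 h
    exact ⟨K, fun w hw => hK w hw.1 hw.2⟩
  have bLami : ∃ K : ℝ, ∀ w ∈ S, ∀ i j, ‖Lami (exp (-w)) i j‖ ≤ K := by
    refine ⟨CL * Real.exp CL, fun w hw i j => (hLb (exp (-w)) i j).2.trans ?_⟩
    refine mul_le_mul_of_nonneg_left (Real.exp_le_exp.2 ?_) hCL.le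
    exact mul_le_of_le_one_right hCL.le (norm_exp_neg hw.1)
  have beZi : ∃ K : ℝ, ∀ w ∈ S, ∀ i j, ‖eZi ρ w i j‖ ≤ K := by
    obtain ⟨K, hK⟩ := bcpt (fun x => exp (ρ 0 * x) • (1 + (ρ 1 * x) • hZ)) (by
      intro i j
      simp only [Matrix.smul_apply, Matrix.add_apply, smul_eq_mul]
      fun_prop)
    exact ⟨K, fun w hw => hK _ (norm_exp_neg hw.1)⟩
  have bzero : ∀ {m n : Type}, ∃ K : ℝ, ∀ w ∈ S, ∀ i j, ‖(0 : Matrix m n ℂ) i j‖ ≤ K := by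
    intro m n
    exact ⟨0, fun w _ i j => by simp⟩
  have bone : ∀ {m : Type} [DecidableEq m], ∃ K : ℝ, ∀ w ∈ S, ∀ i j, ‖(1 : Matrix m m ℂ) i j‖ ≤ K := by
    intro m _
    refine ⟨1, fun w _ i j => ?_⟩
    rw [Matrix.one_apply]
    split_ifs <;> simp
  have bAm : ∃ K : ℝ, ∀ w ∈ S, ∀ i j, ‖(-Aminus d w) i j‖ ≤ K := by
    refine ⟨2 * Real.pi * (1 + ‖d‖ * (1 + 4 * ‖γ‖ + 4 * (1 + h))), fun w hw i j => ?_⟩
    have e1 := norm_exp_neg hw.1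
    have e2 := norm_w_exp hw.1
    have e3 : |w.im| ≤ h := hw.2
    have e4 : 0 ≤ ‖exp (-w)‖ := norm_nonneg _
    have e5 : 0 ≤ h := by rw [hh]; positivity
    have e6 : 0 ≤ ‖d‖ * (1 + 4 * ‖γ‖ + 4 * (1 + h)) := by positivity
    have key : ∀ z : ℂ, ‖z‖ ≤ 1 + ‖d‖ * (1 + 4 * ‖γ‖ + 4 * (1 + h)) →
        ‖-(2 * Real.pi * exp (-w) * z)‖ ≤ 2 * Real.pi * (1 + ‖d‖ * (1 + 4 * ‖γ‖ + 4 * (1 + h))) := by
      intro z hz
      rw [norm_neg, norm_mul, norm_mul]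
      have e7 : ‖(2 * Real.pi : ℂ)‖ = 2 * Real.pi := by
        rw [norm_mul, Complex.norm_real, Real.norm_of_nonneg hpi.le]
        norm_num
      rw [e7]
      calc 2 * Real.pi * ‖exp (-w)‖ * ‖z‖ ≤ 2 * Real.pi * 1 * ‖z‖ := by gcongr
        _ ≤ 2 * Real.pi * (1 + ‖d‖ * (1 + 4 * ‖γ‖ + 4 * (1 + h))) := by
            rw [mul_one]; gcongr
    have hmain : ‖d * (exp (-w) * (4 * γ - 4 * w))‖ ≤ ‖d‖ * (1 + 4 * ‖γ‖ + 4 * (1 + h)) := by
      rw [norm_mul]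
      refine mul_le_mul_of_nonneg_left ?_ (norm_nonneg _)
      have e8 : exp (-w) * (4 * γ - 4 * w) = 4 * (exp (-w) * γ) - 4 * (w * exp (-w)) := by ring
      rw [e8]
      refine (norm_sub_le _ _).trans ?_
      rw [norm_mul, norm_mul, norm_mul]
      have e9 : ‖(4 : ℂ)‖ = 4 := by norm_num
      rw [e9]
      have e10 : ‖exp (-w)‖ * ‖γ‖ ≤ ‖γ‖ := mul_le_of_le_one_left (norm_nonneg _) e1
      linarith
    rw [Matrix.neg_apply]
    unfold Aminus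
    rw [Matrix.smul_apply, smul_eq_mul]
    apply key
    fin_cases i <;> fin_cases j <;> simp <;>
      first
        | linarith
        | (simp only [norm_mul] at hmain; linarith)
        | (have := norm_nonneg d; have := norm_nonneg γ; nlinarith)
  have hg : ∀ w : ℂ, 0 ≤ (fun w : ℂ => Real.exp (w.re / 2)) w := fun w => (Real.exp_pos _).le
  have hdiag : ∀ w : ℂ, fromBlocks (Lam (exp (-w))) 0 0 (eZ ρ w) *
      fromBlocks (Lami (exp (-w))) 0 0 (eZi ρ w) = 1 := by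
    intro w
    rw [fromBlocks_multiply, hLIN, (hINV.2.1 ρ w).1]
    simp
  -- formula for `Yp`
  have fYp : ∀ w : ℂ, |w.im - φ| < Real.pi / 2 + ε → Yp (exp w) =
      Yinf (exp (-w)) * Bm w * fromBlocks (Lami (exp (-w))) 0 0 (eZi ρ w) := by
    intro w hw
    have h1 := hrel w hw
    rw [hBm1, psi_eq L hL, ← Matrix.mul_assoc, ← Matrix.mul_assoc] at h1
    have h2 := cancel (unit_blk hINV w) h1
    rw [← h2, Matrix.mul_assoc, hdiag, Matrix.mul_one]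
  have fYm : ∀ w : ℂ, |w.im - (φ - Real.pi)| < Real.pi / 2 + ε → Ym (exp w) =
      Yinf (exp (-w)) * Bm w *
        fromBlocks (1 : Matrix (Fin 4) (Fin 4) ℂ) 0 (-Aminus d w) (1 : Matrix (Fin 2) (Fin 2) ℂ) *
        fromBlocks (Lami (exp (-w))) 0 0 (eZi ρ w) := by
    intro w hw
    have h1 := hcnt w hw
    rw [Matrix.mul_assoc, Matrix.mul_assoc, (hSMI d).1, hBm1, psi_eq L hL] at h1
    have h3 : fromBlocks (psiX w) 0 0 (psiZ w) *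
        fromBlocks (1 : Matrix (Fin 4) (Fin 4) ℂ) 0 (res d) (1 : Matrix (Fin 2) (Fin 2) ℂ) =
        fromBlocks (1 : Matrix (Fin 4) (Fin 4) ℂ) 0 (Aminus d w) (1 : Matrix (Fin 2) (Fin 2) ℂ) *
          fromBlocks (psiX w) 0 0 (psiZ w) := by
      rw [fromBlocks_multiply, fromBlocks_multiply, (hKER d w).2]
      simp
    rw [Matrix.mul_assoc (fromBlocks (Lam (exp (-w))) 0 0 (eZ ρ w)), h3, ← Matrix.mul_assoc,
      ← Matrix.mul_assoc, ← Matrix.mul_assoc] at h1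
    have h2 := cancel (unit_blk hINV w) h1
    have h4 : fromBlocks (1 : Matrix (Fin 4) (Fin 4) ℂ) 0 (Aminus d w)
          (1 : Matrix (Fin 2) (Fin 2) ℂ) *
        fromBlocks (1 : Matrix (Fin 4) (Fin 4) ℂ) 0 (-Aminus d w) (1 : Matrix (Fin 2) (Fin 2) ℂ) =
        (1 : Matrix (Fin 4 ⊕ Fin 2) (Fin 4 ⊕ Fin 2) ℂ) := by
      rw [fromBlocks_multiply]
      simp
    rw [← h2, Matrix.mul_assoc (Ym (exp w) * fromBlocks (Lam (exp (-w))) 0 0 (eZ ρ w)), h4,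
      Matrix.mul_one, Matrix.mul_assoc, hdiag, Matrix.mul_one]
  have bd1 := bmull S (fun w : ℂ => Real.exp (w.re / 2)) hg _ _ bYinf bBm
  have bdd := bblk S (fun w => Lami (exp (-w))) (fun _ => 0) (fun _ => 0) (fun w => eZi ρ w)
    bLami bzero bzero beZi
  obtain ⟨K₁, hK₁⟩ := bmulr S (fun w : ℂ => Real.exp (w.re / 2)) hg _ _ bd1 bdd
  have bda := bblk S (fun _ => (1 : Matrix (Fin 4) (Fin 4) ℂ)) (fun _ => 0)
    (fun w => -Aminus d w) (fun _ => (1 : Matrix (Fin 2) (Fin 2) ℂ)) bone bzero bAm bone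
  obtain ⟨K₂, hK₂⟩ := bmulr S (fun w : ℂ => Real.exp (w.re / 2)) hg _ _
    (bmulr S (fun w : ℂ => Real.exp (w.re / 2)) hg _ _ bd1 bda) bdd
  refine ⟨max K₁ K₂, ?_⟩
  intro w hw
  have hφ := abs_nonneg φ
  have hφ1 := le_abs_self φ
  have hφ2 := neg_abs_le φ
  constructor
  · intro hw2 i j
    have hwS : w ∈ S := by
      refine ⟨hw, ?_⟩
      rw [abs_le] at hw2 ⊢
      rw [hh]
      constructor <;> linarith [hw2.1, hw2.2]
    rw [fYp w (by linarith)]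
    refine (hK₁ w hwS i j).trans ?_
    exact mul_le_mul_of_nonneg_right (le_max_left _ _) (hg w)
  · intro hw2 i j
    have hwS : w ∈ S := by
      refine ⟨hw, ?_⟩
      rw [abs_le] at hw2 ⊢
      rw [hh]
      constructor <;> linarith [hw2.1, hw2.2]
    rw [fYm w (by linarith)]
    refine (hK₂ w hwS i j).trans ?_
    exact mul_le_mul_of_nonneg_right (le_max_right _ _) (hg w)

end Pool.Agent.RHB
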