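import Pool.Agent.RHB.Stmts

/-! RHB, module INV (helper68): invertibility and differentiability of the matrices `psiX`, `psiZ`,
`psiT`, `eZ`. -/

set_option autoImplicit false

open Matrix Complex Filter Topology MeasureTheory Set

namespace Pool.Agent.RHB

namespace INV_

theorem nexp_mul_neg {n : ℕ} (A : Matrix (Fin n) (Fin n) ℂ) (hA : A ^ 4 = 0) :
    nexp A * nexp (-A) = 1 := by
  have h5 : A ^ 5 = 0 := by rw [pow_succ, hA, zero_mul]
  have h6 : A ^ 6 = 0 := by rw [pow_succ, h5, zero_mul]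
  have e1 : A * A = A ^ 2 := by noncomm_ring
  have e2 : A * A ^ 2 = A ^ 3 := by noncomm_ring
  have e3 : A ^ 2 * A = A ^ 3 := by noncomm_ring
  have e4 : A * A ^ 3 = 0 := by rw [← hA]; noncomm_ring
  have e5 : A ^ 3 * A = 0 := by rw [← hA]; noncomm_ring
  have e6 : A ^ 2 * A ^ 2 = 0 := by rw [← hA]; noncomm_ring
  have e7 : A ^ 2 * A ^ 3 = 0 := by rw [← h5]; noncomm_ring
  have e8 : A ^ 3 * A ^ 2 = 0 := by rw [← h5]; noncomm_ring
  have e9 : A ^ 3 * A ^ 3 = 0 := by rw [← h6]; noncomm_ring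
  have n2 : (-A) ^ 2 = A ^ 2 := by noncomm_ring
  have n3 : (-A) ^ 3 = -A ^ 3 := by noncomm_ring
  unfold nexp
  rw [n2, n3]
  simp only [mul_add, add_mul, mul_one, one_mul, smul_mul_assoc, mul_smul_comm, mul_neg, smul_neg,
    e1, e2, e3, e4, e5, e6, e7, e8, e9, smul_zero, neg_zero, add_zero]
  module

theorem isUnit_nexp {n : ℕ} (A : Matrix (Fin n) (Fin n) ℂ) (hA : A ^ 4 = 0) : IsUnit (nexp A) := by
  have h1 := nexp_mul_neg A hA
  have h2 := nexp_mul_neg (-A) (by rw [neg_pow, hA, mul_zero])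
  rw [neg_neg] at h2
  exact ⟨⟨nexp A, nexp (-A), h1, h2⟩, rfl⟩

theorem hX4 : hX ^ 4 = 0 := by
  have h2 : hX ^ 2 = !![0, 0, 0, 0; 0, 0, 0, 0; 1, 0, 0, 0; 0, 1, 0, 0] := by
    rw [pow_two]; ext i j
    fin_cases i <;> fin_cases j <;> simp [hX, Matrix.mul_apply, Fin.sum_univ_four]
  have h4 : hX ^ 4 = hX ^ 2 * hX ^ 2 := by noncomm_ring
  rw [h4, h2]; ext i j
  fin_cases i <;> fin_cases j <;> simp [Matrix.mul_apply, Fin.sum_univ_four]

theorem nil_of (M : Matrix (Fin 4) (Fin 4) ℂ) (hc : Commute hX M) : (hX * M) ^ 4 = 0 := by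
  rw [hc.mul_pow, hX4, zero_mul]

theorem scal_ne (N : ℕ) : ((2 * Real.pi : ℝ) : ℂ) ^ (-(N : ℂ) / 2) ≠ 0 := by
  have h : ((2 * Real.pi : ℝ) : ℂ) ≠ 0 := by
    have := Real.pi_pos
    exact_mod_cast (by positivity : (2 * Real.pi : ℝ) ≠ 0)
  rw [Complex.cpow_def_of_ne_zero h]
  exact Complex.exp_ne_zero _

theorem isUnit_psi (N : ℕ) {n : ℕ} (deg : Fin n → ℕ) (c₁ g : Matrix (Fin n) (Fin n) ℂ) (w : ℂ)
    (h1 : IsUnit (nexp (w • c₁))) (h2 : IsUnit g) : IsUnit (psi N deg c₁ g w) := by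
  unfold psi
  rw [Algebra.smul_def]
  refine IsUnit.mul ?_ (IsUnit.mul (IsUnit.mul (IsUnit.mul ?_ h1) h2) ?_)
  · exact (isUnit_iff_ne_zero.2 (scal_ne N)).map _
  · rw [Matrix.isUnit_diagonal, Pi.isUnit_iff]
    intro i
    exact isUnit_iff_ne_zero.2 (Complex.exp_ne_zero _)
  · rw [Matrix.isUnit_diagonal, Pi.isUnit_iff]
    intro i
    refine isUnit_iff_ne_zero.2 (pow_ne_zero _ ?_)
    exact Complex.two_pi_I_ne_zero

theorem gamX_unit : IsUnit (gam (4 • hX) (6 • hX ^ 2) (4 • hX ^ 3)) := by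
  unfold gam
  apply isUnit_nexp
  have key : ∃ M : Matrix (Fin 4) (Fin 4) ℂ, Commute hX M ∧
      (-(Real.eulerMascheroniConstant : ℂ) • (4 • hX) + (riemannZeta 2 / 2) • ((4 • hX) ^ 2 - 2 • (6 • hX ^ 2))
    - (riemannZeta 3 / 3) • ((4 • hX) ^ 3 - 3 • ((4 • hX) * (6 • hX ^ 2)) + 3 • (4 • hX ^ 3))) = hX * M := by
    have c0 : Commute hX hX := Commute.refl _
    have c1 : Commute hX (1 : Matrix (Fin 4) (Fin 4) ℂ) := Commute.one_right _
    have c2 : Commute hX (hX ^ 2) := c0.pow_right 2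
    refine ⟨(-(Real.eulerMascheroniConstant : ℂ)) • (4 • (1 : Matrix (Fin 4) (Fin 4) ℂ))
      + (riemannZeta 2 / 2) • (4 • hX) - (riemannZeta 3 / 3) • (4 • hX ^ 2), ?_, ?_⟩
    · exact (((c1.smul_right 4).smul_right _).add_right ((c0.smul_right 4).smul_right _)).sub_right
        ((c2.smul_right 4).smul_right _)
    · have e1 : hX * hX = hX ^ 2 := by noncomm_ring
      have e2 : hX * hX ^ 2 = hX ^ 3 := by noncomm_ring
      simp only [mul_add, mul_sub, mul_smul_comm, smul_mul_assoc, smul_pow, mul_one, e1, e2]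
      module
  obtain ⟨M, hc, hM⟩ := key
  rw [hM]
  exact nil_of M hc

theorem wX_nil (w : ℂ) : (w • (4 • hX)) ^ 4 = 0 := by
  rw [smul_pow, smul_pow, hX4]; simp

/-- entrywise differentiability -/
def MD {n m : ℕ} (F : ℂ → Matrix (Fin n) (Fin m) ℂ) : Prop :=
  ∀ i j, Differentiable ℂ fun w => F w i j

theorem MD.mul {n m k : ℕ} {F : ℂ → Matrix (Fin n) (Fin m) ℂ} {G : ℂ → Matrix (Fin m) (Fin k) ℂ}
    (hF : MD F) (hG : MD G) : MD fun w => F w * G w := by
  intro i j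
  simp only [Matrix.mul_apply]
  exact Differentiable.fun_sum fun l _ => (hF i l).fun_mul (hG l j)

theorem MD.const {n m : ℕ} (A : Matrix (Fin n) (Fin m) ℂ) : MD fun _ => A := by
  intro i j
  exact differentiable_const _

theorem MD.smul {n m : ℕ} {f : ℂ → ℂ} {F : ℂ → Matrix (Fin n) (Fin m) ℂ} (hf : Differentiable ℂ f)
    (hF : MD F) : MD fun w => f w • F w := by
  intro i j
  simp only [Matrix.smul_apply, smul_eq_mul]
  exact hf.fun_mul (hF i j)

theorem MD.add {n m : ℕ} {F G : ℂ → Matrix (Fin n) (Fin m) ℂ} (hF : MD F) (hG : MD G) :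
    MD fun w => F w + G w := by
  intro i j
  simp only [Matrix.add_apply]
  exact (hF i j).fun_add (hG i j)

theorem MD.diag {n : ℕ} {f : Fin n → ℂ → ℂ} (hf : ∀ i, Differentiable ℂ (f i)) :
    MD fun w => diagonal fun i => f i w := by
  intro i j
  by_cases h : i = j
  · subst h
    simp only [diagonal_apply_eq]
    exact hf i
  · simp only [diagonal_apply_ne _ h]
    exact differentiable_const _

theorem MD.nexp {n : ℕ} (c : Matrix (Fin n) (Fin n) ℂ) : MD fun w : ℂ => Pool.Agent.RHB.nexp (w • c) := by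
  unfold Pool.Agent.RHB.nexp
  simp only [smul_pow]
  exact (((MD.const 1).add (MD.smul differentiable_id (MD.const c))).add
    (MD.smul (differentiable_const _) (MD.smul (differentiable_id.fun_pow 2) (MD.const _)))).add
    (MD.smul (differentiable_const _) (MD.smul (differentiable_id.fun_pow 3) (MD.const _)))

theorem MD.psi (N : ℕ) {n : ℕ} (deg : Fin n → ℕ) (c₁ g : Matrix (Fin n) (Fin n) ℂ) :
    MD fun w => Pool.Agent.RHB.psi N deg c₁ g w := by
  unfold Pool.Agent.RHB.psi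
  refine MD.smul (differentiable_const _) ((((MD.diag ?_).mul (MD.nexp c₁)).mul (MD.const g)).mul
    (MD.const _))
  intro i
  fun_prop

end INV_

open INV_ in
theorem inv_proof : Stmt_INV := by
  refine ⟨fun w => ⟨?_, ?_⟩, fun ρ w => ?_, ?_, ?_, fun d => ?_⟩
  · exact isUnit_psi 3 degX _ _ w (isUnit_nexp _ (wX_nil w)) gamX_unit
  · refine isUnit_psi 1 degZ _ _ w (isUnit_nexp _ ?_) ?_
    · simp
    · unfold gam
      apply isUnit_nexp
      simp
  · have hh : hZ * hZ = 0 := by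
      ext i j
      fin_cases i <;> fin_cases j <;> simp [hZ, Matrix.mul_apply, Fin.sum_univ_two]
    have h1 : exp (-(ρ 0 * exp (-w))) * exp (ρ 0 * exp (-w)) = 1 := by
      rw [← Complex.exp_add]; simp
    have h2 : exp (ρ 0 * exp (-w)) * exp (-(ρ 0 * exp (-w))) = 1 := by
      rw [← Complex.exp_add]; simp
    unfold eZ eZi
    constructor
    · rw [smul_mul_smul_comm, h1, one_smul]
      simp only [sub_mul, mul_add, one_mul, mul_one, smul_mul_smul_comm, hh, smul_zero, add_zero]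
      abel
    · rw [smul_mul_smul_comm, h2, one_smul]
      simp only [add_mul, mul_sub, one_mul, mul_one, smul_mul_smul_comm, hh, smul_zero, sub_zero]
      abel
  · exact MD.psi 3 degX _ _
  · exact MD.psi 1 degZ _ _
  · exact MD.psi 3 degT _ _

end Pool.Agent.RHB
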