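import Pool.Agent.RHB.Stmts

/-!
# Module JMP: the jump relations
-/

set_option autoImplicit false

open Matrix Complex Filter Topology MeasureTheory Set

namespace Pool.Agent.RHB

namespace JMP_

theorem cancel {m n : ℕ} {A B : Matrix (Fin m) (Fin n) ℂ} {P : Matrix (Fin n) (Fin n) ℂ}
    (hP : IsUnit P) (h : A * P = B * P) : A = B := by
  obtain ⟨u, rfl⟩ := hP
  have := congrArg (fun X => X * ((u⁻¹ : (Matrix (Fin n) (Fin n) ℂ)ˣ) : Matrix (Fin n) (Fin n) ℂ)) h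
  simpa only [Matrix.mul_assoc, Units.mul_inv, Matrix.mul_one] using this

end JMP_

open JMP_ in
theorem jmp_proof (hSMI : Stmt_SMI) (hMON : Stmt_MON) (hKER : Stmt_KER) (hINV : Stmt_INV)
    (hLIN : Stmt_LIN) : Stmt_JMP := by
  intro d L ρ φ ε Yinf Yp Ym hIs hRH
  obtain ⟨-, -, -, -, -, h5, h6⟩ := hRH
  obtain ⟨hpsi, heZ, -, -, -⟩ := hINV
  have hL0 : ∀ w : ℂ, L 0 (cexp w) = Lam (cexp (-w)) := by
    intro w
    rw [hIs _ (Complex.exp_ne_zero w), Complex.exp_neg]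
  have hPsi : ∀ w : ℂ, Psi L ρ w = fromBlocks (Lam (cexp (-w)) * psiX w) 0 0 (eZ ρ w * psiZ w) := by
    intro w
    rw [← hL0]
    rfl
  have heZu : ∀ w : ℂ, IsUnit (eZ ρ w) := fun w =>
    ⟨⟨eZ ρ w, eZi ρ w, (heZ ρ w).1, (heZ ρ w).2⟩, rfl⟩
  have hper : ∀ w : ℂ, cexp (-(w - 2 * Real.pi * I)) = cexp (-w) := by
    intro w
    rw [neg_sub, sub_eq_add_neg, add_comm, Complex.exp_add, Complex.exp_two_pi_mul_I, mul_one]
  constructor
  · intro w hw
    have h := h5 w hw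
    obtain ⟨hsm, -⟩ := hSMI d
    rw [Matrix.mul_assoc, Matrix.mul_assoc (Psi L ρ w), hsm, hPsi] at h
    set a₁ := (Ym (cexp w)).toCols₁ with ha₁
    set a₂ := (Ym (cexp w)).toCols₂ with ha₂
    set b₁ := (Yp (cexp w)).toCols₁ with hb₁
    set b₂ := (Yp (cexp w)).toCols₂ with hb₂
    rw [← Matrix.fromCols_toCols (Ym (cexp w)), ← Matrix.fromCols_toCols (Yp (cexp w)),
      ← ha₁, ← ha₂, ← hb₁, ← hb₂, Matrix.fromBlocks_multiply, Matrix.fromCols_mul_fromBlocks,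
      Matrix.fromCols_mul_fromBlocks, Matrix.fromCols_ext_iff] at h
    obtain ⟨e1, e2⟩ := h
    simp only [Matrix.mul_one, Matrix.mul_zero, Matrix.zero_mul, add_zero, zero_add] at e1 e2
    have f2 : a₂ = b₂ := by
      refine cancel (heZu w) (cancel (hpsi w).2 ?_)
      rw [Matrix.mul_assoc, Matrix.mul_assoc]
      exact e2
    refine ⟨f2, ?_⟩
    have e3 : (b₁ * Lam (cexp (-w))) * psiX w =
        (a₁ * Lam (cexp (-w)) + b₂ * (eZ ρ w * Aminus d w)) * psiX w := by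
      rw [Matrix.add_mul, Matrix.mul_assoc, Matrix.mul_assoc, ← e1, f2]
      congr 1
      simp only [Matrix.mul_assoc]
      rw [(hKER d w).2]
    have e4 := cancel (hpsi w).1 e3
    calc b₁ = (b₁ * Lam (cexp (-w))) * Lami (cexp (-w)) := by
          rw [Matrix.mul_assoc, hLIN, Matrix.mul_one]
      _ = (a₁ * Lam (cexp (-w)) + b₂ * (eZ ρ w * Aminus d w)) * Lami (cexp (-w)) := by rw [e4]
      _ = a₁ + b₂ * (eZ ρ w * Aminus d w * Lami (cexp (-w))) := by
          rw [Matrix.add_mul, Matrix.mul_assoc, hLIN, Matrix.mul_one, Matrix.mul_assoc b₂]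
  · intro w hw
    have h := h6 w hw
    obtain ⟨-, hsm⟩ := hSMI d
    have heq : eZ ρ (w - 2 * Real.pi * I) = eZ ρ w := by
      unfold eZ
      rw [hper]
    rw [Matrix.mul_assoc, Matrix.mul_assoc (Psi L ρ _), hsm, hPsi, hPsi, hper, heq] at h
    set a₁ := (Ym (cexp w)).toCols₁ with ha₁
    set a₂ := (Ym (cexp w)).toCols₂ with ha₂
    set b₁ := (Yp (cexp w)).toCols₁ with hb₁
    set b₂ := (Yp (cexp w)).toCols₂ with hb₂
    rw [← Matrix.fromCols_toCols (Ym (cexp w)), ← Matrix.fromCols_toCols (Yp (cexp w)),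
      ← ha₁, ← ha₂, ← hb₁, ← hb₂, Matrix.fromBlocks_multiply, Matrix.fromCols_mul_fromBlocks,
      Matrix.fromCols_mul_fromBlocks, Matrix.fromCols_ext_iff] at h
    obtain ⟨e1, e2⟩ := h
    simp only [Matrix.mul_one, Matrix.mul_zero, Matrix.zero_mul, add_zero, zero_add, neg_zero,
      Matrix.mul_neg, ← Matrix.mul_assoc] at e1 e2
    have m1 := (hMON w).1
    have m2 := (hMON w).2
    have e1' : a₁ * Lam (cexp (-w)) * psiX w = b₁ * Lam (cexp (-w)) * psiX w := by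
      rw [Matrix.mul_assoc (a₁ * Lam (cexp (-w))), m1] at e1
      simpa using e1
    have e1'' := cancel (hpsi w).1 e1'
    have f1 : a₁ = b₁ := by
      have h7 := congrArg (fun X => X * Lami (cexp (-w))) e1''
      have hLIN' : ∀ x : ℂ, Lam x * Lami x = 1 := hLIN
      simpa only [Matrix.mul_assoc, hLIN', Matrix.mul_one] using h7
    refine ⟨f1, ?_⟩
    rw [Matrix.mul_assoc (a₁ * Lam (cexp (-w))), m1, m2] at e2
    have e2' : (b₂ * eZ ρ w) * psiZ w =
        (a₂ * eZ ρ w + b₁ * (Lam (cexp (-w)) * Aplus d w)) * psiZ w := by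
      rw [← e2, Matrix.add_mul, f1]
      simp only [Matrix.mul_neg, Matrix.neg_mul, neg_neg, Matrix.mul_assoc]
      rw [(hKER d w).1, add_comm]
    have e4 := cancel (hpsi w).2 e2'
    calc b₂ = (b₂ * eZ ρ w) * eZi ρ w := by
          rw [Matrix.mul_assoc, (heZ ρ w).1, Matrix.mul_one]
      _ = (a₂ * eZ ρ w + b₁ * (Lam (cexp (-w)) * Aplus d w)) * eZi ρ w := by rw [e4]
      _ = a₂ + b₁ * (Lam (cexp (-w)) * Aplus d w * eZi ρ w) := by
          rw [Matrix.add_mul, Matrix.mul_assoc, (heZ ρ w).1, Matrix.mul_one, Matrix.mul_assoc b₁]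

end Pool.Agent.RHB
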