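import Pool.Agent.RHB.Stmts

set_option autoImplicit false

open Matrix Complex Filter Topology MeasureTheory Set

namespace Pool.Agent.RHB

namespace KER_

/-- strictly lower triangular Toeplitz matrix -/
def low (a b c : ℂ) : Matrix (Fin 4) (Fin 4) ℂ := !![0, 0, 0, 0; a, 0, 0, 0; b, a, 0, 0; c, b, a, 0]

lemma hX_eq : hX = low 1 0 0 := by
  ext i j; fin_cases i <;> fin_cases j <;> simp [hX, low]

lemma low_mul (a b c a' b' c' : ℂ) :
    low a b c * low a' b' c' = low 0 (a * a') (a * b' + b * a') := by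
  ext i j
  fin_cases i <;> fin_cases j <;>
    simp [low, Matrix.mul_apply, Fin.sum_univ_four]
  ring

lemma low_add (a b c a' b' c' : ℂ) :
    low a b c + low a' b' c' = low (a + a') (b + b') (c + c') := by
  ext i j
  fin_cases i <;> fin_cases j <;> simp [low]

lemma low_sub (a b c a' b' c' : ℂ) :
    low a b c - low a' b' c' = low (a - a') (b - b') (c - c') := by
  ext i j
  fin_cases i <;> fin_cases j <;> simp [low]

lemma low_smul (t a b c : ℂ) : t • low a b c = low (t * a) (t * b) (t * c) := by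
  ext i j
  fin_cases i <;> fin_cases j <;> simp [low]

lemma nsmul_low (n : ℕ) (a b c : ℂ) : n • low a b c = low (n * a) (n * b) (n * c) := by
  ext i j
  fin_cases i <;> fin_cases j <;> simp [low]

lemma nexp_low (a b c : ℂ) :
    nexp (low a b c) = 1 + low a (b + a * a / 2) (c + a * b + a * a * a / 6) := by
  unfold nexp
  rw [show low a b c ^ 3 = low a b c * low a b c * low a b c by rw [pow_succ, pow_two],
    pow_two, low_mul, low_mul, low_smul, low_smul, add_assoc, add_assoc, low_add, low_add]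
  congr 2 <;> ring

lemma one_add_mul (a b c a' b' c' : ℂ) :
    (1 + low a b c) * (1 + low a' b' c') = 1 + low (a + a') (b + b' + a * a') (c + c' + a * b' + b * a') := by
  rw [add_mul, mul_add, mul_add, one_mul, mul_one, one_mul, low_mul, add_assoc, low_add, low_add]
  congr 2 <;> ring

lemma wrap {a a' b c : ℂ} (h : a = a') : ∃ b' c' : ℂ, 1 + low a b c = 1 + low a' b' c' :=
  ⟨b, c, by rw [h]⟩

lemma mid (w : ℂ) : ∃ b c : ℂ,
    nexp (w • (4 • hX)) * gam (4 • hX) (6 • hX ^ 2) (4 • hX ^ 3) = 1 + low (4 * w - 4 * γ) b c := by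
  unfold gam
  rw [hX_eq]
  simp only [pow_succ, pow_zero, one_mul, nsmul_low, low_mul, low_smul, low_add, low_sub, nexp_low, one_add_mul]
  refine wrap ?_
  unfold γ
  push_cast
  ring

lemma psiX_eq (w : ℂ) : ∃ b c : ℂ, psiX w = ((2 * Real.pi : ℝ) : ℂ) ^ (-((3 : ℕ) : ℂ) / 2) •
    (diagonal (fun i => exp (-(w * ((degX i : ℂ) - ((3 : ℕ) : ℂ) / 2)))) * (1 + low (4 * w - 4 * γ) b c)
      * diagonal (fun i => (2 * Real.pi * I) ^ degX i)) := by
  obtain ⟨b, c, h⟩ := mid w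
  refine ⟨b, c, ?_⟩
  unfold psiX psi
  rw [Matrix.mul_assoc (diagonal _), h]

lemma psiZ_eq (w : ℂ) : psiZ w = ((2 * Real.pi : ℝ) : ℂ) ^ (-((1 : ℕ) : ℂ) / 2) •
    (diagonal (fun i => exp (-(w * ((degZ i : ℂ) - ((1 : ℕ) : ℂ) / 2))))
      * diagonal (fun i => (2 * Real.pi * I) ^ degZ i)) := by
  unfold psiZ psi gam nexp
  simp

lemma cpi : ((2 * Real.pi : ℝ) : ℂ) ^ (-((1 : ℕ) : ℂ) / 2) =
    ((2 * Real.pi : ℝ) : ℂ) ^ (-((3 : ℕ) : ℂ) / 2) * (2 * Real.pi) := by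
  have h0 : ((2 * Real.pi : ℝ) : ℂ) ≠ 0 := by
    exact_mod_cast (by positivity : (2 * Real.pi : ℝ) ≠ 0)
  have h1 : (-((1 : ℕ) : ℂ) / 2) = (-((3 : ℕ) : ℂ) / 2) + 1 := by push_cast; ring
  rw [h1, Complex.cpow_add _ _ h0, Complex.cpow_one]
  push_cast
  ring

end KER_

open KER_

theorem ker_proof : Stmt_KER := by
  intro d w
  obtain ⟨b, c, hX'⟩ := psiX_eq w
  obtain ⟨K, hK⟩ : ∃ K, K = ((2 * Real.pi : ℝ) : ℂ) ^ (-((3 : ℕ) : ℂ) / 2) := ⟨_, rfl⟩
  obtain ⟨u, hu⟩ : ∃ u, u = exp (w / 2) := ⟨_, rfl⟩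
  have hu0 : u ≠ 0 := by rw [hu]; exact Complex.exp_ne_zero _
  have e1 : exp (-w) = (u ^ 2)⁻¹ := by
    rw [hu, ← Complex.exp_nat_mul, ← Complex.exp_neg]
    congr 1
    push_cast
    ring
  have eX : ∀ i : Fin 4, exp (-(w * ((degX i : ℂ) - ((3 : ℕ) : ℂ) / 2))) = u ^ 3 * (u ^ (2 * (i : ℕ)))⁻¹ := by
    intro i
    rw [hu, ← Complex.exp_nat_mul, ← Complex.exp_nat_mul, ← Complex.exp_neg, ← Complex.exp_add]
    congr 1
    fin_cases i <;> simp [degX] <;> ring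
  have eZ' : ∀ i : Fin 2, exp (-(w * ((degZ i : ℂ) - ((1 : ℕ) : ℂ) / 2))) = u * (u ^ (2 * (i : ℕ)))⁻¹ := by
    intro i
    have : u * (u ^ (2 * (i : ℕ)))⁻¹ = u ^ 1 * (u ^ (2 * (i : ℕ)))⁻¹ := by rw [pow_one]
    rw [this, hu, ← Complex.exp_nat_mul, ← Complex.exp_nat_mul, ← Complex.exp_neg, ← Complex.exp_add]
    congr 1
    fin_cases i <;> simp [degZ] <;> ring
  have hX2 : psiX w = K • !![u ^ 3, 0, 0, 0;
      u * (4 * w - 4 * γ), u * (2 * Real.pi * I), 0, 0;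
      u⁻¹ * b, u⁻¹ * (4 * w - 4 * γ) * (2 * Real.pi * I), u⁻¹ * (2 * Real.pi * I) ^ 2, 0;
      (u ^ 3)⁻¹ * c, (u ^ 3)⁻¹ * b * (2 * Real.pi * I), (u ^ 3)⁻¹ * (4 * w - 4 * γ) * (2 * Real.pi * I) ^ 2,
        (u ^ 3)⁻¹ * (2 * Real.pi * I) ^ 3] := by
    rw [hX', ← hK]
    congr 1
    simp only [eX]
    ext i j
    rw [Matrix.mul_diagonal, Matrix.diagonal_mul]
    fin_cases i <;> fin_cases j <;> simp [low, degX] <;> field_simp <;> try exact Or.inl trivial
  have hZ2 : psiZ w = (K * (2 * Real.pi)) • !![u, 0; 0, u⁻¹ * (2 * Real.pi * I)] := by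
    rw [psiZ_eq, cpi, ← hK]
    congr 1
    simp only [eZ']
    ext i j
    rw [Matrix.mul_diagonal]
    fin_cases i <;> fin_cases j <;> simp [degZ] <;> field_simp
  have hI : I ^ 2 = -1 := Complex.I_sq
  have hI3 : I ^ 3 = -I := by rw [pow_succ, Complex.I_sq]; ring
  refine ⟨?_, ?_⟩
  · rw [hX2, hZ2, Aplus, e1, gys]
    ext i j
    fin_cases i <;> fin_cases j <;>
      simp [Matrix.mul_apply, Fin.sum_univ_four, Fin.sum_univ_two]
    all_goals field_simp
    all_goals ring_nf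
    all_goals try simp only [hI, hI3]
    all_goals ring_nf
  · rw [hX2, hZ2, Aminus, e1, res]
    ext i j
    fin_cases i <;> fin_cases j <;>
      simp [Matrix.mul_apply, Fin.sum_univ_four, Fin.sum_univ_two]
    all_goals field_simp
    all_goals ring_nf

end Pool.Agent.RHB
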