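import Pool.Agent.RHB.Stmts

/-!
# Squad RHB, module LDB: `Lam` and `Lami` are entire of exponential type
-/

set_option autoImplicit false

open Matrix Complex Filter Topology MeasureTheory Set

namespace Pool.Agent.RHB

namespace LDB_

theorem summ_fac (y : ℝ) : Summable fun d : ℕ => y ^ d / (d.factorial : ℝ) :=
  Real.summable_pow_div_factorial y

theorem tsum_fac (y : ℝ) : ∑' d : ℕ, y ^ d / (d.factorial : ℝ) = Real.exp y := by
  rw [Real.exp_eq_exp_ℝ, NormedSpace.exp_eq_tsum_div]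

/-- the bound of one term -/
theorem term_le {C r : ℝ} (hC : 1 ≤ C) (hr : 0 ≤ r) (e d : ℕ) (he : e ≤ 4 * d + 3) (a : ℂ)
    (ha : ‖a‖ ≤ C ^ (d + 1) / (d.factorial : ℝ) ^ 4) (x : ℂ) (hx : ‖x‖ ≤ r) :
    ‖x ^ e * a‖ ≤ C * Real.exp (3 * r) * Real.exp (C * (1 + r)) ^ 3 *
      ((C * (1 + r)) ^ d / (d.factorial : ℝ)) := by
  have hf : (0 : ℝ) < d.factorial := by exact_mod_cast Nat.factorial_pos d
  have h1 : ‖x‖ ^ e ≤ (1 + r) ^ (4 * d + 3) :=
    calc ‖x‖ ^ e ≤ (1 + r) ^ e := pow_le_pow_left₀ (norm_nonneg _) (by linarith) e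
      _ ≤ (1 + r) ^ (4 * d + 3) := pow_le_pow_right₀ (by linarith) he
  have h2 : (1 + r) ^ 3 ≤ Real.exp (3 * r) := by
    have h3 : 1 + r ≤ Real.exp r := by
      have := Real.add_one_le_exp r
      linarith
    calc (1 + r) ^ 3 ≤ Real.exp r ^ 3 := pow_le_pow_left₀ (by linarith) h3 3
      _ = Real.exp (3 * r) := by rw [← Real.exp_nat_mul]; norm_num
  have hy : 0 ≤ C * (1 + r) := by positivity
  have h4 : (C * (1 + r)) ^ d / (d.factorial : ℝ) ≤ Real.exp (C * (1 + r)) :=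
    Real.pow_div_factorial_le_exp (C * (1 + r)) hy d
  have h5 : C ^ (d + 1) ≤ C * (C ^ d) ^ 4 := by
    rw [pow_succ, mul_comm]
    apply mul_le_mul_of_nonneg_left _ (by linarith)
    have h6 : (1 : ℝ) ≤ C ^ d := one_le_pow₀ hC
    nlinarith [pow_le_pow_left₀ (by norm_num : (0:ℝ) ≤ 1) h6 3, pow_nonneg (by linarith : 0 ≤ C ^ d) 3]
  have h7 : 0 ≤ (C * (1 + r)) ^ d / (d.factorial : ℝ) := by positivity
  calc ‖x ^ e * a‖ = ‖x‖ ^ e * ‖a‖ := by rw [norm_mul, norm_pow]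
    _ ≤ (1 + r) ^ (4 * d + 3) * (C ^ (d + 1) / (d.factorial : ℝ) ^ 4) :=
        mul_le_mul h1 ha (norm_nonneg _) (by positivity)
    _ ≤ (1 + r) ^ (4 * d + 3) * (C * (C ^ d) ^ 4 / (d.factorial : ℝ) ^ 4) := by
        apply mul_le_mul_of_nonneg_left _ (by positivity)
        exact div_le_div_of_nonneg_right h5 (by positivity)
    _ = C * (1 + r) ^ 3 * ((C * (1 + r)) ^ d / (d.factorial : ℝ)) ^ 3 *
        ((C * (1 + r)) ^ d / (d.factorial : ℝ)) := by
        rw [pow_add, mul_pow C (1 + r) d, mul_comm 4 d, pow_mul (1 + r) d 4]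
        generalize (1 + r) ^ d = P
        generalize C ^ d = D
        field_simp
    _ ≤ C * Real.exp (3 * r) * Real.exp (C * (1 + r)) ^ 3 *
        ((C * (1 + r)) ^ d / (d.factorial : ℝ)) := by
        apply mul_le_mul_of_nonneg_right _ h7
        apply mul_le_mul _ _ (by positivity) (by positivity)
        · exact mul_le_mul_of_nonneg_left h2 (by linarith)
        · exact pow_le_pow_left₀ h7 h4 3

theorem summ_bd (C r : ℝ) : Summable fun d : ℕ => C * Real.exp (3 * r) *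
    Real.exp (C * (1 + r)) ^ 3 * ((C * (1 + r)) ^ d / (d.factorial : ℝ)) :=
  (summ_fac _).mul_left _

theorem diff_sum {C : ℝ} (hC : 1 ≤ C) (e : ℕ → ℕ) (a : ℕ → ℂ) (he : ∀ d, e d ≤ 4 * d + 3)
    (ha : ∀ d, ‖a d‖ ≤ C ^ (d + 1) / (d.factorial : ℝ) ^ 4) :
    Differentiable ℂ fun x : ℂ => ∑' d, x ^ e d * a d := by
  intro x
  have h := differentiableOn_tsum_of_summable_norm (F := fun d (x : ℂ) => x ^ e d * a d)
    (U := Metric.ball (0 : ℂ) (‖x‖ + 1)) (summ_bd C (‖x‖ + 1))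
    (fun d => ((differentiable_id.pow (e d)).mul_const (a d)).differentiableOn)
    Metric.isOpen_ball (fun d w hw => by
      have hw' : ‖w‖ ≤ ‖x‖ + 1 := by
        rw [Metric.mem_ball, dist_zero_right] at hw
        exact hw.le
      exact term_le hC (by positivity) (e d) d (he d) (a d) (ha d) w hw')
  exact h.differentiableAt (Metric.isOpen_ball.mem_nhds (by
    rw [Metric.mem_ball, dist_zero_right]
    linarith))

theorem norm_sum {C : ℝ} (hC : 1 ≤ C) (e : ℕ → ℕ) (a : ℕ → ℂ) (he : ∀ d, e d ≤ 4 * d + 3)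
    (ha : ∀ d, ‖a d‖ ≤ C ^ (d + 1) / (d.factorial : ℝ) ^ 4) (x : ℂ) :
    ‖∑' d, x ^ e d * a d‖ ≤ C * Real.exp (4 * C) * Real.exp ((3 + 4 * C) * ‖x‖) := by
  have h1 : ∀ d, ‖x ^ e d * a d‖ ≤ C * Real.exp (3 * ‖x‖) * Real.exp (C * (1 + ‖x‖)) ^ 3 *
      ((C * (1 + ‖x‖)) ^ d / (d.factorial : ℝ)) := fun d =>
    term_le hC (norm_nonneg x) (e d) d (he d) (a d) (ha d) x (le_refl _)
  have h2 := tsum_of_norm_bounded (summ_bd C ‖x‖).hasSum h1
  refine h2.trans (le_of_eq ?_)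
  rw [tsum_mul_left, tsum_fac, ← Real.exp_nat_mul, mul_assoc, mul_assoc, ← Real.exp_add,
    mul_assoc, ← Real.exp_add, ← Real.exp_add]
  congr 2
  push_cast
  ring

theorem Q0 : Qd 0 0 3 = 0 := by
  simp only [Qd, Rk, Matrix.of_apply]
  simp [hX, pow_succ, Matrix.mul_apply, Fin.sum_univ_four]

theorem Q1 : Qd 1 0 3 = 1 := by
  simp only [Qd, Rk, Bk, Matrix.of_apply]
  simp [hX, pow_succ, Matrix.mul_apply, Fin.sum_univ_four, Matrix.one_apply]

end LDB_

open LDB_ in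
theorem ldb_proof (hQBD : Stmt_QBD) : Stmt_LDB := by
  obtain ⟨C₀, hC₀, hQ₀⟩ := hQBD
  obtain ⟨C, hC⟩ : ∃ C, C = max C₀ 1 := ⟨_, rfl⟩
  have hC1 : 1 ≤ C := by rw [hC]; exact le_max_right _ _
  have hQ : ∀ (d : ℕ) (i j : Fin 4), ‖Qd d i j‖ ≤ C ^ (d + 1) / (d.factorial : ℝ) ^ 4 := by
    intro d i j
    refine (hQ₀ d i j).trans ?_
    apply div_le_div_of_nonneg_right _ (by positivity)
    exact pow_le_pow_left₀ hC₀.le (by rw [hC]; exact le_max_left _ _) _
  have he : ∀ (i j : Fin 4) (d : ℕ), 4 * d + (i : ℕ) - (j : ℕ) ≤ 4 * d + 3 := by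
    intro i j d
    have := i.isLt
    omega
  have hLami : ∀ i j, (fun x => Lami x i j) =
      fun x : ℂ => ∑' d : ℕ, x ^ (4 * d + (i : ℕ) - (j : ℕ)) * Qd d i j := fun i j => rfl
  have hLam : ∀ i j, (fun x => Lam x i j) = fun x : ℂ =>
      ∑' d : ℕ, (-x) ^ (4 * d + (i : ℕ) - (j : ℕ)) * Qd d (Fin.rev j) (Fin.rev i) :=
    fun i j => rfl
  refine ⟨?_, ?_, ?_, ?_⟩
  · intro i j
    rw [hLam]
    exact (diff_sum hC1 (fun d => 4 * d + (i : ℕ) - (j : ℕ)) (fun d => Qd d (Fin.rev j) (Fin.rev i))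
      (he i j) (fun d => hQ d _ _)).comp differentiable_neg
  · intro i j
    rw [hLami]
    exact diff_sum hC1 (fun d => 4 * d + (i : ℕ) - (j : ℕ)) (fun d => Qd d i j)
      (he i j) (fun d => hQ d _ _)
  · refine ⟨C * Real.exp (4 * C) + (3 + 4 * C), by positivity, ?_⟩
    have hmono : ∀ x : ℂ, C * Real.exp (4 * C) * Real.exp ((3 + 4 * C) * ‖x‖) ≤
        (C * Real.exp (4 * C) + (3 + 4 * C)) *
          Real.exp ((C * Real.exp (4 * C) + (3 + 4 * C)) * ‖x‖) := by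
      intro x
      have h1 : 0 ≤ C * Real.exp (4 * C) := by positivity
      apply mul_le_mul (by linarith) _ (Real.exp_pos _).le (by positivity)
      apply Real.exp_le_exp.2
      exact mul_le_mul_of_nonneg_right (by linarith) (norm_nonneg _)
    intro x i j
    constructor
    · have h1 := norm_sum hC1 (fun d => 4 * d + (i : ℕ) - (j : ℕ))
        (fun d => Qd d (Fin.rev j) (Fin.rev i)) (he i j) (fun d => hQ d _ _) (-x)
      rw [norm_neg] at h1
      exact h1.trans (hmono x)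
    · exact (norm_sum hC1 (fun d => 4 * d + (i : ℕ) - (j : ℕ))
        (fun d => Qd d i j) (he i j) (fun d => hQ d _ _) x).trans (hmono x)
  · have hsb : Summable fun d : ℕ => C ^ (d + 2 + 1) / ((d + 2).factorial : ℝ) ^ 4 := by
      have h1 : Summable fun d : ℕ => C * (C ^ (d + 2) / ((d + 2).factorial : ℝ)) :=
        ((summable_nat_add_iff 2).2 (summ_fac C)).mul_left C
      refine Summable.of_nonneg_of_le (fun d => by positivity) (fun d => ?_) h1
      have hf : (1 : ℝ) ≤ (d + 2).factorial := by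
        exact_mod_cast Nat.one_le_iff_ne_zero.2 (Nat.factorial_ne_zero _)
      rw [pow_succ, mul_comm, mul_div_assoc]
      apply mul_le_mul_of_nonneg_left _ (by linarith)
      apply div_le_div_of_nonneg_left (by positivity) (by linarith)
      calc ((d + 2).factorial : ℝ) = ((d + 2).factorial : ℝ) ^ 1 := (pow_one _).symm
        _ ≤ ((d + 2).factorial : ℝ) ^ 4 := pow_le_pow_right₀ hf (by norm_num)
    refine ⟨∑' d : ℕ, C ^ (d + 2 + 1) / ((d + 2).factorial : ℝ) ^ 4, ?_⟩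
    intro x hx
    obtain ⟨f, hf⟩ : ∃ f : ℕ → ℂ, f = fun d => (-x) ^ (4 * d + 0 - 3) * Qd d 0 3 := ⟨_, rfl⟩
    have hLx : Lam x 0 3 = ∑' d, f d := by
      rw [hf]
      rfl
    have hsf : Summable f := by
      rw [hf]
      refine Summable.of_norm_bounded (summ_bd C ‖x‖) (fun d => ?_)
      exact term_le hC1 (norm_nonneg x) (4 * d + 0 - 3) d (by omega) (Qd d 0 3) (hQ d 0 3) (-x)
        (by rw [norm_neg])
    have hsplit := hsf.sum_add_tsum_nat_add 2
    rw [Finset.sum_range_succ, Finset.sum_range_one] at hsplit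
    have hf0 : f 0 = 0 := by
      rw [hf]
      simp only [Q0, mul_zero]
    have hf1 : f 1 = -x := by
      rw [hf]
      simp only [Q1, mul_one]
      norm_num
    rw [hf0, hf1, zero_add] at hsplit
    have h2 : Lam x 0 3 + x = ∑' d, f (d + 2) := by
      rw [hLx, ← hsplit]
      ring
    rw [h2]
    have h3 : ∀ d, ‖f (d + 2)‖ ≤ C ^ (d + 2 + 1) / ((d + 2).factorial : ℝ) ^ 4 * ‖x‖ ^ 2 := by
      intro d
      rw [hf]
      simp only [norm_mul, norm_pow, norm_neg]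
      rw [mul_comm]
      apply mul_le_mul (hQ (d + 2) 0 3) _ (by positivity) (by positivity)
      exact pow_le_pow_of_le_one (norm_nonneg _) hx (by omega)
    exact tsum_of_norm_bounded ((hsb.hasSum).mul_right (‖x‖ ^ 2)) h3

end Pool.Agent.RHB
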