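import Pool.Agent.RHB.Stmts

/-!
# Module LEX: the series is the fundamental solution
-/

set_option autoImplicit false

open Matrix Complex Filter Topology MeasureTheory Set

namespace Pool.Agent.RHB

namespace LEX_

/-- the matrix unit -/
def E03 : Matrix (Fin 4) (Fin 4) ℂ := !![0, 0, 0, 1; 0, 0, 0, 0; 0, 0, 0, 0; 0, 0, 0, 0]

/-- coefficient matrices -/
noncomputable def pc (x : ℂ) (d : ℕ) : Matrix (Fin 4) (Fin 4) ℂ :=
  Matrix.of fun (i j : Fin 4) => (-x) ^ (4 * d + (i : ℕ) - (j : ℕ)) * Qd d (Fin.rev j) (Fin.rev i)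

theorem qX_eq (t : ℂ) : qX t = hX + exp t • E03 := by
  ext i j
  fin_cases i <;> fin_cases j <;> simp [qX, hX, E03]

theorem nexp_eq (a : ℂ) : nexp (a • hX) = !![1, 0, 0, 0; a, 1, 0, 0; a ^ 2 / 2, a, 1, 0;
    a ^ 3 / 6, a ^ 2 / 2, a, 1] := by
  ext i j
  fin_cases i <;> fin_cases j <;>
    simp [nexp, hX, pow_succ, Matrix.mul_apply, Fin.sum_univ_four] <;> ring

theorem nexp_mul (a : ℂ) : nexp ((-a) • hX) * nexp (a • hX) = 1 := by
  rw [nexp_eq, nexp_eq]
  ext i j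
  fin_cases i <;> fin_cases j <;>
    simp [Matrix.mul_apply, Fin.sum_univ_four] <;> ring

theorem hX_nexp (a : ℂ) : hX * nexp (a • hX) = !![0, 0, 0, 0; 1, 0, 0, 0; a, 1, 0, 0;
    a ^ 2 / 2, a, 1, 0] := by
  rw [nexp_eq]
  ext i j
  fin_cases i <;> fin_cases j <;>
    simp [hX, Matrix.mul_apply, Fin.sum_univ_four]

theorem pc_zero (hQ : Stmt_QRE) (x : ℂ) : pc x 0 = 1 := by
  ext i j
  rw [pc, Matrix.of_apply, hQ.1]
  fin_cases i <;> fin_cases j <;> simp [Fin.rev, Matrix.one_apply]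

theorem mul_hX (A : Matrix (Fin 4) (Fin 4) ℂ) :
    A * hX = Matrix.of fun i j => ![A i 1, A i 2, A i 3, 0] j := by
  ext i j
  fin_cases j <;> simp [hX, Matrix.mul_apply, Fin.sum_univ_four]

theorem hX_mul (A : Matrix (Fin 4) (Fin 4) ℂ) :
    hX * A = Matrix.of fun i j => ![0, A 0 j, A 1 j, A 2 j] i := by
  ext i j
  fin_cases i <;> simp [hX, Matrix.mul_apply, Fin.sum_univ_four]

theorem E03_mul (A : Matrix (Fin 4) (Fin 4) ℂ) :
    E03 * A = Matrix.of fun i j => ![A 3 j, 0, 0, 0] i := by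
  ext i j
  fin_cases i <;> simp [E03, Matrix.mul_apply, Fin.sum_univ_four]

theorem mul_E03 (A : Matrix (Fin 4) (Fin 4) ℂ) :
    A * E03 = Matrix.of fun i j => ![0, 0, 0, A i 0] j := by
  ext i j
  fin_cases j <;> simp [E03, Matrix.mul_apply, Fin.sum_univ_four]

theorem pc_succ (hQ : Stmt_QRE) (x : ℂ) (d : ℕ) : ((d + 1 : ℕ) : ℂ) • pc x (d + 1) =
    x • (pc x (d + 1) * hX - hX * pc x (d + 1)) - x • (E03 * pc x d) := by
  have h := hQ.2 d
  have h' : ∀ a b : Fin 4, ((d + 1 : ℕ) : ℂ) * Qd (d + 1) a b = -(hX * Qd (d + 1)) a b +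
      (Qd (d + 1) * hX) a b + (Qd d * E03) a b := by
    intro a b
    have h1 := congrFun (congrFun h a) b
    rw [Matrix.sub_apply, Matrix.add_apply, Matrix.smul_apply, smul_eq_mul] at h1
    change _ = (Qd d * E03) a b at h1
    rw [← h1]
    ring
  have e : ∀ i j : Fin 4, pc x (d + 1) i j =
      (-x) ^ (4 * d) * ((-x) ^ (4 + (i : ℕ) - (j : ℕ)) * Qd (d + 1) (Fin.rev j) (Fin.rev i)) := by
    intro i j
    rw [pc, Matrix.of_apply, ← mul_assoc, ← pow_add]
    congr 2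
    have := i.2
    have := j.2
    omega
  have e3 : ∀ j : Fin 4, pc x d 3 j =
      (-x) ^ (4 * d) * ((-x) ^ (3 - (j : ℕ)) * Qd d (Fin.rev j) 0) := by
    intro j
    rw [pc, Matrix.of_apply, ← mul_assoc, ← pow_add]
    have hj := j.2
    congr 2
    change 4 * d + 3 - (j : ℕ) = 4 * d + (3 - (j : ℕ))
    omega
  ext i j
  have key := h' (Fin.rev j) (Fin.rev i)
  rw [mul_hX, hX_mul, mul_E03] at key
  rw [mul_hX, hX_mul, E03_mul, Matrix.sub_apply, Matrix.smul_apply, Matrix.smul_apply,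
    Matrix.smul_apply, Matrix.sub_apply, smul_eq_mul, smul_eq_mul, smul_eq_mul, Matrix.of_apply,
    Matrix.of_apply, Matrix.of_apply]
  rw [e i j, e i 1, e i 2, e i 3, e 0 j, e 1 j, e 2 j, e3 j]
  clear e e3 h h'
  fin_cases i <;> fin_cases j <;> simp [Fin.rev] at key ⊢
  all_goals first
    | linear_combination ((-x) ^ (4 * d) * x) * key
    | linear_combination ((-x) ^ (4 * d) * (-x) ^ 1) * key
    | linear_combination ((-x) ^ (4 * d) * (-x) ^ 2) * key
    | linear_combination ((-x) ^ (4 * d) * (-x) ^ 3) * key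
    | linear_combination ((-x) ^ (4 * d) * (-x) ^ 4) * key
    | linear_combination ((-x) ^ (4 * d) * (-x) ^ 5) * key
    | linear_combination ((-x) ^ (4 * d) * (-x) ^ 6) * key
    | linear_combination ((-x) ^ (4 * d) * (-x) ^ 7) * key

/-- bounds of the coefficients -/
theorem bnd (hB : Stmt_QBD) (x : ℂ) : ∃ K r : ℝ, 0 ≤ K ∧ 0 ≤ r ∧
    ∀ d i j, ‖pc x d i j‖ ≤ K * (r ^ d / (d.factorial : ℝ)) := by
  obtain ⟨C, hC, hb⟩ := hB
  refine ⟨(1 + ‖x‖) ^ 3 * C, (1 + ‖x‖) ^ 4 * C, by positivity, by positivity, fun d i j => ?_⟩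
  rw [pc, Matrix.of_apply, norm_mul, norm_pow, norm_neg]
  have h1 : ‖x‖ ^ (4 * d + (i : ℕ) - (j : ℕ)) ≤ (1 + ‖x‖) ^ (4 * d + 3) := by
    have hx : 0 ≤ ‖x‖ := norm_nonneg x
    calc ‖x‖ ^ (4 * d + (i : ℕ) - (j : ℕ)) ≤ (1 + ‖x‖) ^ (4 * d + (i : ℕ) - (j : ℕ)) :=
          pow_le_pow_left₀ hx (by linarith) _
      _ ≤ (1 + ‖x‖) ^ (4 * d + 3) := by
          apply pow_le_pow_right₀ (by linarith)
          have := i.2
          omega
  have h2 : ‖Qd d (Fin.rev j) (Fin.rev i)‖ ≤ C ^ (d + 1) / (d.factorial : ℝ) := by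
    refine (hb d _ _).trans ?_
    apply div_le_div_of_nonneg_left (by positivity) (by positivity)
    have hf : (1 : ℝ) ≤ d.factorial := by exact_mod_cast d.factorial_pos
    calc (d.factorial : ℝ) = (d.factorial : ℝ) ^ 1 := (pow_one _).symm
      _ ≤ (d.factorial : ℝ) ^ 4 := pow_le_pow_right₀ hf (by norm_num)
  calc ‖x‖ ^ (4 * d + (i : ℕ) - (j : ℕ)) * ‖Qd d (Fin.rev j) (Fin.rev i)‖
      ≤ (1 + ‖x‖) ^ (4 * d + 3) * (C ^ (d + 1) / (d.factorial : ℝ)) :=
        mul_le_mul h1 h2 (norm_nonneg _) (by positivity)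
    _ = (1 + ‖x‖) ^ 3 * C * (((1 + ‖x‖) ^ 4 * C) ^ d / (d.factorial : ℝ)) := by
        rw [mul_pow, ← pow_mul, pow_add, pow_succ C d]
        ring

theorem norm_exp_le (t : ℂ) (d : ℕ) {R : ℝ} (h : t.re ≤ R) :
    ‖exp (d * t)‖ ≤ Real.exp R ^ d := by
  rw [Complex.norm_exp, ← Real.exp_nat_mul]
  apply Real.exp_le_exp.2
  have : ((d : ℂ) * t).re = d * t.re := by simp
  rw [this]
  exact mul_le_mul_of_nonneg_left h (Nat.cast_nonneg d)

theorem nat_le_two_pow (d : ℕ) : (d : ℝ) ≤ 2 ^ d := by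
  exact_mod_cast (Nat.lt_two_pow_self (n := d)).le

/-- the matrix of the series -/
noncomputable def Ps (x t : ℂ) : Matrix (Fin 4) (Fin 4) ℂ :=
  Matrix.of fun i j => ∑' d : ℕ, exp (d * t) * pc x d i j

theorem hasSum_P (hB : Stmt_QBD) (x t : ℂ) (i j : Fin 4) :
    HasSum (fun d : ℕ => exp (d * t) * pc x d i j) (Ps x t i j) := by
  obtain ⟨K, r, hK, hr, hb⟩ := bnd hB x
  apply Summable.hasSum
  refine Summable.of_norm_bounded (g := fun d : ℕ => K * ((Real.exp t.re * r) ^ d / d.factorial))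
    ((Real.summable_pow_div_factorial _).mul_left K) fun d => ?_
  rw [norm_mul]
  calc ‖exp (d * t)‖ * ‖pc x d i j‖ ≤ Real.exp t.re ^ d * (K * (r ^ d / d.factorial)) :=
        mul_le_mul (norm_exp_le t d le_rfl) (hb d i j) (norm_nonneg _) (by positivity)
    _ = _ := by rw [mul_pow]; ring

/-- the derivative of the series -/
noncomputable def Pd (x t : ℂ) : Matrix (Fin 4) (Fin 4) ℂ :=
  x • (Ps x t * hX - hX * Ps x t) - (x * exp t) • (E03 * Ps x t)

theorem hasSum_Pd (hQ : Stmt_QRE) (hB : Stmt_QBD) (x t : ℂ) (i j : Fin 4) :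
    HasSum (fun d : ℕ => (d : ℂ) * exp (d * t) * pc x d i j) (Pd x t i j) := by
  have hs := hasSum_P hB x t
  -- the first part
  have h1 : HasSum (fun d : ℕ => x * ((∑ k, exp (d * t) * pc x d i k * hX k j) -
      ∑ k, hX i k * (exp (d * t) * pc x d k j)))
      (x * ((∑ k, Ps x t i k * hX k j) - ∑ k, hX i k * Ps x t k j)) := by
    refine HasSum.mul_left x (HasSum.sub ?_ ?_)
    · exact hasSum_sum fun k _ => (hs i k).mul_right _
    · exact hasSum_sum fun k _ => (hs k j).mul_left _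
  -- the second part
  have h2 : HasSum (fun d : ℕ => x * exp t * ∑ k, E03 i k * (exp (d * t) * pc x d k j))
      (x * exp t * ∑ k, E03 i k * Ps x t k j) :=
    HasSum.mul_left _ (hasSum_sum fun k _ => (hs k j).mul_left _)
  have h3 : HasSum (fun d : ℕ => if d = 0 then (0 : ℂ) else
      x * exp t * ∑ k, E03 i k * (exp ((d - 1 : ℕ) * t) * pc x (d - 1) k j))
      (x * exp t * ∑ k, E03 i k * Ps x t k j) := by
    have := (hasSum_nat_add_iff (f := fun d : ℕ => if d = 0 then (0 : ℂ) else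
      x * exp t * ∑ k, E03 i k * (exp ((d - 1 : ℕ) * t) * pc x (d - 1) k j)) 1
      (g := x * exp t * ∑ k, E03 i k * Ps x t k j)).1 ?_
    · simpa using this
    · simpa using h2
  have h4 := h1.sub h3
  have e : x * ((∑ k, Ps x t i k * hX k j) - ∑ k, hX i k * Ps x t k j) -
      x * exp t * ∑ k, E03 i k * Ps x t k j = Pd x t i j := by
    rw [Pd, Matrix.sub_apply, Matrix.smul_apply, Matrix.smul_apply, Matrix.sub_apply,
      Matrix.mul_apply, Matrix.mul_apply, Matrix.mul_apply, smul_eq_mul, smul_eq_mul]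
  rw [e] at h4
  refine h4.congr_fun ?_
  intro d
  rcases d with _ | d
  · have h0 := pc_zero hQ x
    have h5 : (pc x 0 * hX) i j = (hX * pc x 0) i j := by rw [h0, one_mul, mul_one]
    rw [Matrix.mul_apply, Matrix.mul_apply] at h5
    simp only [Nat.cast_zero, zero_mul, Complex.exp_zero, one_mul, if_true, sub_zero]
    rw [h5, sub_self, mul_zero]
  · have h5 := congrFun (congrFun (pc_succ hQ x d) i) j
    rw [Matrix.sub_apply, Matrix.smul_apply, Matrix.smul_apply, Matrix.smul_apply,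
      Matrix.sub_apply, Matrix.mul_apply, Matrix.mul_apply, Matrix.mul_apply, smul_eq_mul,
      smul_eq_mul, smul_eq_mul] at h5
    have h6 : exp (((d + 1 : ℕ) : ℂ) * t) = exp t * exp (d * t) := by
      rw [← Complex.exp_add]
      congr 1
      push_cast
      ring
    rw [if_neg (Nat.succ_ne_zero d), Nat.add_sub_cancel]
    have h7 : ((d + 1 : ℕ) : ℂ) * exp (((d + 1 : ℕ) : ℂ) * t) * pc x (d + 1) i j =
        exp (((d + 1 : ℕ) : ℂ) * t) * (((d + 1 : ℕ) : ℂ) * pc x (d + 1) i j) := by ring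
    rw [h7, h5, mul_sub]
    congr 1
    · rw [mul_left_comm, mul_sub, Finset.mul_sum, Finset.mul_sum]
      congr 2
      · exact Finset.sum_congr rfl fun k _ => by ring
      · exact Finset.sum_congr rfl fun k _ => by ring
    · rw [h6, Finset.mul_sum, Finset.mul_sum, Finset.mul_sum]
      exact Finset.sum_congr rfl fun k _ => by ring

theorem hasDeriv_P (hQ : Stmt_QRE) (hB : Stmt_QBD) (x t : ℂ) (i j : Fin 4) :
    HasDerivAt (fun t => Ps x t i j) (Pd x t i j) t := by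
  obtain ⟨K, r, hK, hr, hb⟩ := bnd hB x
  have hu : Summable fun d : ℕ => K * ((2 * (Real.exp (t.re + 1) * r)) ^ d / d.factorial) :=
    (Real.summable_pow_div_factorial _).mul_left K
  have hopen : IsOpen {s : ℂ | s.re < t.re + 1} := isOpen_lt Complex.continuous_re continuous_const
  have hconn : IsPreconnected {s : ℂ | s.re < t.re + 1} :=
    (convex_halfSpace_re_lt (t.re + 1)).isPreconnected
  have ht : t ∈ {s : ℂ | s.re < t.re + 1} := by
    simp
  have := hasDerivAt_tsum_of_isPreconnected (g := fun (d : ℕ) (s : ℂ) => exp (d * s) * pc x d i j)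
    (g' := fun (d : ℕ) (s : ℂ) => (d : ℂ) * exp (d * s) * pc x d i j) hu hopen hconn
    (fun d s _ => ?_) (fun d s hs => ?_) ht (hasSum_P hB x t i j).summable ht
  · rw [(hasSum_Pd hQ hB x t i j).tsum_eq] at this
    exact this
  · have h1 : HasDerivAt (fun s : ℂ => (d : ℂ) * s) (d : ℂ) s := by
      simpa using (hasDerivAt_id s).const_mul (d : ℂ)
    have h2 := (h1.cexp).mul_const (pc x d i j)
    have e : (d : ℂ) * exp (d * s) * pc x d i j = exp (d * s) * d * pc x d i j := by ring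
    show HasDerivAt (fun s : ℂ => exp (d * s) * pc x d i j)
      ((d : ℂ) * exp (d * s) * pc x d i j) s
    rw [e]
    exact h2
  · rw [norm_mul, norm_mul, Complex.norm_natCast]
    have hs' : s.re ≤ t.re + 1 := le_of_lt hs
    calc (d : ℝ) * ‖exp (d * s)‖ * ‖pc x d i j‖
        ≤ 2 ^ d * Real.exp (t.re + 1) ^ d * (K * (r ^ d / d.factorial)) := by
          refine mul_le_mul (mul_le_mul (nat_le_two_pow d) (norm_exp_le s d hs') (norm_nonneg _)
            (by positivity)) (hb d i j) (norm_nonneg _) (by positivity)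
      _ = _ := by rw [mul_pow, mul_pow]; ring

/-- the factor with the logarithm -/
noncomputable def Nt (x t : ℂ) : Matrix (Fin 4) (Fin 4) ℂ := nexp ((-(t * x)) • hX)

theorem hasDeriv_N (x t : ℂ) (i j : Fin 4) :
    HasDerivAt (fun t => Nt x t i j) (-(x * (hX * Nt x t) i j)) t := by
  have h1 : HasDerivAt (fun t : ℂ => -(t * x)) (-x) t := by
    simpa using ((hasDerivAt_id t).mul_const x).fun_neg
  simp only [Nt]
  rw [hX_nexp]
  have h0 : ∀ c : ℂ, HasDerivAt (fun _ : ℂ => c) 0 t := fun c => hasDerivAt_const t c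
  have h2 : HasDerivAt (fun t : ℂ => (-(t * x)) ^ 2 / 2) (-(x * -(t * x))) t := by
    have e : ((2 : ℕ) : ℂ) * (-(t * x)) ^ (2 - 1) * (-x) / 2 = -(x * -(t * x)) := by
      norm_num
      ring
    rw [← e]
    exact (h1.fun_pow 2).div_const 2
  have h3 : HasDerivAt (fun t : ℂ => (-(t * x)) ^ 3 / 6) (-(x * ((-(t * x)) ^ 2 / 2))) t := by
    have e : ((3 : ℕ) : ℂ) * (-(t * x)) ^ (3 - 1) * (-x) / 6 =
        -(x * ((-(t * x)) ^ 2 / 2)) := by
      norm_num
      ring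
    rw [← e]
    exact (h1.fun_pow 3).div_const 6
  have e : ∀ s : ℂ, nexp ((-(s * x)) • hX) = !![1, 0, 0, 0; -(s * x), 1, 0, 0;
      (-(s * x)) ^ 2 / 2, -(s * x), 1, 0; (-(s * x)) ^ 3 / 6, (-(s * x)) ^ 2 / 2, -(s * x), 1] :=
    fun s => nexp_eq _
  simp only [e]
  fin_cases i <;> fin_cases j
  all_goals first
    | simpa using h0 0
    | simpa using h0 1
    | simpa using h1
    | simpa using h2
    | simpa using h3

theorem Lfun_eq (t z : ℂ) : Lfun t z = Ps z⁻¹ t * Nt z⁻¹ t := by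
  unfold Lfun Ps Nt pc
  rw [div_eq_mul_inv]
  congr 1
  ext i j
  simp only [Matrix.of_apply]
  refine tsum_congr fun d => ?_
  rw [mul_assoc]

theorem key (x t : ℂ) : Pd x t * Nt x t + Ps x t * (-(x • (hX * Nt x t))) =
    -(x • (qX t * (Ps x t * Nt x t))) := by
  rw [Pd, qX_eq]
  simp only [Matrix.sub_mul, Matrix.smul_mul, Matrix.mul_neg, Matrix.mul_smul, Matrix.add_mul,
    Matrix.mul_assoc, smul_sub, smul_add, smul_smul]
  abel

end LEX_

theorem lex_proof (hQRE : Stmt_QRE) (hQBD : Stmt_QBD) : Stmt_LEX := by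
  intro z hz
  refine ⟨fun t i j => ?_, ?_⟩
  · have e : ∀ s, Lfun s z i j = ∑ k, LEX_.Ps z⁻¹ s i k * LEX_.Nt z⁻¹ s k j := by
      intro s
      rw [LEX_.Lfun_eq, Matrix.mul_apply]
    simp only [e]
    have h1 : HasDerivAt (fun s => ∑ k, LEX_.Ps z⁻¹ s i k * LEX_.Nt z⁻¹ s k j)
        (∑ k, (LEX_.Pd z⁻¹ t i k * LEX_.Nt z⁻¹ t k j +
          LEX_.Ps z⁻¹ t i k * (-(z⁻¹ * (hX * LEX_.Nt z⁻¹ t) k j)))) t :=
      HasDerivAt.fun_sum fun k _ =>
        (LEX_.hasDeriv_P hQRE hQBD z⁻¹ t i k).mul (LEX_.hasDeriv_N z⁻¹ t k j)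
    convert h1 using 1
    rw [Finset.sum_add_distrib]
    have h2 := congrFun (congrFun (LEX_.key z⁻¹ t) i) j
    rw [Matrix.add_apply, Matrix.mul_apply, Matrix.mul_apply, Matrix.neg_apply, Matrix.smul_apply,
      smul_eq_mul] at h2
    rw [LEX_.Lfun_eq, ← h2]
    congr 1
  · obtain ⟨K, r, hK, hr, hb⟩ := LEX_.bnd hQBD z⁻¹
    refine ⟨K * Real.exp r, fun t ht i j => ?_⟩
    have h1 : Lfun t z * nexp ((t / z) • hX) = LEX_.Ps z⁻¹ t := by
      rw [LEX_.Lfun_eq, Matrix.mul_assoc, LEX_.Nt, div_eq_mul_inv, LEX_.nexp_mul, mul_one]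
    rw [h1, Matrix.sub_apply]
    have h2 := LEX_.hasSum_P hQBD z⁻¹ t i j
    have h3 : HasSum (fun d : ℕ => exp (((d + 1 : ℕ) : ℂ) * t) * LEX_.pc z⁻¹ (d + 1) i j)
        (LEX_.Ps z⁻¹ t i j - (1 : Matrix (Fin 4) (Fin 4) ℂ) i j) := by
      have := (hasSum_nat_add_iff' 1).2 h2
      simpa [LEX_.pc_zero hQRE] using this
    have h4 : HasSum (fun d : ℕ => K * Real.exp t.re * (r ^ (d + 1) / ((d + 1).factorial : ℝ)))
        (K * Real.exp t.re * (Real.exp r - 1)) := by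
      refine HasSum.mul_left _ ?_
      have h5 : HasSum (fun d : ℕ => r ^ d / (d.factorial : ℝ)) (Real.exp r) := by
        rw [Real.exp_eq_exp_ℝ]
        exact NormedSpace.expSeries_div_hasSum_exp r
      have := (hasSum_nat_add_iff' 1).2 h5
      simpa using this
    have h6 : ‖LEX_.Ps z⁻¹ t i j - (1 : Matrix (Fin 4) (Fin 4) ℂ) i j‖ ≤
        K * Real.exp t.re * (Real.exp r - 1) := by
      rw [← h3.tsum_eq, ← h4.tsum_eq]
      refine tsum_of_norm_bounded h4.summable.hasSum fun d => ?_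
      rw [norm_mul]
      have h7 : ‖exp (((d + 1 : ℕ) : ℂ) * t)‖ ≤ Real.exp t.re := by
        rw [Complex.norm_exp]
        apply Real.exp_le_exp.2
        have : (((d + 1 : ℕ) : ℂ) * t).re = (d + 1 : ℕ) * t.re := by simp
        rw [this]
        push_cast
        nlinarith [mul_nonneg (Nat.cast_nonneg (α := ℝ) d) (neg_nonneg.2 ht)]
      calc ‖exp (((d + 1 : ℕ) : ℂ) * t)‖ * ‖LEX_.pc z⁻¹ (d + 1) i j‖
          ≤ Real.exp t.re * (K * (r ^ (d + 1) / ((d + 1).factorial : ℝ))) :=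
            mul_le_mul h7 (hb _ _ _) (norm_nonneg _) (Real.exp_pos _).le
        _ = _ := by ring
    refine h6.trans ?_
    have : 0 ≤ K * Real.exp t.re := by positivity
    nlinarith [Real.exp_pos r]

end Pool.Agent.RHB
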