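import Pool.Agent.RHB.Stmts

set_option autoImplicit false

open Matrix Complex Filter Topology MeasureTheory Set

namespace Pool.Agent.RHB

namespace LIM_

lemma kp_col (d : ℂ) (s : ℝ) (p : Fin 4 → ℂ) (M : Matrix (Fin 4) (Fin 4) ℂ) :
    (p ᵥ* (M * kp d s)) 1 = (p ᵥ* M) 3 := by
  simp only [Matrix.vecMul, dotProduct, Matrix.mul_apply, kp]
  simp [Fin.sum_univ_four]

lemma elem (s : ℝ) (hs : 0 < s) : s * (1 + s ^ (-(1 / 2) : ℝ)) ≤ 4 * Real.exp (s / 2) := by
  have h1 : s ^ (-(1 / 2) : ℝ) = (Real.sqrt s)⁻¹ := by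
    rw [Real.rpow_neg hs.le, Real.sqrt_eq_rpow]
  have h2 : s * (Real.sqrt s)⁻¹ = Real.sqrt s := by
    rw [← div_eq_mul_inv, Real.div_sqrt]
  have h3 : Real.sqrt s ≤ s + 1 := by
    nlinarith [Real.sq_sqrt hs.le, sq_nonneg (Real.sqrt s - 1), Real.sqrt_nonneg s]
  have h4 : s / 2 + 1 ≤ Real.exp (s / 2) := Real.add_one_le_exp _
  rw [h1, mul_add, h2]
  linarith

end LIM_

open LIM_ in
/-- uses LDB -/
theorem lim_proof (hLDB : Stmt_LDB) : Stmt_LIM := by
  intro d
  obtain ⟨hd, -, ⟨C, hC, hb⟩, -⟩ := hLDB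
  refine ⟨C + 1, by linarith, fun U hU y P hE => ?_⟩
  obtain ⟨⟨B, hB⟩, -, hPc, hy, -⟩ := hE
  set f : ℝ → ℂ := fun s => s * exp (-(U * s)) * (P s ᵥ* Lam (-(I * s))) 3 with hf
  have hfc : ContinuousOn f (Ioi 0) := by
    have e : f = fun s : ℝ => (s : ℂ) * exp (-(U * s)) * ∑ i, P s i * Lam (-(I * s)) i 3 := by
      funext s
      simp [hf, Matrix.vecMul, dotProduct]
    rw [e]
    refine ContinuousOn.mul (Continuous.continuousOn (by fun_prop)) ?_
    refine continuousOn_finsetSum _ fun i _ => (hPc i).mul (Continuous.continuousOn ?_)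
    exact (hd i 3).continuous.comp (by fun_prop)
  have hfb : ∀ s : ℝ, 0 < s → ‖f s‖ ≤ 16 * |B| * C * Real.exp (-(1 / 2) * s) := by
    intro s hs
    have hn : ‖(P s ᵥ* Lam (-(I * s))) 3‖ ≤
        4 * (|B| * (1 + s ^ (-(1 / 2) : ℝ)) * (C * Real.exp (C * s))) := by
      simp only [Matrix.vecMul, dotProduct]
      refine (norm_sum_le_of_le (f := fun i => P s i * Lam (-(I * s)) i 3)
        (n := fun _ => |B| * (1 + s ^ (-(1 / 2) : ℝ)) * (C * Real.exp (C * s))) _ fun i _ => ?_).trans ?_
      · rw [norm_mul]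
        have c1 := (hB s hs).2 i
        have c2 := (hb (-(I * s)) i 3).1
        have c3 : ‖-(I * (s : ℂ))‖ = s := by simp [abs_of_pos hs]
        rw [c3] at c2
        have p : 0 ≤ 1 + s ^ (-(1 / 2) : ℝ) := by positivity
        exact mul_le_mul (c1.trans (mul_le_mul_of_nonneg_right (le_abs_self B) p)) c2
          (norm_nonneg _) (by positivity)
      · simp
    have he : ‖exp (-((U : ℂ) * s))‖ = Real.exp (-(U * s)) := by
      rw [Complex.norm_exp]; simp
    have hns : ‖(s : ℂ)‖ = s := by simp [abs_of_pos hs]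
    simp only [hf, norm_mul]
    rw [he, hns]
    have h1 := elem s hs
    have h2 : Real.exp (-(U * s)) * Real.exp (C * s) ≤ Real.exp (-s) := by
      rw [← Real.exp_add]
      apply Real.exp_le_exp.2
      nlinarith
    calc s * Real.exp (-(U * s)) * ‖(P s ᵥ* Lam (-(I * s))) 3‖
        ≤ s * Real.exp (-(U * s)) * (4 * (|B| * (1 + s ^ (-(1 / 2) : ℝ)) * (C * Real.exp (C * s)))) :=
          mul_le_mul_of_nonneg_left hn (by positivity)
      _ = (4 * |B| * C) * ((s * (1 + s ^ (-(1 / 2) : ℝ))) * (Real.exp (-(U * s)) * Real.exp (C * s))) := by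
          ring
      _ ≤ (4 * |B| * C) * ((4 * Real.exp (s / 2)) * Real.exp (-s)) := by
          refine mul_le_mul_of_nonneg_left ?_ (by positivity)
          exact mul_le_mul h1 h2 (by positivity) (by positivity)
      _ = 16 * |B| * C * (Real.exp (s / 2) * Real.exp (-s)) := by ring
      _ = _ := by
          rw [← Real.exp_add]
          congr 2
          ring
  have key : ∀ s' : ℝ, 0 < s' → I * s' * y s' 1 =
      I * ∫ s in Ioi (0 : ℝ), f s * ((s' : ℂ) / ((s : ℂ) + s')) := by
    intro s' hs'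
    have h := hy s' hs' 1
    simp only [one_ne_zero, if_false, zero_add] at h
    rw [h, mul_assoc, ← integral_const_mul]
    congr 1
    refine setIntegral_congr_fun measurableSet_Ioi fun s _ => ?_
    simp only [hf, kp_col]
    ring
  have hint : IntegrableOn (fun s : ℝ => 16 * |B| * C * Real.exp (-(1 / 2) * s)) (Ioi 0) :=
    (exp_neg_integrableOn_Ioi 0 (by norm_num : (0 : ℝ) < 1 / 2)).const_mul _
  have hlim : Tendsto (fun s' : ℝ => ∫ s in Ioi (0 : ℝ), f s * ((s' : ℂ) / ((s : ℂ) + s'))) atTop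
      (𝓝 (∫ s in Ioi (0 : ℝ), f s)) := by
    refine tendsto_integral_filter_of_dominated_convergence
      (fun s : ℝ => 16 * |B| * C * Real.exp (-(1 / 2) * s)) ?_ ?_ hint ?_
    · filter_upwards [eventually_gt_atTop 0] with s' hs'
      refine ContinuousOn.aestronglyMeasurable ?_ measurableSet_Ioi
      refine hfc.mul (ContinuousOn.div continuousOn_const (Continuous.continuousOn (by fun_prop)) ?_)
      intro s hs
      have : (0 : ℝ) < s + s' := add_pos hs hs'
      exact_mod_cast this.ne'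
    · filter_upwards [eventually_gt_atTop 0] with s' hs'
      filter_upwards [ae_restrict_mem measurableSet_Ioi] with s hs
      have hs0 : 0 < s := hs
      rw [norm_mul]
      have : ‖(s' : ℂ) / ((s : ℂ) + s')‖ ≤ 1 := by
        rw [← Complex.ofReal_add, ← Complex.ofReal_div, Complex.norm_real, Real.norm_eq_abs,
          abs_of_pos (by positivity), div_le_one (by positivity)]
        linarith
      calc ‖f s‖ * ‖(s' : ℂ) / ((s : ℂ) + s')‖ ≤ ‖f s‖ * 1 :=
            mul_le_mul_of_nonneg_left this (norm_nonneg _)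
        _ ≤ _ := by rw [mul_one]; exact hfb s hs0
    · filter_upwards [ae_restrict_mem measurableSet_Ioi] with s hs
      have hs0 : 0 < s := hs
      have h1 : Tendsto (fun s' : ℝ => s' / (s + s')) atTop (𝓝 1) := by
        have e : (fun s' : ℝ => s' / (s + s')) =ᶠ[atTop] fun s' => 1 - s / (s + s') := by
          filter_upwards [eventually_gt_atTop 0] with s' hs'
          have : s + s' ≠ 0 := by positivity
          field_simp
          ring
        refine Tendsto.congr' e.symm ?_
        have : Tendsto (fun s' : ℝ => s / (s + s')) atTop (𝓝 0) :=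
          tendsto_const_nhds.div_atTop (tendsto_atTop_add_const_left _ _ tendsto_id)
        simpa using this.const_sub 1
      have h2 : Tendsto (fun s' : ℝ => ((s' / (s + s') : ℝ) : ℂ)) atTop (𝓝 ((1 : ℝ) : ℂ)) :=
        (Complex.continuous_ofReal.tendsto 1).comp h1
      have h3 := h2.const_mul (f s)
      simpa using h3
  have : cc U P = I * ∫ s in Ioi (0 : ℝ), f s := rfl
  rw [this]
  refine Tendsto.congr' ?_ (hlim.const_mul I)
  filter_upwards [eventually_gt_atTop 0] with s' hs'
  exact (key s' hs').symm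

end Pool.Agent.RHB
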