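import Pool.Agent.RHB.LEX

/-!
# Module LIN: the inverse of the fundamental solution
-/

set_option autoImplicit false

open Matrix Complex Filter Topology

namespace Pool.Agent.RHB

namespace LIN_

open LEX_

/-- coefficient matrices of `Lami` -/
noncomputable def sc (x : ℂ) (d : ℕ) : Matrix (Fin 4) (Fin 4) ℂ :=
  Matrix.of fun (i j : Fin 4) => x ^ (4 * d + (i : ℕ) - (j : ℕ)) * Qd d i j

/-- the anti-transpose -/
def at' (A : Matrix (Fin 4) (Fin 4) ℂ) : Matrix (Fin 4) (Fin 4) ℂ :=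
  Matrix.of fun i j => A (Fin.rev j) (Fin.rev i)

theorem sc_eq (x : ℂ) (d : ℕ) : sc x d = at' (pc (-x) d) := by
  ext i j
  rw [sc, at', pc, Matrix.of_apply, Matrix.of_apply, Matrix.of_apply, neg_neg, Fin.rev_rev,
    Fin.rev_rev]
  congr 2
  rw [Fin.val_rev, Fin.val_rev]
  have := i.2
  have := j.2
  omega

theorem at_mul (A B : Matrix (Fin 4) (Fin 4) ℂ) : at' (A * B) = at' B * at' A := by
  ext i j
  simp only [at', Matrix.of_apply, Matrix.mul_apply, Fin.sum_univ_four]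
  simp only [show Fin.rev (0 : Fin 4) = 3 from rfl, show Fin.rev (1 : Fin 4) = 2 from rfl,
    show Fin.rev (2 : Fin 4) = 1 from rfl, show Fin.rev (3 : Fin 4) = 0 from rfl]
  ring

theorem at_hX : at' hX = hX := by
  ext i j
  fin_cases i <;> fin_cases j <;> simp [at', hX, Fin.rev]

theorem at_E03 : at' E03 = E03 := by
  ext i j
  fin_cases i <;> fin_cases j <;> simp [at', E03, Fin.rev]

theorem at_smul (c : ℂ) (A : Matrix (Fin 4) (Fin 4) ℂ) : at' (c • A) = c • at' A := rfl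

theorem at_sub (A B : Matrix (Fin 4) (Fin 4) ℂ) : at' (A - B) = at' A - at' B := rfl

theorem sc_succ (hQ : Stmt_QRE) (x : ℂ) (d : ℕ) : ((d + 1 : ℕ) : ℂ) • sc x (d + 1) =
    x • (sc x (d + 1) * hX - hX * sc x (d + 1)) + x • (sc x d * E03) := by
  have h := congrArg at' (pc_succ hQ (-x) d)
  rw [at_smul, at_sub, at_smul, at_smul, at_sub, at_mul, at_mul, at_mul, at_hX, at_E03,
    ← sc_eq, ← sc_eq] at h
  rw [h, neg_smul, neg_smul, sub_neg_eq_add, smul_sub, smul_sub, neg_sub]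

theorem sc_zero (hQ : Stmt_QRE) (x : ℂ) : sc x 0 = 1 := by
  rw [sc_eq, pc_zero hQ]
  ext i j
  fin_cases i <;> fin_cases j <;> simp [at', Fin.rev, Matrix.one_apply]

/-- the recursion for all indices -/
noncomputable def scp (x : ℂ) : ℕ → Matrix (Fin 4) (Fin 4) ℂ
  | 0 => 0
  | d + 1 => sc x d

/-- the recursion for all indices -/
noncomputable def pcp (x : ℂ) : ℕ → Matrix (Fin 4) (Fin 4) ℂ
  | 0 => 0
  | d + 1 => pc x d

theorem sc_rec (hQ : Stmt_QRE) (x : ℂ) (d : ℕ) : (d : ℂ) • sc x d =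
    x • (sc x d * hX - hX * sc x d) + x • (scp x d * E03) := by
  cases d with
  | zero => rw [sc_zero hQ, scp]; simp
  | succ d => exact sc_succ hQ x d

theorem pc_rec (hQ : Stmt_QRE) (x : ℂ) (d : ℕ) : (d : ℂ) • pc x d =
    x • (pc x d * hX - hX * pc x d) - x • (E03 * pcp x d) := by
  cases d with
  | zero => rw [pc_zero hQ, pcp]; simp
  | succ d => exact pc_succ hQ x d

/-- the Cauchy product -/
noncomputable def X (x : ℂ) (n : ℕ) : Matrix (Fin 4) (Fin 4) ℂ :=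
  ∑ ab ∈ Finset.HasAntidiagonal.antidiagonal n, sc x ab.1 * pc x ab.2

theorem shift (x : ℂ) (n : ℕ) :
    ∑ ab ∈ Finset.HasAntidiagonal.antidiagonal n, scp x ab.1 * E03 * pc x ab.2 =
      ∑ ab ∈ Finset.HasAntidiagonal.antidiagonal n, sc x ab.1 * E03 * pcp x ab.2 := by
  cases n with
  | zero => simp [scp, pcp]
  | succ n =>
    rw [Finset.Nat.sum_antidiagonal_succ, Finset.Nat.sum_antidiagonal_succ']
    simp [scp, pcp]

theorem X_rec (hQ : Stmt_QRE) (x : ℂ) (n : ℕ) : (n : ℂ) • X x n =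
    x • (X x n * hX - hX * X x n) := by
  have h1 : (n : ℂ) • X x n = ∑ ab ∈ Finset.HasAntidiagonal.antidiagonal n,
      (((ab.1 : ℂ) • sc x ab.1) * pc x ab.2 + sc x ab.1 * ((ab.2 : ℂ) • pc x ab.2)) := by
    rw [X, Finset.smul_sum]
    refine Finset.sum_congr rfl fun ab hab => ?_
    rw [Finset.HasAntidiagonal.mem_antidiagonal] at hab
    rw [smul_mul_assoc, mul_smul_comm, ← add_smul, ← hab]
    push_cast
    rfl
  have h2 : ∀ ab : ℕ × ℕ,
      (((ab.1 : ℂ) • sc x ab.1) * pc x ab.2 + sc x ab.1 * ((ab.2 : ℂ) • pc x ab.2)) =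
      x • (sc x ab.1 * pc x ab.2 * hX - hX * (sc x ab.1 * pc x ab.2)) +
        (x • (scp x ab.1 * E03 * pc x ab.2) - x • (sc x ab.1 * E03 * pcp x ab.2)) := by
    intro ab
    rw [sc_rec hQ, pc_rec hQ]
    simp only [add_mul, sub_mul, mul_sub, smul_mul_assoc, mul_smul_comm, smul_sub, mul_assoc]
    abel
  rw [h1, Finset.sum_congr rfl fun ab _ => h2 ab, Finset.sum_add_distrib, Finset.sum_sub_distrib,
    ← Finset.smul_sum, ← Finset.smul_sum, ← Finset.smul_sum, shift, sub_self, add_zero, X,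
    Finset.sum_sub_distrib, Finset.sum_mul, Finset.mul_sum]

theorem X_zero (hQ : Stmt_QRE) (x : ℂ) : X x 0 = 1 := by
  rw [X]
  simp [sc_zero hQ, pc_zero hQ]

theorem X_succ (hQ : Stmt_QRE) (x : ℂ) (n : ℕ) : X x (n + 1) = 0 := by
  have h := X_rec hQ x (n + 1)
  have hn : ((n + 1 : ℕ) : ℂ) ≠ 0 := by exact_mod_cast Nat.succ_ne_zero n
  rw [mul_hX, hX_mul] at h
  have h' : ∀ i j, X x (n + 1) i j = (((n + 1 : ℕ) : ℂ))⁻¹ * (x *
      ((![X x (n + 1) i 1, X x (n + 1) i 2, X x (n + 1) i 3, 0] : Fin 4 → ℂ) j -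
        (![0, X x (n + 1) 0 j, X x (n + 1) 1 j, X x (n + 1) 2 j] : Fin 4 → ℂ) i)) := by
    intro i j
    have h1 := congrFun (congrFun h i) j
    rw [Matrix.smul_apply, Matrix.smul_apply, Matrix.sub_apply, smul_eq_mul, smul_eq_mul,
      Matrix.of_apply, Matrix.of_apply] at h1
    rw [← h1, inv_mul_cancel_left₀ hn]
  have a03 : X x (n + 1) 0 3 = 0 := by rw [h' 0 3]; simp
  have a02 : X x (n + 1) 0 2 = 0 := by rw [h' 0 2]; simp [a03]
  have a13 : X x (n + 1) 1 3 = 0 := by rw [h' 1 3]; simp [a03]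
  have a01 : X x (n + 1) 0 1 = 0 := by rw [h' 0 1]; simp [a02]
  have a12 : X x (n + 1) 1 2 = 0 := by rw [h' 1 2]; simp [a02, a13]
  have a23 : X x (n + 1) 2 3 = 0 := by rw [h' 2 3]; simp [a13]
  have a00 : X x (n + 1) 0 0 = 0 := by rw [h' 0 0]; simp [a01]
  have a11 : X x (n + 1) 1 1 = 0 := by rw [h' 1 1]; simp [a01, a12]
  have a22 : X x (n + 1) 2 2 = 0 := by rw [h' 2 2]; simp [a12, a23]
  have a33 : X x (n + 1) 3 3 = 0 := by rw [h' 3 3]; simp [a23]
  have a10 : X x (n + 1) 1 0 = 0 := by rw [h' 1 0]; simp [a00, a11]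
  have a21 : X x (n + 1) 2 1 = 0 := by rw [h' 2 1]; simp [a11, a22]
  have a32 : X x (n + 1) 3 2 = 0 := by rw [h' 3 2]; simp [a22, a33]
  have a20 : X x (n + 1) 2 0 = 0 := by rw [h' 2 0]; simp [a10, a21]
  have a31 : X x (n + 1) 3 1 = 0 := by rw [h' 3 1]; simp [a21, a32]
  have a30 : X x (n + 1) 3 0 = 0 := by rw [h' 3 0]; simp [a20, a31]
  ext i j
  fin_cases i <;> fin_cases j <;> simp [a00, a01, a02, a03, a10, a11, a12, a13, a20, a21, a22, a23,
    a30, a31, a32, a33]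

theorem summ_pc (hB : Stmt_QBD) (x : ℂ) (i j : Fin 4) : Summable fun d => ‖pc x d i j‖ := by
  obtain ⟨K, r, hK, hr, hb⟩ := bnd hB x
  refine Summable.of_nonneg_of_le (fun d => norm_nonneg _) (fun d => hb d i j)
    ((Real.summable_pow_div_factorial r).mul_left K)

theorem summ_sc (hB : Stmt_QBD) (x : ℂ) (i j : Fin 4) : Summable fun d => ‖sc x d i j‖ := by
  have h := summ_pc hB (-x) (Fin.rev j) (Fin.rev i)
  refine h.congr fun d => ?_
  rw [sc_eq]
  rfl

end LIN_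

open LIN_ LEX_ in
theorem lin_proof (hQRE : Stmt_QRE) (hQBD : Stmt_QBD) : Stmt_LIN := by
  intro x
  rw [mul_eq_one_comm]
  have hX : ∀ n i j, X x n i j = (if n = 0 then (1 : Matrix (Fin 4) (Fin 4) ℂ) i j else 0) := by
    intro n i j
    cases n with
    | zero => rw [X_zero hQRE]; simp
    | succ n => rw [X_succ hQRE]; simp
  ext i j
  rw [Matrix.mul_apply]
  have h1 : ∀ k, Lami x i k * Lam x k j =
      ∑' n, ∑ ab ∈ Finset.HasAntidiagonal.antidiagonal n, sc x ab.1 i k * pc x ab.2 k j := fun k =>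
    tsum_mul_tsum_eq_tsum_sum_antidiagonal_of_summable_norm (summ_sc hQBD x i k)
      (summ_pc hQBD x k j)
  have h2 : ∀ k, Summable fun n => ∑ ab ∈ Finset.HasAntidiagonal.antidiagonal n, sc x ab.1 i k * pc x ab.2 k j :=
    fun k => (summable_norm_sum_mul_antidiagonal_of_summable_norm (summ_sc hQBD x i k)
      (summ_pc hQBD x k j)).of_norm
  rw [Finset.sum_congr rfl fun k _ => h1 k, ← Summable.tsum_finsetSum fun k _ => h2 k]
  have h3 : ∀ n, ∑ k, ∑ ab ∈ Finset.HasAntidiagonal.antidiagonal n, sc x ab.1 i k * pc x ab.2 k j = X x n i j := by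
    intro n
    rw [X, Finset.sum_comm, Matrix.sum_apply]
    refine Finset.sum_congr rfl fun ab _ => ?_
    rw [Matrix.mul_apply]
  rw [tsum_congr h3, tsum_congr fun n => hX n i j, tsum_ite_eq]

end Pool.Agent.RHB
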