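import Pool.Agent.RHB.Stmts

/-!
# Module LUN: uniqueness of the fundamental solution
-/

set_option autoImplicit false

open Matrix Complex Filter Topology MeasureTheory Set

namespace Pool.Agent.RHB

namespace LUN_

theorem nexp_hX (a : ℂ) : nexp (a • hX) =
    !![1, 0, 0, 0; a, 1, 0, 0; a ^ 2 / 2, a, 1, 0; a ^ 3 / 6, a ^ 2 / 2, a, 1] := by
  have h2 : hX ^ 2 = !![0, 0, 0, 0; 0, 0, 0, 0; 1, 0, 0, 0; 0, 1, 0, 0] := by
    rw [pow_two]
    ext i j
    fin_cases i <;> fin_cases j <;> simp [hX, Matrix.mul_apply, Fin.sum_univ_four]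
  have h3 : hX ^ 3 = !![0, 0, 0, 0; 0, 0, 0, 0; 0, 0, 0, 0; 1, 0, 0, 0] := by
    rw [pow_succ, h2]
    ext i j
    fin_cases i <;> fin_cases j <;> simp [hX, Matrix.mul_apply, Fin.sum_univ_four]
  unfold nexp
  rw [smul_pow, smul_pow, h2, h3]
  ext i j
  fin_cases i <;> fin_cases j <;> simp [hX] <;> ring

theorem nexp_mul (a : ℂ) : nexp (a • hX) * nexp ((-a) • hX) = 1 := by
  rw [nexp_hX, nexp_hX]
  ext i j
  fin_cases i <;> fin_cases j <;> simp [Matrix.mul_apply, Fin.sum_univ_four] <;> ring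

theorem nexp_entry (a : ℂ) (i j : Fin 4) : ‖nexp (a • hX) i j‖ ≤ (1 + ‖a‖) ^ 3 := by
  have h0 : 0 ≤ ‖a‖ := norm_nonneg a
  have h2 : ‖a ^ 2 / 2‖ = ‖a‖ ^ 2 / 2 := by simp
  have h3 : ‖a ^ 3 / 6‖ = ‖a‖ ^ 3 / 6 := by simp
  have e0 : (0 : ℝ) ≤ (1 + ‖a‖) ^ 3 := by positivity
  have e1 : (1 : ℝ) ≤ (1 + ‖a‖) ^ 3 := one_le_pow₀ (by linarith)
  have e2 : ‖a‖ ≤ (1 + ‖a‖) ^ 3 := by nlinarith [mul_nonneg h0 h0, mul_nonneg (mul_nonneg h0 h0) h0]
  have e3 : ‖a‖ ^ 2 / 2 ≤ (1 + ‖a‖) ^ 3 := by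
    nlinarith [mul_nonneg h0 h0, mul_nonneg (mul_nonneg h0 h0) h0]
  have e4 : ‖a‖ ^ 3 / 6 ≤ (1 + ‖a‖) ^ 3 := by
    nlinarith [mul_nonneg h0 h0, mul_nonneg (mul_nonneg h0 h0) h0]
  rw [nexp_hX]
  fin_cases i <;> fin_cases j <;> simp <;> assumption

theorem integ {f f' : ℝ → ℂ} {K a T : ℝ} (ha : 0 < a) (hf : ∀ s, HasDerivAt f (f' s) s)
    (hb : ∀ s ≤ T, ‖f' s‖ ≤ K * Real.exp (a * s)) (hlim : Tendsto f atBot (𝓝 0)) :
    ∀ s ≤ T, ‖f s‖ ≤ K / a * Real.exp (a * s) := by
  intro s hs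
  have hK : 0 ≤ K := by
    have h1 := (norm_nonneg (f' T)).trans (hb T le_rfl)
    by_contra hneg
    push Not at hneg
    have := mul_neg_of_neg_of_pos hneg (Real.exp_pos (a * T))
    linarith
  have key : ∀ s0 ≤ s, ‖f s‖ ≤ ‖f s0‖ + K / a * Real.exp (a * s) := by
    intro s0 hs0
    have hB : ∀ x, HasDerivAt (fun x => ‖f s0‖ + K / a * (Real.exp (a * x) - Real.exp (a * s0)))
        (K * Real.exp (a * x)) x := by
      intro x
      have h1 : HasDerivAt (fun x : ℝ => a * x) a x := by simpa using (hasDerivAt_id x).const_mul a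
      have h2 := h1.exp
      have h3 := ((h2.sub_const (Real.exp (a * s0))).const_mul (K / a)).const_add ‖f s0‖
      have h4 : K * Real.exp (a * x) = K / a * (Real.exp (a * x) * a) := by
        field_simp
      rw [h4]
      exact h3
    have := image_norm_le_of_norm_deriv_right_le_deriv_boundary (f := f) (f' := f') (a := s0)
      (b := s) (B := fun x => ‖f s0‖ + K / a * (Real.exp (a * x) - Real.exp (a * s0)))
      (B' := fun x => K * Real.exp (a * x))
      (fun x _ => (hf x).continuousAt.continuousWithinAt)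
      (fun x _ => (hf x).hasDerivWithinAt) (by simp) hB
      (fun x hx => hb x (hx.2.le.trans hs)) (right_mem_Icc.2 hs0)
    refine this.trans ?_
    have hpos : 0 ≤ K / a * Real.exp (a * s0) := by positivity
    nlinarith
  have hl : Tendsto (fun s0 => ‖f s0‖ + K / a * Real.exp (a * s)) atBot
      (𝓝 (0 + K / a * Real.exp (a * s))) := by
    refine Tendsto.add_const _ ?_
    simpa using hlim.norm
  rw [zero_add] at hl
  exact ge_of_tendsto hl ((eventually_le_atBot s).mono key)

theorem vanish (x : ℂ) (d : Fin 4 → ℝ → ℂ) (M : ℝ)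
    (h0 : ∀ s : ℝ, HasDerivAt (d 0) (-(x * (cexp (s : ℂ) * d 3 s))) s)
    (h1 : ∀ s : ℝ, HasDerivAt (d 1) (-(x * d 0 s)) s)
    (h2 : ∀ s : ℝ, HasDerivAt (d 2) (-(x * d 1 s)) s)
    (h3 : ∀ s : ℝ, HasDerivAt (d 3) (-(x * d 2 s)) s)
    (hM : ∀ i, ∀ s ≤ (0 : ℝ), ‖d i s‖ ≤ M * Real.exp (s / 2)) :
    ∃ T : ℝ, ∀ i, ∀ s ≤ T, d i s = 0 := by
  set y := ‖x‖ with hy
  have hy0 : 0 ≤ y := norm_nonneg x
  set A := 1 + y + 2 * y ^ 2 + 4 * y ^ 3 + 8 * y ^ 4 with hA
  have hA1 : 1 ≤ A := by
    rw [hA]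
    nlinarith [pow_nonneg hy0 2, pow_nonneg hy0 3, pow_nonneg hy0 4]
  set T := -Real.log (2 * A) with hT
  have hT0 : T ≤ 0 := by
    rw [hT]
    have := Real.log_nonneg (show (1 : ℝ) ≤ 2 * A by linarith)
    linarith
  have hexpT : Real.exp T = 1 / (2 * A) := by
    rw [hT, Real.exp_neg, Real.exp_log (by linarith), one_div]
  have hlim : ∀ i, Tendsto (d i) atBot (𝓝 0) := by
    intro i
    refine squeeze_zero_norm' ((eventually_le_atBot 0).mono fun s hs => hM i s hs) ?_
    have : Tendsto (fun s : ℝ => Real.exp (s / 2)) atBot (𝓝 0) :=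
      Real.tendsto_exp_atBot.comp (tendsto_id.atBot_div_const (by norm_num))
    simpa using this.const_mul M
  have hstep : ∀ M' : ℝ, 0 ≤ M' → (∀ i, ∀ s ≤ T, ‖d i s‖ ≤ M' * Real.exp (s / 2)) →
      ∀ i, ∀ s ≤ T, ‖d i s‖ ≤ M' / 2 * Real.exp (s / 2) := by
    intro M' hM'0 hM'
    have b0 : ∀ s ≤ T, ‖d 0 s‖ ≤ y * M' * Real.exp T * Real.exp (1 / 2 * s) := by
      intro s hs
      have hh := integ (f := d 0) (K := y * M') (a := 3 / 2) (T := T) (by norm_num) h0 ?_ (hlim 0) s hs
      · refine hh.trans ?_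
        have e1 : Real.exp (3 / 2 * s) = Real.exp s * Real.exp (1 / 2 * s) := by
          rw [← Real.exp_add]
          congr 1
          ring
        have e2 : Real.exp s ≤ Real.exp T := Real.exp_le_exp.2 hs
        rw [e1]
        have e3 : Real.exp s * Real.exp (1 / 2 * s) ≤ Real.exp T * Real.exp (1 / 2 * s) :=
          mul_le_mul_of_nonneg_right e2 (Real.exp_pos _).le
        have e4 : 0 ≤ Real.exp s * Real.exp (1 / 2 * s) := by positivity
        have e5 : 0 ≤ y * M' := mul_nonneg hy0 hM'0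
        calc y * M' / (3 / 2) * (Real.exp s * Real.exp (1 / 2 * s))
            ≤ y * M' * (Real.exp s * Real.exp (1 / 2 * s)) := by
              refine mul_le_mul_of_nonneg_right ?_ e4
              rw [div_le_iff₀ (by norm_num)]
              linarith
          _ ≤ y * M' * (Real.exp T * Real.exp (1 / 2 * s)) := mul_le_mul_of_nonneg_left e3 e5
          _ = y * M' * Real.exp T * Real.exp (1 / 2 * s) := by ring
      · intro u hu
        rw [norm_neg, norm_mul, norm_mul, Complex.norm_exp, Complex.ofReal_re, ← hy]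
        have := hM' 3 u hu
        calc y * (Real.exp u * ‖d 3 u‖) ≤ y * (Real.exp u * (M' * Real.exp (u / 2))) :=
              mul_le_mul_of_nonneg_left (mul_le_mul_of_nonneg_left this (Real.exp_pos _).le) hy0
          _ = y * M' * (Real.exp u * Real.exp (u / 2)) := by ring
          _ = y * M' * Real.exp (3 / 2 * u) := by
              rw [← Real.exp_add]
              congr 2
              ring
    have bn : ∀ (i k : Fin 4) (K : ℝ), (∀ s : ℝ, HasDerivAt (d k) (-(x * d i s)) s) →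
        (∀ s ≤ T, ‖d i s‖ ≤ K * Real.exp (1 / 2 * s)) →
        ∀ s ≤ T, ‖d k s‖ ≤ 2 * y * K * Real.exp (1 / 2 * s) := by
      intro i k K hd hb s hs
      have hh := integ (f := d k) (K := y * K) (a := 1 / 2) (T := T) (by norm_num) hd ?_ (hlim k) s hs
      · refine hh.trans (le_of_eq ?_)
        ring
      · intro u hu
        rw [norm_neg, norm_mul, ← hy]
        calc y * ‖d i u‖ ≤ y * (K * Real.exp (1 / 2 * u)) :=
              mul_le_mul_of_nonneg_left (hb u hu) hy0
          _ = y * K * Real.exp (1 / 2 * u) := by ring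
    have b1 := bn 0 1 _ h1 b0
    have b2 := bn 1 2 _ h2 b1
    have b3 := bn 2 3 _ h3 b2
    have hcomp : ∀ c : ℝ, c ≤ A → c * M' * Real.exp T ≤ M' / 2 := by
      intro c hc
      rw [hexpT]
      have hA2 : 0 < 2 * A := by linarith
      rw [mul_one_div, div_le_iff₀ hA2]
      nlinarith
    have hp2 := pow_nonneg hy0 2
    have hp3 := pow_nonneg hy0 3
    have hp4 := pow_nonneg hy0 4
    have hs2 : ∀ s : ℝ, Real.exp (s / 2) = Real.exp (1 / 2 * s) := by
      intro s
      congr 1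
      ring
    intro i s hs
    rw [hs2]
    have hE := (Real.exp_pos (1 / 2 * s)).le
    fin_cases i
    · refine (b0 s hs).trans (mul_le_mul_of_nonneg_right ?_ hE)
      exact hcomp y (by rw [hA]; nlinarith)
    · refine (b1 s hs).trans (mul_le_mul_of_nonneg_right ?_ hE)
      have := hcomp (2 * y ^ 2) (by rw [hA]; nlinarith)
      nlinarith [this]
    · refine (b2 s hs).trans (mul_le_mul_of_nonneg_right ?_ hE)
      have := hcomp (4 * y ^ 3) (by rw [hA]; nlinarith)
      nlinarith [this]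
    · refine (b3 s hs).trans (mul_le_mul_of_nonneg_right ?_ hE)
      have := hcomp (8 * y ^ 4) (by rw [hA]; nlinarith)
      nlinarith [this]
  have hM0 : 0 ≤ M := by
    have := (norm_nonneg (d 0 0)).trans (hM 0 0 le_rfl)
    simpa using this
  have hall : ∀ n : ℕ, ∀ i, ∀ s ≤ T, ‖d i s‖ ≤ M / 2 ^ n * Real.exp (s / 2) := by
    intro n
    induction n with
    | zero =>
      intro i s hs
      simpa using hM i s (hs.trans hT0)
    | succ n ih =>
      intro i s hs
      have := hstep (M / 2 ^ n) (by positivity) ih i s hs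
      rw [pow_succ, ← div_div]
      exact this
  refine ⟨T, fun i s hs => ?_⟩
  have hl : Tendsto (fun n : ℕ => M / 2 ^ n * Real.exp (s / 2)) atTop (𝓝 0) := by
    have h1 : Tendsto (fun n : ℕ => M * (1 / 2 : ℝ) ^ n) atTop (𝓝 (M * 0)) :=
      (tendsto_pow_atTop_nhds_zero_of_lt_one (by norm_num) (by norm_num)).const_mul M
    have h2 := h1.mul_const (Real.exp (s / 2))
    simp only [mul_zero, zero_mul] at h2
    refine h2.congr fun n => ?_
    have h3' : (1 / 2 : ℝ) ^ n = 1 / 2 ^ n := by rw [one_div, inv_pow, one_div]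
    rw [h3']
    ring
  have := ge_of_tendsto' hl (fun n => hall n i s hs)
  exact norm_le_zero_iff.1 this

end LUN_

open LUN_ in
theorem lun_proof : Stmt_LUN := by
  intro L L' hL hL' t z hz
  obtain ⟨hd, C, hC⟩ := hL z hz
  obtain ⟨hd', C', hC'⟩ := hL' z hz
  set x := z⁻¹ with hx
  -- derivatives of the difference
  have hD : ∀ (t : ℂ) (i j : Fin 4), HasDerivAt (fun t => L t z i j - L' t z i j)
      (-(x * (qX t * (L t z - L' t z)) i j)) t := by
    intro t i j
    refine ((hd t i j).fun_sub (hd' t i j)).congr_deriv ?_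
    rw [Matrix.mul_sub, Matrix.sub_apply]
    ring
  ext i j
  -- bounds on the real negative axis
  have hbd : ∃ M : ℝ, ∀ i, ∀ s ≤ (0 : ℝ), ‖L s z i j - L' s z i j‖ ≤ M * Real.exp (s / 2) := by
    refine ⟨4 * (|C| + |C'|) * (1 + 6 * ‖x‖) ^ 3, fun i s hs => ?_⟩
    have hre : ((s : ℂ)).re ≤ 0 := by simpa using hs
    have h1 : L s z - L' s z = ((L s z * nexp (((s : ℂ) / z) • hX) - 1) -
        (L' s z * nexp (((s : ℂ) / z) • hX) - 1)) * nexp ((-((s : ℂ) / z)) • hX) := by
      rw [sub_sub_sub_cancel_right, ← Matrix.sub_mul, Matrix.mul_assoc, nexp_mul, Matrix.mul_one]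
    have h2 : L s z i j - L' s z i j = (L s z - L' s z) i j := rfl
    rw [h2, h1, Matrix.mul_apply]
    have hE : ∀ k, ‖((L s z * nexp (((s : ℂ) / z) • hX) - 1) -
        (L' s z * nexp (((s : ℂ) / z) • hX) - 1)) i k‖ ≤ (|C| + |C'|) * Real.exp s := by
      intro k
      rw [Matrix.sub_apply]
      refine (norm_sub_le _ _).trans ?_
      have a1 := hC s hre i k
      have a2 := hC' s hre i k
      rw [Complex.ofReal_re] at a1 a2
      have e := (Real.exp_pos s).le
      nlinarith [le_abs_self C, le_abs_self C', mul_le_mul_of_nonneg_right (le_abs_self C) e,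
        mul_le_mul_of_nonneg_right (le_abs_self C') e]
    have hN : ∀ k, ‖nexp ((-((s : ℂ) / z)) • hX) k j‖ ≤
        (1 + 6 * ‖x‖) ^ 3 * Real.exp (-(s / 2)) := by
      intro k
      refine (nexp_entry _ _ _).trans ?_
      have e1 : ‖-((s : ℂ) / z)‖ = ‖x‖ * (-s) := by
        rw [norm_neg, norm_div, Complex.norm_real, Real.norm_eq_abs, abs_of_nonpos hs, hx, norm_inv]
        field_simp
      have e2 : 1 + ‖x‖ * (-s) ≤ (1 + 6 * ‖x‖) * Real.exp (-s / 6) := by
        have b1 : 1 ≤ Real.exp (-s / 6) := Real.one_le_exp (by linarith)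
        have b2 : -s / 6 ≤ Real.exp (-s / 6) := by
          have := Real.add_one_le_exp (-s / 6)
          linarith
        have b3 : 0 ≤ ‖x‖ := norm_nonneg x
        nlinarith [mul_le_mul_of_nonneg_left b2 b3]
      have e3 : 0 ≤ 1 + ‖x‖ * (-s) := by
        have : 0 ≤ ‖x‖ * (-s) := mul_nonneg (norm_nonneg x) (by linarith)
        linarith
      rw [e1]
      refine (pow_le_pow_left₀ e3 e2 3).trans (le_of_eq ?_)
      rw [mul_pow, ← Real.exp_nat_mul]
      congr 2
      push_cast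
      ring
    have hterm : ∀ k ∈ (Finset.univ : Finset (Fin 4)),
        ‖((L s z * nexp (((s : ℂ) / z) • hX) - 1) -
        (L' s z * nexp (((s : ℂ) / z) • hX) - 1)) i k * nexp ((-((s : ℂ) / z)) • hX) k j‖ ≤
        (|C| + |C'|) * (1 + 6 * ‖x‖) ^ 3 * Real.exp (s / 2) := by
      intro k _
      rw [norm_mul]
      refine (mul_le_mul (hE k) (hN k) (norm_nonneg _) (by positivity)).trans (le_of_eq ?_)
      have : Real.exp (s / 2) = Real.exp s * Real.exp (-(s / 2)) := by
        rw [← Real.exp_add]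
        congr 1
        ring
      rw [this]
      ring
    refine (norm_sum_le_of_le _ hterm).trans (le_of_eq ?_)
    simp
    ring
  obtain ⟨M, hM⟩ := hbd
  have hq : ∀ (t : ℂ) (A : Matrix (Fin 4) (Fin 4) ℂ), (qX t * A) 0 j = cexp t * A 3 j ∧
      (qX t * A) 1 j = A 0 j ∧ (qX t * A) 2 j = A 1 j ∧ (qX t * A) 3 j = A 2 j := by
    intro t A
    simp [qX, Matrix.mul_apply, Fin.sum_univ_four]
  obtain ⟨T, hT⟩ := vanish x (fun i s => L s z i j - L' s z i j) M
    (fun s => by
      have := (hD s 0 j).comp_ofReal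
      rw [(hq s _).1] at this
      exact this)
    (fun s => by
      have := (hD s 1 j).comp_ofReal
      rw [(hq s _).2.1] at this
      exact this)
    (fun s => by
      have := (hD s 2 j).comp_ofReal
      rw [(hq s _).2.2.1] at this
      exact this)
    (fun s => by
      have := (hD s 3 j).comp_ofReal
      rw [(hq s _).2.2.2] at this
      exact this)
    hM
  -- identity theorem
  have hdiff : Differentiable ℂ (fun t => L t z i j - L' t z i j) :=
    fun t => (hD t i j).differentiableAt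
  have han : AnalyticOnNhd ℂ (fun t => L t z i j - L' t z i j) univ :=
    hdiff.differentiableOn.analyticOnNhd isOpen_univ
  have hzero : (fun t => L t z i j - L' t z i j) = fun _ => (0 : ℂ) := by
    refine han.eq_of_frequently_eq analyticOnNhd_const (z₀ := ((T - 1 : ℝ) : ℂ)) ?_
    rw [frequently_nhdsWithin_iff]
    rw [Metric.nhds_basis_ball.frequently_iff]
    intro ε hε
    refine ⟨((T - 1 - ε / 2 : ℝ) : ℂ), ?_, ?_, ?_⟩
    · rw [Metric.mem_ball, dist_eq_norm, ← Complex.ofReal_sub, Complex.norm_real, Real.norm_eq_abs]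
      rw [show T - 1 - ε / 2 - (T - 1) = -(ε / 2) by ring, abs_neg, abs_of_pos (by linarith)]
      linarith
    · exact hT i _ (by linarith)
    · intro h
      have h' := Complex.ofReal_injective (by simpa using h : ((T - 1 - ε / 2 : ℝ) : ℂ) = ((T - 1 : ℝ) : ℂ))
      linarith
  have := congrFun hzero t
  exact sub_eq_zero.1 this

end Pool.Agent.RHB
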