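import Pool.Agent.RHB.Stmts

/-!
# Squad RHB, module MNO: monotonicity in the opening of the sectors
-/

set_option autoImplicit false

open Matrix Complex Filter Topology MeasureTheory Set

namespace Pool.Agent.RHB

namespace MNO_

theorem sector_mono (θ : ℝ) {ε ε' : ℝ} (h : ε' ≤ ε) : sector θ ε' ⊆ sector θ ε := by
  rintro z ⟨w, hw, hw'⟩
  exact ⟨w, hw, by linarith⟩

end MNO_

open MNO_ in
theorem mno_proof : Stmt_MNO := by
  intro d L ρ φ ε ε' Yinf Yp Ym _ hle h
  obtain ⟨h1, h2, h3, ⟨Y₀, Z₀, h4, h5, h6, h7⟩, h8, h9, h10⟩ := h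
  refine ⟨h1, fun i j => (h2 i j).mono (sector_mono φ hle),
    fun i j => (h3 i j).mono (sector_mono _ hle),
    ⟨Y₀, Z₀, h4, h5, h6.mono_left (nhdsWithin_mono 0 (sector_mono φ hle)),
      h7.mono_left (nhdsWithin_mono 0 (sector_mono _ hle))⟩, ?_, ?_, ?_⟩
  · intro w hw
    exact h8 w (by linarith)
  · intro w hw
    exact h9 w (by linarith)
  · intro w hw
    exact h10 w (by linarith)

end Pool.Agent.RHB
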