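import Pool.Agent.RHB.Stmts

set_option autoImplicit false

open Matrix Complex Filter Topology MeasureTheory Set

namespace Pool.Agent.RHB

namespace MON_

theorem hX2 : hX ^ 2 = !![0, 0, 0, 0; 0, 0, 0, 0; 1, 0, 0, 0; 0, 1, 0, 0] := by
  rw [pow_two]
  ext i j
  fin_cases i <;> fin_cases j <;> simp [hX, Matrix.mul_apply, Fin.sum_univ_four]

theorem hX3 : hX ^ 3 = !![0, 0, 0, 0; 0, 0, 0, 0; 0, 0, 0, 0; 1, 0, 0, 0] := by
  rw [pow_succ, hX2]
  ext i j
  fin_cases i <;> fin_cases j <;> simp [hX, Matrix.mul_apply, Fin.sum_univ_four]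

theorem nexp_hX (a : ℂ) : nexp (a • hX) =
    !![1, 0, 0, 0; a, 1, 0, 0; a ^ 2 / 2, a, 1, 0; a ^ 3 / 6, a ^ 2 / 2, a, 1] := by
  rw [nexp, smul_pow, smul_pow, hX2, hX3]
  ext i j
  fin_cases i <;> fin_cases j <;> simp [hX] <;> ring

theorem nexp_add (a b : ℂ) : nexp (a • hX) * nexp (b • hX) = nexp ((a + b) • hX) := by
  rw [nexp_hX, nexp_hX, nexp_hX]
  ext i j
  fin_cases i <;> fin_cases j <;> simp [Matrix.mul_apply, Fin.sum_univ_four] <;> ring

theorem nexp_zero {n : ℕ} : nexp (0 : Matrix (Fin n) (Fin n) ℂ) = 1 := by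
  simp [nexp]

theorem nexp_comm {n : ℕ} {A B : Matrix (Fin n) (Fin n) ℂ} (h : Commute A B) :
    Commute (nexp A) B := by
  unfold nexp
  exact (((Commute.one_left B).add_left h).add_left ((h.pow_left 2).smul_left _)).add_left
    ((h.pow_left 3).smul_left _)

theorem gam_comm {n : ℕ} {a b c B : Matrix (Fin n) (Fin n) ℂ} (ha : Commute a B)
    (hb : Commute b B) (hc : Commute c B) : Commute (gam a b c) B := by
  unfold gam
  refine nexp_comm ?_
  refine Commute.sub_left (Commute.add_left (ha.smul_left _) ?_) ?_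
  · exact Commute.smul_left ((ha.pow_left 2).sub_left (hb.smul_left _)) _
  · exact Commute.smul_left (((ha.pow_left 3).sub_left ((ha.mul_left hb).smul_left _)).add_left
      (hc.smul_left _)) _

theorem diag_nexp (t : ℂ) (a : ℂ) :
    diagonal (fun i => t ^ degX i) * nexp (a • hX) =
      nexp ((t * a) • hX) * diagonal (fun i => t ^ degX i) := by
  rw [nexp_hX, nexp_hX]
  ext i j
  rw [Matrix.diagonal_mul, Matrix.mul_diagonal]
  fin_cases i <;> fin_cases j <;> simp [degX] <;> ring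

theorem expX (k : ℕ) (w : ℂ) :
    exp (-((w - 2 * Real.pi * I) * ((k : ℂ) - (3 : ℕ) / 2))) =
      -exp (-(w * ((k : ℂ) - (3 : ℕ) / 2))) := by
  have h : -((w - 2 * Real.pi * I) * ((k : ℂ) - (3 : ℕ) / 2)) =
      -(w * ((k : ℂ) - (3 : ℕ) / 2)) + (((k : ℤ) - 2 : ℤ) : ℂ) * (2 * Real.pi * I) +
        Real.pi * I := by
    push_cast
    ring
  rw [h, Complex.exp_add, Complex.exp_add, Complex.exp_int_mul_two_pi_mul_I, Complex.exp_pi_mul_I]
  ring

theorem expZ (k : ℕ) (w : ℂ) :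
    exp (-((w - 2 * Real.pi * I) * ((k : ℂ) - (1 : ℕ) / 2))) =
      -exp (-(w * ((k : ℂ) - (1 : ℕ) / 2))) := by
  have h : -((w - 2 * Real.pi * I) * ((k : ℂ) - (1 : ℕ) / 2)) =
      -(w * ((k : ℂ) - (1 : ℕ) / 2)) + (((k : ℤ) - 1 : ℤ) : ℂ) * (2 * Real.pi * I) +
        Real.pi * I := by
    push_cast
    ring
  rw [h, Complex.exp_add, Complex.exp_add, Complex.exp_int_mul_two_pi_mul_I, Complex.exp_pi_mul_I]
  ring

end MON_

open MON_ in
theorem mon_proof : Stmt_MON := by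
  intro w
  constructor
  · have hg : Commute (gam (4 • hX) (6 • hX ^ 2) (4 • hX ^ 3)) hX :=
      gam_comm ((Commute.refl hX).smul_left _) (((Commute.refl hX).pow_left 2).smul_left _)
        (((Commute.refl hX).pow_left 3).smul_left _)
    have e4 : (4 : ℕ) • hX = (4 : ℂ) • hX := by
      ext i j
      simp
    have hgn : ∀ a : ℂ, gam (4 • hX) (6 • hX ^ 2) (4 • hX ^ 3) * nexp (a • hX) =
        nexp (a • hX) * gam (4 • hX) (6 • hX ^ 2) (4 • hX ^ 3) := by
      intro a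
      exact (nexp_comm ((hg.symm).smul_left a)).symm.eq
    unfold psiX psi
    rw [Matrix.smul_mul, ← smul_neg]
    congr 1
    have hD : diagonal (fun i => exp (-((w - 2 * Real.pi * I) * ((degX i : ℂ) - (3 : ℕ) / 2)))) =
        -diagonal (fun i => exp (-(w * ((degX i : ℂ) - (3 : ℕ) / 2)))) := by
      rw [Matrix.diagonal_neg]
      congr 1
      funext i
      exact expX _ _
    rw [hD]
    set D : Matrix (Fin 4) (Fin 4) ℂ :=
      diagonal (fun i => exp (-(w * ((degX i : ℂ) - (3 : ℕ) / 2)))) with hDdef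
    set g : Matrix (Fin 4) (Fin 4) ℂ := gam (4 • hX) (6 • hX ^ 2) (4 • hX ^ 3) with hgdef
    rw [e4, smul_smul, smul_smul, Matrix.mul_assoc _ _ (nexp ((4 : ℂ) • hX)), diag_nexp,
      Matrix.neg_mul, Matrix.neg_mul, Matrix.neg_mul, neg_inj, ← Matrix.mul_assoc,
      Matrix.mul_assoc _ g, hgn, ← Matrix.mul_assoc, Matrix.mul_assoc D, nexp_add]
    congr 5
    ring
  · unfold psiZ psi
    rw [← smul_neg]
    congr 1
    have hD : diagonal (fun i => exp (-((w - 2 * Real.pi * I) * ((degZ i : ℂ) - (1 : ℕ) / 2)))) =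
        -diagonal (fun i => exp (-(w * ((degZ i : ℂ) - (1 : ℕ) / 2)))) := by
      rw [Matrix.diagonal_neg]
      congr 1
      funext i
      exact expZ _ _
    rw [hD, smul_zero, smul_zero, Matrix.neg_mul, Matrix.neg_mul, Matrix.neg_mul]

end Pool.Agent.RHB
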