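import Pool.Agent.RHB.Stmts

set_option autoImplicit false

open Matrix Complex Filter Topology MeasureTheory Set

namespace Pool.Agent.RHB

namespace QBD_

theorem hX2 : hX ^ 2 = !![0, 0, 0, 0; 0, 0, 0, 0; 1, 0, 0, 0; 0, 1, 0, 0] := by
  rw [pow_two, hX]
  ext i j
  fin_cases i <;> fin_cases j <;> simp [Matrix.mul_apply, Fin.sum_univ_four]

theorem hX3 : hX ^ 3 = !![0, 0, 0, 0; 0, 0, 0, 0; 0, 0, 0, 0; 1, 0, 0, 0] := by
  rw [pow_succ, hX2, hX]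
  ext i j
  fin_cases i <;> fin_cases j <;> simp [Matrix.mul_apply, Fin.sum_univ_four]

theorem Bexp (k : ℕ) : Bk k =
    !![((k : ℂ) ^ 4)⁻¹, 0, 0, 0; -(4 * ((k : ℂ) ^ 5)⁻¹), ((k : ℂ) ^ 4)⁻¹, 0, 0;
      10 * ((k : ℂ) ^ 6)⁻¹, -(4 * ((k : ℂ) ^ 5)⁻¹), ((k : ℂ) ^ 4)⁻¹, 0;
      -(20 * ((k : ℂ) ^ 7)⁻¹), 10 * ((k : ℂ) ^ 6)⁻¹, -(4 * ((k : ℂ) ^ 5)⁻¹), ((k : ℂ) ^ 4)⁻¹] := by
  rw [Bk, hX2, hX3, hX]
  ext i j
  fin_cases i <;> fin_cases j <;> simp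

theorem inv_le (k m : ℕ) (hk : 1 ≤ k) (hm : 4 ≤ m) (a : ℝ) (ha : 0 ≤ a) (ha2 : a ≤ 20) :
    a * ((k : ℝ) ^ m)⁻¹ ≤ 20 * ((k : ℝ) ^ 4)⁻¹ := by
  have hk1 : (1 : ℝ) ≤ k := by exact_mod_cast hk
  have h1 : ((k : ℝ) ^ m)⁻¹ ≤ ((k : ℝ) ^ 4)⁻¹ :=
    inv_anti₀ (by positivity) (pow_le_pow_right₀ hk1 hm)
  exact mul_le_mul ha2 h1 (by positivity) (by norm_num)

theorem Bbd (k : ℕ) (hk : 1 ≤ k) (i j : Fin 4) : ‖Bk k i j‖ ≤ 20 * ((k : ℝ) ^ 4)⁻¹ := by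
  have h4 := inv_le k 4 hk (by norm_num) 1 (by norm_num) (by norm_num)
  have h5 := inv_le k 5 hk (by norm_num) 4 (by norm_num) (by norm_num)
  have h6 := inv_le k 6 hk (by norm_num) 10 (by norm_num) (by norm_num)
  have h7 := inv_le k 7 hk (by norm_num) 20 (by norm_num) (by norm_num)
  have h0 : (0 : ℝ) ≤ 20 * ((k : ℝ) ^ 4)⁻¹ := by positivity
  rw [one_mul] at h4
  rw [Bexp]
  fin_cases i <;> fin_cases j <;> simp [norm_neg, norm_mul, norm_inv, norm_pow] <;> linarith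

theorem mulbd (A B : Matrix (Fin 4) (Fin 4) ℂ) (a b : ℝ) (hA : ∀ i j, ‖A i j‖ ≤ a)
    (hB : ∀ i j, ‖B i j‖ ≤ b) (i j : Fin 4) : ‖(A * B) i j‖ ≤ 4 * a * b := by
  have ha : 0 ≤ a := (norm_nonneg _).trans (hA 0 0)
  rw [Matrix.mul_apply]
  calc ‖∑ k, A i k * B k j‖ ≤ ∑ k : Fin 4, ‖A i k * B k j‖ := norm_sum_le _ _
    _ ≤ ∑ _k : Fin 4, a * b := Finset.sum_le_sum fun k _ => by
        rw [norm_mul]
        exact mul_le_mul (hA i k) (hB k j) (norm_nonneg _) ha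
    _ = 4 * a * b := by
        rw [Finset.sum_const, Finset.card_univ, Fintype.card_fin, nsmul_eq_mul]
        push_cast
        ring

theorem Rbd (d : ℕ) : ∀ i j : Fin 4, ‖Rk d i j‖ ≤ 80 ^ d / (d.factorial : ℝ) ^ 4 := by
  induction d with
  | zero =>
    intro i j
    rw [Rk]
    simp only [pow_zero, Nat.factorial_zero, Nat.cast_one, one_pow, div_one]
    by_cases h : i = j
    · subst h
      simp
    · rw [Matrix.one_apply_ne h, norm_zero]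
      norm_num
  | succ d ih =>
    intro i j
    rw [Rk]
    refine (mulbd _ _ _ _ (Bbd (d + 1) (by omega)) ih i j).trans (le_of_eq ?_)
    have h1 : (d.factorial : ℝ) ≠ 0 := by exact_mod_cast Nat.factorial_ne_zero d
    have h2 : ((d + 1 : ℕ) : ℝ) ≠ 0 := by exact_mod_cast Nat.succ_ne_zero d
    rw [Nat.factorial_succ, Nat.cast_mul, mul_pow]
    field_simp
    ring

theorem Mbd (d : ℕ) (i j : Fin 4) :
    ‖((d : ℂ) • (1 : Matrix (Fin 4) (Fin 4) ℂ) + hX) i j‖ ≤ (d : ℝ) + 1 := by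
  have h0 : (0 : ℝ) ≤ (d : ℝ) := Nat.cast_nonneg d
  have h1 : (0 : ℝ) ≤ (d : ℝ) + 1 := by linarith
  rw [hX]
  fin_cases i <;> fin_cases j <;> simp <;> linarith

theorem Mpow (d : ℕ) (n : ℕ) : ∀ i j : Fin 4,
    ‖(((d : ℂ) • (1 : Matrix (Fin 4) (Fin 4) ℂ) + hX) ^ n) i j‖ ≤ (4 * ((d : ℝ) + 1)) ^ n := by
  induction n with
  | zero =>
    intro i j
    rw [pow_zero, pow_zero]
    by_cases h : i = j
    · subst h
      simp
    · rw [Matrix.one_apply_ne h, norm_zero]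
      norm_num
  | succ n ih =>
    intro i j
    rw [pow_succ]
    refine (mulbd _ _ _ _ ih (Mbd d) i j).trans (le_of_eq ?_)
    ring

end QBD_

open QBD_ in
theorem qbd_proof : Stmt_QBD := by
  refine ⟨640, by norm_num, fun d i j => ?_⟩
  rw [Qd, Matrix.of_apply]
  refine (mulbd _ _ _ _ (Mpow d (j : ℕ)) (Rbd d) i 0).trans ?_
  have hF : (0 : ℝ) < (d.factorial : ℝ) ^ 4 := by
    have : (0 : ℝ) < (d.factorial : ℝ) := by exact_mod_cast Nat.factorial_pos d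
    positivity
  rw [← mul_div_assoc]
  refine div_le_div_of_nonneg_right ?_ hF.le
  have hd : (0 : ℝ) ≤ (d : ℝ) := Nat.cast_nonneg d
  have h1 : (4 * ((d : ℝ) + 1)) ^ (j : ℕ) ≤ (4 * ((d : ℝ) + 1)) ^ 3 :=
    pow_le_pow_right₀ (by linarith) (by have := j.2; omega)
  have h2 : (d : ℝ) + 1 ≤ 2 ^ d := by
    have := Nat.lt_two_pow_self (n := d)
    exact_mod_cast this
  have h3 : ((d : ℝ) + 1) ^ 3 ≤ 8 ^ d := by
    calc ((d : ℝ) + 1) ^ 3 ≤ (2 ^ d) ^ 3 := pow_le_pow_left₀ (by linarith) h2 3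
      _ = 8 ^ d := by rw [← pow_mul, mul_comm, pow_mul]; norm_num
  have h80 : (0 : ℝ) < 80 ^ d := by positivity
  calc 4 * (4 * ((d : ℝ) + 1)) ^ (j : ℕ) * 80 ^ d ≤ 4 * (4 * ((d : ℝ) + 1)) ^ 3 * 80 ^ d := by
        gcongr
    _ = 256 * ((d : ℝ) + 1) ^ 3 * 80 ^ d := by ring
    _ ≤ 256 * 8 ^ d * 80 ^ d := by gcongr
    _ = 256 * 640 ^ d := by rw [mul_assoc, ← mul_pow]; norm_num
    _ ≤ 640 * 640 ^ d := by gcongr; norm_num
    _ = 640 ^ (d + 1) := by ring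

end Pool.Agent.RHB
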