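import Pool.Agent.RHB.Stmts

set_option autoImplicit false

open Matrix Complex Filter Topology MeasureTheory Set

namespace Pool.Agent.RHB

namespace QRE_

theorem hX2 : hX ^ 2 = !![0, 0, 0, 0; 0, 0, 0, 0; 1, 0, 0, 0; 0, 1, 0, 0] := by
  rw [pow_two, hX]
  ext i j
  fin_cases i <;> fin_cases j <;> simp [Matrix.mul_apply, Fin.sum_univ_four]

theorem hX3 : hX ^ 3 = !![0, 0, 0, 0; 0, 0, 0, 0; 0, 0, 0, 0; 1, 0, 0, 0] := by
  rw [pow_succ, hX2, hX]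
  ext i j
  fin_cases i <;> fin_cases j <;> simp [Matrix.mul_apply, Fin.sum_univ_four]

theorem Mexp (c : ℂ) : c • (1 : Matrix (Fin 4) (Fin 4) ℂ) + hX =
    !![c, 0, 0, 0; 1, c, 0, 0; 0, 1, c, 0; 0, 0, 1, c] := by
  rw [hX]
  ext i j
  fin_cases i <;> fin_cases j <;> simp

theorem M2 (c : ℂ) : (c • (1 : Matrix (Fin 4) (Fin 4) ℂ) + hX) ^ 2 =
    !![c ^ 2, 0, 0, 0; 2 * c, c ^ 2, 0, 0; 1, 2 * c, c ^ 2, 0; 0, 1, 2 * c, c ^ 2] := by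
  rw [Mexp, pow_two]
  ext i j
  fin_cases i <;> fin_cases j <;> simp [Matrix.mul_apply, Fin.sum_univ_four] <;> ring

theorem M4 (c : ℂ) : (c • (1 : Matrix (Fin 4) (Fin 4) ℂ) + hX) ^ 4 =
    !![c ^ 4, 0, 0, 0; 4 * c ^ 3, c ^ 4, 0, 0; 6 * c ^ 2, 4 * c ^ 3, c ^ 4, 0;
      4 * c, 6 * c ^ 2, 4 * c ^ 3, c ^ 4] := by
  have e : (c • (1 : Matrix (Fin 4) (Fin 4) ℂ) + hX) ^ 4 = ((c • (1 : Matrix (Fin 4) (Fin 4) ℂ) + hX) ^ 2) ^ 2 := by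
    rw [← pow_mul]
  rw [e, M2, pow_two]
  ext i j
  fin_cases i <;> fin_cases j <;> simp [Matrix.mul_apply, Fin.sum_univ_four] <;> ring

theorem Bexp (k : ℕ) : Bk k =
    !![((k : ℂ) ^ 4)⁻¹, 0, 0, 0; -(4 * ((k : ℂ) ^ 5)⁻¹), ((k : ℂ) ^ 4)⁻¹, 0, 0;
      10 * ((k : ℂ) ^ 6)⁻¹, -(4 * ((k : ℂ) ^ 5)⁻¹), ((k : ℂ) ^ 4)⁻¹, 0;
      -(20 * ((k : ℂ) ^ 7)⁻¹), 10 * ((k : ℂ) ^ 6)⁻¹, -(4 * ((k : ℂ) ^ 5)⁻¹), ((k : ℂ) ^ 4)⁻¹] := by
  rw [Bk, hX2, hX3, hX]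
  ext i j
  fin_cases i <;> fin_cases j <;> simp

theorem MB (k : ℕ) (hk : (k : ℂ) ≠ 0) :
    ((k : ℂ) • (1 : Matrix (Fin 4) (Fin 4) ℂ) + hX) ^ 4 * Bk k = 1 := by
  rw [M4, Bexp]
  ext i j
  fin_cases i <;> fin_cases j <;> simp [Matrix.mul_apply, Fin.sum_univ_four] <;> field_simp <;> ring

end QRE_

open QRE_ in
theorem qre_proof : Stmt_QRE := by
  refine ⟨?_, ?_⟩
  · ext i j
    rw [Qd, Matrix.of_apply, Rk, mul_one]
    fin_cases j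
    · fin_cases i <;> simp
    · fin_cases i <;> simp [hX]
    · have h := hX2
      fin_cases i <;> simp [h]
    · have h := hX3
      fin_cases i <;> simp [h]
  · intro d
    have hk : ((d + 1 : ℕ) : ℂ) ≠ 0 := by exact_mod_cast Nat.succ_ne_zero d
    set M : Matrix (Fin 4) (Fin 4) ℂ := ((d + 1 : ℕ) : ℂ) • (1 : Matrix (Fin 4) (Fin 4) ℂ) + hX with hM
    have hQ : ∀ i j : Fin 4, Qd (d + 1) i j = (M ^ (j : ℕ) * Rk (d + 1)) i 0 := fun i j => rfl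
    have hstep : ∀ i j : Fin 4,
        (((d + 1 : ℕ) : ℂ) • Qd (d + 1) + hX * Qd (d + 1)) i j = (M ^ ((j : ℕ) + 1) * Rk (d + 1)) i 0 := by
      intro i j
      have e1 : ((d + 1 : ℕ) : ℂ) • Qd (d + 1) + hX * Qd (d + 1) = M * Qd (d + 1) := by
        rw [hM, add_mul, smul_mul_assoc, one_mul]
      rw [e1, pow_succ', mul_assoc M, Matrix.mul_apply, Matrix.mul_apply]
      exact Finset.sum_congr rfl fun k _ => by rw [hQ]
    have h4 : M ^ 4 * Rk (d + 1) = Rk d := by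
      rw [Rk, ← mul_assoc, hM, MB _ hk, one_mul]
    ext i j
    rw [Matrix.sub_apply, hstep]
    have e2 : ∀ A : Matrix (Fin 4) (Fin 4) ℂ, (A * hX) i j =
        ![A i 1, A i 2, A i 3, 0] j := by
      intro A
      rw [hX, Matrix.mul_apply, Fin.sum_univ_four]
      fin_cases j <;> simp
    have e3 : ∀ A : Matrix (Fin 4) (Fin 4) ℂ,
        (A * (!![0, 0, 0, 1; 0, 0, 0, 0; 0, 0, 0, 0; 0, 0, 0, 0] : Matrix (Fin 4) (Fin 4) ℂ)) i j =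
          ![0, 0, 0, A i 0] j := by
      intro A
      rw [Matrix.mul_apply, Fin.sum_univ_four]
      fin_cases j <;> simp
    rw [e2, e3]
    have h0 : Qd d i 0 = Rk d i 0 := by
      rw [Qd, Matrix.of_apply]; simp
    fin_cases j
    · simp [hQ]
    · simp [hQ]
    · simp [hQ]
    · simp only [Fin.reduceFinMk, Fin.isValue, Matrix.cons_val, sub_zero, h0]
      rw [← h4]

end Pool.Agent.RHB
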