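import Pool.Agent.RHB.Stmts

set_option autoImplicit false

open Matrix Complex Filter Topology

namespace Pool.Agent.RHB

namespace SER_

theorem h2 : hX ^ 2 = !![0, 0, 0, 0; 0, 0, 0, 0; 1, 0, 0, 0; 0, 1, 0, 0] := by
  rw [pow_two]
  ext i j
  fin_cases i <;> fin_cases j <;> simp [hX, Matrix.mul_apply, Fin.sum_univ_succ]

theorem h3 : hX ^ 3 = !![0, 0, 0, 0; 0, 0, 0, 0; 0, 0, 0, 0; 1, 0, 0, 0] := by
  rw [pow_succ, h2]
  ext i j
  fin_cases i <;> fin_cases j <;> simp [hX, Matrix.mul_apply, Fin.sum_univ_succ]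

theorem hh2 : (4 • hX) ^ 2 = !![0, 0, 0, 0; 0, 0, 0, 0; 16, 0, 0, 0; 0, 16, 0, 0] := by
  rw [pow_two]
  ext i j
  fin_cases i <;> fin_cases j <;> simp [hX, Matrix.mul_apply, Fin.sum_univ_succ] <;> norm_num

theorem hh3 : (4 • hX) ^ 3 = !![0, 0, 0, 0; 0, 0, 0, 0; 0, 0, 0, 0; 64, 0, 0, 0] := by
  rw [pow_succ, hh2]
  ext i j
  fin_cases i <;> fin_cases j <;> simp [hX, Matrix.mul_apply, Fin.sum_univ_succ] <;> norm_num

theorem tdX : td (4 • hX) (6 • hX ^ 2) = !![1, 0, 0, 0; 2, 1, 0, 0; 11 / 6, 2, 1, 0;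
    1, 11 / 6, 2, 1] := by
  have e : (4 • hX) * (6 • hX ^ 2) = !![0, 0, 0, 0; 0, 0, 0, 0; 0, 0, 0, 0; 24, 0, 0, 0] := by
    rw [h2]
    ext i j
    fin_cases i <;> fin_cases j <;> simp [hX, Matrix.mul_apply, Fin.sum_univ_succ] <;> norm_num
  rw [td, e, hh2, h2]
  ext i j
  fin_cases i <;> fin_cases j <;> simp [hX] <;> norm_num

theorem cX : chiX = !![1, 11 / 6, 2, 1; -(11 / 6), -2, -1, 0; 2, 1, 0, 0; -1, 0, 0, 0] := by
  rw [chiX, euler, tdX]
  ext i j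
  fin_cases i <;> fin_cases j <;>
    simp [degX, pX, Matrix.mul_apply, Fin.sum_univ_succ, Matrix.diagonal]
  norm_num

theorem cZ : chiZ = !![0, 1; -1, 0] := by
  have e : td (0 : Matrix (Fin 2) (Fin 2) ℂ) 0 = 1 := by simp [td]
  rw [chiZ, euler, e, mul_one]
  ext i j
  fin_cases i <;> fin_cases j <;>
    simp [degZ, pZ, Matrix.mul_apply, Matrix.diagonal]

theorem nX : nexp (4 • hX) = !![1, 0, 0, 0; 4, 1, 0, 0; 8, 4, 1, 0; 32 / 3, 8, 4, 1] := by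
  rw [nexp, hh3, hh2]
  ext i j
  fin_cases i <;> fin_cases j <;> simp [hX] <;> norm_num

theorem uX : chiX * !![0, 0, 0, -1; 0, 0, 1, 2; 0, -1, -2, -(13 / 6); 1, 2, 13 / 6, 5 / 3] = 1 := by
  rw [cX]
  ext i j
  fin_cases i <;> fin_cases j <;> simp [Matrix.mul_apply, Fin.sum_univ_succ] <;> norm_num

theorem uZ : chiZ * !![0, -1; 1, 0] = 1 := by
  rw [cZ]
  ext i j
  fin_cases i <;> fin_cases j <;> simp [Matrix.mul_apply, Fin.sum_univ_succ]

end SER_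

open SER_ in
theorem ser_proof : Stmt_SER := by
  refine ⟨fun d => ?_, ?_, ?_, ?_, ?_⟩
  · rw [cX, cZ]
    ext i j
    fin_cases i <;> fin_cases j <;>
      simp [res, gys, Matrix.mul_apply, Fin.sum_univ_succ]
  · rw [nX, cX]
    ext i j
    fin_cases i <;> fin_cases j <;> simp [Matrix.mul_apply, Fin.sum_univ_succ] <;> norm_num
  · rw [cZ]
    ext i j
    fin_cases i <;> fin_cases j <;> simp
  · exact (Matrix.isUnit_iff_isUnit_det _).2 (Matrix.isUnit_det_of_right_inverse uX)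
  · exact (Matrix.isUnit_iff_isUnit_det _).2 (Matrix.isUnit_det_of_right_inverse uZ)

end Pool.Agent.RHB
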