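import Pool.Agent.RHB.Stmts

/-!
# RHB, module SMI: block matrices (MP_4dc6a8)
-/

set_option autoImplicit false

open Matrix Complex Filter Topology MeasureTheory Set

namespace Pool.Agent.RHB

theorem smi_proof (hGRM : Stmt_GRM) (hSER : Stmt_SER) : Stmt_SMI := by
  obtain ⟨h1, h2, h3, hX', hZ'⟩ := hSER
  intro d
  have hu : IsUnit (gram0ᵀ) := by
    rw [isUnit_transpose]
    unfold gram0
    rw [isUnit_fromBlocks_zero₂₁]
    exact ⟨hX', hZ'⟩
  have hdet : IsUnit (gram0ᵀ).det := (isUnit_iff_isUnit_det _).1 hu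
  have h2' : chiXᵀ * nexp (4 • hX) = -chiX := by
    rw [eq_neg_iff_add_eq_zero, add_comm, ← eq_neg_iff_add_eq_zero]
    exact h2
  have h3' : chiZᵀ = -chiZ := by
    rw [eq_neg_iff_add_eq_zero, add_comm, ← eq_neg_iff_add_eq_zero]
    exact h3
  have e0 : gram0ᵀ = fromBlocks chiXᵀ 0 0 chiZᵀ := by
    unfold gram0
    rw [fromBlocks_transpose]
    simp
  constructor
  · have e1 : (gram d)ᵀ = gram0ᵀ * fromBlocks 1 0 (res d) 1 := by
      rw [hGRM d, fromBlocks_transpose, e0, fromBlocks_multiply]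
      simp [transpose_mul]
    rw [e1, ← Matrix.mul_assoc, nonsing_inv_mul _ hdet, Matrix.one_mul]
  · have e2 : gram d = gram0ᵀ * fromBlocks (-nexp (4 • hX)) (-(nexp (4 • hX) * gys d)) 0 (-1) := by
      rw [hGRM d, e0, fromBlocks_multiply, h1 d]
      congr 1
      · rw [Matrix.mul_neg, h2']
        simp
      · rw [Matrix.mul_neg, ← Matrix.mul_assoc, h2']
        simp
      · simp
      · rw [h3']
        simp
    rw [e2, ← Matrix.mul_assoc, nonsing_inv_mul _ hdet, Matrix.one_mul]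

end Pool.Agent.RHB
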