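import Pool.Agent.RHB.Stmts

set_option autoImplicit false

open Matrix Complex Filter Topology MeasureTheory Set

namespace Pool.Agent.RHB

namespace SYM_

/-- exp of half turn shifts -/
theorem exp_a (s : ℝ) (hs : 0 < s) : exp (-(Real.log s : ℂ) + (Real.pi / 2 : ℝ) * I) = I / s := by
  have h1 : exp (-(Real.log s : ℂ)) = (s : ℂ)⁻¹ := by
    rw [Complex.exp_neg, ← Complex.ofReal_exp, Real.exp_log hs]
  have h2 : exp (((Real.pi / 2 : ℝ) : ℂ) * I) = I := by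
    rw [Complex.exp_mul_I, ← Complex.ofReal_cos, ← Complex.ofReal_sin, Real.cos_pi_div_two,
      Real.sin_pi_div_two]
    simp
  rw [Complex.exp_add, h1, h2]
  field_simp

theorem exp_b (s : ℝ) (hs : 0 < s) :
    exp (-(Real.log s : ℂ) - (Real.pi / 2 : ℝ) * I) = -(I / s) := by
  have h1 : exp (-(Real.log s : ℂ)) = (s : ℂ)⁻¹ := by
    rw [Complex.exp_neg, ← Complex.ofReal_exp, Real.exp_log hs]
  have h2 : exp (((Real.pi / 2 : ℝ) : ℂ) * I) = I := by
    rw [Complex.exp_mul_I, ← Complex.ofReal_cos, ← Complex.ofReal_sin, Real.cos_pi_div_two,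
      Real.sin_pi_div_two]
    simp
  have h3 : exp (-(((Real.pi / 2 : ℝ) : ℂ) * I)) = -I := by
    rw [Complex.exp_neg, h2, Complex.inv_I]
  rw [sub_eq_add_neg, Complex.exp_add, h1, h3]
  field_simp

theorem exp_c (s : ℝ) (hs : 0 < s) :
    exp (-(-(Real.log s : ℂ) - (Real.pi / 2 : ℝ) * I)) = I * s := by
  rw [Complex.exp_neg, exp_b s hs]
  have : (s : ℂ) ≠ 0 := by exact_mod_cast hs.ne'
  rw [inv_neg, inv_div]
  rw [div_eq_mul_inv, Complex.inv_I]
  ring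

theorem exp_a' (s : ℝ) (hs : 0 < s) :
    exp (-((Real.log s : ℂ) + Real.pi * I) + (Real.pi / 2 : ℝ) * I) = -(I / s) := by
  rw [← exp_b s hs]
  congr 1
  push_cast
  ring

theorem exp_b' (s : ℝ) (hs : 0 < s) :
    exp (-((Real.log s : ℂ) - Real.pi * I) + (Real.pi / 2 : ℝ) * I) = -(I / s) := by
  rw [← exp_b s hs, Complex.exp_eq_exp_iff_exists_int]
  refine ⟨1, ?_⟩
  push_cast
  ring

/-- the row vector entries -/
noncomputable def F (Z₀ : Matrix (Fin 4 ⊕ Fin 2) (Fin 6) ℂ) (Y : ℂ → Matrix (Fin 6) (Fin 4 ⊕ Fin 2) ℂ)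
    (k : Fin 4 ⊕ Fin 2) (v : ℂ) : ℂ :=
  (Z₀ * Y (exp (-v + (Real.pi / 2 : ℝ) * I))) (Sum.inr 0) k

theorem F_eq (Z₀ : Matrix (Fin 4 ⊕ Fin 2) (Fin 6) ℂ) (Y : ℂ → Matrix (Fin 6) (Fin 4 ⊕ Fin 2) ℂ)
    (k : Fin 4 ⊕ Fin 2) (v : ℂ) :
    F Z₀ Y k v = ∑ i, Z₀ (Sum.inr 0) i * Y (exp (-v + (Real.pi / 2 : ℝ) * I)) i k := by
  rw [F, Matrix.mul_apply]

theorem F_diff (Z₀ : Matrix (Fin 4 ⊕ Fin 2) (Fin 6) ℂ) (Y : ℂ → Matrix (Fin 6) (Fin 4 ⊕ Fin 2) ℂ)
    (k : Fin 4 ⊕ Fin 2) (S : Set ℂ) (T : Set ℂ)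
    (hY : ∀ i j, DifferentiableOn ℂ (fun z => Y z i j) S)
    (hT : ∀ v ∈ T, exp (-v + (Real.pi / 2 : ℝ) * I) ∈ S) :
    DifferentiableOn ℂ (F Z₀ Y k) T := by
  have h1 : DifferentiableOn ℂ
      (fun v => ∑ i, Z₀ (Sum.inr 0) i * Y (exp (-v + (Real.pi / 2 : ℝ) * I)) i k) T := by
    apply DifferentiableOn.fun_sum
    intro i _
    apply DifferentiableOn.const_mul
    have h2 : DifferentiableOn ℂ (fun v : ℂ => exp (-v + (Real.pi / 2 : ℝ) * I)) T := by
      apply Differentiable.differentiableOn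
      fun_prop
    exact (hY i k).comp h2 hT
  refine h1.congr ?_
  intro v _
  exact F_eq Z₀ Y k v

theorem F_lim (Z₀ : Matrix (Fin 4 ⊕ Fin 2) (Fin 6) ℂ) (Y : ℂ → Matrix (Fin 6) (Fin 4 ⊕ Fin 2) ℂ)
    (Y₀ : Matrix (Fin 6) (Fin 4 ⊕ Fin 2) ℂ) (k : Fin 4) (S : Set ℂ)
    (h0 : Z₀ * Y₀ = 1) (hY : Tendsto Y (𝓝[S] 0) (𝓝 Y₀)) (η : ℝ) (hη : 0 < η) :
    ∃ T : ℝ, ∀ v : ℂ, T ≤ v.re → exp (-v + (Real.pi / 2 : ℝ) * I) ∈ S →
      ‖F Z₀ Y (Sum.inl k) v - 0‖ ≤ η := by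
  have h1 : Tendsto (fun z => ∑ i, Z₀ (Sum.inr 0) i * Y z i (Sum.inl k)) (𝓝[S] 0)
      (𝓝 (∑ i, Z₀ (Sum.inr 0) i * Y₀ i (Sum.inl k))) := by
    apply tendsto_finsetSum
    intro i _
    apply Tendsto.const_mul
    have h2 := (tendsto_pi_nhds.mp hY) i
    exact (tendsto_pi_nhds.mp h2) (Sum.inl k)
  have h3 : ∑ i, Z₀ (Sum.inr 0) i * Y₀ i (Sum.inl k) = 0 := by
    rw [← Matrix.mul_apply, h0]
    simp
  rw [h3] at h1
  rw [Metric.tendsto_nhdsWithin_nhds] at h1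
  obtain ⟨δ, hδ, h4⟩ := h1 η hη
  refine ⟨-Real.log δ + 1, fun v hv hS => ?_⟩
  have h5 : dist (exp (-v + (Real.pi / 2 : ℝ) * I)) 0 < δ := by
    rw [dist_zero_right, Complex.norm_exp]
    have h6 : (-v + (Real.pi / 2 : ℝ) * I).re = -v.re := by simp
    rw [h6]
    calc Real.exp (-v.re) < Real.exp (Real.log δ) := by
          apply Real.exp_lt_exp.mpr
          linarith
      _ = δ := Real.exp_log hδ
  have h7 := h4 hS h5
  rw [sub_zero, F_eq]
  rw [dist_zero_right] at h7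
  exact h7.le

theorem F_growth (Z₀ : Matrix (Fin 4 ⊕ Fin 2) (Fin 6) ℂ) (Y : ℂ → Matrix (Fin 6) (Fin 4 ⊕ Fin 2) ℂ)
    (k : Fin 4 ⊕ Fin 2) (C : ℝ) (S : Set ℂ)
    (hC : ∀ v ∈ S, ∀ i j, ‖Y (exp (-v + (Real.pi / 2 : ℝ) * I)) i j‖ ≤ C * Real.exp (-v.re / 2))
    (η : ℝ) (hη : 0 < η) :
    ∃ T : ℝ, ∀ v : ℂ, v.re ≤ T → v ∈ S → ‖F Z₀ Y k v‖ * Real.exp v.re ≤ η := by
  obtain ⟨M, hM0, hM⟩ : ∃ M : ℝ, 0 < M ∧ ∀ v ∈ S, ‖F Z₀ Y k v‖ ≤ M * Real.exp (-v.re / 2) := by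
    refine ⟨∑ i, ‖Z₀ (Sum.inr 0) i‖ * |C| + 1, by positivity, fun v hv => ?_⟩
    rw [F_eq]
    have h1 : ‖∑ i, Z₀ (Sum.inr 0) i * Y (exp (-v + (Real.pi / 2 : ℝ) * I)) i k‖ ≤
        ∑ i, ‖Z₀ (Sum.inr 0) i‖ * |C| * Real.exp (-v.re / 2) := by
      refine (norm_sum_le _ _).trans (Finset.sum_le_sum fun i _ => ?_)
      rw [norm_mul, mul_assoc]
      apply mul_le_mul_of_nonneg_left _ (norm_nonneg _)
      refine (hC v hv i k).trans ?_
      exact mul_le_mul_of_nonneg_right (le_abs_self C) (Real.exp_pos _).le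
    rw [← Finset.sum_mul] at h1
    refine h1.trans ?_
    have h2 := Real.exp_pos (-v.re / 2)
    nlinarith
  refine ⟨2 * Real.log (η / M), fun v hv hS => ?_⟩
  calc ‖F Z₀ Y k v‖ * Real.exp v.re ≤ M * Real.exp (-v.re / 2) * Real.exp v.re :=
        mul_le_mul_of_nonneg_right (hM v hS) (Real.exp_pos _).le
    _ = M * Real.exp (v.re / 2) := by
        rw [mul_assoc, ← Real.exp_add]
        congr 2
        ring
    _ ≤ M * Real.exp (Real.log (η / M)) := by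
        apply mul_le_mul_of_nonneg_left _ hM0.le
        apply Real.exp_le_exp.mpr
        linarith
    _ = η := by
        rw [Real.exp_log (by positivity)]
        field_simp

theorem eZA (d : ℂ) (U s : ℝ) (hs : 0 < s) :
    eZ ![-(U * I), 0] (-(Real.log s : ℂ) - (Real.pi / 2 : ℝ) * I) *
      Aminus d (-(Real.log s : ℂ) - (Real.pi / 2 : ℝ) * I) =
    (2 * Real.pi * I * (s * exp (-(U * s)))) • km d s := by
  have h1 : eZ ![-(U * I), 0] (-(Real.log s : ℂ) - (Real.pi / 2 : ℝ) * I) =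
      exp (-(U * s)) • (1 : Matrix (Fin 2) (Fin 2) ℂ) := by
    unfold eZ
    rw [exp_c s hs]
    have h2 : -((![-(U * I), 0] : Fin 2 → ℂ) 0 * (I * s)) = -(U * s) := by
      simp only [Matrix.cons_val_zero]
      have := Complex.I_mul_I
      linear_combination (U * s : ℂ) * this
    rw [h2]
    simp
  have h3 : Aminus d (-(Real.log s : ℂ) - (Real.pi / 2 : ℝ) * I) =
      (2 * Real.pi * (I * s)) • km d s := by
    unfold Aminus km kq
    rw [exp_c s hs]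
    have h4 : d * (I * s * (4 * γ - 4 * (-(Real.log s : ℂ) - (Real.pi / 2 : ℝ) * I))) =
        d * (I * s * (4 * Real.log s + 4 * γ + 2 * Real.pi * I)) := by
      push_cast
      ring
    rw [h4]
  rw [h1, h3, Matrix.smul_mul, Matrix.one_mul, smul_smul]
  congr 1
  ring

theorem jump (hJMP : Stmt_JMP) (d : ℂ) (L : ℂ → ℂ → Matrix (Fin 4) (Fin 4) ℂ) (U ε : ℝ)
    (Yinf : ℂ → Matrix (Fin 6) (Fin 6) ℂ) (Yp Ym : ℂ → Matrix (Fin 6) (Fin 4 ⊕ Fin 2) ℂ)
    (Y₀ : Matrix (Fin 6) (Fin 4 ⊕ Fin 2) ℂ) (Z₀ : Matrix (Fin 4 ⊕ Fin 2) (Fin 6) ℂ)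
    (hε : 0 < ε) (hL : IsL L) (hS : Sol0 d L U ε Yinf Yp Ym Y₀ Z₀) (s : ℝ) (hs : 0 < s) (j : Fin 4) :
    (Z₀ * Ym (-(I / s))) (Sum.inr 0) (Sum.inl j) - (Z₀ * Yp (-(I / s))) (Sum.inr 0) (Sum.inl j) =
      -(2 * Real.pi * I * (s * exp (-(U * s)) *
        (yv Yp Z₀ s ᵥ* (km d s * Lami (I * s))) j)) := by
  have h1 := (hJMP d L ![-(U * I), 0] 0 ε Yinf Yp Ym hL hS.1).1
    (-(Real.log s : ℂ) - (Real.pi / 2 : ℝ) * I) (by
      have h2 : (-(Real.log s : ℂ) - (Real.pi / 2 : ℝ) * I).im = -(Real.pi / 2) := by simp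
      rw [h2]
      simpa using hε)
  have h3 := h1.2
  rw [eZA d U s hs, exp_b s hs, exp_c s hs] at h3
  have h4 : ∀ i, Yp (-(I / s)) i (Sum.inl j) = Ym (-(I / s)) i (Sum.inl j) +
      ∑ k, Yp (-(I / s)) i (Sum.inr k) *
        ((2 * Real.pi * I * (s * exp (-(U * s)))) * (km d s * Lami (I * s)) k j) := by
    intro i
    have h5 := congrFun (congrFun h3 i) j
    rw [Matrix.add_apply, Matrix.mul_apply] at h5
    simp only [Matrix.toCols₁_apply, Matrix.toCols₂_apply] at h5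
    rw [h5]
    congr 1
    refine Finset.sum_congr rfl fun k _ => ?_
    rw [Matrix.smul_mul, Matrix.smul_apply, smul_eq_mul]
  rw [Matrix.mul_apply, Matrix.mul_apply]
  have h6 : ∑ i, Z₀ (Sum.inr 0) i * Yp (-(I / s)) i (Sum.inl j) =
      ∑ i, Z₀ (Sum.inr 0) i * Ym (-(I / s)) i (Sum.inl j) +
      ∑ i, Z₀ (Sum.inr 0) i * ∑ k, Yp (-(I / s)) i (Sum.inr k) *
        ((2 * Real.pi * I * (s * exp (-(U * s)))) * (km d s * Lami (I * s)) k j) := by
    rw [← Finset.sum_add_distrib]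
    refine Finset.sum_congr rfl fun i _ => ?_
    rw [h4 i]
    ring
  rw [h6]
  have h7 : ∑ i, Z₀ (Sum.inr 0) i * ∑ k, Yp (-(I / s)) i (Sum.inr k) *
        ((2 * Real.pi * I * (s * exp (-(U * s)))) * (km d s * Lami (I * s)) k j) =
      2 * Real.pi * I * (s * exp (-(U * s)) *
        (yv Yp Z₀ s ᵥ* (km d s * Lami (I * s))) j) := by
    have h8 : (yv Yp Z₀ s ᵥ* (km d s * Lami (I * s))) j =
        ∑ k, (∑ i, Z₀ (Sum.inr 0) i * Yp (-(I / s)) i (Sum.inr k)) *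
          (km d s * Lami (I * s)) k j := by
      rw [Matrix.vecMul, dotProduct]
      refine Finset.sum_congr rfl fun k _ => ?_
      rw [yv, Matrix.mul_apply]
    rw [h8, Finset.mul_sum, Finset.mul_sum]
    simp_rw [Finset.mul_sum, Finset.sum_mul]
    rw [Finset.sum_comm]
    refine Finset.sum_congr rfl fun k _ => ?_
    rw [Finset.mul_sum, Finset.mul_sum]
    refine Finset.sum_congr rfl fun i _ => ?_
    ring
  rw [h7]
  ring

theorem kq_bd (s : ℝ) (hs : 0 < s) :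
    ‖kq s‖ ≤ (8 + 4 * ‖γ‖ + 2 * Real.pi) * Real.exp (2 * s) := by
  have hlog : s * |Real.log s| ≤ s ^ 2 + 1 := by
    have h1 : Real.log s ≤ s - 1 := Real.log_le_sub_one_of_pos hs
    have h2 : Real.log s⁻¹ ≤ s⁻¹ - 1 := Real.log_le_sub_one_of_pos (inv_pos.mpr hs)
    rw [Real.log_inv] at h2
    have h3 : s * s⁻¹ = 1 := mul_inv_cancel₀ hs.ne'
    rcases abs_cases (Real.log s) with ⟨h, _⟩ | ⟨h, _⟩
    · rw [h]
      nlinarith
    · rw [h]
      nlinarith
  have he : s + 1 ≤ Real.exp s := Real.add_one_le_exp s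
  have he2 : Real.exp (2 * s) = Real.exp s * Real.exp s := by
    rw [← Real.exp_add]
    congr 1
    ring
  have hs2 : s ^ 2 + 1 ≤ Real.exp (2 * s) := by
    rw [he2]
    nlinarith
  have hs3 : s ≤ Real.exp (2 * s) := by
    rw [he2]
    nlinarith
  unfold kq
  rw [norm_mul, norm_mul, Complex.norm_I, one_mul, Complex.norm_real, Real.norm_eq_abs,
    abs_of_pos hs]
  have h5 : ‖(4 * (Real.log s : ℂ) + 4 * γ + 2 * Real.pi * I)‖ ≤
      4 * |Real.log s| + 4 * ‖γ‖ + 2 * Real.pi := by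
    refine (norm_add_le _ _).trans (add_le_add ((norm_add_le _ _).trans (add_le_add ?_ ?_)) ?_)
    · rw [norm_mul, Complex.norm_real, Real.norm_eq_abs]
      simp
    · rw [norm_mul]
      simp
    · rw [norm_mul, norm_mul, Complex.norm_I, mul_one, Complex.norm_real, Real.norm_eq_abs,
        abs_of_pos Real.pi_pos]
      simp
  have h6 := norm_nonneg γ
  have h7 := Real.pi_pos
  calc s * ‖(4 * (Real.log s : ℂ) + 4 * γ + 2 * Real.pi * I)‖
      ≤ s * (4 * |Real.log s| + 4 * ‖γ‖ + 2 * Real.pi) := mul_le_mul_of_nonneg_left h5 hs.le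
    _ = 4 * (s * |Real.log s|) + (4 * ‖γ‖ + 2 * Real.pi) * s := by ring
    _ ≤ 4 * Real.exp (2 * s) + (4 * ‖γ‖ + 2 * Real.pi) * Real.exp (2 * s) := by
        apply add_le_add
        · linarith
        · exact mul_le_mul_of_nonneg_left hs3 (by positivity)
    _ ≤ (8 + 4 * ‖γ‖ + 2 * Real.pi) * Real.exp (2 * s) := by
        have := Real.exp_pos (2 * s)
        nlinarith

theorem km_bd (d : ℂ) : ∃ K : ℝ, 0 < K ∧ ∀ s : ℝ, 0 < s → ∀ k l,
    ‖km d s k l‖ ≤ K * Real.exp (2 * s) := by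
  refine ⟨(1 + ‖d‖) * (8 + 4 * ‖γ‖ + 2 * Real.pi), by positivity, fun s hs k l => ?_⟩
  have h1 := kq_bd s hs
  have h2 : 1 ≤ Real.exp (2 * s) := Real.one_le_exp (by linarith)
  have h3 := norm_nonneg γ
  have h4 := Real.pi_pos
  have h5 := norm_nonneg d
  have hK : 1 ≤ 8 + 4 * ‖γ‖ + 2 * Real.pi := by linarith
  set G := 8 + 4 * ‖γ‖ + 2 * Real.pi with hG
  set E := Real.exp (2 * s) with hE
  have hGE : 1 ≤ G * E := by nlinarith
  have hd : ‖d‖ * (G * E) ≤ (1 + ‖d‖) * G * E := by nlinarith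
  have hd1 : ‖d‖ ≤ (1 + ‖d‖) * G * E := by nlinarith
  have h01 : 1 ≤ (1 + ‖d‖) * G * E := by nlinarith
  have h00 : 0 ≤ (1 + ‖d‖) * G * E := by linarith
  have hkq : ‖d * kq s‖ ≤ (1 + ‖d‖) * G * E := by
    rw [norm_mul]
    refine (mul_le_mul_of_nonneg_left h1 h5).trans hd
  unfold km
  fin_cases k <;> fin_cases l <;> simp [h00, h01, hd1] <;> simpa using hkq

theorem yv_bd (B s : ℝ) (hs : 0 < s) (x : ℂ) (hx : ‖x‖ ≤ B * (1 + s ^ (-(1 / 2) : ℝ))) :
    s * ‖x‖ ≤ 2 * |B| * Real.exp s := by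
  have h1 : s * s ^ (-(1 / 2) : ℝ) = Real.sqrt s := by
    rw [Real.sqrt_eq_rpow]
    nth_rewrite 1 [← Real.rpow_one s]
    rw [← Real.rpow_add hs]
    norm_num
  have h2 : Real.sqrt s ≤ 1 + s := by
    rw [Real.sqrt_le_left (by linarith)]
    nlinarith
  have h3 : s + 1 ≤ Real.exp s := Real.add_one_le_exp s
  have h4 : ‖x‖ ≤ |B| * (1 + s ^ (-(1 / 2) : ℝ)) :=
    hx.trans (mul_le_mul_of_nonneg_right (le_abs_self B) (by positivity))
  calc s * ‖x‖ ≤ s * (|B| * (1 + s ^ (-(1 / 2) : ℝ))) := mul_le_mul_of_nonneg_left h4 hs.le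
    _ = |B| * (s + s * s ^ (-(1 / 2) : ℝ)) := by ring
    _ ≤ |B| * (2 * Real.exp s) := by
        apply mul_le_mul_of_nonneg_left _ (abs_nonneg B)
        rw [h1]
        linarith
    _ = 2 * |B| * Real.exp s := by ring

theorem bound (hLDB : Stmt_LDB) (d : ℂ) : ∃ U₀ : ℝ, 0 < U₀ ∧ ∀ U : ℝ, U₀ ≤ U →
    ∀ (B : ℝ) (y : ℝ → Fin 2 → ℂ), (∀ s : ℝ, 0 < s → ∀ j, ‖y s j‖ ≤ B * (1 + s ^ (-(1 / 2) : ℝ))) →
    ∃ K : ℝ, ∀ s : ℝ, 0 < s → ∀ j,
      ‖(s : ℂ) * exp (-(U * s)) * (y s ᵥ* (km d s * Lami (I * s))) j‖ ≤ K * Real.exp (-1 * s) := by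
  obtain ⟨-, -, ⟨C, hC, hb⟩, -⟩ := hLDB
  obtain ⟨K, hK, hkm⟩ := km_bd d
  refine ⟨C + 4, by linarith, fun U hU B y hy => ⟨16 * |B| * K * C, fun s hs j => ?_⟩⟩
  have h1 : ‖(s : ℂ) * exp (-(U * s))‖ = s * Real.exp (-(U * s)) := by
    rw [norm_mul, Complex.norm_real, Real.norm_eq_abs, abs_of_pos hs, Complex.norm_exp]
    congr 2
    have : (-((U : ℂ) * s)) = ((-(U * s) : ℝ) : ℂ) := by push_cast; ring
    rw [this, Complex.ofReal_re]
  have h2 : ∀ k l, ‖km d s k l * Lami (I * s) l j‖ ≤ K * C * Real.exp ((2 + C) * s) := by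
    intro k l
    rw [norm_mul]
    have h3 := (hb (I * s) l j).2
    have h4 : ‖I * (s : ℂ)‖ = s := by
      rw [norm_mul, Complex.norm_I, one_mul, Complex.norm_real, Real.norm_eq_abs, abs_of_pos hs]
    rw [h4] at h3
    calc ‖km d s k l‖ * ‖Lami (I * s) l j‖ ≤ (K * Real.exp (2 * s)) * (C * Real.exp (C * s)) :=
          mul_le_mul (hkm s hs k l) h3 (norm_nonneg _) (by positivity)
      _ = K * C * (Real.exp (2 * s) * Real.exp (C * s)) := by ring
      _ = K * C * Real.exp ((2 + C) * s) := by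
          rw [← Real.exp_add]
          congr 2
          ring
  have h5 : ∀ k, ‖(km d s * Lami (I * s)) k j‖ ≤ 4 * (K * C * Real.exp ((2 + C) * s)) := by
    intro k
    rw [Matrix.mul_apply]
    refine (norm_sum_le _ _).trans ?_
    refine (Finset.sum_le_sum fun l _ => h2 k l).trans ?_
    simp
  have h6 : s * ‖(y s ᵥ* (km d s * Lami (I * s))) j‖ ≤
      16 * |B| * K * C * Real.exp ((3 + C) * s) := by
    rw [Matrix.vecMul, dotProduct]
    calc s * ‖∑ k, y s k * (km d s * Lami (I * s)) k j‖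
        ≤ s * ∑ k, ‖y s k‖ * ‖(km d s * Lami (I * s)) k j‖ := by
          apply mul_le_mul_of_nonneg_left _ hs.le
          refine (norm_sum_le _ _).trans (Finset.sum_le_sum fun k _ => ?_)
          rw [norm_mul]
      _ = ∑ k, (s * ‖y s k‖) * ‖(km d s * Lami (I * s)) k j‖ := by
          rw [Finset.mul_sum]
          refine Finset.sum_congr rfl fun k _ => ?_
          ring
      _ ≤ ∑ k : Fin 2, (2 * |B| * Real.exp s) * (4 * (K * C * Real.exp ((2 + C) * s))) := by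
          refine Finset.sum_le_sum fun k _ => ?_
          exact mul_le_mul (yv_bd B s hs _ (hy s hs k)) (h5 k) (norm_nonneg _) (by positivity)
      _ = 16 * |B| * K * C * (Real.exp s * Real.exp ((2 + C) * s)) := by
          rw [Finset.sum_const]
          simp
          ring
      _ = 16 * |B| * K * C * Real.exp ((3 + C) * s) := by
          rw [← Real.exp_add]
          congr 2
          ring
  rw [norm_mul, h1]
  calc s * Real.exp (-(U * s)) * ‖(y s ᵥ* (km d s * Lami (I * s))) j‖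
      = Real.exp (-(U * s)) * (s * ‖(y s ᵥ* (km d s * Lami (I * s))) j‖) := by ring
    _ ≤ Real.exp (-(U * s)) * (16 * |B| * K * C * Real.exp ((3 + C) * s)) :=
        mul_le_mul_of_nonneg_left h6 (Real.exp_pos _).le
    _ = 16 * |B| * K * C * (Real.exp (-(U * s)) * Real.exp ((3 + C) * s)) := by ring
    _ = 16 * |B| * K * C * Real.exp (-(U * s) + (3 + C) * s) := by rw [← Real.exp_add]
    _ ≤ 16 * |B| * K * C * Real.exp (-1 * s) := by
        apply mul_le_mul_of_nonneg_left _ (by positivity)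
        apply Real.exp_le_exp.mpr
        nlinarith

theorem cont (hLDB : Stmt_LDB) (d : ℂ) (U : ℝ) (y : ℝ → Fin 2 → ℂ)
    (hy : ∀ j, ContinuousOn (fun s => y s j) (Ioi 0)) (j : Fin 4) :
    ContinuousOn (fun s : ℝ => (s : ℂ) * exp (-(U * s)) *
      (y s ᵥ* (km d s * Lami (I * s))) j) (Ioi 0) := by
  obtain ⟨-, hd, -⟩ := hLDB
  have h1 : ContinuousOn (fun s : ℝ => ((Real.log s : ℝ) : ℂ)) (Ioi 0) := by
    apply Complex.continuous_ofReal.comp_continuousOn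
    apply Real.continuousOn_log.mono
    intro x hx
    simp only [Set.mem_compl_iff, Set.mem_singleton_iff]
    exact (ne_of_gt hx)
  have h2 : ContinuousOn (fun s : ℝ => kq s) (Ioi 0) := by
    unfold kq
    fun_prop
  have h3 : ∀ k l, ContinuousOn (fun s : ℝ => km d s k l) (Ioi 0) := by
    intro k l
    unfold km
    fin_cases k <;> fin_cases l <;> simp <;> fun_prop
  have h4 : ∀ l, ContinuousOn (fun s : ℝ => Lami (I * s) l j) (Ioi 0) := by
    intro l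
    have h5 : Continuous (fun s : ℝ => Lami (I * s) l j) := by
      have := (hd l j).continuous
      exact this.comp (by fun_prop)
    exact h5.continuousOn
  have h6 : (fun s : ℝ => (s : ℂ) * exp (-(U * s)) * (y s ᵥ* (km d s * Lami (I * s))) j) =
      fun s : ℝ => (s : ℂ) * exp (-(U * s)) * ∑ k, y s k * ∑ l, km d s k l * Lami (I * s) l j := by
    funext s
    rw [Matrix.vecMul, dotProduct]
    congr 1
  rw [h6]
  apply ContinuousOn.mul
  · fun_prop
  · apply continuousOn_finsetSum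
    intro k _
    apply (hy k).mul
    apply continuousOn_finsetSum
    intro l _
    exact (h3 k l).mul (h4 l)

end SYM_

theorem sym_proof (hCAU : Stmt_CAU) (hJMP : Stmt_JMP) (hGRO : Stmt_GRO) (hBCT : Stmt_BCT)
    (hLDB : Stmt_LDB) : Stmt_SYM := by
  intro d
  obtain ⟨U₀, hU₀, hbd⟩ := SYM_.bound hLDB d
  refine ⟨U₀, hU₀, ?_⟩
  intro U hU L ε Yinf Yp Ym Y₀ Z₀ hε hL hS s' hs' j
  obtain ⟨⟨B, hB⟩, hcy, -⟩ := hBCT d L U ε Yinf Yp Ym Y₀ Z₀ hε hL hS
  obtain ⟨K, hK⟩ := hbd U hU B (yv Yp Z₀) (fun s hs => (hB s hs).1)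
  have hRH := hS.1
  have hYZ := hS.2.1
  have hZY := hS.2.2.1
  have hlp := hS.2.2.2.1
  have hlm := hS.2.2.2.2
  obtain ⟨Cg, hCg⟩ := hGRO d L _ 0 ε Yinf Yp Ym hε hL hRH
  have hjmp := SYM_.jump hJMP d L U ε Yinf Yp Ym Y₀ Z₀ hε hL hS
  -- membership in the sectors
  have hsp : ∀ v : ℂ, -ε < v.im → v.im < Real.pi + ε →
      exp (-v + (Real.pi / 2 : ℝ) * I) ∈ sector 0 ε := by
    intro v h1 h2
    refine ⟨-v + (Real.pi / 2 : ℝ) * I, rfl, ?_⟩
    have h3 : (-v + (Real.pi / 2 : ℝ) * I).im = -v.im + Real.pi / 2 := by simp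
    rw [h3, abs_lt]
    constructor <;> linarith
  have hexp : ∀ v : ℂ, exp (-v + (Real.pi / 2 : ℝ) * I) = exp (-v - (3 * Real.pi / 2 : ℝ) * I) := by
    intro v
    rw [Complex.exp_eq_exp_iff_exists_int]
    refine ⟨1, ?_⟩
    push_cast
    ring
  have hsm : ∀ v : ℂ, -Real.pi - ε < v.im → v.im < ε →
      exp (-v + (Real.pi / 2 : ℝ) * I) ∈ sector (0 - Real.pi) ε := by
    intro v h1 h2
    rw [hexp v]
    refine ⟨-v - (3 * Real.pi / 2 : ℝ) * I, rfl, ?_⟩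
    have h3 : (-v - (3 * Real.pi / 2 : ℝ) * I).im = -v.im - 3 * Real.pi / 2 := by simp
    rw [h3, abs_lt]
    constructor <;> linarith
  have main := hCAU ε (SYM_.F Z₀ Yp (Sum.inl j)) (SYM_.F Z₀ Ym (Sum.inl j)) 0
    (fun s => -(2 * Real.pi * I * (s * exp (-(U * s)) *
        (yv Yp Z₀ s ᵥ* (km d s * Lami (I * s))) j))) hε
    (SYM_.F_diff Z₀ Yp _ (sector 0 ε) _ hRH.2.1 (fun v hv => hsp v hv.1 hv.2))
    (SYM_.F_diff Z₀ Ym _ (sector (0 - Real.pi) ε) _ hRH.2.2.1 (fun v hv => hsm v hv.1 hv.2))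
    (by
      intro v hv
      have h1 := (hJMP d L ![-(U * I), 0] 0 ε Yinf Yp Ym hL hRH).2
        (-v + (Real.pi / 2 : ℝ) * I) (by
          have h2 : (-v + (Real.pi / 2 : ℝ) * I).im = -v.im + Real.pi / 2 := by simp
          rw [h2]
          have h3 : -v.im + Real.pi / 2 - (0 + Real.pi / 2) = -v.im := by ring
          rw [h3, abs_neg]
          exact hv)
      have h4 := h1.1
      rw [SYM_.F_eq, SYM_.F_eq]
      refine Finset.sum_congr rfl fun i _ => ?_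
      have h5 := congrFun (congrFun h4 i) j
      simp only [Matrix.toCols₁_apply] at h5
      rw [h5])
    (by
      intro η hη
      obtain ⟨T₁, hT₁⟩ := SYM_.F_lim Z₀ Yp Y₀ j _ hZY hlp η hη
      obtain ⟨T₂, hT₂⟩ := SYM_.F_lim Z₀ Ym Y₀ j _ hZY hlm η hη
      refine ⟨max T₁ T₂, fun v hv => ⟨fun h1 h2 => ?_, fun h1 h2 => ?_⟩⟩
      · exact hT₁ v ((le_max_left _ _).trans hv) (hsp v (by linarith) (by linarith))
      · exact hT₂ v ((le_max_right _ _).trans hv) (hsm v (by linarith) (by linarith)))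
    (by
      intro η hη
      obtain ⟨T₁, hT₁⟩ := SYM_.F_growth Z₀ Yp (Sum.inl j) Cg {v | v.re ≤ 0 ∧ 0 ≤ v.im ∧ v.im ≤ Real.pi}
        (by
          intro v hv i k
          obtain ⟨h1, h2, h3⟩ := hv
          have h4 := (hCg (-v + (Real.pi / 2 : ℝ) * I) (by simp; linarith)).1 (by
            have h5 : (-v + (Real.pi / 2 : ℝ) * I).im = -v.im + Real.pi / 2 := by simp
            rw [h5, abs_le]
            constructor <;> linarith) i k
          have h6 : (-v + (Real.pi / 2 : ℝ) * I).re = -v.re := by simp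
          rwa [h6] at h4) η hη
      obtain ⟨T₂, hT₂⟩ := SYM_.F_growth Z₀ Ym (Sum.inl j) Cg
        {v | v.re ≤ 0 ∧ -Real.pi ≤ v.im ∧ v.im ≤ 0}
        (by
          intro v hv i k
          obtain ⟨h1, h2, h3⟩ := hv
          have h4 := (hCg (-v - (3 * Real.pi / 2 : ℝ) * I) (by simp; linarith)).2 (by
            have h5 : (-v - (3 * Real.pi / 2 : ℝ) * I).im = -v.im - 3 * Real.pi / 2 := by simp
            rw [h5, abs_le]
            constructor <;> linarith) i k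
          have h6 : (-v - (3 * Real.pi / 2 : ℝ) * I).re = -v.re := by simp
          rw [h6, ← hexp v] at h4
          exact h4) η hη
      refine ⟨min 0 (min T₁ T₂), fun v hv => ?_⟩
      have h0 : v.re ≤ 0 := hv.trans (min_le_left _ _)
      have h1 : v.re ≤ T₁ := hv.trans ((min_le_right _ _).trans (min_le_left _ _))
      have h2 : v.re ≤ T₂ := hv.trans ((min_le_right _ _).trans (min_le_right _ _))
      exact ⟨fun h3 h4 => hT₁ v h1 ⟨h0, h3, h4⟩, fun h3 h4 => hT₂ v h2 ⟨h0, h3, h4⟩⟩)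
    (by
      intro s hs
      rw [← hjmp s hs j, SYM_.F, SYM_.F, SYM_.exp_a' s hs, SYM_.exp_b' s hs])
    s' hs'
    (by
      have hmeas : AEStronglyMeasurable (fun s : ℝ => -(2 * Real.pi * I * (s * exp (-(U * s)) *
          (yv Yp Z₀ s ᵥ* (km d s * Lami (I * s))) j)) / ((s : ℂ) + s'))
          (volume.restrict (Ioi 0)) := by
        apply ContinuousOn.aestronglyMeasurable _ measurableSet_Ioi
        apply ContinuousOn.div
        · exact (continuousOn_const.mul (SYM_.cont hLDB d U (yv Yp Z₀) hcy j)).neg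
        · fun_prop
        · intro s hs
          have : (0 : ℝ) < s + s' := add_pos hs hs'
          exact_mod_cast this.ne'
      have hint : Integrable (fun s : ℝ => (2 * Real.pi * K / s') * Real.exp (-1 * s))
          (volume.restrict (Ioi 0)) :=
        (exp_neg_integrableOn_Ioi 0 one_pos).const_mul _
      refine Integrable.mono' hint hmeas ?_
      rw [ae_restrict_iff' measurableSet_Ioi]
      filter_upwards with s hs
      have hs0 : (0 : ℝ) < s := hs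
      rw [norm_div, norm_neg, norm_mul]
      have h1 : ‖(2 * (Real.pi : ℂ) * I)‖ = 2 * Real.pi := by
        rw [norm_mul, norm_mul, Complex.norm_I, mul_one, Complex.norm_real, Real.norm_eq_abs,
          abs_of_pos Real.pi_pos]
        simp
      have h2 : s' ≤ ‖((s : ℂ) + s')‖ := by
        have : ((s : ℂ) + s') = ((s + s' : ℝ) : ℂ) := by push_cast; ring
        rw [this, Complex.norm_real, Real.norm_eq_abs, abs_of_pos (add_pos hs0 hs')]
        linarith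
      rw [h1]
      have h3 := hK s hs0 j
      calc 2 * Real.pi * ‖(s : ℂ) * exp (-(U * s)) * (yv Yp Z₀ s ᵥ* (km d s * Lami (I * s))) j‖ /
            ‖((s : ℂ) + s')‖
          ≤ 2 * Real.pi * (K * Real.exp (-1 * s)) / s' := by
            apply div_le_div₀ _ _ hs' h2
            · have h4 := (norm_nonneg _).trans h3
              positivity
            · exact mul_le_mul_of_nonneg_left h3 (by positivity)
        _ = (2 * Real.pi * K / s') * Real.exp (-1 * s) := by ring)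
  rw [SYM_.F, SYM_.exp_a s' hs', sub_zero] at main
  have h2pi : (2 * (Real.pi : ℂ) * I) ≠ 0 := Complex.two_pi_I_ne_zero
  have h7 : Pv Yp Z₀ s' j = (Z₀ * Yp (I / s')) (Sum.inr 0) (Sum.inl j) := rfl
  rw [h7]
  apply mul_left_cancel₀ h2pi
  rw [← main, ← integral_neg, ← integral_const_mul]
  apply setIntegral_congr_fun measurableSet_Ioi
  intro s hs
  simp only []
  rw [add_comm (s' : ℂ) (s : ℂ)]
  ring

end Pool.Agent.RHB
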