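import Pool.Agent.RHB.Stmts

set_option autoImplicit false

open Matrix Complex Filter Topology MeasureTheory Set

namespace Pool.Agent.RHB

namespace SYY_

/-- the base point -/
noncomputable def wv (v : ℂ) : ℂ := -v - (Real.pi / 2 : ℝ) * I

lemma wv_re (v : ℂ) : (wv v).re = -v.re := by
  simp [wv]

lemma wv_im (v : ℂ) : (wv v).im = -v.im - Real.pi / 2 := by
  simp only [wv, sub_im, neg_im, mul_im, ofReal_re, ofReal_im, I_re, I_im]
  ring

lemma wv_diff : Differentiable ℂ (fun v => exp (wv v)) := by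
  unfold wv
  fun_prop

/-- a matrix entry of a product with a constant matrix is differentiable -/
lemma entry_diff (Z : Matrix (Fin 4 ⊕ Fin 2) (Fin 6) ℂ) (f : ℂ → Matrix (Fin 6) (Fin 4 ⊕ Fin 2) ℂ)
    (S : Set ℂ) (hf : ∀ i j, DifferentiableOn ℂ (fun z => f z i j) S)
    (a b : Fin 4 ⊕ Fin 2) : DifferentiableOn ℂ (fun z => (Z * f z) a b) S := by
  have h : (fun z => (Z * f z) a b) = fun z => ∑ k, Z a k * f z k b := by
    funext z
    rw [Matrix.mul_apply]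
  rw [h]
  exact DifferentiableOn.fun_sum fun k _ => (hf k b).const_mul (Z a k)

lemma entry_tendsto (Z : Matrix (Fin 4 ⊕ Fin 2) (Fin 6) ℂ) (f : ℂ → Matrix (Fin 6) (Fin 4 ⊕ Fin 2) ℂ)
    (Y₀ : Matrix (Fin 6) (Fin 4 ⊕ Fin 2) ℂ) (l : Filter ℂ) (hf : Tendsto f l (𝓝 Y₀))
    (a b : Fin 4 ⊕ Fin 2) : Tendsto (fun z => (Z * f z) a b) l (𝓝 ((Z * Y₀) a b)) := by
  have h : (fun z => (Z * f z) a b) = fun z => ∑ k, Z a k * f z k b := by
    funext z
    rw [Matrix.mul_apply]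
  rw [h, Matrix.mul_apply]
  refine tendsto_finsetSum _ fun k _ => ?_
  have h1 : Tendsto (fun z => f z k) l (𝓝 (Y₀ k)) := (tendsto_pi_nhds.mp hf) k
  have h2 : Tendsto (fun z => f z k b) l (𝓝 (Y₀ k b)) := (tendsto_pi_nhds.mp h1) b
  exact h2.const_mul _

lemma entry_bound (Z : Matrix (Fin 4 ⊕ Fin 2) (Fin 6) ℂ) (M : Matrix (Fin 6) (Fin 4 ⊕ Fin 2) ℂ)
    (C : ℝ) (hM : ∀ i j, ‖M i j‖ ≤ C) (a b : Fin 4 ⊕ Fin 2) :
    ‖(Z * M) a b‖ ≤ (∑ k, ‖Z a k‖) * C := by
  rw [Matrix.mul_apply, Finset.sum_mul]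
  refine (norm_sum_le _ _).trans (Finset.sum_le_sum fun k _ => ?_)
  rw [norm_mul]
  exact mul_le_mul_of_nonneg_left (hM k b) (norm_nonneg _)

lemma mem_sec (θ ε : ℝ) (w : ℂ) (h : |w.im - θ| < Real.pi / 2 + ε) : exp w ∈ sector θ ε :=
  ⟨w, rfl, h⟩

/-- limit towards z = 0 -/
lemma lim0 (Z : Matrix (Fin 4 ⊕ Fin 2) (Fin 6) ℂ) (f : ℂ → Matrix (Fin 6) (Fin 4 ⊕ Fin 2) ℂ)
    (Y₀ : Matrix (Fin 6) (Fin 4 ⊕ Fin 2) ℂ) (θ ε : ℝ) (hf : Tendsto f (𝓝[sector θ ε] 0) (𝓝 Y₀))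
    (a b : Fin 4 ⊕ Fin 2) (η : ℝ) (hη : 0 < η) :
    ∃ T : ℝ, ∀ v : ℂ, T ≤ v.re → |(wv v).im - θ| < Real.pi / 2 + ε →
      ‖(Z * f (exp (wv v))) a b - (Z * Y₀) a b‖ ≤ η := by
  have h1 := entry_tendsto Z f Y₀ _ hf a b
  rw [Metric.tendsto_nhdsWithin_nhds] at h1
  obtain ⟨δ, hδ, h2⟩ := h1 η hη
  refine ⟨-Real.log δ + 1, fun v hv hs => ?_⟩
  have h3 : dist (exp (wv v)) 0 < δ := by
    rw [dist_zero_right, Complex.norm_exp, wv_re]
    calc Real.exp (-v.re) < Real.exp (Real.log δ) := Real.exp_lt_exp.mpr (by linarith)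
      _ = δ := Real.exp_log hδ
  have h4 := h2 (mem_sec θ ε _ hs) h3
  rw [dist_eq_norm] at h4
  exact h4.le

/-- growth towards z = infinity -/
lemma lim1 (Z : Matrix (Fin 4 ⊕ Fin 2) (Fin 6) ℂ) (f : ℂ → Matrix (Fin 6) (Fin 4 ⊕ Fin 2) ℂ)
    (θ C : ℝ) (hf : ∀ w : ℂ, 0 ≤ w.re → |w.im - θ| ≤ Real.pi / 2 →
      ∀ i j, ‖f (exp w) i j‖ ≤ C * Real.exp (w.re / 2))
    (a b : Fin 4 ⊕ Fin 2) (η : ℝ) (hη : 0 < η) :
    ∃ T : ℝ, ∀ v : ℂ, v.re ≤ T → |(wv v).im - θ| ≤ Real.pi / 2 →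
      ‖(Z * f (exp (wv v))) a b‖ * Real.exp v.re ≤ η := by
  set K : ℝ := |(∑ k, ‖Z a k‖) * C| + 1 with hK
  have hK0 : 0 < K := by positivity
  refine ⟨min 0 (2 * Real.log (η / K)), fun v hv hs => ?_⟩
  have hv0 : v.re ≤ 0 := hv.trans (min_le_left _ _)
  have hv1 : v.re ≤ 2 * Real.log (η / K) := hv.trans (min_le_right _ _)
  have h1 := entry_bound Z (f (exp (wv v))) (C * Real.exp ((wv v).re / 2))
    (hf (wv v) (by rw [wv_re]; linarith) hs) a b
  rw [wv_re] at h1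
  have h2 : ‖(Z * f (exp (wv v))) a b‖ ≤ K * Real.exp (-v.re / 2) := by
    refine h1.trans ?_
    rw [← mul_assoc]
    refine mul_le_mul_of_nonneg_right ?_ (Real.exp_pos _).le
    have := le_abs_self ((∑ k, ‖Z a k‖) * C)
    linarith
  calc ‖(Z * f (exp (wv v))) a b‖ * Real.exp v.re
      ≤ (K * Real.exp (-v.re / 2)) * Real.exp v.re :=
        mul_le_mul_of_nonneg_right h2 (Real.exp_pos _).le
    _ = K * Real.exp (v.re / 2) := by
        rw [mul_assoc, ← Real.exp_add]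
        congr 2
        ring
    _ ≤ K * (η / K) := by
        refine mul_le_mul_of_nonneg_left ?_ hK0.le
        calc Real.exp (v.re / 2) ≤ Real.exp (Real.log (η / K)) :=
              Real.exp_le_exp.mpr (by linarith)
          _ = η / K := Real.exp_log (by positivity)
    _ = η := by field_simp

/-- point -/
lemma exp_neg_half (s : ℝ) (hs : 0 < s) : exp (-(Real.log s : ℂ) - (Real.pi / 2 : ℝ) * I) = -(I / s) := by
  have hs' : (s : ℂ) ≠ 0 := by exact_mod_cast hs.ne'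
  rw [Complex.exp_sub, Complex.exp_neg, ← Complex.ofReal_exp, Real.exp_log hs]
  have h : exp (((Real.pi / 2 : ℝ) : ℂ) * I) = I := by
    push_cast
    exact Complex.exp_pi_div_two_mul_I
  rw [h, div_eq_mul_inv, Complex.inv_I]
  field_simp

lemma exp_pos_half (s : ℝ) (hs : 0 < s) : exp (-(Real.log s : ℂ) + (Real.pi / 2 : ℝ) * I) = I / s := by
  have hs' : (s : ℂ) ≠ 0 := by exact_mod_cast hs.ne'
  rw [Complex.exp_add, Complex.exp_neg, ← Complex.ofReal_exp, Real.exp_log hs]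
  have h : exp (((Real.pi / 2 : ℝ) : ℂ) * I) = I := by
    push_cast
    exact Complex.exp_pi_div_two_mul_I
  rw [h]
  field_simp

lemma exp_neg_pos_half (s : ℝ) (hs : 0 < s) :
    exp (-(-(Real.log s : ℂ) + (Real.pi / 2 : ℝ) * I)) = -(I * s) := by
  have hs' : (s : ℂ) ≠ 0 := by exact_mod_cast hs.ne'
  rw [Complex.exp_neg, exp_pos_half s hs]
  rw [inv_div, div_eq_mul_inv, Complex.inv_I]
  ring

lemma Aplus_eq (d : ℂ) (s : ℝ) (hs : 0 < s) :
    Aplus d (-(Real.log s : ℂ) + (Real.pi / 2 : ℝ) * I) = (2 * Real.pi * I * s) • kp d s := by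
  unfold Aplus kp kq
  rw [exp_neg_pos_half s hs]
  have h2 : ((Real.pi / 2 : ℝ) : ℂ) = (Real.pi : ℂ) / 2 := by push_cast; ring
  rw [h2]
  ext i j
  fin_cases i <;> fin_cases j <;>
    simp [-mul_eq_mul_left_iff, -mul_eq_mul_right_iff] <;> ring

lemma eZi_eq (U s : ℝ) (hs : 0 < s) :
    eZi ![-((U : ℂ) * I), 0] (-(Real.log s : ℂ) + (Real.pi / 2 : ℝ) * I)
      = exp (-((U : ℂ) * s)) • (1 : Matrix (Fin 2) (Fin 2) ℂ) := by
  unfold eZi
  rw [exp_neg_pos_half s hs]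
  have h1 : (![-((U : ℂ) * I), 0] : Fin 2 → ℂ) 0 = -((U : ℂ) * I) := rfl
  have h2 : (![-((U : ℂ) * I), 0] : Fin 2 → ℂ) 1 = 0 := rfl
  rw [h1, h2, zero_mul, zero_smul, add_zero]
  congr 2
  have : I * I = -1 := Complex.I_mul_I
  linear_combination ((U : ℂ) * s) * this

/-- the jump -/
lemma jump (Z : Matrix (Fin 4 ⊕ Fin 2) (Fin 6) ℂ) (P M : Matrix (Fin 6) (Fin 4 ⊕ Fin 2) ℂ)
    (La : Matrix (Fin 4) (Fin 4) ℂ) (K : Matrix (Fin 4) (Fin 2) ℂ) (a b : ℂ) (j : Fin 2)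
    (h : P.toCols₂ = M.toCols₂ + P.toCols₁ * (La * (a • K) * (b • (1 : Matrix (Fin 2) (Fin 2) ℂ)))) :
    (Z * P) (Sum.inr 0) (Sum.inr j) - (Z * M) (Sum.inr 0) (Sum.inr j) =
      a * b * ((fun k => (Z * P) (Sum.inr 0) (Sum.inl k)) ᵥ* (La * K)) j := by
  have h1 : ∀ k, P k (Sum.inr j) = M k (Sum.inr j) + a * b * ∑ l, P k (Sum.inl l) * (La * K) l j := by
    intro k
    have h2 := congrFun (congrFun h k) j
    rw [Matrix.add_apply] at h2
    have h3 : La * (a • K) * (b • (1 : Matrix (Fin 2) (Fin 2) ℂ)) = (a * b) • (La * K) := by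
      rw [Matrix.mul_smul, Matrix.mul_smul, Matrix.mul_one, smul_smul, mul_comm b a]
    rw [h3, Matrix.mul_smul, Matrix.smul_apply, Matrix.mul_apply, smul_eq_mul] at h2
    exact h2
  rw [Matrix.mul_apply, Matrix.mul_apply, ← Finset.sum_sub_distrib]
  have h4 : ∀ k, Z (Sum.inr 0) k * P k (Sum.inr j) - Z (Sum.inr 0) k * M k (Sum.inr j)
      = ∑ l, a * b * (Z (Sum.inr 0) k * P k (Sum.inl l) * (La * K) l j) := by
    intro k
    rw [h1 k, ← Finset.mul_sum]
    have : ∑ l, Z (Sum.inr 0) k * P k (Sum.inl l) * (La * K) l j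
        = Z (Sum.inr 0) k * ∑ l, P k (Sum.inl l) * (La * K) l j := by
      rw [Finset.mul_sum]
      exact Finset.sum_congr rfl fun l _ => by ring
    rw [this]
    ring
  rw [Finset.sum_congr rfl fun k _ => h4 k, Finset.sum_comm]
  rw [Matrix.vecMul, dotProduct, Finset.mul_sum]
  refine Finset.sum_congr rfl fun l _ => ?_
  have e : (Z * P) (Sum.inr 0) (Sum.inl l) = ∑ k, Z (Sum.inr 0) k * P k (Sum.inl l) :=
    Matrix.mul_apply
  rw [e, Finset.sum_mul, Finset.mul_sum]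

lemma kq_bound : ∃ K : ℝ, 0 < K ∧ ∀ s : ℝ, 0 < s → ‖kq s‖ ≤ K * (1 + s ^ 2) := by
  refine ⟨4 + 4 * ‖γ‖ + 2 * Real.pi, by positivity, fun s hs => ?_⟩
  have h1 : ‖kq s‖ ≤ s * (4 * |Real.log s| + 4 * ‖γ‖ + 2 * Real.pi) := by
    unfold kq
    rw [norm_mul, norm_mul, Complex.norm_I, one_mul, Complex.norm_real, Real.norm_eq_abs,
      abs_of_pos hs]
    refine mul_le_mul_of_nonneg_left ?_ hs.le
    refine (norm_add_le _ _).trans ?_
    refine add_le_add ((norm_add_le _ _).trans ?_) ?_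
    · refine add_le_add ?_ ?_
      · rw [norm_mul, Complex.norm_real, Real.norm_eq_abs]
        simp
      · rw [norm_mul]
        simp
    · rw [norm_mul, norm_mul, Complex.norm_I, mul_one, Complex.norm_real, Real.norm_eq_abs,
        abs_of_pos Real.pi_pos]
      simp
  have h2 : s * |Real.log s| ≤ 1 + s ^ 2 := by
    rcases le_or_gt s 1 with h | h
    · have h3 := Real.abs_log_mul_self_lt s hs h
      rw [abs_mul, abs_of_pos hs] at h3
      nlinarith [sq_nonneg s]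
    · have h3 : Real.log s ≤ s := (Real.log_le_sub_one_of_pos hs).trans (by linarith)
      rw [abs_of_nonneg (Real.log_nonneg h.le)]
      nlinarith
  have h3 : s ≤ 1 + s ^ 2 := by nlinarith [sq_nonneg (s - 1)]
  have h4 : 0 ≤ ‖γ‖ := norm_nonneg _
  have h5 := Real.pi_pos
  nlinarith

lemma kp_bound (d : ℂ) : ∃ K : ℝ, 0 < K ∧ ∀ s : ℝ, 0 < s → ∀ i j, ‖kp d s i j‖ ≤ K * (1 + s ^ 2) := by
  obtain ⟨K, hK, h⟩ := kq_bound
  refine ⟨1 + ‖d‖ + ‖d‖ * K, by positivity, fun s hs i j => ?_⟩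
  have h1 := h s hs
  have h2 : 0 ≤ ‖d‖ := norm_nonneg d
  have h3 : 0 ≤ s ^ 2 := sq_nonneg s
  have h4 : ‖d‖ * ‖kq s‖ ≤ ‖d‖ * (K * (1 + s ^ 2)) := mul_le_mul_of_nonneg_left h1 h2
  have h5 : 0 ≤ ‖d‖ * K * (1 + s ^ 2) := by positivity
  have h6 : 0 ≤ ‖d‖ * s ^ 2 := by positivity
  unfold kp
  fin_cases i <;> fin_cases j <;> simp <;> nlinarith

/-- bound of the integrand -/
lemma vec_bound (d : ℂ) (C : ℝ) (hC : 0 < C)
    (hL : ∀ (x : ℂ) (i j : Fin 4), ‖Lam x i j‖ ≤ C * Real.exp (C * ‖x‖)) :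
    ∃ K : ℝ, 0 < K ∧ ∀ (p : Fin 4 → ℂ) (b s : ℝ), 0 < s → 0 ≤ b → (∀ k, ‖p k‖ ≤ b) → ∀ j,
      ‖(p ᵥ* (Lam (-(I * s)) * kp d s)) j‖ ≤ K * b * (Real.exp (C * s) * (1 + s ^ 2)) := by
  obtain ⟨K, hK, h⟩ := kp_bound d
  refine ⟨16 * C * K, by positivity, fun p b s hs hb hp j => ?_⟩
  have hn : ‖(-(I * (s : ℂ)))‖ = s := by
    rw [norm_neg, norm_mul, Complex.norm_I, one_mul, Complex.norm_real, Real.norm_eq_abs,
      abs_of_pos hs]
  have h1 : ∀ k, ‖(Lam (-(I * s)) * kp d s) k j‖ ≤ 4 * (C * Real.exp (C * s) * (K * (1 + s ^ 2))) := by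
    intro k
    rw [Matrix.mul_apply]
    refine (norm_sum_le _ _).trans ?_
    have : ∀ l ∈ (Finset.univ : Finset (Fin 4)), ‖Lam (-(I * s)) k l * kp d s l j‖ ≤
        C * Real.exp (C * s) * (K * (1 + s ^ 2)) := by
      intro l _
      rw [norm_mul]
      have h2 := hL (-(I * s)) k l
      rw [hn] at h2
      exact mul_le_mul h2 (h s hs l j) (norm_nonneg _) (by positivity)
    refine (Finset.sum_le_card_nsmul _ _ _ this).trans ?_
    simp
  rw [Matrix.vecMul, dotProduct]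
  refine (norm_sum_le _ _).trans ?_
  have : ∀ k ∈ (Finset.univ : Finset (Fin 4)), ‖p k * (Lam (-(I * s)) * kp d s) k j‖ ≤
      b * (4 * (C * Real.exp (C * s) * (K * (1 + s ^ 2)))) := by
    intro k _
    rw [norm_mul]
    exact mul_le_mul (hp k) (h1 k) (norm_nonneg _) hb
  refine (Finset.sum_le_card_nsmul _ _ _ this).trans (le_of_eq ?_)
  simp
  ring

lemma int_bd (a : ℝ) (ha : 0 < a) : IntegrableOn (fun s : ℝ =>
    (1 + s ^ (-(1 / 2) : ℝ)) * ((1 + s ^ 2) * Real.exp (-a * s))) (Ioi 0) := by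
  have h : ∀ p : ℝ, -1 < p → IntegrableOn (fun s : ℝ => s ^ p * Real.exp (-a * s)) (Ioi 0) := by
    intro p hp
    have h1 := integrableOn_rpow_mul_exp_neg_mul_rpow (p := 1) (s := p) (b := a) hp one_pos ha
    refine h1.congr_fun (fun x _ => ?_) measurableSet_Ioi
    simp only [Real.rpow_one]
  have h0 := h 0 (by norm_num)
  have h2 := h 2 (by norm_num)
  have h3 := h (-(1 / 2)) (by norm_num)
  have h4 := h (3 / 2) (by norm_num)
  have h5 := ((h0.add h2).add h3).add h4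
  refine h5.congr_fun (fun s hs => ?_) measurableSet_Ioi
  have hs0 : (0 : ℝ) < s := hs
  have e1 : s ^ (0 : ℝ) = 1 := Real.rpow_zero s
  have e2 : s ^ (2 : ℝ) = s ^ 2 := Real.rpow_two s
  have e3 : s ^ (3 / 2 : ℝ) = s ^ (-(1 / 2) : ℝ) * s ^ 2 := by
    rw [← e2, ← Real.rpow_add hs0]
    norm_num
  simp only [Pi.add_apply]
  rw [e1, e2, e3]
  ring

end SYY_

open SYY_ in
theorem syy_proof (hCAU : Stmt_CAU) (hJMP : Stmt_JMP) (hGRO : Stmt_GRO) (hBCT : Stmt_BCT)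
    (hLDB : Stmt_LDB) : Stmt_SYY := by
  intro d
  obtain ⟨-, -, ⟨C, hC, hLb⟩, -⟩ := hLDB
  refine ⟨C + 1, by positivity, ?_⟩
  intro U hU L ε Yinf Yp Ym Y₀ Z₀ hε hL hS s' hs' j
  have hJ := hJMP d L _ 0 ε Yinf Yp Ym hL hS.1
  obtain ⟨CG, hG⟩ := hGRO d L _ 0 ε Yinf Yp Ym hε hL hS.1
  obtain ⟨⟨Bb, hBb⟩, -, -⟩ := hBCT d L U ε Yinf Yp Ym Y₀ Z₀ hε hL hS
  obtain ⟨K, hK, hKb⟩ := vec_bound d C hC fun x i j => (hLb x i j).1
  obtain ⟨hR, hYZ, hZY, hTp, hTm⟩ := hS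
  have hDp := hR.2.1
  have hDm := hR.2.2.1
  have hpi := Real.pi_pos
  set A : ℂ → ℂ := fun v => (Z₀ * Ym (exp (wv v))) (Sum.inr 0) (Sum.inr j) with hA
  set B : ℂ → ℂ := fun v => (Z₀ * Yp (exp (wv v))) (Sum.inr 0) (Sum.inr j) with hB
  set g : ℂ := (Z₀ * Y₀) (Sum.inr 0) (Sum.inr j) with hg
  set F : ℝ → ℂ := fun s => s * exp (-(U * s)) *
      (Pv Yp Z₀ s ᵥ* (Lam (-(I * s)) * kp d s)) j with hF
  set J : ℝ → ℂ := fun s => 2 * Real.pi * I * F s with hJdef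
  have hAd : DifferentiableOn ℂ A {v | -ε < v.im ∧ v.im < Real.pi + ε} := by
    have h1 := entry_diff Z₀ Ym (sector (0 - Real.pi) ε) hDm (Sum.inr 0) (Sum.inr j)
    refine h1.comp (wv_diff.differentiableOn) ?_
    intro v hv
    refine mem_sec _ _ _ ?_
    rw [wv_im, abs_lt]
    constructor <;> linarith [hv.1, hv.2]
  have hBd : DifferentiableOn ℂ B {v | -Real.pi - ε < v.im ∧ v.im < ε} := by
    have h1 := entry_diff Z₀ Yp (sector 0 ε) hDp (Sum.inr 0) (Sum.inr j)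
    refine h1.comp (wv_diff.differentiableOn) ?_
    intro v hv
    refine mem_sec _ _ _ ?_
    rw [wv_im, abs_lt]
    constructor <;> linarith [hv.1, hv.2]
  have hAB : ∀ v : ℂ, |v.im| < ε → A v = B v := by
    intro v hv
    have h1 := (hJ.1 (wv v) (by
      rw [wv_im]
      have : -v.im - Real.pi / 2 - (0 - Real.pi / 2) = -v.im := by ring
      rw [this, abs_neg]
      exact hv)).1
    simp only [hA, hB]
    rw [Matrix.mul_apply, Matrix.mul_apply]
    refine Finset.sum_congr rfl fun k _ => ?_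
    have h2 := congrFun (congrFun h1 k) j
    have h3 : Ym (exp (wv v)) k (Sum.inr j) = Yp (exp (wv v)) k (Sum.inr j) := h2
    rw [h3]
  have hlim0 : ∀ η > 0, ∃ T : ℝ, ∀ v : ℂ, T ≤ v.re →
      (0 ≤ v.im → v.im ≤ Real.pi → ‖A v - g‖ ≤ η) ∧
      (-Real.pi ≤ v.im → v.im ≤ 0 → ‖B v - g‖ ≤ η) := by
    intro η hη
    obtain ⟨T1, h1⟩ := lim0 Z₀ Ym Y₀ (0 - Real.pi) ε hTm (Sum.inr 0) (Sum.inr j) η hη
    obtain ⟨T2, h2⟩ := lim0 Z₀ Yp Y₀ 0 ε hTp (Sum.inr 0) (Sum.inr j) η hη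
    refine ⟨max T1 T2, fun v hv => ⟨fun ha hb => ?_, fun ha hb => ?_⟩⟩
    · refine h1 v ((le_max_left _ _).trans hv) ?_
      rw [wv_im, abs_lt]
      constructor <;> linarith
    · refine h2 v ((le_max_right _ _).trans hv) ?_
      rw [wv_im, abs_lt]
      constructor <;> linarith
  have hlim1 : ∀ η > 0, ∃ T : ℝ, ∀ v : ℂ, v.re ≤ T →
      (0 ≤ v.im → v.im ≤ Real.pi → ‖A v‖ * Real.exp v.re ≤ η) ∧
      (-Real.pi ≤ v.im → v.im ≤ 0 → ‖B v‖ * Real.exp v.re ≤ η) := by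
    intro η hη
    obtain ⟨T1, h1⟩ := lim1 Z₀ Ym (0 - Real.pi) CG (fun w hw hs => (hG w hw).2 hs)
      (Sum.inr 0) (Sum.inr j) η hη
    obtain ⟨T2, h2⟩ := lim1 Z₀ Yp 0 CG (fun w hw hs => (hG w hw).1 hs)
      (Sum.inr 0) (Sum.inr j) η hη
    refine ⟨min T1 T2, fun v hv => ⟨fun ha hb => ?_, fun ha hb => ?_⟩⟩
    · refine h1 v (hv.trans (min_le_left _ _)) ?_
      rw [wv_im, abs_le]
      constructor <;> linarith
    · refine h2 v (hv.trans (min_le_right _ _)) ?_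
      rw [wv_im, abs_le]
      constructor <;> linarith
  have hJe : ∀ s : ℝ, 0 < s → J s = B (Real.log s - Real.pi * I) - A (Real.log s + Real.pi * I) := by
    intro s hs
    set w : ℂ := -(Real.log s : ℂ) + (Real.pi / 2 : ℝ) * I with hw
    have hwB : exp (wv (Real.log s - Real.pi * I)) = exp w := by
      congr 1
      rw [hw]
      unfold wv
      push_cast
      ring
    have hwA : exp (wv (Real.log s + Real.pi * I)) = exp w := by
      have : wv (Real.log s + Real.pi * I) = w - 2 * Real.pi * I := by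
        rw [hw]
        unfold wv
        push_cast
        ring
      rw [this, Complex.exp_sub, Complex.exp_two_pi_mul_I, div_one]
    have hwim : |w.im - (0 + Real.pi / 2)| < ε := by
      have : w.im = Real.pi / 2 := by
        rw [hw]
        simp only [add_im, neg_im, mul_im, ofReal_re, ofReal_im, I_re, I_im]
        ring
      rw [this]
      simpa using hε
    have h1 := (hJ.2 w hwim).2
    rw [hw, exp_neg_pos_half s hs, Aplus_eq d s hs, eZi_eq U s hs, ← hw] at h1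
    have h2 := jump Z₀ _ _ _ _ _ _ j h1
    simp only [hA, hB]
    rw [hwB, hwA, h2]
    have h3 : (fun k => (Z₀ * Yp (exp w)) (Sum.inr 0) (Sum.inl k)) = Pv Yp Z₀ s := by
      funext k
      unfold Pv
      rw [hw, exp_pos_half s hs]
    rw [h3]
    simp only [hJdef, hF]
    ring
  have hJint : IntegrableOn (fun s : ℝ => J s / ((s : ℂ) + s')) (Ioi 0) := by
    have hcont : ContinuousOn J (Ioi 0) := by
      have hc : ContinuousOn (fun s : ℝ => B (Real.log s - Real.pi * I) - A (Real.log s + Real.pi * I))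
          (Ioi 0) := by
        have hlog : ContinuousOn (fun s : ℝ => ((Real.log s : ℝ) : ℂ)) (Ioi 0) :=
          Complex.continuous_ofReal.comp_continuousOn
            (Real.continuousOn_log.mono fun x hx => (ne_of_gt (by simpa using hx)))
        refine ContinuousOn.sub ?_ ?_
        · refine hBd.continuousOn.comp (hlog.sub continuousOn_const) ?_
          intro s _
          simp only [Set.mem_ofPred_eq, sub_im, mul_im, ofReal_re, ofReal_im, I_re, I_im]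
          constructor <;> linarith
        · refine hAd.continuousOn.comp (hlog.add continuousOn_const) ?_
          intro s _
          simp only [Set.mem_ofPred_eq, add_im, mul_im, ofReal_re, ofReal_im, I_re, I_im]
          constructor <;> linarith
      exact hc.congr fun s hs => hJe s hs
    have hcont2 : ContinuousOn (fun s : ℝ => J s / ((s : ℂ) + s')) (Ioi 0) := by
      refine hcont.div (Continuous.continuousOn (by fun_prop)) ?_
      intro s hs h0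
      have h1 : ((s + s' : ℝ) : ℂ) = 0 := by push_cast; exact h0
      have h2 : s + s' = 0 := by exact_mod_cast h1
      have h3 : (0 : ℝ) < s := hs
      linarith
    have hb := (int_bd (U - C) (by linarith)).const_mul (2 * Real.pi * (K * |Bb|))
    refine Integrable.mono' hb (hcont2.aestronglyMeasurable measurableSet_Ioi) ?_
    refine (ae_restrict_mem measurableSet_Ioi).mono fun s hs => ?_
    have hs0 : (0 : ℝ) < s := hs
    have hrp : 0 ≤ s ^ (-(1 / 2) : ℝ) := Real.rpow_nonneg hs0.le _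
    have hPb : ∀ k, ‖Pv Yp Z₀ s k‖ ≤ |Bb| * (1 + s ^ (-(1 / 2) : ℝ)) := fun k =>
      ((hBb s hs0).2 k).trans (mul_le_mul_of_nonneg_right (le_abs_self _) (by linarith))
    have h1 := hKb (Pv Yp Z₀ s) (|Bb| * (1 + s ^ (-(1 / 2) : ℝ))) s hs0 (by positivity) hPb j
    have hne : ‖((s : ℂ) + s')‖ = s + s' := by
      have : ((s : ℂ) + s') = ((s + s' : ℝ) : ℂ) := by push_cast; ring
      rw [this, Complex.norm_real, Real.norm_eq_abs, abs_of_pos (by linarith)]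
    have hex : ‖exp (-((U : ℂ) * s))‖ = Real.exp (-(U * s)) := by
      rw [Complex.norm_exp]
      congr 1
      simp
    simp only [hJdef, hF]
    rw [norm_div, hne, div_le_iff₀ (by linarith)]
    rw [norm_mul, norm_mul, norm_mul, norm_mul, norm_mul, Complex.norm_I, hex, Complex.norm_real,
      Complex.norm_real, Real.norm_eq_abs, Real.norm_eq_abs, abs_of_pos hs0, abs_of_pos hpi]
    have h2 : ‖(2 : ℂ)‖ = 2 := by simp
    rw [h2, mul_one]
    set V := ‖(Pv Yp Z₀ s ᵥ* (Lam (-(I * s)) * kp d s)) j‖ with hV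
    have hx : Real.exp (-(U * s)) * Real.exp (C * s) = Real.exp (-(U - C) * s) := by
      rw [← Real.exp_add]
      congr 1
      ring
    calc 2 * Real.pi * (s * Real.exp (-(U * s)) * V)
        ≤ 2 * Real.pi * (s * Real.exp (-(U * s)) *
          (K * (|Bb| * (1 + s ^ (-(1 / 2) : ℝ))) * (Real.exp (C * s) * (1 + s ^ 2)))) := by
          refine mul_le_mul_of_nonneg_left ?_ (by positivity)
          exact mul_le_mul_of_nonneg_left h1 (by positivity)
      _ = 2 * Real.pi * (K * |Bb|) * ((1 + s ^ (-(1 / 2) : ℝ)) * ((1 + s ^ 2) *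
          (Real.exp (-(U * s)) * Real.exp (C * s)))) * s := by ring
      _ = 2 * Real.pi * (K * |Bb|) * ((1 + s ^ (-(1 / 2) : ℝ)) * ((1 + s ^ 2) *
          Real.exp (-(U - C) * s))) * s := by rw [hx]
      _ ≤ 2 * Real.pi * (K * |Bb|) * ((1 + s ^ (-(1 / 2) : ℝ)) * ((1 + s ^ 2) *
          Real.exp (-(U - C) * s))) * (s + s') := by
          refine mul_le_mul_of_nonneg_left (by linarith) ?_
          positivity
  have hfin := hCAU ε A B g J hε hAd hBd hAB hlim0 hlim1 hJe s' hs' hJint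
  have hAl : A (Real.log s') = yv Yp Z₀ s' j := by
    rw [hAB _ (by simpa using hε)]
    simp only [hB]
    unfold yv wv
    rw [exp_neg_half s' hs']
  have hgv : g = if j = 0 then 1 else 0 := by
    rw [hg, hZY, Matrix.one_apply]
    by_cases hj : j = 0
    · rw [if_pos (by rw [hj]), if_pos hj]
    · rw [if_neg (fun h => hj (Sum.inr.inj h).symm), if_neg hj]
  rw [hAl] at hfin
  have hI : ∫ s in Ioi (0 : ℝ), J s / ((s : ℂ) + s') =
      2 * Real.pi * I * ∫ s in Ioi (0 : ℝ), F s / ((s : ℂ) + s') := by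
    rw [← integral_const_mul]
    refine setIntegral_congr_fun measurableSet_Ioi fun s _ => ?_
    simp only [hJdef]
    ring
  rw [hI] at hfin
  have hne : (2 * Real.pi * I : ℂ) ≠ 0 := Complex.two_pi_I_ne_zero
  have h5 := mul_left_cancel₀ hne hfin
  rw [← hgv]
  have h6 : yv Yp Z₀ s' j = g + ∫ s in Ioi (0 : ℝ), F s / ((s : ℂ) + s') := by
    rw [h5]
    ring
  exact h6

end Pool.Agent.RHB
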