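import Pool.Agent.RHB.Stmts

set_option autoImplicit false

open Matrix Complex Filter Topology MeasureTheory Set

namespace Pool.Agent.RHB

namespace TOP_

lemma lfun_zero (z : ℂ) : Lfun 0 z = Lam z⁻¹ := by
  have h : nexp (-((0 : ℂ) / z) • hX) = 1 := by
    simp [nexp]
  unfold Lfun
  rw [h, mul_one]
  unfold Lam
  ext i j
  simp only [Matrix.of_apply]
  congr 1
  funext k
  simp

/-- the points `w_n = - log (n + 1) - i pi / 2` -/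
noncomputable def wn (n : ℕ) : ℂ := ((-Real.log ((n : ℝ) + 1) : ℝ) : ℂ) + ((-(Real.pi / 2) : ℝ) : ℂ) * I

lemma wn_im (n : ℕ) : (wn n).im = -(Real.pi / 2) := by
  unfold wn
  simp [Complex.add_im, Complex.mul_im]

lemma exp_wn (n : ℕ) : exp (wn n) = -(I / (((n : ℝ) + 1 : ℝ) : ℂ)) := by
  have h0 : (0 : ℝ) < (n : ℝ) + 1 := by positivity
  unfold wn
  rw [Complex.exp_add, ← Complex.ofReal_exp, Real.exp_neg, Real.exp_log h0]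
  have : exp (((-(Real.pi / 2) : ℝ) : ℂ) * I) = -I := by
    rw [Complex.exp_mul_I, ← Complex.ofReal_cos, ← Complex.ofReal_sin]
    simp
  rw [this]
  push_cast
  ring

lemma exp_neg_wn (n : ℕ) : exp (-(wn n)) = I * (((n : ℝ) + 1 : ℝ) : ℂ) := by
  rw [Complex.exp_neg, exp_wn]
  have h0 : (0 : ℝ) < (n : ℝ) + 1 := by positivity
  have h1 : ((((n : ℝ) + 1 : ℝ)) : ℂ) ≠ 0 := by exact_mod_cast h0.ne'
  rw [inv_eq_iff_eq_inv, mul_inv, Complex.inv_I]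
  field_simp

lemma wn_mem {ε : ℝ} (hε : 0 < ε) (n : ℕ) : |(wn n).im - 0| < Real.pi / 2 + ε := by
  rw [wn_im, sub_zero, abs_neg, abs_of_pos (by positivity)]
  linarith

lemma tendsto_z : Tendsto (fun n : ℕ => exp (wn n)) atTop (𝓝 0) := by
  rw [tendsto_zero_iff_norm_tendsto_zero]
  have : (fun n : ℕ => ‖exp (wn n)‖) = fun n : ℕ => 1 / ((n : ℝ) + 1) := by
    funext n
    have h0 : (0 : ℝ) < (n : ℝ) + 1 := by positivity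
    rw [exp_wn, norm_neg, norm_div, Complex.norm_I, Complex.norm_real, Real.norm_eq_abs,
      abs_of_pos h0]
  rw [this]
  exact tendsto_one_div_add_atTop_nhds_zero_nat

lemma tendsto_z' {ε : ℝ} (hε : 0 < ε) :
    Tendsto (fun n : ℕ => exp (wn n)) atTop (𝓝[sector 0 ε] 0) :=
  tendsto_nhdsWithin_iff.2 ⟨tendsto_z, Eventually.of_forall fun n => ⟨wn n, rfl, wn_mem hε n⟩⟩

end TOP_

open TOP_

theorem top_proof (hLEX : Stmt_LEX) (hLUN : Stmt_LUN) (hSYY : Stmt_SYY) (hSYM : Stmt_SYM)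
    (hBCT : Stmt_BCT) (hEAS : Stmt_EAS) (hLIM : Stmt_LIM) (hTWO : Stmt_TWO) (hALG : Stmt_ALG)
    (hMNO : Stmt_MNO) (hADM : Stmt_ADM) : Stmt_TOP := by
  intro d _
  refine ⟨⟨Lfun, hLEX⟩, ?_⟩
  intro L hL R
  have hIsL : IsL L := fun z hz => by
    rw [hLUN L Lfun hL hLEX 0 z hz, lfun_zero]
  obtain ⟨U1, hU1, h1⟩ := hSYY (d : ℂ)
  obtain ⟨U2, hU2, h2⟩ := hSYM (d : ℂ)
  obtain ⟨U3, hU3, h3⟩ := hEAS (d : ℂ)
  obtain ⟨U4, hU4, h4⟩ := hLIM (d : ℂ)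
  obtain ⟨U, hU⟩ : ∃ U : ℝ, U1 ≤ U ∧ U2 ≤ U ∧ U3 ≤ U ∧ U4 ≤ U ∧ 4 < U ∧ R + 4 ≤ U := by
    refine ⟨U1 + U2 + U3 + U4 + |R| + 5, ?_, ?_, ?_, ?_, ?_, ?_⟩ <;>
      nlinarith [abs_nonneg R, le_abs_self R]
  obtain ⟨hUa, hUb, hUc, hUd, hUe, hUf⟩ := hU
  by_cases hsol : ∃ ε : ℝ, 0 < ε ∧ ∃ Yinf Yp Ym, RHSol (d : ℂ) L ![-(U * I), 0] 0 ε Yinf Yp Ym
  · obtain ⟨ε₁, hε₁, Yinf, Yp, Ym, hS⟩ := hsol
    obtain ⟨Y₀, Z₀, hYZ, hZY, hYp, hYm⟩ := hS.2.2.2.1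
    have hSol0 : Sol0 (d : ℂ) L U ε₁ Yinf Yp Ym Y₀ Z₀ := ⟨hS, hYZ, hZY, hYp, hYm⟩
    obtain ⟨hb1, hb2, hb3⟩ := hBCT (d : ℂ) L U ε₁ Yinf Yp Ym Y₀ Z₀ hε₁ hIsL hSol0
    have hE : ESys (d : ℂ) U (yv Yp Z₀) (Pv Yp Z₀) :=
      ⟨hb1, hb2, hb3, h1 U hUa L ε₁ Yinf Yp Ym Y₀ Z₀ hε₁ hIsL hSol0,
        h2 U hUb L ε₁ Yinf Yp Ym Y₀ Z₀ hε₁ hIsL hSol0⟩
    have hc := h3 U hUc _ _ hE
    have hl := h4 U hUd _ _ hE
    obtain ⟨c, hcc⟩ : ∃ c, c = cc U (Pv Yp Z₀) := ⟨_, rfl⟩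
    rw [← hcc] at hc hl
    refine ⟨![-(U * I), -(1 / c)], 0, hADM U R _ hUe hUf, ?_⟩
    rintro ε₂ hε₂ _ ⟨Yinf', Yp', Ym', hS'⟩
    have hε : 0 < min ε₁ ε₂ := lt_min hε₁ hε₂
    obtain ⟨A, hA⟩ := hTWO (d : ℂ) L (-(U * I)) (-(1 / c)) 0 (min ε₁ ε₂) Yinf Yinf' Yp Ym Yp' Ym'
      hε hIsL (hMNO _ _ _ _ _ _ _ _ _ hε (min_le_left _ _) hS)
      (hMNO _ _ _ _ _ _ _ _ _ hε (min_le_right _ _) hS')
    obtain ⟨Y₀', Z₀', hYZ', hZY', hYp', hYm'⟩ := hS'.2.2.2.1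
    refine hALG A (-(1 / c)) c (fun n : ℕ => I * (((n : ℝ) + 1 : ℝ) : ℂ))
      (fun n => Yp (exp (wn n))) (fun n => Yp' (exp (wn n))) Y₀ Y₀' Z₀ hYZ hZY ?_
      (hYp.comp (tendsto_z' hε₁)) (hYp'.comp (tendsto_z' hε₂)) ?_ ?_ ?_ ?_
    · have : (fun n : ℕ => ‖I * (((n : ℝ) + 1 : ℝ) : ℂ)‖) = fun n : ℕ => (n : ℝ) + 1 := by
        funext n
        have h0 : (0 : ℝ) < (n : ℝ) + 1 := by positivity
        rw [norm_mul, Complex.norm_I, Complex.norm_real, Real.norm_eq_abs, abs_of_pos h0, one_mul]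
      rw [this]
      exact tendsto_atTop_add_const_right _ _ tendsto_natCast_atTop_atTop
    · intro n
      have := hA (wn n) (wn_mem hε n)
      rw [exp_neg_wn] at this
      exact this
    · have h5 : Tendsto (fun n : ℕ => ((n : ℝ) + 1)) atTop atTop :=
        tendsto_atTop_add_const_right _ _ tendsto_natCast_atTop_atTop
      have h6 := hl.comp h5
      refine h6.congr fun n => ?_
      simp only [Function.comp, yv]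
      rw [exp_wn]
    · exact neg_ne_zero.2 (one_div_ne_zero hc)
    · field_simp
      simp
  · refine ⟨![-(U * I), 0], 0, hADM U R _ hUe hUf, ?_⟩
    rintro ε hε _ ⟨Yinf, Yp, Ym, hS⟩
    exact hsol ⟨ε, hε, Yinf, Yp, Ym, hS⟩

end Pool.Agent.RHB
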