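import Pool.Agent.RHB.Stmts

set_option autoImplicit false

open Matrix Complex Filter Topology MeasureTheory Set

namespace Pool.Agent.RHB

namespace TRB_

/-- the entry `(i, j)` vanishes unless `deg i ≥ deg' j + k` -/
def Lo {ι κ : Type} (a : ι → ℕ) (b : κ → ℕ) (k : ℕ) (M : Matrix ι κ ℂ) : Prop :=
  ∀ i j, a i < b j + k → M i j = 0

theorem Lo.mul {ι κ l : Type} [Fintype κ] {a : ι → ℕ} {b : κ → ℕ} {c : l → ℕ} {p q : ℕ}
    {M : Matrix ι κ ℂ} {N : Matrix κ l ℂ} (hM : Lo a b p M) (hN : Lo b c q N) :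
    Lo a c (p + q) (M * N) := by
  intro i j hij
  rw [Matrix.mul_apply]
  apply Finset.sum_eq_zero
  intro x _
  by_cases hx : a i < b x + p
  · rw [hM i x hx, zero_mul]
  · rw [hN x j (by omega), mul_zero]

theorem Lo.mono {ι κ : Type} {a : ι → ℕ} {b : κ → ℕ} {k k' : ℕ} {M : Matrix ι κ ℂ}
    (h : Lo a b k M) (hk : k' ≤ k) : Lo a b k' M := fun i j hij => h i j (by omega)

theorem Lo.add {ι κ : Type} {a : ι → ℕ} {b : κ → ℕ} {k : ℕ} {M N : Matrix ι κ ℂ}
    (h : Lo a b k M) (h' : Lo a b k N) : Lo a b k (M + N) := fun i j hij => by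
  rw [Matrix.add_apply, h i j hij, h' i j hij, add_zero]

theorem Lo.sub {ι κ : Type} {a : ι → ℕ} {b : κ → ℕ} {k : ℕ} {M N : Matrix ι κ ℂ}
    (h : Lo a b k M) (h' : Lo a b k N) : Lo a b k (M - N) := fun i j hij => by
  rw [Matrix.sub_apply, h i j hij, h' i j hij, sub_zero]

theorem Lo.neg {ι κ : Type} {a : ι → ℕ} {b : κ → ℕ} {k : ℕ} {M : Matrix ι κ ℂ}
    (h : Lo a b k M) : Lo a b k (-M) := fun i j hij => by
  rw [Matrix.neg_apply, h i j hij, neg_zero]

theorem Lo.smul {ι κ R : Type} [SMulZeroClass R ℂ] {a : ι → ℕ} {b : κ → ℕ} {k : ℕ}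
    {M : Matrix ι κ ℂ} (r : R) (h : Lo a b k M) : Lo a b k (r • M) := fun i j hij => by
  rw [Matrix.smul_apply, h i j hij, smul_zero]

theorem Lo.zero {ι κ : Type} {a : ι → ℕ} {b : κ → ℕ} {k : ℕ} : Lo a b k (0 : Matrix ι κ ℂ) :=
  fun _ _ _ => rfl

theorem Lo.one {ι : Type} [DecidableEq ι] {a : ι → ℕ} : Lo a a 0 (1 : Matrix ι ι ℂ) := by
  intro i j hij
  have : i ≠ j := by
    rintro rfl
    omega
  exact Matrix.one_apply_ne this

theorem Lo.diag {ι : Type} [DecidableEq ι] {a : ι → ℕ} (f : ι → ℂ) : Lo a a 0 (diagonal f) := by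
  intro i j hij
  have : i ≠ j := by
    rintro rfl
    omega
  exact Matrix.diagonal_apply_ne _ this

theorem Lo.pow {ι : Type} [DecidableEq ι] [Fintype ι] {a : ι → ℕ} {k : ℕ} {M : Matrix ι ι ℂ}
    (h : Lo a a k M) (n : ℕ) : Lo a a (n * k) (M ^ n) := by
  induction n with
  | zero => simpa using Lo.one
  | succ n ih =>
    rw [pow_succ, Nat.succ_mul]
    exact ih.mul h

theorem Lo.pow1 {ι : Type} [DecidableEq ι] [Fintype ι] {a : ι → ℕ} {M : Matrix ι ι ℂ}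
    (h : Lo a a 1 M) (n : ℕ) (hn : n ≠ 0) : Lo a a 1 (M ^ n) :=
  (h.pow n).mono (by omega)

theorem Lo.mul1 {ι : Type} [Fintype ι] {a : ι → ℕ} {M N : Matrix ι ι ℂ}
    (h : Lo a a 1 M) (h' : Lo a a 1 N) : Lo a a 1 (M * N) :=
  (h.mul h').mono (by omega)

theorem Lo.eq_zero {ι κ : Type} {a : ι → ℕ} {b : κ → ℕ} {k : ℕ} {M : Matrix ι κ ℂ}
    (h : Lo a b k M) (hb : ∀ i, a i < k) : M = 0 := by
  ext i j
  exact h i j (by have := hb i; omega)

theorem Lo.nexp {n : ℕ} {a : Fin n → ℕ} {M : Matrix (Fin n) (Fin n) ℂ} (h : Lo a a 1 M) :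
    Lo a a 0 (nexp M) := by
  unfold RHB.nexp
  exact ((Lo.one.add (h.mono (by omega))).add (((h.pow1 2 (by norm_num)).mono (by omega)).smul _)).add
    (((h.pow1 3 (by norm_num)).mono (by omega)).smul _)

/-- argument of the exponential in the Gamma class -/
theorem gam_eq {n : ℕ} (a : Fin n → ℕ) (c₁ c₂ c₃ : Matrix (Fin n) (Fin n) ℂ) (h1 : Lo a a 1 c₁)
    (h2 : Lo a a 1 c₂) (h3 : Lo a a 1 c₃) :
    ∃ G : Matrix (Fin n) (Fin n) ℂ, gam c₁ c₂ c₃ = nexp G ∧ Lo a a 1 G := by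
  refine ⟨_, rfl, ?_⟩
  exact ((h1.smul _).add (((h1.pow1 2 (by norm_num)).sub (h2.smul _)).smul _)).sub
    ((((h1.pow1 3 (by norm_num)).sub ((h1.mul1 h2).smul _)).add (h3.smul _)).smul _)

theorem nexp_neg_mul {n : ℕ} (A : Matrix (Fin n) (Fin n) ℂ) (hA : A ^ 4 = 0) :
    nexp (-A) * nexp A = 1 := by
  have hu : (6 : Polynomial ℂ) * Polynomial.C (1 / 6) = 1 := by
    rw [show (6 : Polynomial ℂ) = Polynomial.C 6 from rfl, ← Polynomial.C_mul]
    norm_num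
  have h2 : Polynomial.C (1 / 2 : ℂ) = 3 * Polynomial.C (1 / 6) := by
    rw [show (3 : Polynomial ℂ) = Polynomial.C 3 from rfl, ← Polynomial.C_mul]
    norm_num
  have h1 : (1 + -Polynomial.X + Polynomial.C (1 / 2 : ℂ) * (-Polynomial.X) ^ 2 +
      Polynomial.C (1 / 6 : ℂ) * (-Polynomial.X) ^ 3) *
      (1 + Polynomial.X + Polynomial.C (1 / 2 : ℂ) * Polynomial.X ^ 2 +
      Polynomial.C (1 / 6 : ℂ) * Polynomial.X ^ 3) =
      1 - (3 * Polynomial.C (1 / 6 : ℂ) ^ 2 + Polynomial.C (1 / 6 : ℂ) ^ 2 * Polynomial.X ^ 2) *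
        Polynomial.X ^ 4 := by
    rw [h2]
    linear_combination (Polynomial.X ^ 2 + 2 * Polynomial.C (1 / 6 : ℂ) * Polynomial.X ^ 4) * hu
  have h3 := congrArg (Polynomial.aeval A) h1
  simp only [map_mul, map_add, map_sub, map_one, map_neg, map_pow, Polynomial.aeval_X,
    Polynomial.aeval_C, hA, mul_zero, sub_zero] at h3
  refine Eq.trans ?_ h3
  unfold nexp
  simp only [Algebra.smul_def]

/-- left inverse of `psi` -/
noncomputable def PInv (N : ℕ) {n : ℕ} (deg : Fin n → ℕ) (c g' : Matrix (Fin n) (Fin n) ℂ) (w : ℂ) :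
    Matrix (Fin n) (Fin n) ℂ :=
  (((2 * Real.pi : ℝ) : ℂ) ^ (-(N : ℂ) / 2))⁻¹ •
    (diagonal (fun i => ((2 * Real.pi * I) ^ deg i)⁻¹) * g' * nexp (-(w • c))
      * diagonal (fun i => exp (w * ((deg i : ℂ) - (N : ℂ) / 2))))

theorem two_pi_cpow_ne (N : ℕ) : (((2 * Real.pi : ℝ) : ℂ) ^ (-(N : ℂ) / 2)) ≠ 0 := by
  have h2 : ((2 * Real.pi : ℝ) : ℂ) ≠ 0 := by
    exact_mod_cast (by positivity : (2 * Real.pi : ℝ) ≠ 0)
  rw [Complex.cpow_def_of_ne_zero h2]
  exact Complex.exp_ne_zero _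

theorem PInv_mul (N : ℕ) {n : ℕ} (deg : Fin n → ℕ) (hd : ∀ i, deg i < 4)
    (c G : Matrix (Fin n) (Fin n) ℂ) (hc : Lo deg deg 1 c) (hG : Lo deg deg 1 G) (w : ℂ) :
    PInv N deg c (nexp (-G)) w * psi N deg c (nexp G) w = 1 := by
  have hc4 : (w • c) ^ 4 = 0 := ((hc.smul w).pow 4).eq_zero (fun i => by simpa using hd i)
  have hG4 : G ^ 4 = 0 := (hG.pow 4).eq_zero (fun i => by simpa using hd i)
  have e1 := nexp_neg_mul _ hc4
  have e2 := nexp_neg_mul _ hG4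
  unfold PInv psi
  rw [Matrix.smul_mul, Matrix.mul_smul, smul_smul, inv_mul_cancel₀ (two_pi_cpow_ne N), one_smul]
  have e3 : diagonal (fun i => exp (w * ((deg i : ℂ) - (N : ℂ) / 2))) *
      diagonal (fun i => exp (-(w * ((deg i : ℂ) - (N : ℂ) / 2)))) =
      (1 : Matrix (Fin n) (Fin n) ℂ) := by
    rw [diagonal_mul_diagonal, ← diagonal_one]
    congr 1
    funext i
    rw [← Complex.exp_add, add_neg_cancel, Complex.exp_zero]
  have e4 : diagonal (fun i => ((2 * Real.pi * I) ^ deg i)⁻¹) *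
      diagonal (fun i => (2 * Real.pi * I) ^ deg i) = (1 : Matrix (Fin n) (Fin n) ℂ) := by
    rw [diagonal_mul_diagonal, ← diagonal_one]
    congr 1
    funext i
    exact inv_mul_cancel₀ (pow_ne_zero _ Complex.two_pi_I_ne_zero)
  calc _ = diagonal (fun i => ((2 * Real.pi * I) ^ deg i)⁻¹) * nexp (-G) * nexp (-(w • c)) *
        (diagonal (fun i => exp (w * ((deg i : ℂ) - (N : ℂ) / 2))) *
          diagonal (fun i => exp (-(w * ((deg i : ℂ) - (N : ℂ) / 2))))) *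
        nexp (w • c) * nexp G * diagonal (fun i => (2 * Real.pi * I) ^ deg i) := by
        simp only [Matrix.mul_assoc]
    _ = diagonal (fun i => ((2 * Real.pi * I) ^ deg i)⁻¹) * nexp (-G) *
        (nexp (-(w • c)) * nexp (w • c)) * nexp G * diagonal (fun i => (2 * Real.pi * I) ^ deg i) := by
        rw [e3, Matrix.mul_one]
        simp only [Matrix.mul_assoc]
    _ = diagonal (fun i => ((2 * Real.pi * I) ^ deg i)⁻¹) * (nexp (-G) * nexp G) *
        diagonal (fun i => (2 * Real.pi * I) ^ deg i) := by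
        rw [e1, Matrix.mul_one]
        simp only [Matrix.mul_assoc]
    _ = 1 := by rw [e2, Matrix.mul_one, e4]

/-- polynomial growth -/
def PG {ι κ : Type} (f : ℂ → Matrix ι κ ℂ) : Prop :=
  ∃ C : ℝ, ∃ k : ℕ, 0 ≤ C ∧ ∀ w i j, ‖f w i j‖ ≤ C * (1 + ‖w‖) ^ k

theorem one_le_one_add (w : ℂ) : (1 : ℝ) ≤ 1 + ‖w‖ := by
  have := norm_nonneg w
  linarith

theorem PG.const {ι κ : Type} [Fintype ι] [Fintype κ] (M : Matrix ι κ ℂ) :
    PG (fun _ => M) := by
  refine ⟨∑ i, ∑ j, ‖M i j‖, 0, by positivity, fun w i j => ?_⟩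
  rw [pow_zero, mul_one]
  calc ‖M i j‖ ≤ ∑ j, ‖M i j‖ :=
        Finset.single_le_sum (f := fun j => ‖M i j‖) (fun _ _ => norm_nonneg _) (Finset.mem_univ j)
    _ ≤ ∑ i, ∑ j, ‖M i j‖ :=
        Finset.single_le_sum (f := fun i => ∑ j, ‖M i j‖)
          (fun _ _ => Finset.sum_nonneg fun _ _ => norm_nonneg _) (Finset.mem_univ i)

theorem PG.add {ι κ : Type} {f g : ℂ → Matrix ι κ ℂ} (hf : PG f) (hg : PG g) :
    PG (fun w => f w + g w) := by
  obtain ⟨C, k, hC, h⟩ := hf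
  obtain ⟨C', k', hC', h'⟩ := hg
  refine ⟨C + C', max k k', by positivity, fun w i j => ?_⟩
  have h1 := one_le_one_add w
  calc ‖(f w + g w) i j‖ ≤ ‖f w i j‖ + ‖g w i j‖ := norm_add_le _ _
    _ ≤ C * (1 + ‖w‖) ^ k + C' * (1 + ‖w‖) ^ k' := add_le_add (h w i j) (h' w i j)
    _ ≤ C * (1 + ‖w‖) ^ (max k k') + C' * (1 + ‖w‖) ^ (max k k') := by
        gcongr
        · exact le_max_left _ _
        · exact le_max_right _ _
    _ = _ := by ring

theorem PG.smul {ι κ : Type} {f : ℂ → Matrix ι κ ℂ} (hf : PG f) (c : ℂ) :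
    PG (fun w => c • f w) := by
  obtain ⟨C, k, hC, h⟩ := hf
  refine ⟨‖c‖ * C, k, by positivity, fun w i j => ?_⟩
  show ‖(c • f w) i j‖ ≤ _
  rw [Matrix.smul_apply, norm_smul, mul_assoc]
  exact mul_le_mul_of_nonneg_left (h w i j) (norm_nonneg _)

theorem PG.idsmul {ι κ : Type} {f : ℂ → Matrix ι κ ℂ} (hf : PG f) :
    PG (fun w => w • f w) := by
  obtain ⟨C, k, hC, h⟩ := hf
  refine ⟨C, k + 1, hC, fun w i j => ?_⟩
  show ‖(w • f w) i j‖ ≤ _
  rw [Matrix.smul_apply, norm_smul]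
  calc ‖w‖ * ‖f w i j‖ ≤ (1 + ‖w‖) * (C * (1 + ‖w‖) ^ k) :=
        mul_le_mul (by linarith) (h w i j) (norm_nonneg _) (by positivity)
    _ = _ := by ring

theorem PG.neg {ι κ : Type} {f : ℂ → Matrix ι κ ℂ} (hf : PG f) : PG (fun w => -f w) := by
  obtain ⟨C, k, hC, h⟩ := hf
  refine ⟨C, k, hC, fun w i j => ?_⟩
  show ‖(-f w) i j‖ ≤ _
  rw [Matrix.neg_apply, norm_neg]
  exact h w i j

theorem PG.mul {ι κ l : Type} [Fintype κ] {f : ℂ → Matrix ι κ ℂ} {g : ℂ → Matrix κ l ℂ}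
    (hf : PG f) (hg : PG g) : PG (fun w => f w * g w) := by
  obtain ⟨C, k, hC, h⟩ := hf
  obtain ⟨C', k', hC', h'⟩ := hg
  refine ⟨Fintype.card κ * (C * C'), k + k', by positivity, fun w i j => ?_⟩
  show ‖(f w * g w) i j‖ ≤ _
  rw [Matrix.mul_apply]
  calc ‖∑ x, f w i x * g w x j‖ ≤ ∑ x, ‖f w i x * g w x j‖ := norm_sum_le _ _
    _ ≤ ∑ _x : κ, (C * C') * (1 + ‖w‖) ^ (k + k') := by
        refine Finset.sum_le_sum fun x _ => ?_
        rw [norm_mul]
        calc ‖f w i x‖ * ‖g w x j‖ ≤ (C * (1 + ‖w‖) ^ k) * (C' * (1 + ‖w‖) ^ k') :=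
              mul_le_mul (h w i x) (h' w x j) (norm_nonneg _) (by positivity)
          _ = _ := by ring
    _ = _ := by
        rw [Finset.sum_const, Finset.card_univ, nsmul_eq_mul]
        ring

theorem PG.nexp {n : ℕ} {f : ℂ → Matrix (Fin n) (Fin n) ℂ} (hf : PG f) :
    PG (fun w => nexp (f w)) := by
  have h2 : PG (fun w => f w ^ 2) := by
    have := hf.mul hf
    simpa only [← pow_two] using this
  have h3 : PG (fun w => f w ^ 3) := by
    have := h2.mul hf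
    simpa only [← pow_succ] using this
  unfold RHB.nexp
  exact (((PG.const 1).add hf).add (h2.smul _)).add (h3.smul _)

theorem poly_le_exp (k : ℕ) (h : ℝ) : ∃ C : ℝ, 0 ≤ C ∧ ∀ w : ℂ, 0 ≤ w.re → |w.im| ≤ h →
    (1 + ‖w‖) ^ k ≤ C * Real.exp (w.re / 2) := by
  refine ⟨(2 * (1 + |h|)) ^ k * (k.factorial : ℝ) * Real.exp (1 / 2), by positivity,
    fun w hw hi => ?_⟩
  have h1 : ‖w‖ ≤ w.re + |h| := by
    calc ‖w‖ ≤ |w.re| + |w.im| := Complex.norm_le_abs_re_add_abs_im w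
      _ ≤ w.re + |h| := by
          rw [abs_of_nonneg hw]
          have := hi.trans (le_abs_self h)
          linarith
  have h2 : 1 + ‖w‖ ≤ (2 * (1 + |h|)) * ((1 + w.re) / 2) := by
    have h0 := abs_nonneg h
    have : (2 * (1 + |h|)) * ((1 + w.re) / 2) = 1 + w.re + |h| + |h| * w.re := by ring
    rw [this]
    have := mul_nonneg h0 hw
    linarith
  have h3 := Real.pow_div_factorial_le_exp ((1 + w.re) / 2) (by linarith) k
  have h4 : ((1 + w.re) / 2) ^ k ≤ (k.factorial : ℝ) * Real.exp ((1 + w.re) / 2) := by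
    rw [div_le_iff₀ (by positivity)] at h3
    linarith
  calc (1 + ‖w‖) ^ k ≤ ((2 * (1 + |h|)) * ((1 + w.re) / 2)) ^ k := by
        gcongr
    _ = (2 * (1 + |h|)) ^ k * ((1 + w.re) / 2) ^ k := mul_pow _ _ _
    _ ≤ (2 * (1 + |h|)) ^ k * ((k.factorial : ℝ) * Real.exp ((1 + w.re) / 2)) := by
        gcongr
    _ = _ := by
        have : Real.exp ((1 + w.re) / 2) = Real.exp (1 / 2) * Real.exp (w.re / 2) := by
          rw [← Real.exp_add]
          congr 1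
          ring
        rw [this]
        ring

theorem entry_bound {n m : ℕ} (N M k : ℕ) (hNM : N = M + 2 * k) (deg : Fin n → ℕ)
    (deg' : Fin m → ℕ) (c g : Matrix (Fin n) (Fin n) ℂ) (c' g' : Matrix (Fin m) (Fin m) ℂ)
    (K : Matrix (Fin n) (Fin m) ℂ) (hc : Lo deg deg 1 c) (hg : Lo deg deg 0 g)
    (hc' : Lo deg' deg' 1 c') (hg' : Lo deg' deg' 0 g') (hK : Lo deg deg' k K) (h : ℝ) :
    ∃ C : ℝ, ∀ w : ℂ, 0 ≤ w.re → |w.im| ≤ h → ∀ i j,
      ‖(psi N deg c g w * K * PInv M deg' c' g' w) i j‖ ≤ C * Real.exp (w.re / 2) := by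
  set T : ℂ → Matrix (Fin n) (Fin m) ℂ := fun w => nexp (w • c) * g *
    diagonal (fun i => (2 * Real.pi * I) ^ deg i) * K *
    diagonal (fun i => ((2 * Real.pi * I) ^ deg' i)⁻¹) * g' * nexp (-(w • c')) with hT
  set s : ℂ := (((2 * Real.pi : ℝ) : ℂ) ^ (-(N : ℂ) / 2)) *
    (((2 * Real.pi : ℝ) : ℂ) ^ (-(M : ℂ) / 2))⁻¹ with hs
  have hform : ∀ w, psi N deg c g w * K * PInv M deg' c' g' w =
      s • (diagonal (fun i => exp (-(w * ((deg i : ℂ) - (N : ℂ) / 2)))) * T w *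
        diagonal (fun i => exp (w * ((deg' i : ℂ) - (M : ℂ) / 2)))) := by
    intro w
    unfold psi PInv
    rw [Matrix.smul_mul, Matrix.smul_mul, Matrix.mul_smul, smul_smul, hT, hs]
    simp only [Matrix.mul_assoc]
  have hLo : ∀ w, Lo deg deg' k (T w) := by
    intro w
    have e1 : Lo deg deg 0 (nexp (w • c)) := (hc.smul w).nexp
    have e2 : Lo deg' deg' 0 (nexp (-(w • c'))) := ((hc'.smul w).neg).nexp
    have := (((((e1.mul hg).mul (Lo.diag (fun i => (2 * Real.pi * I) ^ deg i))).mul hK).mul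
      (Lo.diag (fun i => ((2 * Real.pi * I) ^ deg' i)⁻¹))).mul hg').mul e2
    exact this.mono (by omega)
  have hPG : PG T := by
    have e1 : PG (fun w : ℂ => nexp (w • c)) := ((PG.const c).idsmul).nexp
    have e2 : PG (fun w : ℂ => nexp (-(w • c'))) := (((PG.const c').idsmul).neg).nexp
    exact (((((e1.mul (PG.const g)).mul (PG.const _)).mul (PG.const K)).mul (PG.const _)).mul
      (PG.const g')).mul e2
  obtain ⟨C, p, hC, hb⟩ := hPG
  obtain ⟨C', hC', hb'⟩ := poly_le_exp p h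
  refine ⟨‖s‖ * (C * C'), fun w hw hi i j => ?_⟩
  rw [hform w, Matrix.smul_apply, norm_smul, Matrix.mul_diagonal, Matrix.diagonal_mul]
  rw [mul_assoc ‖s‖]
  refine mul_le_mul_of_nonneg_left ?_ (norm_nonneg _)
  by_cases hij : deg i < deg' j + k
  · rw [hLo w i j hij]
    simp
    positivity
  · have hx : exp (-(w * ((deg i : ℂ) - (N : ℂ) / 2))) * T w i j *
        exp (w * ((deg' j : ℂ) - (M : ℂ) / 2)) =
        exp (-(w * ((deg i - (deg' j + k) : ℕ) : ℂ))) * T w i j := by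
      have : exp (-(w * ((deg i : ℂ) - (N : ℂ) / 2))) * exp (w * ((deg' j : ℂ) - (M : ℂ) / 2)) =
          exp (-(w * ((deg i - (deg' j + k) : ℕ) : ℂ))) := by
        rw [← Complex.exp_add]
        congr 1
        rw [Nat.cast_sub (by omega), hNM]
        push_cast
        ring
      rw [mul_right_comm, this]
    rw [hx, norm_mul]
    have h1 : ‖exp (-(w * ((deg i - (deg' j + k) : ℕ) : ℂ)))‖ ≤ 1 := by
      rw [Complex.norm_exp]
      apply Real.exp_le_one_iff.mpr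
      have : (-(w * ((deg i - (deg' j + k) : ℕ) : ℂ))).re =
          -(w.re * ((deg i - (deg' j + k) : ℕ) : ℝ)) := by
        simp [Complex.mul_re]
      rw [this]
      have : 0 ≤ w.re * ((deg i - (deg' j + k) : ℕ) : ℝ) := by positivity
      linarith
    calc ‖exp (-(w * ((deg i - (deg' j + k) : ℕ) : ℂ)))‖ * ‖T w i j‖
        ≤ 1 * (C * (1 + ‖w‖) ^ p) := mul_le_mul h1 (hb w i j) (norm_nonneg _) zero_le_one
      _ ≤ C * (C' * Real.exp (w.re / 2)) := by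
          rw [one_mul]
          exact mul_le_mul_of_nonneg_left (hb' w hw hi) hC
      _ = _ := by ring

theorem lo_hX : Lo degX degX 1 hX := by
  intro i j hij
  fin_cases i <;> fin_cases j <;> simp [degX, hX] at hij ⊢

theorem lo_hT (d : ℂ) : Lo degT degT 1 (hT d) := by
  intro i j hij
  fin_cases i <;> fin_cases j <;> simp [degT, hT] at hij ⊢

theorem lo_eT (d : ℂ) : Lo degT degT 1 (eT d) := by
  intro i j hij
  fin_cases i <;> fin_cases j <;> simp [degT, eT] at hij ⊢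

theorem lo_phi : Lo degT degX 0 phi := by
  intro i j hij
  fin_cases i <;> fin_cases j <;> simp [degT, degX, phi] at hij ⊢

theorem lo_jpi : Lo degT degZ 1 jpi := by
  intro i j hij
  fin_cases i <;> fin_cases j <;> simp [degT, degZ, jpi] at hij ⊢

theorem lo_c1T (d : ℂ) : Lo degT degT 1 (c1T d) := ((lo_hT d).smul _).sub (lo_eT d)

theorem lo_c2T (d : ℂ) : Lo degT degT 1 (c2T d) :=
  (((lo_hT d).pow1 2 (by norm_num)).smul _).sub (((lo_hT d).mul1 (lo_eT d)).smul _)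

theorem lo_c3T (d : ℂ) : Lo degT degT 1 (c3T d) := ((lo_hT d).pow1 3 (by norm_num)).smul _

end TRB_

open TRB_ in
theorem trb_proof : Stmt_TRB := by
  intro d
  obtain ⟨GX, hgX, lGX⟩ := gam_eq degX (4 • hX) (6 • hX ^ 2) (4 • hX ^ 3) (lo_hX.smul _)
    ((lo_hX.pow1 2 (by norm_num)).smul _) ((lo_hX.pow1 3 (by norm_num)).smul _)
  obtain ⟨GZ, hgZ, lGZ⟩ := gam_eq degZ 0 0 0 Lo.zero Lo.zero Lo.zero
  obtain ⟨GT, hgT, lGT⟩ := gam_eq degT (c1T d) (c2T d) (c3T d) (lo_c1T d) (lo_c2T d) (lo_c3T d)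
  have hX1 : ∀ w, PInv 3 degX (4 • hX) (nexp (-GX)) w * psiX w = 1 := by
    intro w
    unfold psiX
    rw [hgX]
    refine PInv_mul 3 degX ?_ _ _ (lo_hX.smul _) lGX w
    intro i
    fin_cases i <;> simp [degX]
  have hZ1 : ∀ w, PInv 1 degZ 0 (nexp (-GZ)) w * psiZ w = 1 := by
    intro w
    unfold psiZ
    rw [hgZ]
    refine PInv_mul 1 degZ ?_ _ _ Lo.zero lGZ w
    intro i
    fin_cases i <;> simp [degZ]
  refine ⟨fun w => psiT d w * ch d * fromBlocks (PInv 3 degX (4 • hX) (nexp (-GX)) w) 0 0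
    (PInv 1 degZ 0 (nexp (-GZ)) w), ?_, ?_⟩
  · intro w
    rw [Matrix.mul_assoc (psiT d w * ch d), fromBlocks_multiply, hX1 w, hZ1 w]
    simp
  · intro h
    have lJ : Lo degT degZ 1 ((1 - (1 / 2 : ℂ) • eT d + (1 / 6 : ℂ) • eT d ^ 2) * jpi) := by
      have e1 : Lo degT degT 0 (1 - (1 / 2 : ℂ) • eT d + (1 / 6 : ℂ) • eT d ^ 2) :=
        (Lo.one.sub (((lo_eT d).mono (by omega)).smul _)).add
          ((((lo_eT d).pow1 2 (by norm_num)).mono (by omega)).smul _)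
      exact (e1.mul lo_jpi).mono (by omega)
    obtain ⟨C1, h1⟩ := entry_bound 3 3 0 (by norm_num) degT degX (c1T d) (nexp GT) (4 • hX)
      (nexp (-GX)) phi (lo_c1T d) lGT.nexp (lo_hX.smul _) (lGX.neg).nexp lo_phi h
    obtain ⟨C2, h2⟩ := entry_bound 3 1 1 (by norm_num) degT degZ (c1T d) (nexp GT) 0
      (nexp (-GZ)) _ (lo_c1T d) lGT.nexp Lo.zero (lGZ.neg).nexp lJ h
    refine ⟨max C1 C2, fun w hw hi i j => ?_⟩
    have hE : 0 ≤ Real.exp (w.re / 2) := (Real.exp_pos _).le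
    have hpT : psiT d w = psi 3 degT (c1T d) (nexp GT) w := by
      unfold psiT
      rw [hgT]
    have hB : psiT d w * ch d * fromBlocks (PInv 3 degX (4 • hX) (nexp (-GX)) w) 0 0
        (PInv 1 degZ 0 (nexp (-GZ)) w) =
        fromCols (psiT d w * phi * PInv 3 degX (4 • hX) (nexp (-GX)) w)
          (psiT d w * ((1 - (1 / 2 : ℂ) • eT d + (1 / 6 : ℂ) • eT d ^ 2) * jpi) *
            PInv 1 degZ 0 (nexp (-GZ)) w) := by
      unfold ch
      rw [mul_fromCols, fromCols_mul_fromBlocks]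
      simp
    show ‖(psiT d w * ch d * fromBlocks (PInv 3 degX (4 • hX) (nexp (-GX)) w) 0 0
        (PInv 1 degZ 0 (nexp (-GZ)) w)) i j‖ ≤ _
    rw [hB]
    rcases j with j | j
    · rw [fromCols_apply_inl, hpT]
      exact (h1 w hw hi i j).trans (mul_le_mul_of_nonneg_right (le_max_left _ _) hE)
    · rw [fromCols_apply_inr, hpT]
      exact (h2 w hw hi i j).trans (mul_le_mul_of_nonneg_right (le_max_right _ _) hE)

end Pool.Agent.RHB
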