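import Pool.Agent.RHB.Stmts

set_option autoImplicit false

open Matrix Complex Filter Topology MeasureTheory Set

namespace Pool.Agent.RHB

namespace TWO_

/-- sum of the absolute values of the entries -/
noncomputable def nm {m n : Type*} [Fintype m] [Fintype n] (A : Matrix m n ℂ) : ℝ :=
  ∑ i, ∑ j, ‖A i j‖

lemma le_nm {m n : Type*} [Fintype m] [Fintype n] (A : Matrix m n ℂ) (i : m) (j : n) :
    ‖A i j‖ ≤ nm A := by
  unfold nm
  calc ‖A i j‖ ≤ ∑ j, ‖A i j‖ :=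
        Finset.single_le_sum (f := fun j => ‖A i j‖) (fun _ _ => norm_nonneg _) (Finset.mem_univ j)
    _ ≤ ∑ i, ∑ j, ‖A i j‖ :=
        Finset.single_le_sum (f := fun i => ∑ j, ‖A i j‖)
          (fun _ _ => Finset.sum_nonneg fun _ _ => norm_nonneg _) (Finset.mem_univ i)

lemma nm_cont {m n : Type*} [Fintype m] [Fintype n] :
    Continuous (nm : Matrix m n ℂ → ℝ) := by
  unfold nm
  refine continuous_finsetSum _ fun i _ => continuous_finsetSum _ fun j _ => ?_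
  exact (continuous_id.matrix_elem i j).norm

lemma nm_zero {m n : Type*} [Fintype m] [Fintype n] : nm (0 : Matrix m n ℂ) = 0 := by
  simp [nm]

/-- if `V * B` is bounded by `c` and `B` is close to `1` then `V` is bounded by `2 c` -/
lemma bound (V B : Matrix (Fin 6) (Fin 6) ℂ) (c : ℝ) (h1 : ∀ i j, ‖(V * B) i j‖ ≤ c)
    (h2 : ∀ i j, ‖((1 : Matrix (Fin 6) (Fin 6) ℂ) - B) i j‖ ≤ 1 / 12) (i j : Fin 6) :
    ‖V i j‖ ≤ 2 * c := by
  obtain ⟨p, hp⟩ := Finite.exists_max (fun p : Fin 6 × Fin 6 => ‖V p.1 p.2‖)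
  have key : ‖V p.1 p.2‖ ≤ c + 6 * (‖V p.1 p.2‖ * (1 / 12)) := by
    have e : V = V * B + V * (1 - B) := by
      rw [Matrix.mul_sub, Matrix.mul_one]; abel
    have e2 : V p.1 p.2 = (V * B) p.1 p.2 + ∑ k, V p.1 k * ((1 : Matrix (Fin 6) (Fin 6) ℂ) - B) k p.2 := by
      conv_lhs => rw [e]
      rw [Matrix.add_apply]
      congr 1
    calc ‖V p.1 p.2‖ = ‖(V * B) p.1 p.2 + ∑ k, V p.1 k * ((1 : Matrix (Fin 6) (Fin 6) ℂ) - B) k p.2‖ := by
          rw [← e2]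
      _ ≤ ‖(V * B) p.1 p.2‖ + ‖∑ k, V p.1 k * ((1 : Matrix (Fin 6) (Fin 6) ℂ) - B) k p.2‖ := norm_add_le _ _
      _ ≤ c + ∑ _k : Fin 6, ‖V p.1 p.2‖ * (1 / 12) := by
          refine add_le_add (h1 _ _) (norm_sum_le_of_le _ fun k _ => ?_)
          rw [norm_mul]
          exact mul_le_mul (hp (p.1, k)) (h2 _ _) (norm_nonneg _) (norm_nonneg _)
      _ = _ := by simp
  have := hp (i, j)
  simp only at this
  linarith

lemma alg1 (Y : Matrix (Fin 6) (Fin 4 ⊕ Fin 2) ℂ) (N : Matrix (Fin 4 ⊕ Fin 2) (Fin 4 ⊕ Fin 2) ℂ)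
    (Z : Matrix (Fin 4 ⊕ Fin 2) (Fin 6) ℂ) (c : ℂ) :
    Y * (1 - c • N) * Z = Y * Z - c • (Y * N * Z) := by
  rw [Matrix.mul_sub, Matrix.mul_one, Matrix.sub_mul, Matrix.mul_smul, Matrix.smul_mul]

/-- growth of the quotient in one sector -/
lemma sec (V : ℂ → Matrix (Fin 6) (Fin 6) ℂ) (Y Y' : ℂ → Matrix (Fin 6) (Fin 4 ⊕ Fin 2) ℂ) (s : ℂ)
    (θ ε : ℝ) (hε : 0 < ε) (Y₀ Y₀' : Matrix (Fin 6) (Fin 4 ⊕ Fin 2) ℂ)
    (Z₀ : Matrix (Fin 4 ⊕ Fin 2) (Fin 6) ℂ) (h1 : Y₀ * Z₀ = 1)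
    (hY : Tendsto Y (𝓝[sector θ ε] 0) (𝓝 Y₀)) (hY' : Tendsto Y' (𝓝[sector θ ε] 0) (𝓝 Y₀'))
    (hV : ∀ w : ℂ, |w.im - θ| < Real.pi / 2 + ε → V (exp (-w)) * Y (exp w) =
      Y' (exp w) * fromBlocks 1 0 0 (1 - (s * exp (-w)) • hZ)) :
    ∃ C R : ℝ, 1 ≤ R ∧ 0 ≤ C ∧ ∀ w : ℂ, |w.im - θ| ≤ Real.pi / 2 → R ≤ ‖exp (-w)‖ →
      ∀ i j, ‖V (exp (-w)) i j‖ ≤ C * ‖exp (-w)‖ := by
  set N : Matrix (Fin 4 ⊕ Fin 2) (Fin 4 ⊕ Fin 2) ℂ := fromBlocks 0 0 0 hZ with hN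
  have hD : ∀ w : ℂ, (fromBlocks 1 0 0 (1 - (s * exp (-w)) • hZ) :
      Matrix (Fin 4 ⊕ Fin 2) (Fin 4 ⊕ Fin 2) ℂ) = 1 - (s * exp (-w)) • N := by
    intro w
    ext i j
    rcases i with i | i <;> rcases j with j | j <;>
      simp [hN, Matrix.one_apply, Matrix.sub_apply, Matrix.smul_apply]
  have t1 : Tendsto (fun z => nm ((1 : Matrix (Fin 6) (Fin 6) ℂ) - Y z * Z₀)) (𝓝[sector θ ε] 0) (𝓝 0) := by
    have c : Continuous fun A : Matrix (Fin 6) (Fin 4 ⊕ Fin 2) ℂ =>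
        nm ((1 : Matrix (Fin 6) (Fin 6) ℂ) - A * Z₀) :=
      nm_cont.comp (continuous_const.sub (continuous_id.matrix_mul continuous_const))
    have := (c.tendsto Y₀).comp hY
    simpa [h1, nm_zero, Function.comp_def] using this
  have t2 : Tendsto (fun z => nm (Y' z * Z₀)) (𝓝[sector θ ε] 0) (𝓝 (nm (Y₀' * Z₀))) := by
    have c : Continuous fun A : Matrix (Fin 6) (Fin 4 ⊕ Fin 2) ℂ => nm (A * Z₀) :=
      nm_cont.comp (continuous_id.matrix_mul continuous_const)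
    exact (c.tendsto Y₀').comp hY'
  have t3 : Tendsto (fun z => nm (Y' z * N * Z₀)) (𝓝[sector θ ε] 0) (𝓝 (nm (Y₀' * N * Z₀))) := by
    have c : Continuous fun A : Matrix (Fin 6) (Fin 4 ⊕ Fin 2) ℂ => nm (A * N * Z₀) :=
      nm_cont.comp ((continuous_id.matrix_mul continuous_const).matrix_mul continuous_const)
    exact (c.tendsto Y₀').comp hY'
  have ev := (t1.eventually (Iio_mem_nhds (show (0 : ℝ) < 1 / 12 by norm_num))).and
    ((t2.eventually (Iio_mem_nhds (lt_add_one (nm (Y₀' * Z₀))))).and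
      (t3.eventually (Iio_mem_nhds (lt_add_one (nm (Y₀' * N * Z₀))))))
  obtain ⟨δ, hδ, hev⟩ := Metric.mem_nhdsWithin_iff.1 ev
  refine ⟨2 * (nm (Y₀' * Z₀) + 1 + ‖s‖ * (nm (Y₀' * N * Z₀) + 1)), max 1 (2 / δ), le_max_left _ _, ?_, ?_⟩
  · have a1 : 0 ≤ nm (Y₀' * Z₀) := (norm_nonneg _).trans (le_nm (Y₀' * Z₀) 0 0)
    have a2 : 0 ≤ nm (Y₀' * N * Z₀) := (norm_nonneg _).trans (le_nm (Y₀' * N * Z₀) 0 0)
    positivity
  intro w hw hR i j
  have hx1 : 1 ≤ ‖exp (-w)‖ := (le_max_left _ _).trans hR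
  have hx2 : 2 / δ ≤ ‖exp (-w)‖ := (le_max_right _ _).trans hR
  have hwε : |w.im - θ| < Real.pi / 2 + ε := by linarith
  have hz : ‖exp w‖ < δ := by
    have e : ‖exp (-w)‖ = ‖exp w‖⁻¹ := by rw [Complex.exp_neg, norm_inv]
    have p : 0 < ‖exp w‖ := norm_pos_iff.2 (Complex.exp_ne_zero w)
    rw [e, div_le_iff₀ hδ, inv_mul_eq_div, le_div_iff₀ p] at hx2
    linarith
  obtain ⟨b1, b2, b3⟩ := hev ⟨by simpa using hz, w, rfl, hwε⟩
  replace b1 : nm ((1 : Matrix (Fin 6) (Fin 6) ℂ) - Y (exp w) * Z₀) < 1 / 12 := b1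
  replace b2 : nm (Y' (exp w) * Z₀) < nm (Y₀' * Z₀) + 1 := b2
  replace b3 : nm (Y' (exp w) * N * Z₀) < nm (Y₀' * N * Z₀) + 1 := b3
  have key : ∀ i j, ‖(V (exp (-w)) * (Y (exp w) * Z₀)) i j‖ ≤
      (nm (Y₀' * Z₀) + 1 + ‖s‖ * (nm (Y₀' * N * Z₀) + 1)) * ‖exp (-w)‖ := by
    intro i j
    have e : V (exp (-w)) * (Y (exp w) * Z₀) =
        Y' (exp w) * Z₀ - (s * exp (-w)) • (Y' (exp w) * N * Z₀) := by
      calc V (exp (-w)) * (Y (exp w) * Z₀) = V (exp (-w)) * Y (exp w) * Z₀ :=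
            (Matrix.mul_assoc _ _ _).symm
        _ = Y' (exp w) * (1 - (s * exp (-w)) • N) * Z₀ := by
            rw [hV w hwε, hD]
            rfl
        _ = _ := alg1 _ _ _ _
    rw [e, Matrix.sub_apply, Matrix.smul_apply]
    refine (norm_sub_le _ _).trans ?_
    rw [smul_eq_mul, norm_mul, norm_mul]
    have c1 := (le_nm (Y' (exp w) * Z₀) i j).trans b2.le
    have c2 := (le_nm (Y' (exp w) * N * Z₀) i j).trans b3.le
    have a1 : 0 ≤ nm (Y₀' * Z₀) := (norm_nonneg _).trans (le_nm (Y₀' * Z₀) 0 0)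
    calc ‖(Y' (exp w) * Z₀) i j‖ + ‖s‖ * ‖exp (-w)‖ * ‖(Y' (exp w) * N * Z₀) i j‖
        ≤ (nm (Y₀' * Z₀) + 1) * ‖exp (-w)‖ + ‖s‖ * ‖exp (-w)‖ * (nm (Y₀' * N * Z₀) + 1) := by
          refine add_le_add (c1.trans ?_) (mul_le_mul_of_nonneg_left c2 (by positivity))
          nlinarith
      _ = _ := by ring
  have := bound (V (exp (-w))) (Y (exp w) * Z₀) _ key (fun i j => ((le_nm _ i j).trans b1.le)) i j
  linarith

/-- every `x ≠ 0` is `exp (-w)` with `w` in a prescribed strip of width `2 pi` -/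
lemma choose_w (φ : ℝ) (x : ℂ) (hx : x ≠ 0) : ∃ w : ℂ, exp (-w) = x ∧
    (|w.im - φ| ≤ Real.pi / 2 ∨ |w.im - (φ - Real.pi)| ≤ Real.pi / 2) := by
  have hp : (0 : ℝ) < 2 * Real.pi := Real.two_pi_pos
  set k := toIcoDiv hp (φ - 3 * Real.pi / 2) (-x.arg) with hk
  have hm := toIcoMod_mem_Ico hp (φ - 3 * Real.pi / 2) (-x.arg)
  have he : toIcoMod hp (φ - 3 * Real.pi / 2) (-x.arg) = -x.arg - k * (2 * Real.pi) := by
    rw [← self_sub_toIcoDiv_zsmul, zsmul_eq_mul]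
  rw [he] at hm
  refine ⟨-Complex.log x - k * (2 * Real.pi * I), ?_, ?_⟩
  · rw [show -(-Complex.log x - k * (2 * Real.pi * I)) = Complex.log x + k * (2 * Real.pi * I) by ring,
      Complex.exp_add, Complex.exp_log hx, Complex.exp_int_mul_two_pi_mul_I, mul_one]
  · have him : (-Complex.log x - k * (2 * Real.pi * I)).im = -x.arg - k * (2 * Real.pi) := by
      simp [Complex.log_im]
    rw [him]
    have h1 := hm.1
    have h2 := hm.2
    rcases le_total (φ - Real.pi / 2) (-x.arg - k * (2 * Real.pi)) with h | h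
    · left; rw [abs_le]; constructor <;> linarith
    · right; rw [abs_le]; constructor <;> linarith

lemma det_diff (M : ℂ → Matrix (Fin 6) (Fin 6) ℂ) (h : ∀ i j, Differentiable ℂ fun x => M x i j) :
    Differentiable ℂ fun x => (M x).det := by
  simp only [Matrix.det_apply']
  refine Differentiable.fun_sum fun σ _ => ?_
  refine (differentiable_const _).mul ?_
  exact Differentiable.fun_finsetProd fun i _ => h _ _

lemma adj_diff (M : ℂ → Matrix (Fin 6) (Fin 6) ℂ) (h : ∀ i j, Differentiable ℂ fun x => M x i j)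
    (i j : Fin 6) : Differentiable ℂ fun x => (M x).adjugate i j := by
  simp only [Matrix.adjugate_apply]
  refine det_diff _ fun a b => ?_
  by_cases hab : a = j
  · subst hab
    simp
  · simpa [Matrix.updateRow_ne hab] using h a b

lemma inv_diff (M : ℂ → Matrix (Fin 6) (Fin 6) ℂ) (h : ∀ i j, Differentiable ℂ fun x => M x i j)
    (hu : ∀ x, IsUnit (M x)) (i j : Fin 6) : Differentiable ℂ fun x => (M x)⁻¹ i j := by
  have hne : ∀ x, (M x).det ≠ 0 := fun x => ((Matrix.isUnit_iff_isUnit_det _).1 (hu x)).ne_zero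
  have e : (fun x => (M x)⁻¹ i j) = fun x => ((M x).det)⁻¹ * (M x).adjugate i j := by
    funext x
    rw [Matrix.inv_def, Ring.inverse_eq_inv', Matrix.smul_apply, smul_eq_mul]
  rw [e]
  exact ((det_diff M h).inv hne).mul (adj_diff M h i j)

/-- cancellation -/
lemma cancel (Y Y' : Matrix (Fin 6) (Fin 4 ⊕ Fin 2) ℂ) (P D S : Matrix (Fin 4 ⊕ Fin 2) (Fin 4 ⊕ Fin 2) ℂ)
    (Q : Matrix (Fin 6) (Fin 4 ⊕ Fin 2) ℂ) (Yi Yi' : Matrix (Fin 6) (Fin 6) ℂ)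
    (hP : IsUnit P) (hS : IsUnit S) (hYi : IsUnit Yi) (h1 : Y * P * S = Yi * Q)
    (h2 : Y' * (D * P) * S = Yi' * Q) : (Yi' * Yi⁻¹) * Y = Y' * D := by
  have hPS : IsUnit (P * S) := hP.mul hS
  have hdet : IsUnit (P * S).det := (Matrix.isUnit_iff_isUnit_det _).1 hPS
  have hdi : IsUnit Yi.det := (Matrix.isUnit_iff_isUnit_det _).1 hYi
  have e1 : (Yi' * Yi⁻¹) * Y * (P * S) = Y' * D * (P * S) := by
    have a1 : (Yi' * Yi⁻¹) * Y * (P * S) = Yi' * Yi⁻¹ * (Y * P * S) := by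
      simp only [Matrix.mul_assoc]
    have a2 : Y' * D * (P * S) = Y' * (D * P) * S := by simp only [Matrix.mul_assoc]
    rw [a1, a2, h1, h2, Matrix.mul_assoc Yi', ← Matrix.mul_assoc Yi⁻¹, Matrix.nonsing_inv_mul _ hdi,
      Matrix.one_mul]
  have e2 := congrArg (fun M => M * (P * S)⁻¹) e1
  simp only [Matrix.mul_assoc _ (P * S) (P * S)⁻¹, Matrix.mul_nonsing_inv _ hdet, Matrix.mul_one] at e2
  exact e2

lemma hZ_sq : hZ * hZ = 0 := by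
  ext i j
  fin_cases i <;> fin_cases j <;> simp [hZ, Matrix.mul_apply]

end TWO_

open TWO_ in
/-- uses AFF CNT INV SMI LDB LIN -/
theorem two_proof (hAFF : Stmt_AFF) (hCNT : Stmt_CNT) (hINV : Stmt_INV) (hSMI : Stmt_SMI)
    (_hLDB : Stmt_LDB) (hLIN : Stmt_LIN) : Stmt_TWO := by
  intro d L u₀ s φ ε Yinf Yinf' Yp Ym Yp' Ym' hε hL h h'
  have hcnt := hCNT d L ![u₀, 0] φ ε Yinf Yp Ym hε hL h
  have hcnt' := hCNT d L ![u₀, s] φ ε Yinf' Yp' Ym' hε hL h'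
  obtain ⟨⟨hd, hu, h0⟩, -, -, ⟨Y₀, Z₀, hYZ, -, hYp, hYm⟩, hI, -, -⟩ := h
  obtain ⟨⟨hd', hu', h0'⟩, -, -, ⟨Y₀', Z₀', -, -, hYp', hYm'⟩, hI', -, -⟩ := h'
  set V : ℂ → Matrix (Fin 6) (Fin 6) ℂ := fun x => Yinf' x * (Yinf x)⁻¹ with hVdef
  -- the gauge factor
  set D : ℂ → Matrix (Fin 4 ⊕ Fin 2) (Fin 4 ⊕ Fin 2) ℂ :=
    fun w => fromBlocks 1 0 0 (1 - (s * exp (-w)) • hZ) with hDdef
  have hPsi : ∀ w, Psi L ![u₀, s] w = D w * Psi L ![u₀, 0] w := by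
    intro w
    simp only [Psi, hDdef, fromBlocks_multiply]
    congr 1
    · simp
    · simp
    · simp
    · simp [Matrix.mul_smul, Matrix.smul_mul, Matrix.sub_mul, Matrix.mul_sub, smul_sub]
  have hPu : ∀ w, IsUnit (Psi L ![u₀, 0] w) := by
    intro w
    unfold Psi
    rw [isUnit_fromBlocks_zero₂₁]
    constructor
    · refine IsUnit.mul ?_ (hINV.1 w).1
      rw [hL (exp w) (Complex.exp_ne_zero w)]
      exact IsUnit.of_mul_eq_one _ (hLIN _)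
    · refine IsUnit.mul ?_ (hINV.1 w).2
      exact IsUnit.of_mul_eq_one _ ((hINV.2.1 ![u₀, 0] w).1)
  have hSu : IsUnit (fromBlocks 1 0 (res d) 1 : Matrix (Fin 4 ⊕ Fin 2) (Fin 4 ⊕ Fin 2) ℂ) := by
    rw [isUnit_fromBlocks_zero₁₂]
    exact ⟨isUnit_one, isUnit_one⟩
  have hVp : ∀ w : ℂ, |w.im - φ| < Real.pi / 2 + ε → V (exp (-w)) * Yp (exp w) =
      Yp' (exp w) * fromBlocks 1 0 0 (1 - (s * exp (-w)) • hZ) := by
    intro w hw
    refine cancel (Yp (exp w)) (Yp' (exp w)) (Psi L ![u₀, 0] w) (D w) 1 (psiT d w * ch d)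
      (Yinf (exp (-w))) (Yinf' (exp (-w))) (hPu w) isUnit_one (hu _) ?_ ?_
    · rw [Matrix.mul_one]; exact hI w hw
    · rw [Matrix.mul_one, ← hPsi]; exact hI' w hw
  have hVm : ∀ w : ℂ, |w.im - (φ - Real.pi)| < Real.pi / 2 + ε → V (exp (-w)) * Ym (exp w) =
      Ym' (exp w) * fromBlocks 1 0 0 (1 - (s * exp (-w)) • hZ) := by
    intro w hw
    refine cancel (Ym (exp w)) (Ym' (exp w)) (Psi L ![u₀, 0] w) (D w) (fromBlocks 1 0 (res d) 1)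
      (psiT d w * ch d) (Yinf (exp (-w))) (Yinf' (exp (-w))) (hPu w) hSu (hu _) ?_ ?_
    · rw [← (hSMI d).1, ← hcnt w hw]; simp only [Matrix.mul_assoc]
    · rw [← hPsi, ← (hSMI d).1, ← hcnt' w hw]; simp only [Matrix.mul_assoc]
  obtain ⟨C1, R1, hR1, hC1, hb1⟩ := sec V Yp Yp' s φ ε hε Y₀ Y₀' Z₀ hYZ hYp hYp' hVp
  obtain ⟨C2, R2, hR2, hC2, hb2⟩ := sec V Ym Ym' s (φ - Real.pi) ε hε Y₀ Y₀' Z₀ hYZ hYm hYm' hVm
  have hVd : ∀ i j, Differentiable ℂ fun x => V x i j := by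
    intro i j
    simp only [hVdef, Matrix.mul_apply]
    exact Differentiable.fun_sum fun k _ => (hd' i k).mul (inv_diff Yinf hd hu k j)
  have hVb : ∀ i j, ∃ C R : ℝ, ∀ x : ℂ, R ≤ ‖x‖ → ‖V x i j‖ ≤ C * ‖x‖ := by
    intro i j
    refine ⟨max C1 C2, max R1 R2, fun x hx => ?_⟩
    have hx1 : R1 ≤ ‖x‖ := (le_max_left _ _).trans hx
    have hx2 : R2 ≤ ‖x‖ := (le_max_right _ _).trans hx
    have hx0 : x ≠ 0 := by
      intro h0
      rw [h0, norm_zero] at hx1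
      linarith
    obtain ⟨w, rfl, hw | hw⟩ := choose_w φ x hx0
    · exact (hb1 w hw hx1 i j).trans (mul_le_mul_of_nonneg_right (le_max_left _ _) (norm_nonneg _))
    · exact (hb2 w hw hx2 i j).trans (mul_le_mul_of_nonneg_right (le_max_right _ _) (norm_nonneg _))
  choose A hA using fun i j => hAFF (fun x => V x i j) (hVd i j) (hVb i j)
  refine ⟨Matrix.of A, fun w hw => ?_⟩
  have hV0 : V 0 = 1 := by
    simp only [hVdef, h0, h0']
    simp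
  have hVx : ∀ x, V x = 1 + x • Matrix.of A := by
    intro x
    ext i j
    rw [hA i j x, hV0]
    simp [mul_comm]
  have e : (1 - (s * exp (-w)) • hZ) * (1 + (s * exp (-w)) • hZ) = (1 : Matrix (Fin 2) (Fin 2) ℂ) := by
    rw [Matrix.sub_mul, Matrix.mul_add, Matrix.mul_add]
    simp [Matrix.mul_smul, Matrix.smul_mul, hZ_sq]
  have e3 : (fromBlocks 1 0 0 (1 - (s * exp (-w)) • hZ) :
      Matrix (Fin 4 ⊕ Fin 2) (Fin 4 ⊕ Fin 2) ℂ) * fromBlocks 1 0 0 (1 + (s * exp (-w)) • hZ) = 1 := by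
    rw [fromBlocks_multiply]
    simp [e]
  calc Yp' (exp w) = Yp' (exp w) * 1 := (Matrix.mul_one _).symm
    _ = Yp' (exp w) * ((fromBlocks 1 0 0 (1 - (s * exp (-w)) • hZ) :
      Matrix (Fin 4 ⊕ Fin 2) (Fin 4 ⊕ Fin 2) ℂ) * fromBlocks 1 0 0 (1 + (s * exp (-w)) • hZ)) := by
        rw [e3]
    _ = Yp' (exp w) * (fromBlocks 1 0 0 (1 - (s * exp (-w)) • hZ) :
      Matrix (Fin 4 ⊕ Fin 2) (Fin 4 ⊕ Fin 2) ℂ) * fromBlocks 1 0 0 (1 + (s * exp (-w)) • hZ) :=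
        (Matrix.mul_assoc _ _ _).symm
    _ = V (exp (-w)) * Yp (exp w) * fromBlocks 1 0 0 (1 + (s * exp (-w)) • hZ) :=
        congrArg (fun M : Matrix (Fin 6) (Fin 4 ⊕ Fin 2) ℂ => M * (fromBlocks 1 0 0
          (1 + (s * exp (-w)) • hZ) : Matrix (Fin 4 ⊕ Fin 2) (Fin 4 ⊕ Fin 2) ℂ)) (hVp w hw).symm
    _ = _ := by rw [hVx]

end Pool.Agent.RHB
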