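import Pool.Agent.RHB.GRM
import Pool.Agent.RHB.SER
import Pool.Agent.RHB.SMI
import Pool.Agent.RHB.MON
import Pool.Agent.RHB.KER
import Pool.Agent.RHB.INV
import Pool.Agent.RHB.TRB
import Pool.Agent.RHB.QRE
import Pool.Agent.RHB.QBD
import Pool.Agent.RHB.LEX
import Pool.Agent.RHB.LUN
import Pool.Agent.RHB.LIN
import Pool.Agent.RHB.LDB
import Pool.Agent.RHB.GBD
import Pool.Agent.RHB.JMP
import Pool.Agent.RHB.CNT
import Pool.Agent.RHB.GRO
import Pool.Agent.RHB.CA1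
import Pool.Agent.RHB.CA2
import Pool.Agent.RHB.CAU
import Pool.Agent.RHB.BCT
import Pool.Agent.RHB.SYY
import Pool.Agent.RHB.SYM
import Pool.Agent.RHB.EBD
import Pool.Agent.RHB.EAS
import Pool.Agent.RHB.LIM
import Pool.Agent.RHB.AFF
import Pool.Agent.RHB.TWO
import Pool.Agent.RHB.ALG
import Pool.Agent.RHB.MNO
import Pool.Agent.RHB.ADM
import Pool.Agent.RHB.TOP

set_option autoImplicit false

namespace Pool.Agent.RHB

theorem GRM_ : Stmt_GRM := grm_proof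
theorem SER_ : Stmt_SER := ser_proof
theorem SMI_ : Stmt_SMI := smi_proof GRM_ SER_
theorem MON_ : Stmt_MON := mon_proof
theorem KER_ : Stmt_KER := ker_proof
theorem INV_ : Stmt_INV := inv_proof
theorem TRB_ : Stmt_TRB := trb_proof
theorem QRE_ : Stmt_QRE := qre_proof
theorem QBD_ : Stmt_QBD := qbd_proof
theorem LEX_ : Stmt_LEX := lex_proof QRE_ QBD_
theorem LUN_ : Stmt_LUN := lun_proof
theorem LIN_ : Stmt_LIN := lin_proof QRE_ QBD_
theorem LDB_ : Stmt_LDB := ldb_proof QBD_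
theorem GBD_ : Stmt_GBD := gbd_proof LIN_ LDB_
theorem JMP_ : Stmt_JMP := jmp_proof SMI_ MON_ KER_ INV_ LIN_
theorem CNT_ : Stmt_CNT := cnt_proof LDB_ INV_
theorem GRO_ : Stmt_GRO := gro_proof CNT_ TRB_ INV_ SMI_ KER_ LDB_ LIN_
theorem CA1_ : Stmt_CA1 := ca1_proof
theorem CA2_ : Stmt_CA2 := ca2_proof CA1_
theorem CAU_ : Stmt_CAU := cau_proof CA2_
theorem BCT_ : Stmt_BCT := bct_proof GRO_
theorem SYY_ : Stmt_SYY := syy_proof CAU_ JMP_ GRO_ BCT_ LDB_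
theorem SYM_ : Stmt_SYM := sym_proof CAU_ JMP_ GRO_ BCT_ LDB_
theorem EBD_ : Stmt_EBD := ebd_proof LDB_
theorem EAS_ : Stmt_EAS := eas_proof EBD_ LDB_ GBD_
theorem LIM_ : Stmt_LIM := lim_proof LDB_
theorem AFF_ : Stmt_AFF := aff_proof
theorem TWO_ : Stmt_TWO := two_proof AFF_ CNT_ INV_ SMI_ LDB_ LIN_
theorem ALG_ : Stmt_ALG := alg_proof
theorem MNO_ : Stmt_MNO := mno_proof
theorem ADM_ : Stmt_ADM := adm_proof
theorem TOP_ : Stmt_TOP :=
  top_proof LEX_ LUN_ SYY_ SYM_ BCT_ EAS_ LIM_ TWO_ ALG_ MNO_ ADM_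

end Pool.Agent.RHB
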