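import Pool.Agent.RHB.Defs

set_option autoImplicit false

open Matrix Complex Filter Topology MeasureTheory Set

namespace Pool.Agent.RHB

/-- abbreviation for the Euler-Mascheroni constant -/
noncomputable def γ : ℂ := (Real.eulerMascheroniConstant : ℂ)

/-- restriction `K(P^3) → K(Z)` -/
def res (d : ℂ) : Matrix (Fin 2) (Fin 4) ℂ := !![1, 0, 0, 0; 0, d, 0, 0]

/-- Gysin map `K(Z) → K(P^3)` -/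
def gys (d : ℂ) : Matrix (Fin 4) (Fin 2) ℂ := !![0, 0; 0, 0; d, 0; -(2 * d), 1]

/-- kernel for the jump of the Z-columns -/
noncomputable def Aplus (d w : ℂ) : Matrix (Fin 4) (Fin 2) ℂ :=
  (-(2 * Real.pi) * exp (-w)) •
    !![0, 0; 0, 0; d, 0; d * (exp (-w) * (4 * w - 4 * γ - 4 * Real.pi * I)), 1]

/-- kernel for the jump of the X-columns -/
noncomputable def Aminus (d w : ℂ) : Matrix (Fin 2) (Fin 4) ℂ :=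
  (2 * Real.pi * exp (-w)) • !![1, 0, 0, 0; d * (exp (-w) * (4 * γ - 4 * w)), d, 0, 0]

/-- `exp (-rho / z)` on `H(Z)` -/
noncomputable def eZ (ρ : Fin 2 → ℂ) (w : ℂ) : Matrix (Fin 2) (Fin 2) ℂ :=
  exp (-(ρ 0 * exp (-w))) • (1 - (ρ 1 * exp (-w)) • hZ)

/-- inverse of `eZ` -/
noncomputable def eZi (ρ : Fin 2 → ℂ) (w : ℂ) : Matrix (Fin 2) (Fin 2) ℂ :=
  exp (ρ 0 * exp (-w)) • (1 + (ρ 1 * exp (-w)) • hZ)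

/-! ### topology of the blow-up (finite matrices) -/

def Stmt_GRM : Prop := ∀ d : ℂ, gram d = fromBlocks chiX ((res d)ᵀ * chiZ) 0 chiZ

def Stmt_SER : Prop :=
  (∀ d : ℂ, (res d)ᵀ * chiZ = chiX * gys d) ∧ chiX = -(chiXᵀ * nexp (4 • hX)) ∧
    chiZ = -chiZᵀ ∧ IsUnit chiX ∧ IsUnit chiZ

/-- uses GRM SER -/
def Stmt_SMI : Prop := ∀ d : ℂ,
  gram0ᵀ⁻¹ * (gram d)ᵀ = fromBlocks 1 0 (res d) 1 ∧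
  gram0ᵀ⁻¹ * gram d = fromBlocks (-nexp (4 • hX)) (-(nexp (4 • hX) * gys d)) 0 (-1)

def Stmt_MON : Prop := ∀ w : ℂ,
  psiX (w - 2 * Real.pi * I) * nexp (4 • hX) = -psiX w ∧ psiZ (w - 2 * Real.pi * I) = -psiZ w

def Stmt_KER : Prop := ∀ d w : ℂ,
  psiX w * gys d = Aplus d w * psiZ w ∧ psiZ w * res d = Aminus d w * psiX w

def Stmt_INV : Prop :=
  (∀ w : ℂ, IsUnit (psiX w) ∧ IsUnit (psiZ w)) ∧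
  (∀ (ρ : Fin 2 → ℂ) (w : ℂ), eZ ρ w * eZi ρ w = 1 ∧ eZi ρ w * eZ ρ w = 1) ∧
  (∀ i j, Differentiable ℂ fun w => psiX w i j) ∧ (∀ i j, Differentiable ℂ fun w => psiZ w i j) ∧
  (∀ d : ℂ, ∀ i j, Differentiable ℂ fun w => psiT d w i j)

/-- growth of `Psi_infty` of the blow-up relative to those of `P^3` and `Z` (gradings) -/
def Stmt_TRB : Prop := ∀ d : ℂ, ∃ Bm : ℂ → Matrix (Fin 6) (Fin 4 ⊕ Fin 2) ℂ,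
  (∀ w, psiT d w * ch d = Bm w * fromBlocks (psiX w) 0 0 (psiZ w)) ∧
  ∀ h : ℝ, ∃ C : ℝ, ∀ w : ℂ, 0 ≤ w.re → |w.im| ≤ h → ∀ i j,
    ‖Bm w i j‖ ≤ C * Real.exp (w.re / 2)

/-! ### the fundamental solution of `P^3` -/

/-- `(k + H)^(-4)` -/
noncomputable def Bk (k : ℕ) : Matrix (Fin 4) (Fin 4) ℂ :=
  ((k : ℂ) ^ 4)⁻¹ • (1 : Matrix (Fin 4) (Fin 4) ℂ) - (4 * ((k : ℂ) ^ 5)⁻¹) • hX
    + (10 * ((k : ℂ) ^ 6)⁻¹) • hX ^ 2 - (20 * ((k : ℂ) ^ 7)⁻¹) • hX ^ 3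

/-- `prod_{k ≤ d} (k + H)^(-4)` -/
noncomputable def Rk : ℕ → Matrix (Fin 4) (Fin 4) ℂ
  | 0 => 1
  | d + 1 => Bk (d + 1) * Rk d

/-- coefficient matrices: column `j` is `(d + H)^j prod_{k ≤ d} (k + H)^(-4)` -/
noncomputable def Qd (d : ℕ) : Matrix (Fin 4) (Fin 4) ℂ :=
  Matrix.of fun (i j : Fin 4) => (((d : ℂ) • (1 : Matrix (Fin 4) (Fin 4) ℂ) + hX) ^ (j : ℕ) * Rk d) i 0

/-- `L(t H, z)` -/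
noncomputable def Lfun (t z : ℂ) : Matrix (Fin 4) (Fin 4) ℂ :=
  (Matrix.of fun (i j : Fin 4) => ∑' d : ℕ, exp (d * t) * (-z⁻¹) ^ (4 * d + (i : ℕ) - (j : ℕ)) *
    Qd d (Fin.rev j) (Fin.rev i)) * nexp (-(t / z) • hX)

/-- `L(0, 1/x)` -/
noncomputable def Lam (x : ℂ) : Matrix (Fin 4) (Fin 4) ℂ :=
  Matrix.of fun (i j : Fin 4) => ∑' d : ℕ, (-x) ^ (4 * d + (i : ℕ) - (j : ℕ)) * Qd d (Fin.rev j) (Fin.rev i)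

/-- inverse of `L(0, 1/x)` -/
noncomputable def Lami (x : ℂ) : Matrix (Fin 4) (Fin 4) ℂ :=
  Matrix.of fun (i j : Fin 4) => ∑' d : ℕ, x ^ (4 * d + (i : ℕ) - (j : ℕ)) * Qd d i j

/-- recursion for the coefficient matrices -/
def Stmt_QRE : Prop := Qd 0 = 1 ∧ ∀ d : ℕ,
  ((d + 1 : ℕ) : ℂ) • Qd (d + 1) + hX * Qd (d + 1) - Qd (d + 1) * hX =
    Qd d * !![0, 0, 0, 1; 0, 0, 0, 0; 0, 0, 0, 0; 0, 0, 0, 0]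

def Stmt_QBD : Prop := ∃ C : ℝ, 0 < C ∧ ∀ (d : ℕ) (i j : Fin 4),
  ‖Qd d i j‖ ≤ C ^ (d + 1) / (d.factorial : ℝ) ^ 4

/-- uses QRE QBD -/
def Stmt_LEX : Prop := IsFund Lfun

def Stmt_LUN : Prop := ∀ L L' : ℂ → ℂ → Matrix (Fin 4) (Fin 4) ℂ, IsFund L → IsFund L' →
  ∀ t z : ℂ, z ≠ 0 → L t z = L' t z

/-- uses QRE QBD -/
def Stmt_LIN : Prop := ∀ x : ℂ, Lam x * Lami x = 1

/-- uses QBD -/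
def Stmt_LDB : Prop :=
  (∀ i j, Differentiable ℂ fun x => Lam x i j) ∧ (∀ i j, Differentiable ℂ fun x => Lami x i j) ∧
  (∃ C : ℝ, 0 < C ∧ ∀ (x : ℂ) (i j : Fin 4), ‖Lam x i j‖ ≤ C * Real.exp (C * ‖x‖) ∧
    ‖Lami x i j‖ ≤ C * Real.exp (C * ‖x‖)) ∧
  (∃ C : ℝ, ∀ x : ℂ, ‖x‖ ≤ 1 → ‖Lam x 0 3 + x‖ ≤ C * ‖x‖ ^ 2)

/-- bounds for `Lami (i s') * Lam (- i s)` -/
def GB (C : ℝ) : Prop := ∀ s s' : ℝ, 0 < s → 0 < s' →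
  ‖(Lami (I * s') * Lam (-(I * s))) 1 3‖ ≤ C * (s + s') * Real.exp (C * (s + s')) ∧
  ‖(Lami (I * s') * Lam (-(I * s))) 0 3 - I * (s + s')‖ ≤ C * (s + s') ^ 2 * Real.exp (C * (s + s'))

/-- uses LIN LDB -/
def Stmt_GBD : Prop := ∃ C : ℝ, 0 < C ∧ GB C

/-! ### jump relations -/

/-- `L` at `t = 0` is `Lam (1 / z)`; consequence of LUN and LEX -/
def IsL (L : ℂ → ℂ → Matrix (Fin 4) (Fin 4) ℂ) : Prop := ∀ z : ℂ, z ≠ 0 → L 0 z = Lam z⁻¹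

/-- uses SMI MON KER INV LIN -/
def Stmt_JMP : Prop := ∀ (d : ℂ) (L : ℂ → ℂ → Matrix (Fin 4) (Fin 4) ℂ) (ρ : Fin 2 → ℂ) (φ ε : ℝ)
  (Yinf : ℂ → Matrix (Fin 6) (Fin 6) ℂ) (Yp Ym : ℂ → Matrix (Fin 6) (Fin 4 ⊕ Fin 2) ℂ),
  IsL L → RHSol d L ρ φ ε Yinf Yp Ym →
  (∀ w : ℂ, |w.im - (φ - Real.pi / 2)| < ε →
    (Ym (exp w)).toCols₂ = (Yp (exp w)).toCols₂ ∧
    (Yp (exp w)).toCols₁ = (Ym (exp w)).toCols₁ +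
      (Yp (exp w)).toCols₂ * (eZ ρ w * Aminus d w * Lami (exp (-w)))) ∧
  (∀ w : ℂ, |w.im - (φ + Real.pi / 2)| < ε →
    (Ym (exp w)).toCols₁ = (Yp (exp w)).toCols₁ ∧
    (Yp (exp w)).toCols₂ = (Ym (exp w)).toCols₂ +
      (Yp (exp w)).toCols₁ * (Lam (exp (-w)) * Aplus d w * eZi ρ w))

/-- continuation of the relation with `Yinf` to `-I`; uses LDB INV -/
def Stmt_CNT : Prop := ∀ (d : ℂ) (L : ℂ → ℂ → Matrix (Fin 4) (Fin 4) ℂ) (ρ : Fin 2 → ℂ) (φ ε : ℝ)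
  (Yinf : ℂ → Matrix (Fin 6) (Fin 6) ℂ) (Yp Ym : ℂ → Matrix (Fin 6) (Fin 4 ⊕ Fin 2) ℂ),
  0 < ε → IsL L → RHSol d L ρ φ ε Yinf Yp Ym →
  ∀ w : ℂ, |w.im - (φ - Real.pi)| < Real.pi / 2 + ε →
    Ym (exp w) * (Psi L ρ w * gram0ᵀ⁻¹) * (gram d)ᵀ = Yinf (exp (-w)) * (psiT d w * ch d)

/-- growth at `z = infinity`; uses CNT TRB INV SMI LDB LIN -/
def Stmt_GRO : Prop := ∀ (d : ℂ) (L : ℂ → ℂ → Matrix (Fin 4) (Fin 4) ℂ) (ρ : Fin 2 → ℂ) (φ ε : ℝ)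
  (Yinf : ℂ → Matrix (Fin 6) (Fin 6) ℂ) (Yp Ym : ℂ → Matrix (Fin 6) (Fin 4 ⊕ Fin 2) ℂ),
  0 < ε → IsL L → RHSol d L ρ φ ε Yinf Yp Ym →
  ∃ C : ℝ, ∀ w : ℂ, 0 ≤ w.re →
    (|w.im - φ| ≤ Real.pi / 2 → ∀ i j, ‖Yp (exp w) i j‖ ≤ C * Real.exp (w.re / 2)) ∧
    (|w.im - (φ - Real.pi)| ≤ Real.pi / 2 → ∀ i j, ‖Ym (exp w) i j‖ ≤ C * Real.exp (w.re / 2))

/-! ### Cauchy integrals -/

/-- Cauchy formula on the rectangle `[-T, T] x [-pi, pi]` for `G(v) e^v / (e^v - e^v0)` -/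
def Stmt_CA1 : Prop := ∀ (ε : ℝ) (G : ℂ → ℂ) (v₀ T : ℝ), 0 < ε → |v₀| < T →
  DifferentiableOn ℂ G {v | |v.im| < Real.pi + ε} →
  (∫ u in (-T)..T, (G (u - Real.pi * I) - G (u + Real.pi * I)) * (exp u / (exp u + exp v₀)))
    + I * (∫ y in (-Real.pi)..Real.pi, G (T + y * I) * (exp (T + y * I) / (exp (T + y * I) - exp v₀)))
    - I * (∫ y in (-Real.pi)..Real.pi,
        G (-T + y * I) * (exp (-T + y * I) / (exp (-T + y * I) - exp v₀)))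
    = 2 * Real.pi * I * G v₀

/-- uses CA1 -/
def Stmt_CA2 : Prop := ∀ (ε : ℝ) (G : ℂ → ℂ) (g : ℂ) (v₀ : ℝ), 0 < ε →
  DifferentiableOn ℂ G {v | |v.im| < Real.pi + ε} →
  (∀ η > 0, ∃ T : ℝ, ∀ v : ℂ, T ≤ v.re → |v.im| ≤ Real.pi → ‖G v - g‖ ≤ η) →
  (∀ η > 0, ∃ T : ℝ, ∀ v : ℂ, v.re ≤ T → |v.im| ≤ Real.pi → ‖G v‖ * Real.exp v.re ≤ η) →
  Tendsto (fun T : ℝ => ∫ u in (-T)..T,
    (G (u - Real.pi * I) - G (u + Real.pi * I)) * (exp u / (exp u + exp v₀))) atTop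
    (𝓝 (2 * Real.pi * I * (G v₀ - g)))

/-- final form with two overlapping pieces; uses CA2 -/
def Stmt_CAU : Prop := ∀ (ε : ℝ) (A B : ℂ → ℂ) (g : ℂ) (J : ℝ → ℂ), 0 < ε →
  DifferentiableOn ℂ A {v | -ε < v.im ∧ v.im < Real.pi + ε} →
  DifferentiableOn ℂ B {v | -Real.pi - ε < v.im ∧ v.im < ε} →
  (∀ v : ℂ, |v.im| < ε → A v = B v) →
  (∀ η > 0, ∃ T : ℝ, ∀ v : ℂ, T ≤ v.re →
    (0 ≤ v.im → v.im ≤ Real.pi → ‖A v - g‖ ≤ η) ∧ (-Real.pi ≤ v.im → v.im ≤ 0 → ‖B v - g‖ ≤ η)) →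
  (∀ η > 0, ∃ T : ℝ, ∀ v : ℂ, v.re ≤ T →
    (0 ≤ v.im → v.im ≤ Real.pi → ‖A v‖ * Real.exp v.re ≤ η) ∧
    (-Real.pi ≤ v.im → v.im ≤ 0 → ‖B v‖ * Real.exp v.re ≤ η)) →
  (∀ s : ℝ, 0 < s → J s = B (Real.log s - Real.pi * I) - A (Real.log s + Real.pi * I)) →
  ∀ s' : ℝ, 0 < s' → IntegrableOn (fun s : ℝ => J s / ((s : ℂ) + s')) (Ioi 0) →
  ∫ s in Ioi (0 : ℝ), J s / ((s : ℂ) + s') = 2 * Real.pi * I * (A (Real.log s') - g)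

/-! ### the scalar system of integral equations -/

/-- the function `q(s) = i s (4 log s + 4 gamma + 2 pi i)` -/
noncomputable def kq (s : ℝ) : ℂ := I * s * (4 * Real.log s + 4 * γ + 2 * Real.pi * I)

/-- kernel matrix -/
noncomputable def kp (d : ℂ) (s : ℝ) : Matrix (Fin 4) (Fin 2) ℂ := !![0, 0; 0, 0; d, 0; d * kq s, 1]

/-- kernel matrix -/
noncomputable def km (d : ℂ) (s : ℝ) : Matrix (Fin 2) (Fin 4) ℂ := !![1, 0, 0, 0; d * kq s, d, 0, 0]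

/-- `y s' = (alpha, theta)`, `P s` row vectors -/
def ESys (d : ℂ) (U : ℝ) (y : ℝ → Fin 2 → ℂ) (P : ℝ → Fin 4 → ℂ) : Prop :=
  (∃ B : ℝ, ∀ s : ℝ, 0 < s → (∀ j, ‖y s j‖ ≤ B * (1 + s ^ (-(1 / 2) : ℝ))) ∧
    ∀ j, ‖P s j‖ ≤ B * (1 + s ^ (-(1 / 2) : ℝ))) ∧
  (∀ j, ContinuousOn (fun s => y s j) (Ioi 0)) ∧ (∀ j, ContinuousOn (fun s => P s j) (Ioi 0)) ∧
  (∀ s' : ℝ, 0 < s' → ∀ j, y s' j = (if j = 0 then 1 else 0) +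
    ∫ s in Ioi (0 : ℝ), s * exp (-(U * s)) * (P s ᵥ* (Lam (-(I * s)) * kp d s)) j / ((s : ℂ) + s')) ∧
  (∀ s : ℝ, 0 < s → ∀ j, P s j =
    -∫ s' in Ioi (0 : ℝ), s' * exp (-(U * s')) * (y s' ᵥ* (km d s' * Lami (I * s'))) j / ((s : ℂ) + s'))

/-- the constant `c` -/
noncomputable def cc (U : ℝ) (P : ℝ → Fin 4 → ℂ) : ℂ :=
  I * ∫ s in Ioi (0 : ℝ), s * exp (-(U * s)) * (P s ᵥ* Lam (-(I * s))) 3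

/-- a priori bounds; uses LDB -/
def Stmt_EBD : Prop := ∀ d : ℂ, ∃ K U₀ : ℝ, 0 < K ∧ 0 < U₀ ∧ ∀ U : ℝ, U₀ ≤ U →
  ∀ (y : ℝ → Fin 2 → ℂ) (P : ℝ → Fin 4 → ℂ), ESys d U y P → ∀ s : ℝ, 0 < s →
    ‖y s 0 - 1‖ ≤ K / U ^ 2 ∧ ‖y s 1‖ ≤ K / U ^ 2 ∧ ∀ j, ‖P s j‖ ≤ K / U

/-- `c` is not zero for large `U`; uses EBD LDB GBD -/
def Stmt_EAS : Prop := ∀ d : ℂ, ∃ U₀ : ℝ, 0 < U₀ ∧ ∀ U : ℝ, U₀ ≤ U →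
  ∀ (y : ℝ → Fin 2 → ℂ) (P : ℝ → Fin 4 → ℂ), ESys d U y P → cc U P ≠ 0

/-- uses LDB -/
def Stmt_LIM : Prop := ∀ d : ℂ, ∃ U₀ : ℝ, 0 < U₀ ∧ ∀ U : ℝ, U₀ ≤ U →
  ∀ (y : ℝ → Fin 2 → ℂ) (P : ℝ → Fin 4 → ℂ), ESys d U y P →
    Tendsto (fun s' : ℝ => I * s' * y s' 1) atTop (𝓝 (cc U P))

/-! ### from a solution of (RH) to the scalar system -/

/-- a solution of (RH) at `rho = (-i U, 0)`, `phi = 0`, with its limit and the inverse of the limit -/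
def Sol0 (d : ℂ) (L : ℂ → ℂ → Matrix (Fin 4) (Fin 4) ℂ) (U ε : ℝ)
    (Yinf : ℂ → Matrix (Fin 6) (Fin 6) ℂ) (Yp Ym : ℂ → Matrix (Fin 6) (Fin 4 ⊕ Fin 2) ℂ)
    (Y₀ : Matrix (Fin 6) (Fin 4 ⊕ Fin 2) ℂ) (Z₀ : Matrix (Fin 4 ⊕ Fin 2) (Fin 6) ℂ) : Prop :=
  RHSol d L ![-(U * I), 0] 0 ε Yinf Yp Ym ∧ Y₀ * Z₀ = 1 ∧ Z₀ * Y₀ = 1 ∧
    Tendsto Yp (𝓝[sector 0 ε] 0) (𝓝 Y₀) ∧ Tendsto Ym (𝓝[sector (0 - Real.pi) ε] 0) (𝓝 Y₀)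

/-- the row vector function `y` on the negative imaginary axis `z = - i / s` -/
noncomputable def yv (Yp : ℂ → Matrix (Fin 6) (Fin 4 ⊕ Fin 2) ℂ)
    (Z₀ : Matrix (Fin 4 ⊕ Fin 2) (Fin 6) ℂ) (s : ℝ) (j : Fin 2) : ℂ :=
  (Z₀ * Yp (-(I / s))) (Sum.inr 0) (Sum.inr j)

/-- the row vector function `P` on the positive imaginary axis `z = i / s` -/
noncomputable def Pv (Yp : ℂ → Matrix (Fin 6) (Fin 4 ⊕ Fin 2) ℂ)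
    (Z₀ : Matrix (Fin 4 ⊕ Fin 2) (Fin 6) ℂ) (s : ℝ) (j : Fin 4) : ℂ :=
  (Z₀ * Yp (I / s)) (Sum.inr 0) (Sum.inl j)

/-- bounds and continuity of `yv`, `Pv`; uses GRO -/
def Stmt_BCT : Prop := ∀ (d : ℂ) (L : ℂ → ℂ → Matrix (Fin 4) (Fin 4) ℂ) (U ε : ℝ)
  (Yinf : ℂ → Matrix (Fin 6) (Fin 6) ℂ) (Yp Ym : ℂ → Matrix (Fin 6) (Fin 4 ⊕ Fin 2) ℂ)
  (Y₀ : Matrix (Fin 6) (Fin 4 ⊕ Fin 2) ℂ) (Z₀ : Matrix (Fin 4 ⊕ Fin 2) (Fin 6) ℂ),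
  0 < ε → IsL L → Sol0 d L U ε Yinf Yp Ym Y₀ Z₀ →
  (∃ B : ℝ, ∀ s : ℝ, 0 < s → (∀ j, ‖yv Yp Z₀ s j‖ ≤ B * (1 + s ^ (-(1 / 2) : ℝ))) ∧
    ∀ j, ‖Pv Yp Z₀ s j‖ ≤ B * (1 + s ^ (-(1 / 2) : ℝ))) ∧
  (∀ j, ContinuousOn (fun s => yv Yp Z₀ s j) (Ioi 0)) ∧
  (∀ j, ContinuousOn (fun s => Pv Yp Z₀ s j) (Ioi 0))

/-- the equations for `y`; uses CAU JMP GRO BCT LDB -/
def Stmt_SYY : Prop := ∀ d : ℂ, ∃ U₀ : ℝ, 0 < U₀ ∧ ∀ U : ℝ, U₀ ≤ U →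
  ∀ (L : ℂ → ℂ → Matrix (Fin 4) (Fin 4) ℂ) (ε : ℝ)
  (Yinf : ℂ → Matrix (Fin 6) (Fin 6) ℂ) (Yp Ym : ℂ → Matrix (Fin 6) (Fin 4 ⊕ Fin 2) ℂ)
  (Y₀ : Matrix (Fin 6) (Fin 4 ⊕ Fin 2) ℂ) (Z₀ : Matrix (Fin 4 ⊕ Fin 2) (Fin 6) ℂ),
  0 < ε → IsL L → Sol0 d L U ε Yinf Yp Ym Y₀ Z₀ →
  ∀ s' : ℝ, 0 < s' → ∀ j, yv Yp Z₀ s' j = (if j = 0 then 1 else 0) +
    ∫ s in Ioi (0 : ℝ), s * exp (-(U * s)) *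
      (Pv Yp Z₀ s ᵥ* (Lam (-(I * s)) * kp d s)) j / ((s : ℂ) + s')

/-- the equations for `P`; uses CAU JMP GRO BCT LDB -/
def Stmt_SYM : Prop := ∀ d : ℂ, ∃ U₀ : ℝ, 0 < U₀ ∧ ∀ U : ℝ, U₀ ≤ U →
  ∀ (L : ℂ → ℂ → Matrix (Fin 4) (Fin 4) ℂ) (ε : ℝ)
  (Yinf : ℂ → Matrix (Fin 6) (Fin 6) ℂ) (Yp Ym : ℂ → Matrix (Fin 6) (Fin 4 ⊕ Fin 2) ℂ)
  (Y₀ : Matrix (Fin 6) (Fin 4 ⊕ Fin 2) ℂ) (Z₀ : Matrix (Fin 4 ⊕ Fin 2) (Fin 6) ℂ),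
  0 < ε → IsL L → Sol0 d L U ε Yinf Yp Ym Y₀ Z₀ →
  ∀ s : ℝ, 0 < s → ∀ j, Pv Yp Z₀ s j =
    -∫ s' in Ioi (0 : ℝ), s' * exp (-(U * s')) *
      (yv Yp Z₀ s' ᵥ* (km d s' * Lami (I * s'))) j / ((s : ℂ) + s')

/-! ### comparison of two solutions -/

def Stmt_AFF : Prop := ∀ f : ℂ → ℂ, Differentiable ℂ f →
  (∃ C R : ℝ, ∀ x : ℂ, R ≤ ‖x‖ → ‖f x‖ ≤ C * ‖x‖) → ∃ a : ℂ, ∀ x, f x = f 0 + a * x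

/-- solutions at `(u0, 0)` and `(u0, s)` differ by `1 + A / z`; uses AFF CNT INV SMI LDB LIN -/
def Stmt_TWO : Prop := ∀ (d : ℂ) (L : ℂ → ℂ → Matrix (Fin 4) (Fin 4) ℂ) (u₀ s : ℂ) (φ ε : ℝ)
  (Yinf Yinf' : ℂ → Matrix (Fin 6) (Fin 6) ℂ)
  (Yp Ym Yp' Ym' : ℂ → Matrix (Fin 6) (Fin 4 ⊕ Fin 2) ℂ),
  0 < ε → IsL L → RHSol d L ![u₀, 0] φ ε Yinf Yp Ym → RHSol d L ![u₀, s] φ ε Yinf' Yp' Ym' →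
  ∃ A : Matrix (Fin 6) (Fin 6) ℂ, ∀ w : ℂ, |w.im - φ| < Real.pi / 2 + ε →
    Yp' (exp w) = (1 + exp (-w) • A) * Yp (exp w) * fromBlocks (1 : Matrix (Fin 4) (Fin 4) ℂ) 0 0 (1 + (s * exp (-w)) • hZ)

def Stmt_ALG : Prop := ∀ (A : Matrix (Fin 6) (Fin 6) ℂ) (s c : ℂ) (X : ℕ → ℂ)
  (Y Y' : ℕ → Matrix (Fin 6) (Fin 4 ⊕ Fin 2) ℂ) (Y₀ Y₀' : Matrix (Fin 6) (Fin 4 ⊕ Fin 2) ℂ)
  (Z₀ : Matrix (Fin 4 ⊕ Fin 2) (Fin 6) ℂ),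
  Y₀ * Z₀ = 1 → Z₀ * Y₀ = 1 → Tendsto (fun n => ‖X n‖) atTop atTop →
  Tendsto Y atTop (𝓝 Y₀) → Tendsto Y' atTop (𝓝 Y₀') →
  (∀ n, Y' n = (1 + X n • A) * Y n * fromBlocks (1 : Matrix (Fin 4) (Fin 4) ℂ) 0 0 (1 + (s * X n) • hZ)) →
  Tendsto (fun n => X n * (Z₀ * Y n) (Sum.inr 0) (Sum.inr 1)) atTop (𝓝 c) →
  s ≠ 0 → 1 + s * c ≠ 0

def Stmt_MNO : Prop := ∀ (d : ℂ) (L : ℂ → ℂ → Matrix (Fin 4) (Fin 4) ℂ) (ρ : Fin 2 → ℂ) (φ ε ε' : ℝ)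
  (Yinf : ℂ → Matrix (Fin 6) (Fin 6) ℂ) (Yp Ym : ℂ → Matrix (Fin 6) (Fin 4 ⊕ Fin 2) ℂ),
  0 < ε' → ε' ≤ ε → RHSol d L ρ φ ε Yinf Yp Ym → RHSol d L ρ φ ε' Yinf Yp Ym

def Stmt_ADM : Prop := ∀ (U R : ℝ) (s : ℂ), 4 < U → R + 4 ≤ U → Admissible ![-(U * I), s] 0 R

/-- the final statement; uses LEX LUN SYY SYM BCT EAS LIM TWO ALG MNO ADM -/
def Stmt_TOP : Prop := ∀ d : ℕ, 3 ≤ d →
  (∃ L, IsFund L) ∧ ∀ L, IsFund L → ∀ R : ℝ, ∃ (ρ : Fin 2 → ℂ) (φ : ℝ), Admissible ρ φ R ∧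
    ∀ ε : ℝ, 0 < ε → ε < Real.pi / 2 → ¬∃ Yinf Yp Ym, RHSol d L ρ φ ε Yinf Yp Ym

end Pool.Agent.RHB
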